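import Mathlib

set_option autoImplicit false

namespace Pool.Agent.Lib.MP_e26d5c_nt.AG

/-- the numbers `(A_n, B_n)`: `|phi^n(1)| = A_n/B_n` in lowest terms for `phi = ± K (x^2+1)/x` -/
def ab (K : ℕ) : ℕ → ℕ × ℕ
  | 0 => (1, 1)
  | n + 1 => (K * ((ab K n).1 ^ 2 + (ab K n).2 ^ 2) / Nat.gcd K ((ab K n).1 * (ab K n).2),
              (ab K n).1 * (ab K n).2 / Nat.gcd K ((ab K n).1 * (ab K n).2))

def A (K n : ℕ) : ℕ := (ab K n).1
def B (K n : ℕ) : ℕ := (ab K n).2
def C (K n : ℕ) : ℕ := A K n ^ 2 + B K n ^ 2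
def Gg (K n : ℕ) : ℕ := Nat.gcd K (A K n * B K n)

@[simp] theorem A_zero (K : ℕ) : A K 0 = 1 := rfl
@[simp] theorem B_zero (K : ℕ) : B K 0 = 1 := rfl
@[simp] theorem C_zero (K : ℕ) : C K 0 = 2 := rfl
@[simp] theorem Gg_zero (K : ℕ) : Gg K 0 = 1 := by simp [Gg]

theorem Gg_dvd (K n : ℕ) : Gg K n ∣ K := Nat.gcd_dvd_left _ _

theorem Gg_dvd_AB (K n : ℕ) : Gg K n ∣ A K n * B K n := Nat.gcd_dvd_right _ _

theorem A_succ (K n : ℕ) : A K (n + 1) * Gg K n = K * C K n := by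
  show K * ((ab K n).1 ^ 2 + (ab K n).2 ^ 2) / Nat.gcd K ((ab K n).1 * (ab K n).2) * _ = _
  exact Nat.div_mul_cancel (Dvd.dvd.mul_right (Nat.gcd_dvd_left _ _) _)

theorem B_succ (K n : ℕ) : B K (n + 1) * Gg K n = A K n * B K n := by
  show (ab K n).1 * (ab K n).2 / Nat.gcd K ((ab K n).1 * (ab K n).2) * _ = _
  exact Nat.div_mul_cancel (Nat.gcd_dvd_right _ _)

theorem A_one (K : ℕ) : A K 1 = 2 * K := by
  have h := A_succ K 0
  simp at h
  rw [h, mul_comm]

theorem B_one (K : ℕ) : B K 1 = 1 := by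
  have h := B_succ K 0
  simpa using h

theorem C_one (K : ℕ) : C K 1 = 4 * K ^ 2 + 1 := by
  simp only [C, A_one, B_one]
  ring

theorem Gg_pos {K : ℕ} (hK : 0 < K) (n : ℕ) : 0 < Gg K n :=
  Nat.pos_of_ne_zero (fun h => by
    have := Gg_dvd K n
    rw [h] at this
    have := Nat.eq_zero_of_zero_dvd this
    omega)

theorem AB_pos {K : ℕ} (hK : 0 < K) (n : ℕ) : 0 < A K n ∧ 0 < B K n := by
  induction n with
  | zero => exact ⟨Nat.one_pos, Nat.one_pos⟩
  | succ n ih =>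
    have hA := A_succ K n
    have hB := B_succ K n
    constructor
    · apply Nat.pos_of_ne_zero
      intro h
      rw [h, Nat.zero_mul] at hA
      have : 0 < K * C K n := Nat.mul_pos hK (by
        unfold C
        have := ih.1
        positivity)
      omega
    · apply Nat.pos_of_ne_zero
      intro h
      rw [h, Nat.zero_mul] at hB
      have : 0 < A K n * B K n := Nat.mul_pos ih.1 ih.2
      omega

theorem A_pos {K : ℕ} (hK : 0 < K) (n : ℕ) : 0 < A K n := (AB_pos hK n).1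
theorem B_pos {K : ℕ} (hK : 0 < K) (n : ℕ) : 0 < B K n := (AB_pos hK n).2
theorem C_pos {K : ℕ} (hK : 0 < K) (n : ℕ) : 0 < C K n := by
  have := A_pos hK n
  unfold C
  positivity

theorem coprime_C_AB_aux {a b : ℕ} (h : Nat.Coprime a b) : Nat.Coprime (a ^ 2 + b ^ 2) (a * b) := by
  apply Nat.Coprime.mul_right
  · have h1 : Nat.Coprime (b ^ 2) a := (h.symm.pow_left 2)
    have h2 : a ^ 2 + b ^ 2 = b ^ 2 + a * a := by ring
    rw [h2]
    exact (Nat.coprime_add_mul_right_left _ _ _).mpr h1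
  · have h1 : Nat.Coprime (a ^ 2) b := (h.pow_left 2)
    have h2 : a ^ 2 + b ^ 2 = a ^ 2 + b * b := by ring
    rw [h2]
    exact (Nat.coprime_add_mul_right_left _ _ _).mpr h1

/-- `A_n, B_n` are coprime -/
theorem coprime_AB {K : ℕ} (hK : 0 < K) (n : ℕ) : Nat.Coprime (A K n) (B K n) := by
  induction n with
  | zero => exact Nat.coprime_one_left 1
  | succ n ih =>
    have h1 : Nat.Coprime (C K n) (A K n * B K n) := coprime_C_AB_aux ih
    have hg : 0 < Nat.gcd (K * C K n) (A K n * B K n) :=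
      Nat.gcd_pos_of_pos_right _ (Nat.mul_pos (A_pos hK n) (B_pos hK n))
    have h2 : Nat.gcd (K * C K n) (A K n * B K n) = Gg K n := by
      unfold Gg
      exact Nat.Coprime.gcd_mul_right_cancel K h1
    have h3 := Nat.coprime_div_gcd_div_gcd hg
    rw [h2] at h3
    have h4 : A K (n + 1) = K * C K n / Gg K n := rfl
    have h5 : B K (n + 1) = A K n * B K n / Gg K n := rfl
    rw [h4, h5]
    exact h3

theorem coprime_C_AB {K : ℕ} (hK : 0 < K) (n : ℕ) : Nat.Coprime (C K n) (A K n * B K n) :=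
  coprime_C_AB_aux (coprime_AB hK n)

/-- `p` divides some `C_i` with `i ≥ 1` -/
def Bad (K p : ℕ) : Prop := ∃ i : ℕ, 1 ≤ i ∧ p ∣ C K i

/-- some prime not dividing `2K` divides `C_n` to an odd power -/
def Ram (K n : ℕ) : Prop := ∃ l : ℕ, l.Prime ∧ ¬ l ∣ 2 * K ∧ Odd (padicValNat l (C K n))

end Pool.Agent.Lib.MP_e26d5c_nt.AG
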