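import Mathlib

set_option autoImplicit false

namespace Pool.Agent.Lib.MP_e26d5c_nt.AG

/-- an algebraic closure of the rational numbers -/
abbrev Qb : Type := AlgebraicClosure ℚ

/-- `phi(y) = k (y^2+1)/y`, used at `y ≠ 0` only (on the projective line `0 ↦ ∞ ↦ ∞`) -/
noncomputable def phi (k : ℤ) (y : Qb) : Qb := (k : Qb) * (y ^ 2 + 1) / y

/-- level `n` of the preimage tree: the points of `phi^{-n}(0)`.  (`0` and `∞` are not in
`phi^{-n}(0)` for `n ≥ 1`, since `0 ↦ ∞ ↦ ∞`.) -/
def Lev (k : ℤ) : ℕ → Set Qb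
  | 0 => {0}
  | n + 1 => {y | y ≠ 0 ∧ phi k y ∈ Lev k n}

/-- families of permutations of the levels -/
abbrev Fam (k : ℤ) : Type := (n : ℕ) → Equiv.Perm (Lev k n)

/-- the parent of a vertex of level `n+1` -/
noncomputable def parent (k : ℤ) {n : ℕ} (y : Lev k (n + 1)) : Lev k n := ⟨phi k y, y.2.2⟩

/-- the automorphism group of the rooted tree `T(phi)` -/
def TreeAut (k : ℤ) : Subgroup (Fam k) where
  carrier := {s | ∀ (n : ℕ) (y : Lev k (n + 1)), parent k (s (n + 1) y) = s n (parent k y)}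
  mul_mem' := by
    intro a b ha hb n y
    have h1 := ha n (b (n + 1) y)
    have h2 := hb n y
    show parent k (a (n + 1) (b (n + 1) y)) = a n (b n (parent k y))
    rw [h1, h2]
  one_mem' := by
    intro n y
    rfl
  inv_mem' := by
    intro a ha n y
    have h1 := ha n ((a (n + 1))⁻¹ y)
    show parent k ((a (n + 1))⁻¹ y) = (a n)⁻¹ (parent k y)
    rw [Equiv.Perm.eq_inv_iff_eq]
    rw [← h1]
    simp

/-- the Moebius map `mu(x) = a x / (c x + d)` with `a, d ≠ 0` (these are the Moebius maps with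
`mu(0) = 0`) commutes with `phi` on the projective line: the points `mu(phi([X:Y]))` and
`phi(mu([X:Y]))` agree for all `X, Y` -/
def IsCent (k : ℤ) (a c d : Qb) : Prop :=
  a ≠ 0 ∧ d ≠ 0 ∧ ∀ X Y : Qb,
    (a * ((k : Qb) * (X ^ 2 + Y ^ 2))) * ((a * X) * (c * X + d * Y)) =
      (c * ((k : Qb) * (X ^ 2 + Y ^ 2)) + d * (X * Y)) *
        ((k : Qb) * ((a * X) ^ 2 + (c * X + d * Y) ^ 2))

/-- the permutations of the tree induced by the group `A(phi)` -/
def ASet (k : ℤ) : Set (Fam k) :=
  {t | ∃ a c d : Qb, IsCent k a c d ∧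
    ∀ (n : ℕ) (y : Lev k n), ((t n y : Lev k n) : Qb) * (c * y + d) = a * y}

/-- `C(phi)`: the centraliser of `A(phi)` in the automorphism group of the tree -/
def CentGroup (k : ℤ) : Subgroup (Fam k) := TreeAut k ⊓ Subgroup.centralizer (ASet k)

theorem map_mem_Lev (k : ℤ) (σ : Qb ≃ₐ[ℚ] Qb) (n : ℕ) :
    ∀ y : Qb, y ∈ Lev k n → σ y ∈ Lev k n := by
  induction n with
  | zero =>
    intro y hy
    have h : y = 0 := hy
    show σ y = 0
    rw [h, map_zero]
  | succ n ih =>
    intro y hy
    refine ⟨fun h => hy.1 ?_, ?_⟩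
    · simpa using h
    · have h1 := ih _ hy.2
      have h2 : phi k (σ y) = σ (phi k y) := by
        simp [phi]
      rw [h2]
      exact h1

/-- the action of one element of the Galois group on the levels -/
noncomputable def galPerm (k : ℤ) (σ : Qb ≃ₐ[ℚ] Qb) : Fam k := fun n =>
  { toFun := fun y => ⟨σ y, map_mem_Lev k σ n y y.2⟩
    invFun := fun y => ⟨σ.symm y, map_mem_Lev k σ.symm n y y.2⟩
    left_inv := by
      intro y
      apply Subtype.ext
      simp
    right_inv := by
      intro y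
      apply Subtype.ext
      simp }

/-- the action of the absolute Galois group of `ℚ` on the tree -/
noncomputable def galHom (k : ℤ) : (Qb ≃ₐ[ℚ] Qb) →* Fam k where
  toFun := galPerm k
  map_one' := by
    funext n
    apply Equiv.ext
    intro y
    rfl
  map_mul' := by
    intro σ τ
    funext n
    apply Equiv.ext
    intro y
    rfl

/-- the arboreal Galois group `G(phi)` -/
noncomputable def GalImg (k : ℤ) : Subgroup (Fam k) := (galHom k).range

/-- `r_1 = 1/2`, `r_(j+1) = r_j/(r_j^2+1)` (here indexed from `0`) -/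
def rr : ℕ → ℚ
  | 0 => 1 / 2
  | j + 1 => rr j / (rr j ^ 2 + 1)

/-- the exceptional primes: those dividing the numerator of some `r_j^2+1` -/
def Exc (p : ℕ) : Prop := p.Prime ∧ ∃ j : ℕ, (p : ℤ) ∣ (rr j ^ 2 + 1).num

end Pool.Agent.Lib.MP_e26d5c_nt.AG
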