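import Mathlib

set_option autoImplicit false

namespace Pool.Agent.Lib.MP_e26d5c_nt.AG

/-- the `p`-free part of a natural number -/
def pf (p n : ℕ) : ℕ := n / p ^ padicValNat p n

theorem pf_mul (p n : ℕ) : p ^ padicValNat p n * pf p n = n :=
  Nat.mul_div_cancel' pow_padicValNat_dvd

theorem pf_dvd (p n : ℕ) : pf p n ∣ n := ⟨_, ((mul_comm _ _).trans (pf_mul p n)).symm⟩

theorem pf_ne_zero {p n : ℕ} (hn : n ≠ 0) : pf p n ≠ 0 := by
  intro h
  have := pf_mul p n
  rw [h, Nat.mul_zero] at this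
  exact hn this.symm

/-- PROOF: `padicValNat` of `n` would be larger (`pf_mul`, `padicValNat_dvd_iff_le`). -/
theorem not_dvd_pf {p n : ℕ} (hp : p.Prime) (hn : n ≠ 0) : ¬ p ∣ pf p n := by
  unfold pf
  rw [← Nat.factorization_def n hp]
  exact Nat.not_dvd_ordCompl hp hn

private lemma R8_prod (s : Finset ℕ) (e : ℕ → ℕ) (Q : ℕ) :
    jacobiSym ((∏ q ∈ s, q ^ e q : ℕ) : ℤ) Q = ∏ q ∈ s, (jacobiSym (q : ℤ) Q) ^ e q := by
  classical
  induction s using Finset.induction_on with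
  | empty => simp
  | insert a s ha ih =>
    rw [Finset.prod_insert ha, Finset.prod_insert ha, Nat.cast_mul, jacobiSym.mul_left, ih,
      Nat.cast_pow, jacobiSym.pow_left]

/-- the symbol of `N` at `Q` is `1` if every prime factor of `N` occurs to an even power or has symbol
`1`.  PROOF: induction on the factorisation of `N` (`Nat.recOnPrimeCoprime`/`Nat.recOnMul`), or
`N = ∏ q^{v_q}` (`Nat.factorization_prod_pow_eq_self`), `jacobiSym` is multiplicative in the first
argument (`jacobiSym.mul_left`, `jacobiSym.pow_left`), `jacobiSym.sq_one'`. -/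
theorem jac_one_of_primes {N Q : ℕ} (hN : N ≠ 0) (hQ : Nat.Coprime N Q)
    (h : ∀ q : ℕ, q.Prime → q ∣ N → Even (padicValNat q N) ∨ jacobiSym (q : ℤ) Q = 1) :
    jacobiSym (N : ℤ) Q = 1 := by
  have h0 : jacobiSym (N : ℤ) Q = ∏ q ∈ N.primeFactors, (jacobiSym (q : ℤ) Q) ^ N.factorization q := by
    conv_lhs => rw [← Nat.prod_factorization_pow_eq_self hN]
    rw [Finsupp.prod, Nat.support_factorization]
    exact R8_prod _ _ _
  rw [h0]
  apply Finset.prod_eq_one
  intro q hq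
  have hqp := Nat.prime_of_mem_primeFactors hq
  have hqd := Nat.dvd_of_mem_primeFactors hq
  rcases h q hqp hqd with h1 | h1
  · rw [← Nat.factorization_def N hqp] at h1
    obtain ⟨k, hk⟩ := h1
    have hc : Int.gcd (q : ℤ) (Q : ℤ) = 1 := by
      rw [Int.gcd_natCast_natCast]
      exact Nat.Coprime.coprime_dvd_left hqd hQ
    rw [hk, ← two_mul, pow_mul, jacobiSym.sq_one hc, one_pow]
  · rw [h1, one_pow]

/-- equality of the symbols at all prime factors of `M` gives equality at `M`.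
PROOF: `jacobiSym a M = ∏ over M.primeFactorsList of legendreSym` (definition), or induction on `M`
with `jacobiSym.mul_right`. -/
theorem jac_eq_of_primes {M : ℕ} {a b : ℤ}
    (h : ∀ l : ℕ, l.Prime → l ∣ M → jacobiSym a l = jacobiSym b l) (hM : M ≠ 0) :
    jacobiSym a M = jacobiSym b M := by
  revert hM h
  induction M using induction_on_primes with
  | zero => intro _ hM; exact absurd rfl hM
  | one => intro _ _; rw [jacobiSym.one_right, jacobiSym.one_right]
  | prime_mul p m hp ih =>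
    intro h hM
    have hm : m ≠ 0 := fun h0 => hM (by rw [h0, Nat.mul_zero])
    rw [jacobiSym.mul_right' a hp.ne_zero hm, jacobiSym.mul_right' b hp.ne_zero hm,
      h p hp (dvd_mul_right _ _), ih (fun l hl hlm => h l hl (hlm.mul_left p)) hm]

/-- reciprocity in the form used everywhere.  PROOF: `jacobiSym.quadratic_reciprocity_one_mod_four`
for natural numbers; the sign of `L`: `jacobiSym.neg`/`χ₄`, `J(-1|Q) = 1` for `Q ≡ 1 (mod 4)`
(`jacobiSym.at_neg_one`, `ZMod.χ₄_nat_one_mod_four`). -/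
theorem recip_int {Q : ℕ} (hQ : Q % 4 = 1) {L : ℤ} (hL : Odd L) :
    jacobiSym (Q : ℤ) L.natAbs = jacobiSym L Q := by
  have hn : Odd L.natAbs := Int.natAbs_odd.2 hL
  have hQo : Odd Q := by
    rw [Nat.odd_iff]; omega
  have h1 : jacobiSym (Q : ℤ) L.natAbs = jacobiSym (L.natAbs : ℤ) Q :=
    jacobiSym.quadratic_reciprocity_one_mod_four hQ hn
  rw [h1]
  rcases Int.natAbs_eq L with h | h
  · rw [← h]
  · conv_rhs => rw [h]
    rw [jacobiSym.neg _ hQo, ZMod.χ₄_nat_one_mod_four hQ, one_mul]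

/-- PROOF: `L.natAbs = p^u * pf p L.natAbs`, `recip_int`, `J(p|Q) = 1`. -/
theorem recip_pf {Q p : ℕ} (hQ : Q % 4 = 1) (hp : jacobiSym (p : ℤ) Q = 1) {L : ℤ} (hL : Odd L) :
    jacobiSym (Q : ℤ) (pf p L.natAbs) = jacobiSym L Q := by
  have hL0 : L.natAbs ≠ 0 := by
    intro h0
    rw [Int.natAbs_eq_zero] at h0
    rw [h0] at hL
    exact absurd hL (by decide)
  have hpf := pf_ne_zero (p := p) hL0
  have hmul := pf_mul p L.natAbs
  have hpw : p ^ padicValNat p L.natAbs ≠ 0 := by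
    intro h0
    rw [h0, Nat.zero_mul] at hmul
    exact hL0 hmul.symm
  rw [← recip_int hQ hL]
  have e : jacobiSym (Q : ℤ) L.natAbs =
      jacobiSym (Q : ℤ) (p ^ padicValNat p L.natAbs) * jacobiSym (Q : ℤ) (pf p L.natAbs) := by
    conv_lhs => rw [← hmul]
    exact jacobiSym.mul_right' _ hpw hpf
  rw [e]
  rcases Nat.eq_zero_or_pos (padicValNat p L.natAbs) with h0 | h0
  · rw [h0, pow_zero, jacobiSym.one_right, one_mul]
  · have hpd : p ∣ L.natAbs := by
      rw [← hmul]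
      exact (dvd_pow_self p h0.ne').mul_right _
    have hpo : Odd p := by
      have hn : Odd L.natAbs := Int.natAbs_odd.2 hL
      exact hn.of_dvd_nat hpd
    rw [jacobiSym.pow_right, jacobiSym.quadratic_reciprocity_one_mod_four hQ hpo, hp, one_pow, one_mul]

/-- PROOF: `jacobiSym.at_two`, `ZMod.χ₈_nat_eq_if_mod_eight`. -/
theorem jac_two_neg {Q : ℕ} (hQ : Q % 8 = 5 ∨ Q % 8 = 3) : jacobiSym 2 Q = -1 := by
  have hQo : Odd Q := by
    rw [Nat.odd_iff]; omega
  rw [jacobiSym.at_two hQo, ZMod.χ₈_nat_eq_if_mod_eight]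
  have h1 : ¬ Q % 2 = 0 := by omega
  have h2 : ¬ (Q % 8 = 1 ∨ Q % 8 = 7) := by omega
  rw [if_neg h1, if_neg h2]

private lemma R8_even_pow {p e : ℕ} (hp : Odd p) (he : Even e) : p ^ e % 8 = 1 := by
  obtain ⟨k, rfl⟩ := he
  have h1 : p ^ 2 % 8 = 1 := by
    have h2 : p % 8 = 1 ∨ p % 8 = 3 ∨ p % 8 = 5 ∨ p % 8 = 7 := by
      rw [Nat.odd_iff] at hp; omega
    rw [Nat.pow_mod]
    rcases h2 with h2 | h2 | h2 | h2 <;> rw [h2]
  rw [← two_mul, pow_mul, Nat.pow_mod, h1, one_pow, Nat.one_mod]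

/-- PROOF: an odd square is `1 (mod 8)`, `p^even ≡ 1 (mod 8)` for odd `p`. -/
theorem pf_mod_eight {p N : ℕ} (hp : Odd p) (hN : N ≠ 0) (h : Even (padicValNat p N)) :
    pf p N % 8 = N % 8 := by
  have h1 := pf_mul p N
  have h2 := R8_even_pow hp h
  conv_rhs => rw [← h1]
  rw [Nat.mul_mod, h2, one_mul, Nat.mod_mod]

/-- PROOF: `p^f ≡ p (mod 8)` for odd `f` and odd `p`; `N = p^f * pf`, multiply by `p`. -/
theorem pf_mod_eight_odd {p N : ℕ} (hp : Odd p) (hN : N ≠ 0) (h : Odd (padicValNat p N)) :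
    pf p N % 8 = (p * N) % 8 := by
  have h1 := pf_mul p N
  have h2 := R8_even_pow hp h.add_one
  have h3 : p * N = p ^ (padicValNat p N + 1) * pf p N := by
    conv_lhs => rw [← h1]
    rw [pow_succ]
    ring
  rw [h3, Nat.mul_mod, h2, one_mul, Nat.mod_mod]

end Pool.Agent.Lib.MP_e26d5c_nt.AG
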