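import Pool.Agent.Lib.MP_e26d5c_nt.AG.R7
import Pool.Agent.Lib.MP_e26d5c_nt.AG.R8

set_option autoImplicit false

namespace Pool.Agent.Lib.MP_e26d5c_nt.AG

/-- all odd primes dividing `K` except possibly `p` are good -/
def OnlyBad (K p : ℕ) : Prop := ∀ q : ℕ, q.Prime → q ≠ 2 → q ≠ p → q ∣ K → ¬ Bad K q

/-- the `p`-free part of the modulus `A_m - e B_m` -/
def M0 (K p m : ℕ) (e : ℤ) : ℕ := pf p ((A K m : ℤ) - e * B K m).natAbs

/-- the `p`-free part of the modulus `2 K A_{m+1} - e B_{m+1}` -/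
def M1 (K p m : ℕ) (e : ℤ) : ℕ := pf p (2 * (K : ℤ) * A K (m + 1) - e * B K (m + 1)).natAbs

theorem R10_C_odd {K i : ℕ} (hK : 0 < K) (h4 : 4 ∣ K) (hi : 1 ≤ i) : C K i % 2 = 1 := by
  by_cases h1 : i = 1
  · subst h1
    rw [C_one]
    omega
  have hi2 : 2 ≤ i := by omega
  by_cases h8 : 8 ∣ K
  · rcases Nat.mod_two_eq_zero_or_one i with h | h
    · have := C_mod_eight_even hK h8 hi2 h
      omega
    · have := C_mod_eight_odd hK h8 h
      omega
  · have := C_mod_four (K := K) (n := i) (by omega) hi2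
    omega

theorem R10_pf_ne {p : ℕ} {L : ℤ} (hL : Odd L) : pf p L.natAbs ≠ 0 := by
  apply pf_ne_zero
  intro h
  rw [Int.natAbs_eq_zero] at h
  subst h
  simp at hL

theorem R10_pf_dvd (p : ℕ) (L : ℤ) : ((pf p L.natAbs : ℕ) : ℤ) ∣ L := by
  have h : ((pf p L.natAbs : ℕ) : ℤ) ∣ ((L.natAbs : ℕ) : ℤ) := by
    exact_mod_cast pf_dvd p L.natAbs
  exact Int.dvd_natAbs.mp h

theorem R10_not_dvd {p : ℕ} {L : ℤ} (hp : p.Prime) (hL : Odd L) : ¬ p ∣ pf p L.natAbs := by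
  apply not_dvd_pf hp
  intro h
  rw [Int.natAbs_eq_zero] at h
  subst h
  simp at hL

theorem R10_jac_zero {a l : ℕ} (hl : l.Prime) (h : l ∣ a) : jacobiSym (a : ℤ) l = 0 := by
  rw [jacobiSym.eq_zero_iff]
  refine ⟨hl.ne_zero, ?_⟩
  rw [Int.gcd_natCast_natCast]
  intro h1
  have h2 := Nat.dvd_gcd h (dvd_refl l)
  rw [h1] at h2
  exact hl.one_lt.ne' (Nat.dvd_one.mp h2)

theorem R10_dvd_of_jac_zero {a l : ℕ} (hl : l.Prime) (h : jacobiSym (a : ℤ) l = 0) : l ∣ a := by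
  rw [jacobiSym.eq_zero_iff] at h
  have h2 := h.2
  rw [Int.gcd_natCast_natCast] at h2
  by_contra h3
  exact h2 (((Nat.Prime.coprime_iff_not_dvd hl).mpr h3).symm)

/-- PROOF: `C_i` is odd (`C_mod_four`, `C_mod_eight_*`, `C_one`), good primes do not divide it,
`not_dvd_pf`. -/
theorem pf_C_coprime {K p i : ℕ} (hK : 0 < K) (h4 : 4 ∣ K) (hp : p.Prime) (hp2 : p ≠ 2)
    (ho : OnlyBad K p) (hi : 1 ≤ i) : Nat.Coprime (pf p (C K i)) K := by
  refine Nat.coprime_of_dvd ?_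
  intro q hq hq1 hq2
  have hC : q ∣ C K i := hq1.trans (pf_dvd p (C K i))
  by_cases h2 : q = 2
  · subst h2
    have := R10_C_odd hK h4 hi
    omega
  by_cases h3 : q = p
  · subst h3
    exact not_dvd_pf hq (C_pos hK i).ne' hq1
  exact ho q hq h2 h3 hq2 ⟨i, hi, hC⟩

/-- (K0).  PROOF: `Q := pf p (C_i)`: `jac_C_one` gives `1 = J(C_n|Q) = J(p|Q) J(s|Q)^2`, so
`J(p|Q) = 1` (`J(s|Q)^2` is `0` or `1`). -/
theorem K0 {K p i n s : ℕ} (hK : 0 < K) (h4 : 4 ∣ K) (hp : p.Prime) (hp2 : p ≠ 2)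
    (ho : OnlyBad K p) (hn : C K n = p * s ^ 2) (hi : 1 ≤ i) (hin : i < n) :
    jacobiSym (p : ℤ) (pf p (C K i)) = 1 := by
  have hQ := pf_C_coprime hK h4 hp hp2 ho hi
  have h1 := jac_C_one hK hQ (pf_dvd p (C K i)) hin
  rw [hn] at h1
  have h2 : (((p * s ^ 2 : ℕ)) : ℤ) = (p : ℤ) * ((s : ℤ) * (s : ℤ)) := by
    push_cast
    ring
  rw [h2, jacobiSym.mul_left, jacobiSym.mul_left] at h1
  rcases jacobiSym.trichotomy (s : ℤ) (pf p (C K i)) with h | h | h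
  · rw [h] at h1
    simp at h1
  · rw [h] at h1
    simpa using h1
  · rw [h] at h1
    simpa using h1

/-- PROOF (paper A7): `Q := pf p (C_j)`; `Q % 4 = 1` (`mod_four_of_dvd_C`, `C_j` odd), coprime to `K`.
`recip_pf` for `L0`, `L1` (odd by `two_L`), `jacobiSym.mul_right`:
`J(Q|M0 M1) = J(L0|Q) J(L1|Q) = J(L0 L1|Q) = J(2 K G G|Q)` (`jac_L0L1`) `= J(2|Q) J(p|Q)^h J(s|Q)^2`
(`KGG_form`) `= J(2|Q)`; here `s` is coprime to `Q` since `K G G` is. -/
theorem pair {K p m j : ℕ} {e : ℤ} (hK : 0 < K) (h4 : 4 ∣ K) (hp : p.Prime) (hp2 : p ≠ 2)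
    (ho : OnlyBad K p) (he : e ^ 2 = 1) (hm : 3 ≤ m) (hj : 1 ≤ j) (hjm : j + 2 ≤ m)
    (hJ : jacobiSym (p : ℤ) (pf p (C K j)) = 1) :
    jacobiSym (pf p (C K j) : ℤ) (M0 K p m e * M1 K p m e) = jacobiSym 2 (pf p (C K j)) := by
  have hQ := pf_C_coprime hK h4 hp hp2 ho hj
  have hdQ := pf_dvd p (C K j)
  have hodd : Odd (pf p (C K j)) := by
    have h1 := R10_C_odd hK h4 hj
    rw [← Nat.not_even_iff_odd]
    intro he2
    have h2 : 2 ∣ C K j := he2.two_dvd.trans hdQ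
    omega
  have hQ4 : pf p (C K j) % 4 = 1 := mod_four_of_dvd_C hK hdQ hodd
  obtain ⟨hL0, hL1⟩ := two_L hK h4 hm he
  have hM0 : M0 K p m e ≠ 0 := R10_pf_ne hL0
  have hM1 : M1 K p m e ≠ 0 := R10_pf_ne hL1
  rw [jacobiSym.mul_right' _ hM0 hM1]
  have e0 : jacobiSym (pf p (C K j) : ℤ) (M0 K p m e) =
      jacobiSym ((A K m : ℤ) - e * B K m) (pf p (C K j)) := recip_pf hQ4 hJ hL0
  have e1 : jacobiSym (pf p (C K j) : ℤ) (M1 K p m e) =
      jacobiSym (2 * (K : ℤ) * A K (m + 1) - e * B K (m + 1)) (pf p (C K j)) :=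
    recip_pf hQ4 hJ hL1
  rw [e0, e1, ← jacobiSym.mul_left, jac_L0L1 hK hQ hdQ hjm]
  obtain ⟨s, hs⟩ := KGG_form hK h4 hp hp2 ho hm
  have hcop : Nat.Coprime s (pf p (C K j)) := by
    have h1 : s ∣ K * Gg K (m - 1) * Gg K m := by
      rw [hs]
      exact Dvd.dvd.mul_left (Dvd.intro_left s (by ring)) _
    have h2 : Nat.Coprime (pf p (C K j)) (K * Gg K (m - 1) * Gg K m) := by
      apply Nat.Coprime.mul_right
      · apply Nat.Coprime.mul_right hQ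
        exact Nat.Coprime.coprime_dvd_right (Gg_dvd K _) hQ
      · exact Nat.Coprime.coprime_dvd_right (Gg_dvd K _) hQ
    exact (Nat.Coprime.coprime_dvd_right h1 h2).symm
  have h3 : ((2 * (K * Gg K (m - 1) * Gg K m) : ℕ) : ℤ) =
      2 * ((p : ℤ) ^ (padicValNat p (K * Gg K (m - 1) * Gg K m)) * (s : ℤ) ^ 2) := by
    rw [Nat.cast_mul]
    rw [show ((K * Gg K (m - 1) * Gg K m : ℕ) : ℤ) =
      ((p ^ (padicValNat p (K * Gg K (m - 1) * Gg K m)) * s ^ 2 : ℕ) : ℤ) by rw [← hs]]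
    push_cast
    ring
  rw [h3, jacobiSym.mul_left, jacobiSym.mul_left, jacobiSym.pow_left, hJ, one_pow, one_mul]
  rw [jacobiSym.sq_one' ((Int.isCoprime_iff_gcd_eq_one.mp (Nat.isCoprime_iff_coprime.mpr hcop)))]
  rw [mul_one]

/-- nonvanishing: `M` as in `per_M` is coprime to `C_j` and `C_n`.  PROOF: a prime `l` dividing `M` and
`C_j` (or `C_n`): `l ∤ K` (good primes do not divide `C`, `p ∤ M` if `p ∣ K`, `M` odd), so by `per_M`
at the modulus `l` both symbols are `0` and `l` divides both: `not_dvd_C`. -/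
theorem M_coprime {K m p M : ℕ} {e : ℤ} (hK : 0 < K) (h4 : 4 ∣ K) (hm : 3 ≤ m) (he : e ^ 2 = 1)
    (ho : OnlyBad K p)
    (hM : (M : ℤ) ∣ (A K m : ℤ) - e * B K m ∨
      (M : ℤ) ∣ 2 * (K : ℤ) * A K (m + 1) - e * B K (m + 1))
    (hpM : p ∣ K → ¬ p ∣ M) (q j : ℕ) (hj : 2 ≤ j) (hq : 1 ≤ q) :
    Nat.Coprime (C K j) M ∧ Nat.Coprime (C K (q * m + j)) M := by
  obtain ⟨hL0, hL1⟩ := two_L hK h4 hm he
  have hM2 : ¬ 2 ∣ M := by
    intro h2
    have h3 : (2 : ℤ) ∣ (M : ℤ) := by exact_mod_cast h2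
    rcases hM with h | h
    · have := h3.trans h
      rw [← Int.not_even_iff_odd] at hL0
      exact hL0 (even_iff_two_dvd.mpr this)
    · have := h3.trans h
      rw [← Int.not_even_iff_odd] at hL1
      exact hL1 (even_iff_two_dvd.mpr this)
  have key : ∀ l : ℕ, l.Prime → l ∣ M → (l ∣ C K j ∨ l ∣ C K (q * m + j)) → False := by
    intro l hl hlM hlC
    have hlK : ¬ l ∣ K := by
      intro hlK
      by_cases h2 : l = 2
      · subst h2
        exact hM2 hlM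
      by_cases h3 : l = p
      · subst h3
        exact hpM hlK hlM
      apply ho l hl h2 h3 hlK
      rcases hlC with h | h
      · exact ⟨j, by omega, h⟩
      · exact ⟨q * m + j, by omega, h⟩
    have hlM' : (l : ℤ) ∣ (M : ℤ) := by exact_mod_cast hlM
    have h1 := per_M (p := p) (M := l) hK h4 hm he ho
      (hM.imp (fun h => hlM'.trans h) (fun h => hlM'.trans h))
      (fun hpK hpl => hpM hpK (hpl.trans hlM)) q j hj
    have hne : j ≠ q * m + j := by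
      have : 1 * 3 ≤ q * m := Nat.mul_le_mul hq hm
      omega
    rcases hlC with h | h
    · have h2 : jacobiSym (C K j : ℤ) l = 0 := R10_jac_zero hl h
      rw [h2] at h1
      have h3 := R10_dvd_of_jac_zero hl h1
      exact not_dvd_C hK hl hlK h hne h3
    · have h2 : jacobiSym (C K (q * m + j) : ℤ) l = 0 := R10_jac_zero hl h
      rw [h2] at h1
      have h3 := R10_dvd_of_jac_zero hl h1.symm
      exact not_dvd_C hK hl hlK h3 hne h
  constructor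
  · refine Nat.coprime_of_dvd ?_
    intro l hl h1 h2
    exact key l hl h2 (Or.inl h1)
  · refine Nat.coprime_of_dvd ?_
    intro l hl h1 h2
    exact key l hl h2 (Or.inr h1)

theorem R10_key {K p n s m q j M : ℕ} {e : ℤ} (hK : 0 < K) (h4 : 4 ∣ K)
    (ho : OnlyBad K p) (hn : C K n = p * s ^ 2) (he : e ^ 2 = 1)
    (hm : 3 ≤ m) (hj : 2 ≤ j) (hq : 1 ≤ q) (hnq : n = q * m + j)
    (hM : (M : ℤ) ∣ (A K m : ℤ) - e * B K m ∨
      (M : ℤ) ∣ 2 * (K : ℤ) * A K (m + 1) - e * B K (m + 1))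
    (hpM : p ∣ K → ¬ p ∣ M) :
    jacobiSym (p : ℤ) M =
      jacobiSym (p : ℤ) M ^ (padicValNat p (C K j)) * jacobiSym (pf p (C K j) : ℤ) M ∧
      jacobiSym (p : ℤ) M ^ 2 = 1 := by
  have hcop := M_coprime hK h4 hm he ho hM hpM q j hj hq
  have hper := per_M hK h4 hm he ho hM hpM q j hj
  rw [← hnq] at hcop hper
  have hpM' : Nat.Coprime p M := by
    apply Nat.Coprime.coprime_dvd_left _ hcop.2
    rw [hn]
    exact Dvd.intro _ rfl
  have hsM : Nat.Coprime s M := by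
    apply Nat.Coprime.coprime_dvd_left _ hcop.2
    rw [hn]
    exact Dvd.intro (p * s) (by ring)
  have h1 : jacobiSym (C K n : ℤ) M = jacobiSym (p : ℤ) M := by
    rw [hn]
    push_cast
    rw [jacobiSym.mul_left,
      jacobiSym.sq_one' (Int.isCoprime_iff_gcd_eq_one.mp (Nat.isCoprime_iff_coprime.mpr hsM)), mul_one]
  have h2 : jacobiSym (C K j : ℤ) M =
      jacobiSym (p : ℤ) M ^ (padicValNat p (C K j)) * jacobiSym (pf p (C K j) : ℤ) M := by
    have h3 : (C K j : ℤ) = (p : ℤ) ^ (padicValNat p (C K j)) * (pf p (C K j) : ℤ) := by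
      exact_mod_cast (pf_mul p (C K j)).symm
    conv_lhs => rw [h3]
    rw [jacobiSym.mul_left, jacobiSym.pow_left]
  refine ⟨?_, ?_⟩
  · rw [← h1, hper]
    conv_lhs => rw [h2]
    rw [← hper, h1]
  · exact jacobiSym.sq_one
      (Int.isCoprime_iff_gcd_eq_one.mp (Nat.isCoprime_iff_coprime.mpr hpM'))

/-- PROOF: for `M = M0` and `M = M1` (`per_M`, `M_coprime`): `J(p|M) = J(C_n|M) = J(C_j|M) =
J(p|M)^f J(C'|M)`, `f` even and `J(p|M) = ±1`: `J(p|M) = J(C'|M)`.  Multiply, `pair` (`K0` for the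
hypothesis `hJ`). -/
theorem pairH_even {K p n s m q j : ℕ} {e : ℤ} (hK : 0 < K) (h4 : 4 ∣ K) (hp : p.Prime)
    (hp2 : p ≠ 2) (hpK : p ∣ K) (ho : OnlyBad K p) (hn : C K n = p * s ^ 2) (he : e ^ 2 = 1)
    (hm : 3 ≤ m) (hj : 2 ≤ j) (hjm : j + 2 ≤ m) (hq : 1 ≤ q) (hnq : n = q * m + j)
    (hf : Even (padicValNat p (C K j))) :
    jacobiSym (p : ℤ) (M0 K p m e * M1 K p m e) = jacobiSym 2 (pf p (C K j)) := by
  have hL := two_L hK h4 hm he
  have hM0 : M0 K p m e ≠ 0 := R10_pf_ne hL.1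
  have hM1 : M1 K p m e ≠ 0 := R10_pf_ne hL.2
  have k0 := R10_key (M := M0 K p m e) hK h4 ho hn he hm hj hq hnq
    (Or.inl (R10_pf_dvd _ _)) (fun _ => R10_not_dvd hp hL.1)
  have k1 := R10_key (M := M1 K p m e) hK h4 ho hn he hm hj hq hnq
    (Or.inr (R10_pf_dvd _ _)) (fun _ => R10_not_dvd hp hL.2)
  have hjn : j < n := by
    have : 1 * 3 ≤ q * m := Nat.mul_le_mul hq hm
    omega
  have hp1 := pair hK h4 hp hp2 ho he hm (by omega) hjm
    (K0 hK h4 hp hp2 ho hn (by omega : 1 ≤ j) hjn)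
  rw [← hp1, jacobiSym.mul_right' _ hM0 hM1, jacobiSym.mul_right' _ hM0 hM1]
  obtain ⟨r, hr⟩ := hf
  have e0 : jacobiSym (p : ℤ) (M0 K p m e) = jacobiSym (pf p (C K j) : ℤ) (M0 K p m e) := by
    have := k0.1
    rw [hr, ← two_mul, pow_mul, k0.2, one_pow, one_mul] at this
    exact this
  have e1 : jacobiSym (p : ℤ) (M1 K p m e) = jacobiSym (pf p (C K j) : ℤ) (M1 K p m e) := by
    have := k1.1
    rw [hr, ← two_mul, pow_mul, k1.2, one_pow, one_mul] at this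
    exact this
  rw [e0, e1]

/-- PROOF: as `pairH_even`: `J(p|M) = J(p|M) J(C'|M)`, so `J(C'|M0 M1) = 1`. -/
theorem pairH_odd {K p n s m q j : ℕ} (hK : 0 < K) (h4 : 4 ∣ K) (hp : p.Prime)
    (hp2 : p ≠ 2) (hpK : p ∣ K) (ho : OnlyBad K p) (hn : C K n = p * s ^ 2)
    (hm : 3 ≤ m) (hj : 2 ≤ j) (hjm : j + 2 ≤ m) (hq : 1 ≤ q) (hnq : n = q * m + j)
    (hf : Odd (padicValNat p (C K j))) :
    jacobiSym 2 (pf p (C K j)) = 1 := by
  have he : (1 : ℤ) ^ 2 = 1 := one_pow 2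
  have hL := two_L hK h4 hm he
  have hM0 : M0 K p m 1 ≠ 0 := R10_pf_ne hL.1
  have hM1 : M1 K p m 1 ≠ 0 := R10_pf_ne hL.2
  have k0 := R10_key (M := M0 K p m 1) hK h4 ho hn he hm hj hq hnq
    (Or.inl (R10_pf_dvd _ _)) (fun _ => R10_not_dvd hp hL.1)
  have k1 := R10_key (M := M1 K p m 1) hK h4 ho hn he hm hj hq hnq
    (Or.inr (R10_pf_dvd _ _)) (fun _ => R10_not_dvd hp hL.2)
  have hjn : j < n := by
    have : 1 * 3 ≤ q * m := Nat.mul_le_mul hq hm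
    omega
  have hp1 := pair hK h4 hp hp2 ho he hm (by omega) hjm
    (K0 hK h4 hp hp2 ho hn (by omega : 1 ≤ j) hjn)
  rw [← hp1, jacobiSym.mul_right' _ hM0 hM1]
  obtain ⟨r, hr⟩ := hf
  have e0 : jacobiSym (pf p (C K j) : ℤ) (M0 K p m 1) = 1 := by
    have h1 := k0.1
    have h2 := k0.2
    rw [hr, pow_succ, pow_mul, h2, one_pow, one_mul] at h1
    have h3 : jacobiSym (p : ℤ) (M0 K p m 1) ≠ 0 := by
      intro h
      rw [h] at h2
      norm_num at h2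
    exact (mul_left_cancel₀ h3 (by rw [mul_one]; exact h1)).symm
  have e1 : jacobiSym (pf p (C K j) : ℤ) (M1 K p m 1) = 1 := by
    have h1 := k1.1
    have h2 := k1.2
    rw [hr, pow_succ, pow_mul, h2, one_pow, one_mul] at h1
    have h3 : jacobiSym (p : ℤ) (M1 K p m 1) ≠ 0 := by
      intro h
      rw [h] at h2
      norm_num at h2
    exact (mul_left_cancel₀ h3 (by rw [mul_one]; exact h1)).symm
  rw [e0, e1, one_mul]

end Pool.Agent.Lib.MP_e26d5c_nt.AG
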