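import Pool.Agent.Lib.MP_e26d5c_nt.AG.R9
import Pool.Agent.Lib.MP_e26d5c_nt.AG.R10

set_option autoImplicit false

namespace Pool.Agent.Lib.MP_e26d5c_nt.AG

private theorem R11_sq_mod {s : ℕ} (h : s % 2 = 1) : s ^ 2 % 8 = 1 := by
  have h8 : s % 8 = 1 ∨ s % 8 = 3 ∨ s % 8 = 5 ∨ s % 8 = 7 := by omega
  rw [pow_two, Nat.mul_mod]
  rcases h8 with h | h | h | h <;> rw [h]

private theorem R11_odd_of {c p s : ℕ} (h : c = p * s ^ 2) (hc : c % 2 = 1) : s % 2 = 1 := by
  by_contra hs
  have h2 : s % 2 = 0 := by omega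
  have h3 : 2 ∣ s := Nat.dvd_of_mod_eq_zero h2
  have h4 : 2 ∣ c := by
    rw [h]
    exact Dvd.dvd.mul_left (Dvd.dvd.trans h3 (dvd_pow_self s (by norm_num))) p
  omega

private theorem R11_mod {c p s : ℕ} (h : c = p * s ^ 2) (hc : c % 2 = 1) : c % 8 = p % 8 := by
  have h1 := R11_sq_mod (R11_odd_of h hc)
  rw [h, Nat.mul_mod, h1, mul_one, Nat.mod_mod]

private theorem R11_C {K n : ℕ} (hK : 0 < K) (h8 : 8 ∣ K) (hn : 2 ≤ n) :
    (n % 2 = 0 → C K n % 8 = 5) ∧ (n % 2 = 1 → C K n % 8 = 1) :=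
  ⟨fun h => C_mod_eight_even hK h8 hn h, fun h => C_mod_eight_odd hK h8 h⟩

private theorem R11_unit {K p n : ℕ} (hp : p.Prime) (hK : 0 < K) (h : p ∣ C K n) :
    ¬ p ∣ A K n * B K n := by
  intro h2
  have h3 := Nat.dvd_gcd h h2
  rw [Nat.Coprime.gcd_eq_one (coprime_C_AB hK n)] at h3
  exact hp.one_lt.ne' (Nat.dvd_one.1 h3)

private theorem R11_dvd_of_odd {p c : ℕ} (h : Odd (padicValNat p c)) : p ∣ c := by
  apply dvd_of_one_le_padicValNat
  obtain ⟨k, hk⟩ := h
  omega

/-- PROOF: (paper A10, first part) `C_n = p s^2`, `s` odd, so `C_n ≡ p (mod 8)`; `n` and `j` have different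
parity, so `{C_n, C_j} ≡ {1, 5}`, `C_j ≡ 5 p (mod 8)`.  If `f = v_p(C_j)` is odd then
`pf p C_j ≡ p C_j ≡ 5 p^2 ≡ 5 (mod 8)` (`pf_mod_eight_odd`), `J(2|..) = -1`; `pairH_odd` with
`q = 1`, `m = n - j` gives `1`.  (`j ≥ 2` since `p ∣ C_j` and `p ∤ C_1`, `not_dvd_C13`.) -/
theorem eight_even_val {K p n s j : ℕ} (hK : 0 < K) (h8 : 8 ∣ K) (hp : p.Prime) (hp2 : p ≠ 2)
    (hpK : p ∣ K) (ho : OnlyBad K p) (hn : C K n = p * s ^ 2) (hj : 1 ≤ j) (hjn : 2 * j + 2 ≤ n)
    (hpar : j % 2 ≠ n % 2) : Even (padicValNat p (C K j)) := by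
  by_contra hne
  have hf : Odd (padicValNat p (C K j)) := Nat.not_even_iff_odd.1 hne
  have hpC := R11_dvd_of_odd hf
  have hj2 : 2 ≤ j := by
    by_contra h
    have h1 : j = 1 := by omega
    rw [h1] at hpC
    exact (not_dvd_C13 hp hp2 hK hpK).1 hpC
  have hpodd : Odd p := hp.odd_of_ne_two hp2
  have h4 : 4 ∣ K := Dvd.dvd.trans (by norm_num) h8
  have hCn := R11_C (K := K) hK h8 (show 2 ≤ n by omega)
  have hCj := R11_C (K := K) hK h8 hj2
  have hCnodd : C K n % 2 = 1 := by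
    rcases Nat.mod_two_eq_zero_or_one n with h | h
    · have := hCn.1 h
      omega
    · have := hCn.2 h
      omega
  have hmod := R11_mod hn hCnodd
  have hpf := pf_mod_eight_odd hpodd (C_pos hK j).ne' hf
  have h5 : pf p (C K j) % 8 = 5 := by
    rw [hpf, Nat.mul_mod, ← hmod]
    rcases Nat.mod_two_eq_zero_or_one n with h | h
    · have h1 : j % 2 = 1 := by omega
      rw [hCn.1 h, hCj.2 h1]
    · have h1 : j % 2 = 0 := by omega
      rw [hCn.2 h, hCj.1 h1]
  have h6 := pairH_odd (m := n - j) (q := 1) hK h4 hp hp2 hpK ho hn (by omega) hj2 (by omega)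
    le_rfl (by omega) hf
  have h7 := jac_two_neg (Q := pf p (C K j)) (Or.inl h5)
  rw [h6] at h7
  norm_num at h7

/-- units after `n` stay in the other parity.  PROOF: strong induction on `i`: let `i > n` be a unit.
Let `N` be the last index `< i` with `p ∣ C_N`, `n ≤ N < i` (`n` itself is such an index;
`Nat.findGreatest`).  `last_bad`: `v(C_N) = t e`, `i = N + 2 + t + 2u`.  If `N = n`: `v(C_n)` odd so
`t` odd, `i ≢ n`.  If `N > n`: `N` is a unit, so `N ≢ n` by induction, so `v(C_N)` is even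
(`heven`), `e` is odd, so `t` is even and `i ≡ N`.  (`e` odd: from the first unit after `n`:
`t e = v(C_n)` odd.) -/
theorem parity_stays {K p n i : ℕ} (hp : p.Prime) (hK : 0 < K) (hpK : p ∣ K)
    (hC : p ∣ C K n) (hodd : Odd (padicValNat p (C K n)))
    (heven : ∀ j, n < j → j < i → j % 2 ≠ n % 2 → Even (padicValNat p (C K j)))
    (hi : n < i) (hu : ¬ p ∣ A K i * B K i) : i % 2 ≠ n % 2 := by
  induction i using Nat.strong_induction_on with
  | _ i ih =>
    classical
    set N := Nat.findGreatest (fun x => p ∣ C K x) (i - 1) with hN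
    have hNC : p ∣ C K N := by
      have := Nat.findGreatest_spec (P := fun x => p ∣ C K x) (show n ≤ i - 1 by omega) hC
      exact this
    have hnN : n ≤ N := Nat.le_findGreatest (by omega) hC
    have hNi : N ≤ i - 1 := Nat.findGreatest_le _
    have hno : ∀ x, N < x → x < i → ¬ p ∣ C K x := by
      intro x h1 h2
      exact Nat.findGreatest_is_greatest (P := fun x => p ∣ C K x) (n := i - 1) h1 (by omega)
    obtain ⟨t, u, ht, hv, hi'⟩ := last_bad hp hK hpK hNC (by omega) hu hno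
    rcases Nat.eq_or_lt_of_le hnN with h | h
    · rw [← h] at hv hi'
      rw [hv, Nat.odd_mul] at hodd
      obtain ⟨a, ha⟩ := hodd.1
      omega
    · have hNu := R11_unit hp hK hNC
      have hNp := ih N (by omega)
        (fun j h1 h2 h3 => heven j h1 (by omega) h3) h hNu
      have hev := heven N h (by omega) hNp
      have he : Odd (padicValNat p K) := by
        have hd : padicValNat p K ∣ padicValNat p (C K n) := by
          by_contra hd
          have := bad_no_unit hp hK hpK hC hd (N - n) (by omega)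
          rw [show n + (N - n) = N by omega] at this
          exact hNu this
        obtain ⟨c, hc⟩ := hd
        rw [hc, Nat.odd_mul] at hodd
        exact hodd.1
      rw [hv, Nat.even_mul] at hev
      have hte : Even t := by
        rcases hev with h | h
        · exact h
        · exact absurd he (Nat.not_odd_iff_even.2 h)
      obtain ⟨a, ha⟩ := hte
      omega

/-- PROOF: suppose not: then there are `n < n'` and an `n'' ≥ 2 n' + 2` with `C = p s^2` at all three.
They have the same parity (`C ≡ p s^2 ≡ p (mod 8)`, `C_mod_eight_even`, `C_mod_eight_odd`; `s` odd).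
`v_p(C_n)` is odd (`C_n = p s^2`).  All `v_p(C_j)`, `j` of the other parity, `1 ≤ j < n'`, are even
(`eight_even_val` with `n''`).  `n'` is a unit (`p ∣ C_{n'}`), so `parity_stays` gives `n' ≢ n`:
contradiction. -/
theorem eight_finite_p {K p : ℕ} (hK : 0 < K) (h8 : 8 ∣ K) (hp : p.Prime) (hp2 : p ≠ 2)
    (hpK : p ∣ K) (ho : OnlyBad K p) :
    ∃ n0 : ℕ, ∀ n, n0 ≤ n → ¬ ∃ s, C K n = p * s ^ 2 := by
  by_contra hcon
  have hcon' : ∀ n0 : ℕ, ∃ n, n0 ≤ n ∧ ∃ s, C K n = p * s ^ 2 := by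
    intro n0
    by_contra h
    apply hcon
    refine ⟨n0, fun n hn hs => h ⟨n, hn, hs⟩⟩
  obtain ⟨n1, hn1, s1, h1⟩ := hcon' 2
  obtain ⟨n2, hn2, s2, h2⟩ := hcon' (n1 + 1)
  obtain ⟨n3, hn3, s3, h3⟩ := hcon' (2 * n2 + 2)
  have hpar : ∀ n s, 2 ≤ n → C K n = p * s ^ 2 →
      (n % 2 = 0 → p % 8 = 5) ∧ (n % 2 = 1 → p % 8 = 1) := by
    intro n s hn hs
    have hC := R11_C (K := K) hK h8 hn
    have hodd : C K n % 2 = 1 := by
      rcases Nat.mod_two_eq_zero_or_one n with h | h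
      · have := hC.1 h
        omega
      · have := hC.2 h
        omega
    have hmod := R11_mod hs hodd
    exact ⟨fun h => by rw [← hmod]; exact hC.1 h, fun h => by rw [← hmod]; exact hC.2 h⟩
  have e1 := hpar n1 s1 hn1 h1
  have e2 := hpar n2 s2 (by omega) h2
  have e3 := hpar n3 s3 (by omega) h3
  have hsame : ∀ a b : ℕ, ((a % 2 = 0 → p % 8 = 5) ∧ (a % 2 = 1 → p % 8 = 1)) →
      ((b % 2 = 0 → p % 8 = 5) ∧ (b % 2 = 1 → p % 8 = 1)) → a % 2 = b % 2 := by
    intro a b ha hb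
    rcases Nat.mod_two_eq_zero_or_one a with h | h <;>
      rcases Nat.mod_two_eq_zero_or_one b with h' | h'
    · omega
    · have := ha.1 h
      have := hb.2 h'
      omega
    · have := ha.2 h
      have := hb.1 h'
      omega
    · omega
  have h12 := hsame n1 n2 e1 e2
  have h13 := hsame n1 n3 e1 e3
  have : Fact p.Prime := ⟨hp⟩
  have hs1 : s1 ≠ 0 := by
    intro h
    rw [h] at h1
    have := C_pos hK n1
    simp at h1
    omega
  have hodd1 : Odd (padicValNat p (C K n1)) := by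
    rw [h1, padicValNat.mul hp.ne_zero (pow_ne_zero _ hs1), padicValNat_self,
      padicValNat.pow]
    exact ⟨padicValNat p s1, by ring⟩
  have hpC1 : p ∣ C K n1 := by rw [h1]; exact dvd_mul_right _ _
  have hpC2 : p ∣ C K n2 := by rw [h2]; exact dvd_mul_right _ _
  have := parity_stays (i := n2) hp hK hpK hpC1 hodd1
    (fun j hj1 hj2 hj3 => eight_even_val hK h8 hp hp2 hpK ho h3 (by omega) (by omega) (by omega))
    (by omega) (R11_unit hp hK hpC2)
  exact this h12.symm

/-- PROOF: `n` even: `C_n ≡ 5 (mod 8)` is not a square.  `n` odd: `not_square_eight` with a suitable even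
`j`.  If no odd prime divisor of `K` is bad: `j = 2`.  Otherwise the bad prime is `p` (`ho`); let `j0` be
the first index `≥ 1` with `p ∣ C_{j0}`; it is a unit, so even (`run_units` from `0`); `j := j0 + 2`:
`p ∣ B_j`, `p ∤ A_j` (`bad_step`), so `C_j ≡ A_j^2 (mod p)` has symbol `1`. -/
theorem eight_finite_one {K p : ℕ} (hK : 0 < K) (h8 : 8 ∣ K) (ho : OnlyBad K p) :
    ∃ n0 : ℕ, ∀ n, n0 ≤ n → ¬ IsSquare (C K n) := by
  obtain ⟨j, hj, hje, hbad⟩ : ∃ j : ℕ, 2 ≤ j ∧ j % 2 = 0 ∧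
      ∀ q : ℕ, q.Prime → q ≠ 2 → q ∣ K → Bad K q → jacobiSym (C K j : ℤ) q = 1 := by
    by_cases hex : ∃ q : ℕ, q.Prime ∧ q ≠ 2 ∧ q ∣ K ∧ Bad K q
    · obtain ⟨q, hq, hq2, hqK, hqb⟩ := hex
      classical
      have hqb' : ∃ i : ℕ, 1 ≤ i ∧ q ∣ C K i := hqb
      obtain ⟨hj1, hj2⟩ := Nat.find_spec hqb'
      have hmin : ∀ i, i < Nat.find hqb' → ¬ (1 ≤ i ∧ q ∣ C K i) := fun i hi => Nat.find_min hqb' hi
      set j0 := Nat.find hqb' with hj0
      have h0 : ¬ q ∣ A K 0 * B K 0 := by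
        simp
        exact hq.one_lt.ne'
      have hrun := run_units (N := 0) (M := j0) hq hK hqK h0 (by
        intro i _ hi h
        rcases Nat.eq_zero_or_pos i with h1 | h1
        · rw [h1, C_zero] at h
          exact hq2 ((Nat.prime_dvd_prime_iff_eq hq Nat.prime_two).1 h)
        · exact hmin i hi ⟨h1, h⟩) j0 (Nat.zero_le _) le_rfl
      have hjev : j0 % 2 = 0 := by
        have := hrun.1 (R11_unit hq hK hj2)
        simpa using this
      obtain ⟨_, _, hB, hA⟩ := bad_step hq hK hj2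
      have : Fact q.Prime := ⟨hq⟩
      have hqB : q ∣ B K (j0 + 2) := by
        apply dvd_of_one_le_padicValNat
        rw [hB]
        exact one_le_padicValNat_of_dvd (C_pos hK j0).ne' hj2
      refine ⟨j0 + 2, by omega, by omega, ?_⟩
      intro r hr hr2 hrK hrb
      have hqp : q = p := by
        by_contra h
        exact ho q hq hq2 h hqK hqb
      have hrp : r = p := by
        by_contra h
        exact ho r hr hr2 h hrK hrb
      rw [hrp, ← hqp]
      have h1 : jacobiSym (C K (j0 + 2) : ℤ) q = jacobiSym ((A K (j0 + 2) : ℤ) ^ 2) q := by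
        apply jacobiSym.mod_left'
        have h2 : (q : ℤ) ∣ (C K (j0 + 2) : ℤ) - (A K (j0 + 2) : ℤ) ^ 2 := by
          have h3 : (q : ℤ) ∣ (B K (j0 + 2) : ℤ) := Int.natCast_dvd_natCast.2 hqB
          have h4 : (C K (j0 + 2) : ℤ) - (A K (j0 + 2) : ℤ) ^ 2 =
              (B K (j0 + 2) : ℤ) * (B K (j0 + 2) : ℤ) := by
            simp only [C]
            push_cast
            ring
          rw [h4]
          exact Dvd.dvd.mul_left h3 _
        exact Int.emod_eq_emod_iff_emod_sub_eq_zero.2 (Int.emod_eq_zero_of_dvd h2)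
      rw [h1, jacobiSym.sq_one']
      rw [Int.gcd_natCast_natCast]
      exact ((Nat.Prime.coprime_iff_not_dvd hq).2 hA).symm
    · exact ⟨2, le_rfl, rfl, fun q h1 h2 h3 h4 => absurd ⟨q, h1, h2, h3, h4⟩ hex⟩
  refine ⟨2 * j + 2, fun n hn hsq => ?_⟩
  rcases Nat.mod_two_eq_zero_or_one n with h | h
  · have h5 := C_mod_eight_even hK h8 (show 2 ≤ n by omega) h
    obtain ⟨r, hr⟩ := hsq
    rw [hr, Nat.mul_mod] at h5
    have h6 : r % 8 < 8 := Nat.mod_lt _ (by norm_num)
    interval_cases h7 : r % 8 <;> omega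
  · exact not_square_eight hK h8 hj hje hn hbad hsq

end Pool.Agent.Lib.MP_e26d5c_nt.AG
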