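import Pool.Agent.Lib.MP_e26d5c_nt.AG.R9
import Pool.Agent.Lib.MP_e26d5c_nt.AG.R10

set_option autoImplicit false

namespace Pool.Agent.Lib.MP_e26d5c_nt.AG

private theorem R12_unit {K p n : ℕ} (hp : p.Prime) (hK : 0 < K) (h : p ∣ C K n) :
    ¬ p ∣ A K n * B K n := by
  intro h2
  have h3 := Nat.dvd_gcd h h2
  rw [Nat.Coprime.gcd_eq_one (coprime_C_AB hK n)] at h3
  exact hp.one_lt.ne' (Nat.dvd_one.1 h3)

private theorem R12_natAbs (K m : ℕ) : ((A K m : ℤ) ^ 2 - (B K m : ℤ) ^ 2).natAbs =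
    ((A K m : ℤ) - 1 * B K m).natAbs * ((A K m : ℤ) - (-1) * B K m).natAbs := by
  rw [← Int.natAbs_mul]
  congr 1
  ring

/-- the modulus is odd -/
private theorem R12_odd {K m : ℕ} (hK : K % 8 = 4) (hm : 2 ≤ m) :
    Odd ((A K m : ℤ) ^ 2 - (B K m : ℤ) ^ 2).natAbs := by
  rw [Nat.odd_iff]
  rcases two_sq_diff hK hm with h | h <;> omega

private theorem R12_odd2 {K m : ℕ} (hK : K % 8 = 4) (hm : 2 ≤ m) :
    Odd ((A K m : ℤ) - 1 * B K m).natAbs ∧ Odd ((A K m : ℤ) - (-1) * B K m).natAbs := by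
  have h := R12_odd hK hm
  rw [R12_natAbs, Nat.odd_mul] at h
  exact h

private theorem R12_ne {K m : ℕ} (hK : K % 8 = 4) (hm : 2 ≤ m) :
    ((A K m : ℤ) ^ 2 - (B K m : ℤ) ^ 2).natAbs ≠ 0 := by
  intro h
  have := R12_odd hK hm
  rw [h] at this
  exact absurd this (by decide)

/-- for `M = |A_m^2 - B_m^2|` prime to `p`, `n = q m + j`: `J(C_n|M) = J(C_j|M)`.
PROOF: `M = |A_m - B_m| |A_m + B_m|` (`Int.natAbs_mul`, `jacobiSym.mul_right`), `per_M0` with `e = 1`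
and `e = -1`; both factors are odd (`two_sq_diff`). -/
theorem per_diff {K m p : ℕ} (hK : K % 8 = 4) (hm : 2 ≤ m) (ho : OnlyBad K p)
    (hpM : p ∣ K → ¬ p ∣ ((A K m : ℤ) ^ 2 - (B K m : ℤ) ^ 2).natAbs) (q j : ℕ) :
    jacobiSym (C K (q * m + j) : ℤ) ((A K m : ℤ) ^ 2 - (B K m : ℤ) ^ 2).natAbs =
      jacobiSym (C K j : ℤ) ((A K m : ℤ) ^ 2 - (B K m : ℤ) ^ 2).natAbs := by
  have hK0 : 0 < K := by omega
  obtain ⟨ho1, ho2⟩ := R12_odd2 hK hm
  have hne := R12_ne hK hm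
  rw [R12_natAbs] at hpM hne
  have hne1 := left_ne_zero_of_mul hne
  have hne2 := right_ne_zero_of_mul hne
  rw [R12_natAbs, jacobiSym.mul_right' _ hne1 hne2, jacobiSym.mul_right' _ hne1 hne2]
  rw [per_M0 (p := p) hK0 (by norm_num : (1 : ℤ) ^ 2 = 1) ho1 ho
    (Int.natAbs_dvd.2 (dvd_refl _)) (fun h h2 => hpM h (Dvd.dvd.mul_right h2 _)) q j,
    per_M0 (p := p) hK0 (by norm_num : (-1 : ℤ) ^ 2 = 1) ho2 ho
    (Int.natAbs_dvd.2 (dvd_refl _)) (fun h h2 => hpM h (Dvd.dvd.mul_left h2 _)) q j]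

/-- nonvanishing.  PROOF: let `l` be a prime dividing `M` and `C_n`; `l` is odd and not `p`
(if `l = p ∣ K`: `hpM`); good primes do not divide `C_n`, so `l ∤ K`; `per0` at `l`:
`J(C_j|l) = J(C_n|l) = 0`, so `l ∣ C_j` and `j ≠ n`: `not_dvd_C` (for `j = 0`: `C_0 = 2`). -/
theorem diff_coprime {K m p n q j : ℕ} (hK : K % 8 = 4) (hm : 2 ≤ m) (hp : p.Prime) (hp2 : p ≠ 2)
    (ho : OnlyBad K p)
    (hpM : p ∣ K → ¬ p ∣ ((A K m : ℤ) ^ 2 - (B K m : ℤ) ^ 2).natAbs)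
    (hn : n = q * m + j) (hjn : j < n) (hn1 : 1 ≤ n) :
    Nat.Coprime (C K n) ((A K m : ℤ) ^ 2 - (B K m : ℤ) ^ 2).natAbs := by
  have hK0 : 0 < K := by omega
  by_contra hcon
  obtain ⟨l, hl, h1, h2⟩ := Nat.Prime.not_coprime_iff_dvd.1 hcon
  have hlodd : Odd l := Odd.of_dvd_nat (R12_odd hK hm) h2
  have hl2 : l ≠ 2 := by
    intro h
    rw [h] at hlodd
    exact absurd hlodd (by decide)
  have hlp : p ∣ K → ¬ p ∣ l := by
    intro h3 h4
    exact hpM h3 (Dvd.dvd.trans h4 h2)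
  have hlK : ¬ l ∣ K := by
    intro h3
    have hne : l ≠ p := by
      intro h4
      rw [h4] at h3 hlp
      exact hlp h3 (dvd_refl _)
    exact ho l hl hl2 hne h3 ⟨n, hn1, h1⟩
  have h5 : jacobiSym (C K (q * m + j) : ℤ) l = jacobiSym (C K j : ℤ) l := by
    rw [R12_natAbs] at h2
    rcases (Nat.Prime.dvd_mul hl).1 h2 with h3 | h3
    · exact per_M0 (p := p) hK0 (by norm_num : (1 : ℤ) ^ 2 = 1) hlodd ho
        (Int.natCast_dvd.2 h3) hlp q j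
    · exact per_M0 (p := p) hK0 (by norm_num : (-1 : ℤ) ^ 2 = 1) hlodd ho
        (Int.natCast_dvd.2 h3) hlp q j
  rw [← hn] at h5
  have : NeZero l := ⟨hl.ne_zero⟩
  have h6 : jacobiSym (C K n : ℤ) l = 0 := by
    rw [jacobiSym.eq_zero_iff_not_coprime, Int.gcd_natCast_natCast]
    intro h7
    exact (Nat.Prime.coprime_iff_not_dvd hl).1 (Nat.Coprime.symm h7) h1
  rw [h6] at h5
  have h7 := jacobiSym.eq_zero_iff_not_coprime.1 h5.symm
  rw [Int.gcd_natCast_natCast] at h7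
  have h8 : l ∣ C K j := by
    by_contra h9
    exact h7 (Nat.Coprime.symm ((Nat.Prime.coprime_iff_not_dvd hl).2 h9))
  exact not_dvd_C hK0 hl hlK h8 (by omega) h1

private theorem R12_mod_sq {Q : ℕ} {x y : ℤ} (h : (Q : ℤ) ∣ x - y) :
    jacobiSym x Q = jacobiSym y Q :=
  jacobiSym.mod_left' (Int.emod_eq_emod_iff_emod_sub_eq_zero.2 (Int.emod_eq_zero_of_dvd h))

/-- the symbol of `A^2 - B^2` at a divisor of `A` or `B` which is `1 (mod 4)` -/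
private theorem R12_sym {Q a b : ℕ} (hQ : Q % 4 = 1) (hab : Nat.Coprime a b)
    (h : Q ∣ a ∨ Q ∣ b) : jacobiSym ((a : ℤ) ^ 2 - (b : ℤ) ^ 2) Q = 1 := by
  have hodd : Odd Q := Nat.odd_iff.2 (by omega)
  rcases h with h | h
  · have h1 : jacobiSym ((a : ℤ) ^ 2 - (b : ℤ) ^ 2) Q = jacobiSym (-((b : ℤ) ^ 2)) Q := by
      apply R12_mod_sq
      have : (a : ℤ) ^ 2 - (b : ℤ) ^ 2 - -((b : ℤ) ^ 2) = (a : ℤ) * a := by ring
      rw [this]
      exact Dvd.dvd.mul_right (Int.natCast_dvd_natCast.2 h) _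
    rw [h1, jacobiSym.neg _ hodd, ZMod.χ₄_nat_one_mod_four hQ, one_mul, jacobiSym.sq_one']
    rw [Int.gcd_natCast_natCast]
    exact Nat.Coprime.symm (Nat.Coprime.coprime_dvd_left h hab)
  · have h1 : jacobiSym ((a : ℤ) ^ 2 - (b : ℤ) ^ 2) Q = jacobiSym ((a : ℤ) ^ 2) Q := by
      apply R12_mod_sq
      have : (a : ℤ) ^ 2 - (b : ℤ) ^ 2 - (a : ℤ) ^ 2 = (b : ℤ) * (-b) := by ring
      rw [this]
      exact Dvd.dvd.mul_right (Int.natCast_dvd_natCast.2 h) _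
    rw [h1, jacobiSym.sq_one']
    rw [Int.gcd_natCast_natCast]
    exact Nat.Coprime.coprime_dvd_right h hab

/-- `J(C_n|M) = J(p|M)` for `C_n = p s^2` coprime to `M` -/
private theorem R12_ps {c p s M : ℕ} (hc : c = p * s ^ 2) (hcop : Nat.Coprime c M) :
    jacobiSym (c : ℤ) M = jacobiSym (p : ℤ) M := by
  rw [hc] at hcop ⊢
  have h1 : Nat.Coprime s M := by
    have h2 := Nat.Coprime.coprime_mul_left hcop
    exact Nat.Coprime.coprime_dvd_left (dvd_pow_self s (by norm_num)) h2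
  push_cast
  rw [jacobiSym.mul_left, jacobiSym.sq_one', mul_one]
  rw [Int.gcd_natCast_natCast]
  exact h1

/-- (K1).  PROOF: suppose `f = v_p(C_j)` is even.  `M := |A_m^2 - B_m^2|`; `p ∤ M` because
`A_m^2 ≡ -B_m^2`, so `A_m^2 - B_m^2 ≡ -2 B_m^2 (mod p)`, `p ∤ 2 B_m`.  `J(p|M) = J(M|p)` (reciprocity,
`p ≡ 1 (mod 4)`) `= J(-2 B_m^2|p) = J(2|p) = -1`.  On the other side
`J(p|M) = J(C_n|M)` (`C_n = p s^2`, `diff_coprime`) `= J(C_j|M)` (`per_diff`) `= J(p|M)^f J(C'|M) = J(C'|M)`,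
`C' = pf p C_j`, and `J(C'|M) = J(A_m^2 - B_m^2|C')` (`recip_int`) `= 1`: `C'` divides `B_m` (`j+2 ≤ m`,
`dvd_B`) or `A_m` (`m = j+1`, `dvd_A_succ`), `C'` is coprime to `K` and `≡ 1 (mod 4)`.  Contradiction. -/
theorem K1 {K p n s m q j : ℕ} (hK : K % 8 = 4) (hp : p.Prime) (hp5 : p % 8 = 5) (hpK : p ∣ K)
    (ho : OnlyBad K p) (hn : C K n = p * s ^ 2) (hm : 2 ≤ m) (hCm : p ∣ C K m)
    (hj : 1 ≤ j) (hjm : j < m) (hq : 1 ≤ q) (hnq : n = q * m + j) :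
    Odd (padicValNat p (C K j)) := by
  have hK0 : 0 < K := by omega
  have h4 : 4 ∣ K := Nat.dvd_of_mod_eq_zero (by omega)
  have hp2 : p ≠ 2 := by omega
  by_contra hf
  rw [Nat.not_odd_iff_even] at hf
  have hMo := R12_odd hK hm
  have hMo' : Odd ((A K m : ℤ) ^ 2 - (B K m : ℤ) ^ 2) := Int.natAbs_odd.1 hMo
  have hu := R12_unit hp hK0 hCm
  have hpA : ¬ p ∣ A K m := fun h => hu (Dvd.dvd.mul_right h _)
  -- the symbol of p at M
  have hJ : jacobiSym (p : ℤ) ((A K m : ℤ) ^ 2 - (B K m : ℤ) ^ 2).natAbs = -1 := by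
    rw [recip_int (by omega) hMo']
    have h1 : jacobiSym ((A K m : ℤ) ^ 2 - (B K m : ℤ) ^ 2) p =
        jacobiSym (2 * (A K m : ℤ) ^ 2) p := by
      apply R12_mod_sq
      have : (A K m : ℤ) ^ 2 - (B K m : ℤ) ^ 2 - 2 * (A K m : ℤ) ^ 2 = (C K m : ℤ) * (-1) := by
        simp only [C]
        push_cast
        ring
      rw [this]
      exact Dvd.dvd.mul_right (Int.natCast_dvd_natCast.2 hCm) _
    rw [h1, jacobiSym.mul_left, jacobiSym.sq_one', mul_one, jac_two_neg (Or.inl hp5)]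
    rw [Int.gcd_natCast_natCast]
    exact Nat.Coprime.symm ((Nat.Prime.coprime_iff_not_dvd hp).2 hpA)
  have hpM : ¬ p ∣ ((A K m : ℤ) ^ 2 - (B K m : ℤ) ^ 2).natAbs := by
    intro h
    have : NeZero ((A K m : ℤ) ^ 2 - (B K m : ℤ) ^ 2).natAbs := ⟨R12_ne hK hm⟩
    have h2 : jacobiSym (p : ℤ) ((A K m : ℤ) ^ 2 - (B K m : ℤ) ^ 2).natAbs = 0 := by
      rw [jacobiSym.eq_zero_iff_not_coprime, Int.gcd_natCast_natCast]
      intro h3
      exact (Nat.Prime.coprime_iff_not_dvd hp).1 h3 h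
    rw [hJ] at h2
    norm_num at h2
  have hqm : m ≤ q * m := Nat.le_mul_of_pos_left m (by omega)
  have hcop := diff_coprime hK hm hp hp2 ho (fun _ => hpM) hnq (by omega) (by omega)
  have h1 := R12_ps hn hcop
  have h2 := per_diff hK hm ho (fun _ => hpM) q j
  rw [← hnq, h1, hJ] at h2
  -- the p-free part of C_j
  have hC'ne : C K j ≠ 0 := (C_pos hK0 j).ne'
  have hCodd : C K j % 2 = 1 := by
    rcases Nat.lt_or_ge j 2 with h | h
    · have : j = 1 := by omega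
      rw [this, C_one]
      omega
    · have := C_mod_four hK h
      omega
  have hpfodd : Odd (pf p (C K j)) := Odd.of_dvd_nat (Nat.odd_iff.2 hCodd) (pf_dvd p _)
  have hpf4 : pf p (C K j) % 4 = 1 := mod_four_of_dvd_C hK0 (pf_dvd p _) hpfodd
  have h3 : jacobiSym (C K j : ℤ) ((A K m : ℤ) ^ 2 - (B K m : ℤ) ^ 2).natAbs =
      jacobiSym (pf p (C K j) : ℤ) ((A K m : ℤ) ^ 2 - (B K m : ℤ) ^ 2).natAbs := by
    conv_lhs => rw [← pf_mul p (C K j)]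
    push_cast
    rw [jacobiSym.mul_left, jacobiSym.pow_left, hJ, hf.neg_one_pow, one_mul]
  have h5 := pf_C_coprime hK0 h4 hp hp2 ho hj
  have h6 : jacobiSym (pf p (C K j) : ℤ) ((A K m : ℤ) ^ 2 - (B K m : ℤ) ^ 2).natAbs = 1 := by
    rw [recip_int hpf4 hMo']
    apply R12_sym hpf4 (coprime_AB hK0 m)
    rcases Nat.lt_or_ge (j + 1) m with h | h
    · exact Or.inr (dvd_B h5 (pf_dvd p _) (by omega))
    · have : m = j + 1 := by omega
      rw [this]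
      exact Or.inl (dvd_A_succ h5 (pf_dvd p _))
  rw [h3, h6] at h2
  norm_num at h2

/-- (K3).  PROOF: suppose `m` is not a unit.  `M := |A_m^2 - B_m^2| ≡ 3, 5 (mod 8)` (`two_sq_diff`), prime to
`p` (exactly one of `A_m, B_m` is divisible by `p`).  `J(p|M) = J(M|p) = J(±square|p) = 1`
(`p ≡ 1 (mod 4)`); `J(p|M) = J(C_n|M) = J(C_0|M) = J(2|M) = -1` (`per_diff` with `j = 0`, `n = q m + 0`,
`diff_coprime`, `jac_two_neg`).  Contradiction. -/
theorem K3 {K p n s m q : ℕ} (hK : K % 8 = 4) (hp : p.Prime) (hp5 : p % 8 = 5) (hpK : p ∣ K)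
    (ho : OnlyBad K p) (hn : C K n = p * s ^ 2) (hm : 2 ≤ m) (hq : 2 ≤ q) (hnq : n = q * m) :
    ¬ p ∣ A K m * B K m := by
  have hK0 : 0 < K := by omega
  have hp2 : p ≠ 2 := by omega
  intro hAB
  have hMo := R12_odd hK hm
  have hMo' : Odd ((A K m : ℤ) ^ 2 - (B K m : ℤ) ^ 2) := Int.natAbs_odd.1 hMo
  have hJ : jacobiSym (p : ℤ) ((A K m : ℤ) ^ 2 - (B K m : ℤ) ^ 2).natAbs = 1 := by
    rw [recip_int (by omega) hMo']
    exact R12_sym (by omega) (coprime_AB hK0 m) ((Nat.Prime.dvd_mul hp).1 hAB)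
  have hpM : ¬ p ∣ ((A K m : ℤ) ^ 2 - (B K m : ℤ) ^ 2).natAbs := by
    intro h
    have : NeZero ((A K m : ℤ) ^ 2 - (B K m : ℤ) ^ 2).natAbs := ⟨R12_ne hK hm⟩
    have h2 : jacobiSym (p : ℤ) ((A K m : ℤ) ^ 2 - (B K m : ℤ) ^ 2).natAbs = 0 := by
      rw [jacobiSym.eq_zero_iff_not_coprime, Int.gcd_natCast_natCast]
      intro h3
      exact (Nat.Prime.coprime_iff_not_dvd hp).1 h3 h
    rw [hJ] at h2
    norm_num at h2
  have hqm : 2 * 2 ≤ q * m := Nat.mul_le_mul hq hm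
  have hcop := diff_coprime (j := 0) hK hm hp hp2 ho (fun _ => hpM) (by omega : n = q * m + 0)
    (by omega) (by omega)
  have h1 := R12_ps hn hcop
  have h2 := per_diff hK hm ho (fun _ => hpM) q 0
  rw [Nat.add_zero, ← hnq, h1, hJ, C_zero] at h2
  have h3 : jacobiSym ((2 : ℕ) : ℤ) ((A K m : ℤ) ^ 2 - (B K m : ℤ) ^ 2).natAbs = -1 := by
    have := jac_two_neg (Q := ((A K m : ℤ) ^ 2 - (B K m : ℤ) ^ 2).natAbs)
      ((two_sq_diff hK hm).symm)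
    exact_mod_cast this
  rw [h3] at h2
  norm_num at h2

/-- (K2).  PROOF: `pairH_even`; `C_j ≡ 5 (mod 8)` (`C_mod_four`), so `pf p C_j ≡ 5 (mod 8)`
(`pf_mod_eight`) and `J(2|..) = -1`; reciprocity between `p` (`≡ 1 (mod 4)`) and the odd number
`M0 M1`. -/
theorem K2 {K p n s m q j : ℕ} {e : ℤ} (hK : K % 8 = 4) (hp : p.Prime) (hp5 : p % 8 = 5)
    (hpK : p ∣ K) (ho : OnlyBad K p) (hn : C K n = p * s ^ 2) (he : e ^ 2 = 1) (hm : 3 ≤ m)
    (hj : 2 ≤ j) (hjm : j + 2 ≤ m) (hq : 1 ≤ q) (hnq : n = q * m + j)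
    (hf : Even (padicValNat p (C K j))) :
    jacobiSym ((M0 K p m e * M1 K p m e : ℕ) : ℤ) p = -1 := by
  have hK0 : 0 < K := by omega
  have h4 : 4 ∣ K := Nat.dvd_of_mod_eq_zero (by omega)
  have hp2 : p ≠ 2 := by omega
  obtain ⟨hL0, hL1⟩ := two_L hK0 h4 hm he
  have hM0 : Odd (M0 K p m e) := Odd.of_dvd_nat (Int.natAbs_odd.2 hL0) (pf_dvd p _)
  have hM1 : Odd (M1 K p m e) := Odd.of_dvd_nat (Int.natAbs_odd.2 hL1) (pf_dvd p _)
  have h1 := pairH_even hK0 h4 hp hp2 hpK ho hn he hm hj hjm hq hnq hf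
  have h2 : pf p (C K j) % 8 = 5 := by
    rw [pf_mod_eight (hp.odd_of_ne_two hp2) (C_pos hK0 j).ne' hf, C_mod_four hK hj]
  rw [jac_two_neg (Or.inl h2)] at h1
  rw [← h1]
  exact (jacobiSym.quadratic_reciprocity_one_mod_four (by omega) (hM0.mul hM1)).symm

end Pool.Agent.Lib.MP_e26d5c_nt.AG
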