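import Pool.Agent.Lib.MP_e26d5c_nt.AG.R9
import Pool.Agent.Lib.MP_e26d5c_nt.AG.R10

set_option autoImplicit false

namespace Pool.Agent.Lib.MP_e26d5c_nt.AG

private def ch (p x : ℕ) : ℤ := jacobiSym (x : ℤ) p

private theorem one_le_v {p K : ℕ} (hp : p.Prime) (hK : 0 < K) (hpK : p ∣ K) :
    1 ≤ padicValNat p K := by
  have : Fact p.Prime := ⟨hp⟩
  exact one_le_padicValNat_of_dvd hK.ne' hpK

private theorem ch_mul (p x y : ℕ) : ch p (x * y) = ch p x * ch p y := by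
  unfold ch
  push_cast
  exact jacobiSym.mul_left _ _ _

private theorem coprime_of_not_dvd {p : ℕ} (hp : p.Prime) {x : ℤ} (h : ¬ (p : ℤ) ∣ x) :
    x.gcd p = 1 := by
  rw [Int.gcd_comm, ← Int.isCoprime_iff_gcd_eq_one]
  exact (Nat.prime_iff_prime_int.1 hp).coprime_iff_not_dvd.2 h

private theorem ch_pm {p x : ℕ} (hp : p.Prime) (h : ¬ p ∣ x) : ch p x = 1 ∨ ch p x = -1 := by
  apply jacobiSym.eq_one_or_neg_one
  apply coprime_of_not_dvd hp
  rwa [Int.natCast_dvd_natCast]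

private theorem ch_sq {p x : ℕ} (hp : p.Prime) (h : ¬ p ∣ x) : ch p x * ch p x = 1 := by
  rcases ch_pm hp h with h | h <;> rw [h] <;> norm_num

private theorem pm_sq {x : ℤ} (h : x = 1 ∨ x = -1) : x * x = 1 := by
  rcases h with h | h <;> rw [h] <;> norm_num

private theorem pf_self {p n : ℕ} (h : ¬ p ∣ n) : pf p n = n := by
  unfold pf
  rw [padicValNat.eq_zero_of_not_dvd h, pow_zero, Nat.div_one]

private theorem pf_pow_mul {p n k : ℕ} (hp : p.Prime) (h : ¬ p ∣ n) : pf p (p ^ k * n) = n := by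
  have hn : n ≠ 0 := by
    rintro rfl
    exact h (dvd_zero p)
  have : Fact p.Prime := ⟨hp⟩
  unfold pf
  rw [padicValNat.mul (pow_ne_zero _ hp.ne_zero) hn, padicValNat.prime_pow,
    padicValNat.eq_zero_of_not_dvd h, add_zero]
  exact Nat.mul_div_cancel_left _ (pow_pos hp.pos _)

private theorem pf_mul_mul {p x y : ℕ} (hp : p.Prime) (hx : x ≠ 0) (hy : y ≠ 0) :
    pf p (x * y) = pf p x * pf p y := by
  have h1 := pf_mul p x
  have h2 := pf_mul p y
  have h3 : x * y = p ^ (padicValNat p x + padicValNat p y) * (pf p x * pf p y) := by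
    rw [pow_add]
    calc x * y = (p ^ padicValNat p x * pf p x) * (p ^ padicValNat p y * pf p y) := by rw [h1, h2]
      _ = _ := by ring
  rw [h3]
  apply pf_pow_mul hp
  intro h
  rcases hp.dvd_mul.1 h with h | h
  · exact not_dvd_pf hp hx h
  · exact not_dvd_pf hp hy h

private theorem neg_one_sym {p : ℕ} (hp4 : p % 4 = 1) : jacobiSym (-1) p = 1 := by
  rw [jacobiSym.at_neg_one (Nat.odd_iff.2 (by omega)), ZMod.χ₄_nat_one_mod_four hp4]

private theorem neg_sym {p : ℕ} (hp4 : p % 4 = 1) (x : ℤ) : jacobiSym (-x) p = jacobiSym x p := by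
  rw [show (-x : ℤ) = -1 * x by ring, jacobiSym.mul_left, neg_one_sym hp4, one_mul]

private theorem e_sym {p : ℕ} (hp4 : p % 4 = 1) {e : ℤ} (he : e ^ 2 = 1) (x : ℤ) :
    jacobiSym (-(e * x)) p = jacobiSym x p := by
  have h : e = 1 ∨ e = -1 := by
    have h0 : (e - 1) * (e + 1) = 0 := by linear_combination he
    rcases mul_eq_zero.1 h0 with h | h
    · left; omega
    · right; omega
  rcases h with rfl | rfl
  · rw [one_mul, neg_sym hp4]
  · rw [neg_one_mul, neg_neg]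

private theorem natAbs_sym {p : ℕ} (hp4 : p % 4 = 1) (x : ℤ) :
    jacobiSym (x.natAbs : ℤ) p = jacobiSym x p := by
  rcases Int.natAbs_eq x with h | h
  · rw [← h]
  · conv_rhs => rw [h]
    rw [neg_sym hp4]

private theorem sym_congr {p : ℕ} {x y : ℤ} (h : (p : ℤ) ∣ x - y) : jacobiSym x p = jacobiSym y p := by
  apply jacobiSym.mod_left'
  exact (Int.modEq_iff_dvd.2 h).symm

private theorem sym_pf {p : ℕ} (hp4 : p % 4 = 1) {x y : ℤ} (h : (p : ℤ) ∣ x - y)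
    (hy : ¬ (p : ℤ) ∣ y) : jacobiSym ((pf p x.natAbs : ℕ) : ℤ) p = jacobiSym y p := by
  have hx : ¬ p ∣ x.natAbs := by
    rw [← Int.natCast_dvd]
    intro hx
    exact hy ((dvd_sub_right hx).1 h)
  rw [pf_self hx, natAbs_sym hp4]
  exact sym_congr h

private theorem rel_A {K p : ℕ} (hK : 0 < K) (hp : p.Prime) (n : ℕ) :
    ch p (pf p (A K (n + 1))) * ch p (pf p (Gg K n)) = ch p (pf p K) * ch p (pf p (C K n)) := by
  rw [← ch_mul, ← ch_mul, ← pf_mul_mul hp (A_pos hK _).ne' (Gg_pos hK _).ne',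
    ← pf_mul_mul hp hK.ne' (C_pos hK _).ne', A_succ]

private theorem rel_B {K p : ℕ} (hK : 0 < K) (hp : p.Prime) (n : ℕ) :
    ch p (pf p (B K (n + 1))) * ch p (pf p (Gg K n)) =
      ch p (pf p (A K n)) * ch p (pf p (B K n)) := by
  rw [← ch_mul, ← ch_mul, ← pf_mul_mul hp (B_pos hK _).ne' (Gg_pos hK _).ne',
    ← pf_mul_mul hp (A_pos hK _).ne' (B_pos hK _).ne', B_succ]

private theorem pmA {K p : ℕ} (hK : 0 < K) (hp : p.Prime) (n : ℕ) :
    ch p (pf p (A K n)) = 1 ∨ ch p (pf p (A K n)) = -1 :=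
  ch_pm hp (not_dvd_pf hp (A_pos hK n).ne')

private theorem pmB {K p : ℕ} (hK : 0 < K) (hp : p.Prime) (n : ℕ) :
    ch p (pf p (B K n)) = 1 ∨ ch p (pf p (B K n)) = -1 :=
  ch_pm hp (not_dvd_pf hp (B_pos hK n).ne')

private theorem pmC {K p : ℕ} (hK : 0 < K) (hp : p.Prime) (n : ℕ) :
    ch p (pf p (C K n)) = 1 ∨ ch p (pf p (C K n)) = -1 :=
  ch_pm hp (not_dvd_pf hp (C_pos hK n).ne')

private theorem pmG {K p : ℕ} (hK : 0 < K) (hp : p.Prime) (n : ℕ) :
    ch p (pf p (Gg K n)) = 1 ∨ ch p (pf p (Gg K n)) = -1 :=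
  ch_pm hp (not_dvd_pf hp (Gg_pos hK n).ne')

private theorem pmK {K p : ℕ} (hK : 0 < K) (hp : p.Prime) :
    ch p (pf p K) = 1 ∨ ch p (pf p K) = -1 :=
  ch_pm hp (not_dvd_pf hp hK.ne')

private theorem delta_nonunit {K p n : ℕ} (hK : 0 < K) (hp : p.Prime)
    (h : p ∣ A K n * B K n) : ch p (pf p (C K n)) = 1 := by
  have hC : ¬ p ∣ C K n := by
    intro h1
    have h2 := Nat.dvd_gcd h1 h
    rw [coprime_C_AB hK n] at h2
    exact hp.one_lt.ne' (Nat.dvd_one.1 h2)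
  rw [pf_self hC]
  have hsq : ∀ x y : ℕ, p ∣ x → ¬ p ∣ y → jacobiSym ((x ^ 2 + y ^ 2 : ℕ) : ℤ) p = 1 := by
    intro x y hx hy
    have h1 : jacobiSym ((x ^ 2 + y ^ 2 : ℕ) : ℤ) p = jacobiSym ((y : ℤ) ^ 2) p := by
      apply sym_congr
      push_cast
      rw [add_sub_cancel_right]
      exact Dvd.dvd.pow (Int.natCast_dvd_natCast.2 hx) (by norm_num)
    rw [h1, jacobiSym.pow_left, sq]
    exact ch_sq hp hy
  rcases hp.dvd_mul.1 h with h1 | h1
  · have h2 : ¬ p ∣ B K n := by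
      intro h2
      have h3 := Nat.dvd_gcd h1 h2
      rw [coprime_AB hK n] at h3
      exact hp.one_lt.ne' (Nat.dvd_one.1 h3)
    exact hsq _ _ h1 h2
  · have h2 : ¬ p ∣ A K n := by
      intro h2
      have h3 := Nat.dvd_gcd h2 h1
      rw [coprime_AB hK n] at h3
      exact hp.one_lt.ne' (Nat.dvd_one.1 h3)
    unfold ch C
    rw [add_comm]
    exact hsq _ _ h1 h2

private theorem unit_of_C {K p n : ℕ} (hK : 0 < K) (hp : p.Prime) (h : p ∣ C K n) :
    ¬ p ∣ A K n * B K n := by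
  intro h1
  have h2 := Nat.dvd_gcd h h1
  rw [coprime_C_AB hK n] at h2
  exact hp.one_lt.ne' (Nat.dvd_one.1 h2)

/-- the `p`-free part of `K G_{m-1} G_m` is a square, so the product of the symbols of the `p`-free
parts of the three factors is `1`.  PROOF: `KGG_form`: `pf p (K G G) = s^2`, `pf` is multiplicative
(`padicValNat.mul`), `p ∤ s`. -/
theorem jac_kgg {K p m : ℕ} (hK : 0 < K) (h4 : 4 ∣ K) (hp : p.Prime) (hp2 : p ≠ 2)
    (ho : OnlyBad K p) (hm : 3 ≤ m) :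
    jacobiSym (pf p K : ℤ) p * jacobiSym (pf p (Gg K (m - 1)) : ℤ) p *
      jacobiSym (pf p (Gg K m) : ℤ) p = 1 := by
  obtain ⟨s, hs⟩ := KGG_form hK h4 hp hp2 ho hm
  have hG1 := (Gg_pos hK (m - 1)).ne'
  have hG2 := (Gg_pos hK m).ne'
  have h1 := pf_mul p (K * Gg K (m - 1) * Gg K m)
  have h2 : pf p (K * Gg K (m - 1) * Gg K m) = s ^ 2 := by
    have h3 : p ^ padicValNat p (K * Gg K (m - 1) * Gg K m) * pf p (K * Gg K (m - 1) * Gg K m) =
        p ^ padicValNat p (K * Gg K (m - 1) * Gg K m) * s ^ 2 := h1.trans hs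
    exact Nat.eq_of_mul_eq_mul_left (pow_pos hp.pos _) h3
  have hns : ¬ p ∣ s := by
    intro h
    apply not_dvd_pf hp (mul_ne_zero (mul_ne_zero hK.ne' hG1) hG2)
    rw [h2]
    exact Dvd.dvd.pow h (by norm_num)
  have h3 : ch p (pf p K) * ch p (pf p (Gg K (m - 1))) * ch p (pf p (Gg K m)) = 1 := by
    rw [← ch_mul, ← ch_mul, ← pf_mul_mul hp hK.ne' hG1, ← pf_mul_mul hp (mul_ne_zero hK.ne' hG1) hG2,
      h2, sq, ch_mul]
    exact ch_sq hp hns
  exact h3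

/-- PROOF: `p ∤ A B`, `A^2 ≡ -B^2 (mod p)`: `(A B)^2 ≡ -B^4`; `i := A/B` has `i^2 = -1`, `J(i|p) = i^{(p-1)/2} =
(-1)^{(p-1)/4} = -1` (Euler's criterion `legendreSym.eq_pow`, `(p-1)/4` odd), `A B = i B^2`. -/
theorem jac_AB_bad {K p N : ℕ} (hK : 0 < K) (hp : p.Prime) (hp5 : p % 8 = 5) (hC : p ∣ C K N) :
    jacobiSym ((A K N * B K N : ℕ) : ℤ) p = -1 := by
  have : Fact p.Prime := ⟨hp⟩
  have hu := unit_of_C hK hp hC
  have hB : ¬ p ∣ B K N := fun h => hu (h.mul_left _)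
  have hB0 : (B K N : ZMod p) ≠ 0 := by
    rwa [Ne, ZMod.natCast_eq_zero_iff]
  have hC0 : (A K N : ZMod p) ^ 2 + (B K N : ZMod p) ^ 2 = 0 := by
    have h := (ZMod.natCast_eq_zero_iff (C K N) p).2 hC
    unfold C at h
    push_cast at h
    exact h
  have hpm := ch_pm hp hu
  rcases hpm with h | h
  · exfalso
    have h1 : legendreSym p ((A K N * B K N : ℕ) : ℤ) = 1 := by
      rw [jacobiSym.legendreSym.to_jacobiSym]
      exact h
    have h2 := legendreSym.eq_pow p ((A K N * B K N : ℕ) : ℤ)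
    rw [h1] at h2
    obtain ⟨w, hw⟩ : ∃ w, p = 8 * w + 5 := ⟨p / 8, by omega⟩
    have h3 : p / 2 = 2 * (2 * w + 1) := by omega
    have h4 : p - 1 = 4 * (2 * w + 1) := by omega
    have h5 : (((A K N * B K N : ℕ) : ℤ) : ZMod p) ^ (p / 2) = -1 := by
      have h6 : ((((A K N * B K N : ℕ) : ℤ) : ZMod p)) ^ 2 = -(B K N : ZMod p) ^ 4 := by
        push_cast
        linear_combination (B K N : ZMod p) ^ 2 * hC0
      rw [h3, pow_mul, h6, neg_pow, ← pow_mul, ← h4, ZMod.pow_card_sub_one_eq_one hB0, mul_one]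
      exact Odd.neg_one_pow ⟨w, rfl⟩
    rw [h5] at h2
    push_cast at h2
    have h7 : ((2 : ℕ) : ZMod p) = 0 := by
      push_cast
      linear_combination h2
    rw [ZMod.natCast_eq_zero_iff] at h7
    have := Nat.le_of_dvd (by norm_num) h7
    omega
  · exact h

private theorem eB_not_dvd {p : ℕ} {e : ℤ} (he : e ^ 2 = 1) {x : ℕ} (h : ¬ p ∣ x) :
    ¬ (p : ℤ) ∣ -(e * x) := by
  intro h1
  rw [dvd_neg] at h1
  have h2 : (p : ℤ) ∣ e * (e * x) := h1.mul_left _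
  have h3 : e * (e * x) = x := by linear_combination (x : ℤ) * he
  rw [h3, Int.natCast_dvd_natCast] at h2
  exact h h2

private theorem chM0_B {K p m : ℕ} {e : ℤ} (hp4 : p % 4 = 1) (he : e ^ 2 = 1)
    (hA : p ∣ A K m) (hB : ¬ p ∣ B K m) : ch p (M0 K p m e) = ch p (pf p (B K m)) := by
  unfold M0 ch
  rw [sym_pf hp4 (y := -(e * B K m)) ?_ (eB_not_dvd he hB), e_sym hp4 he, pf_self hB]
  have : ((A K m : ℤ) - e * B K m) - -(e * B K m) = (A K m : ℤ) := by ring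
  rw [this, Int.natCast_dvd_natCast]
  exact hA

private theorem chM0_A {K p m : ℕ} {e : ℤ} (hp4 : p % 4 = 1)
    (hA : ¬ p ∣ A K m) (hB : p ∣ B K m) : ch p (M0 K p m e) = ch p (pf p (A K m)) := by
  unfold M0 ch
  rw [sym_pf hp4 (y := (A K m : ℤ)) ?_ (by rwa [Int.natCast_dvd_natCast]), pf_self hA]
  have h1 : ((A K m : ℤ) - e * B K m) - (A K m : ℤ) = -e * (B K m : ℤ) := by ring
  rw [h1]
  exact (Int.natCast_dvd_natCast.2 hB).mul_left _

private theorem chM1_B {K p m : ℕ} {e : ℤ} (hp4 : p % 4 = 1) (hpK : p ∣ K)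
    (he : e ^ 2 = 1) (hB : ¬ p ∣ B K (m + 1)) : ch p (M1 K p m e) = ch p (pf p (B K (m + 1))) := by
  unfold M1 ch
  rw [sym_pf hp4 (y := -(e * B K (m + 1))) ?_ (eB_not_dvd he hB), e_sym hp4 he, pf_self hB]
  have : (2 * (K : ℤ) * A K (m + 1) - e * B K (m + 1)) - -(e * B K (m + 1)) =
    (K : ℤ) * (2 * (A K (m + 1) : ℤ)) := by ring
  rw [this]
  exact (Int.natCast_dvd_natCast.2 hpK).mul_right _

private theorem pm_alg1 {k g g' a b b' d : ℤ} (hk : k = 1 ∨ k = -1) (hg : g = 1 ∨ g = -1)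
    (hg' : g' = 1 ∨ g' = -1) (ha : a = 1 ∨ a = -1) (hb : b = 1 ∨ b = -1) (hb' : b' = 1 ∨ b' = -1)
    (hd : d = 1 ∨ d = -1) (h1 : k * g * g' = 1) (h2 : a * g = k * d) (h3 : b' * g' = a * b) :
    b * b' = d := by
  rcases hk with rfl | rfl <;> rcases hg with rfl | rfl <;> rcases hg' with rfl | rfl <;>
    rcases ha with rfl | rfl <;> rcases hb with rfl | rfl <;> rcases hb' with rfl | rfl <;>
    rcases hd with rfl | rfl <;> first | rfl | (exfalso; revert h1 h2 h3; decide)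

private theorem pm_alg3 {k g g' a b b' : ℤ} (hk : k = 1 ∨ k = -1) (hg : g = 1 ∨ g = -1)
    (hg' : g' = 1 ∨ g' = -1) (ha : a = 1 ∨ a = -1) (hb : b = 1 ∨ b = -1) (hb' : b' = 1 ∨ b' = -1)
    (h1 : k * g * g' = 1) (h2 : a * g = k) (h3 : b' * g' = a * b) :
    a * b' = a * b := by
  rcases hk with rfl | rfl <;> rcases hg with rfl | rfl <;> rcases hg' with rfl | rfl <;>
    rcases ha with rfl | rfl <;> rcases hb with rfl | rfl <;> rcases hb' with rfl | rfl <;>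
    first | rfl | (exfalso; revert h1 h2 h3; decide)

private theorem pm_alg2 {k g g' b a' : ℤ} (hk : k = 1 ∨ k = -1) (hg : g = 1 ∨ g = -1)
    (hg' : g' = 1 ∨ g' = -1) (hb : b = 1 ∨ b = -1) (ha' : a' = 1 ∨ a' = -1)
    (h1 : k * g * g' = 1) (h2 : b * g = -1) (h3 : a' * g' = k) :
    b * (-(k * a')) = k := by
  rcases hk with rfl | rfl <;> rcases hg with rfl | rfl <;> rcases hg' with rfl | rfl <;>
    rcases hb with rfl | rfl <;> rcases ha' with rfl | rfl <;>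
    first | rfl | (exfalso; revert h1 h2 h3; decide)

/-- the moduli when `v_p(A_m) = e = v_p(K)` (so `p ∤ B_m`), `p ∤ C_{m-1}`, `m - 1` a unit.
PROOF (paper K2a): `i = m-1`.  `A_m G_i = K C_i`: `pf A_m * G_i = k' C_i` (`k' = pf p K`, `p ∤ G_i`);
`v(G_m) = e`, `B_{m+1} pf(G_m) = pf(A_m) B_m` so `p ∤ B_{m+1}`.  `A_m - e B_m ≡ -e B_m`,
`2K A_{m+1} - e B_{m+1} ≡ -e B_{m+1}` modulo `p` are prime to `p`, so `M0`, `M1` are their absolute
values, and `J(-1|p) = 1`: `J(M0 M1|p) = J(B_m B_{m+1}|p) = J(B_m^2 pf(A_m) pf(G_m)|p)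
= J(k' C_i G_i pf(G_m)|p) = J(C_i|p)` (`jac_kgg`). -/
theorem K2a {K p m : ℕ} {e : ℤ} (hK : 0 < K) (h4 : 4 ∣ K) (hp : p.Prime) (hp4 : p % 4 = 1)
    (hpK : p ∣ K) (ho : OnlyBad K p) (he : e ^ 2 = 1) (hm : 3 ≤ m)
    (hu : ¬ p ∣ A K (m - 1) * B K (m - 1)) (hC : ¬ p ∣ C K (m - 1)) :
    jacobiSym ((M0 K p m e * M1 K p m e : ℕ) : ℤ) p = jacobiSym (C K (m - 1) : ℤ) p := by
  have hp2 : p ≠ 2 := by rintro rfl; omega
  obtain ⟨i, rfl⟩ : ∃ i, m = i + 1 := ⟨m - 1, by omega⟩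
  rw [Nat.add_sub_cancel] at hu hC ⊢
  obtain ⟨hvA, hB1⟩ := unit_step hp hK hu hC
  obtain ⟨hu2, -⟩ := unit_two hp hK hpK hu hC
  have hA1 : p ∣ A K (i + 1) := by
    by_contra h
    rw [padicValNat.eq_zero_of_not_dvd h] at hvA
    have := one_le_v hp hK hpK
    omega
  have hB2 : ¬ p ∣ B K (i + 1 + 1) := fun h => hu2 (h.mul_left _)
  have hk := jac_kgg hK h4 hp hp2 ho hm
  rw [Nat.add_sub_cancel] at hk
  have r1 := rel_A (K := K) hK hp i
  have r2 := rel_B (K := K) hK hp (i + 1)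
  have c0 := chM0_B (e := e) hp4 he hA1 hB1
  have c1 := chM1_B (m := i + 1) hp4 hpK he hB2
  rw [pf_self hC] at r1
  have hCpm := ch_pm hp hC
  change ch p (M0 K p (i + 1) e * M1 K p (i + 1) e) = ch p (C K i)
  change ch p (pf p K) * ch p (pf p (Gg K i)) * ch p (pf p (Gg K (i + 1))) = 1 at hk
  rw [ch_mul, c0, c1]
  exact pm_alg1 (pmK hK hp) (pmG hK hp i) (pmG hK hp (i + 1)) (pmA hK hp (i + 1)) (pmB hK hp (i + 1))
    (pmB hK hp (i + 1 + 1)) hCpm hk r1 r2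

/-- PROOF (paper K2b): `N = m - 1`, `k' = pf p K`.  `bad_step`: `v(A_m) = (t+1) e`, `p ∤ B_m`; `v(G_m) = e`,
`v(B_{m+1}) = t e`, `p ∤ A_{m+1}`.  `A_m - e B_m ≡ -e B_m`.  `2 K A_{m+1} - e B_{m+1} = p^e (2 k' A_{m+1} - e p^{(t-1)e}
pf(B_{m+1}))`, `t ≥ 2`, so `M1 ≡ ± 2 k' A_{m+1} (mod p)`.  `A_{m+1} pf(G_m) = k' C_m ≡ k' B_m^2`.  So
`J(M0 M1|p) = J(B_m|p) J(2 k' * k' pf(G_m)|p) = - J(B_m pf(G_m)|p)` (`J(2|p) = -1`), `B_m G_N = A_N B_N`,
`J(A_N B_N|p) = -1` (`jac_AB_bad`), so `= J(G_N pf(G_m)|p) = J(k'|p)` (`jac_kgg`). -/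
theorem K2b {K p m t : ℕ} {e : ℤ} (hK : 0 < K) (h4 : 4 ∣ K) (hp : p.Prime) (hp5 : p % 8 = 5)
    (hpK : p ∣ K) (ho : OnlyBad K p) (he : e ^ 2 = 1) (hm : 3 ≤ m) (hC : p ∣ C K (m - 1))
    (ht : padicValNat p (C K (m - 1)) = t * padicValNat p K) (ht2 : 2 ≤ t) :
    jacobiSym ((M0 K p m e * M1 K p m e : ℕ) : ℤ) p = jacobiSym (pf p K : ℤ) p := by
  have hp2 : p ≠ 2 := by rintro rfl; omega
  have hp4 : p % 4 = 1 := by omega
  have hp0 : (p : ℤ) ≠ 0 := by exact_mod_cast hp.ne_zero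
  have hpP : Prime (p : ℤ) := Nat.prime_iff_prime_int.1 hp
  obtain ⟨N, rfl⟩ : ∃ i, m = i + 1 := ⟨m - 1, by omega⟩
  rw [Nat.add_sub_cancel] at ht hC
  have hu := unit_of_C hK hp hC
  obtain ⟨hvA, hB1, hvB2, hA2⟩ := bad_step hp hK hC
  have hv1 := one_le_v hp hK hpK
  have hA1 : p ∣ A K (N + 1) := by
    by_contra h
    rw [padicValNat.eq_zero_of_not_dvd h] at hvA
    omega
  have hk := jac_kgg hK h4 hp hp2 ho hm
  rw [Nat.add_sub_cancel] at hk
  have r0 := rel_B (K := K) hK hp N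
  have r1 := rel_A (K := K) hK hp (N + 1)
  rw [delta_nonunit hK hp (hA1.mul_right _), mul_one] at r1
  have rC := jac_AB_bad hK hp hp5 hC
  have c0 := chM0_B (e := e) hp4 he hA1 hB1
  have hAB : ch p (pf p (A K N)) * ch p (pf p (B K N)) = -1 := by
    rw [pf_self (fun h => hu (h.mul_right _)), pf_self (fun h => hu (h.mul_left _)), ← ch_mul]
    exact rC
  have c1 : ch p (M1 K p (N + 1) e) = -(ch p (pf p K) * ch p (pf p (A K (N + 1 + 1)))) := by
    have hz : (2 * (K : ℤ) * A K (N + 1 + 1) - e * B K (N + 1 + 1)) =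
        (p : ℤ) ^ padicValNat p K * (2 * (pf p K : ℤ) * A K (N + 1 + 1) -
          e * ((p : ℤ) ^ ((t - 1) * padicValNat p K) * (pf p (B K (N + 1 + 1)) : ℤ))) := by
      have h1 := pf_mul p K
      have h2 := pf_mul p (B K (N + 1 + 1))
      have h3 : padicValNat p (B K (N + 1 + 1)) = padicValNat p K + (t - 1) * padicValNat p K := by
        rw [show N + 1 + 1 = N + 2 from rfl, hvB2, ht]
        obtain ⟨w, rfl⟩ : ∃ w, t = w + 1 := ⟨t - 1, by omega⟩
        rw [Nat.add_sub_cancel]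
        ring
      rw [h3, pow_add] at h2
      have h1' : (K : ℤ) = (p : ℤ) ^ padicValNat p K * (pf p K : ℤ) := by exact_mod_cast h1.symm
      have h2' : (B K (N + 1 + 1) : ℤ) = (p : ℤ) ^ padicValNat p K *
          (p : ℤ) ^ ((t - 1) * padicValNat p K) * (pf p (B K (N + 1 + 1)) : ℤ) := by
        exact_mod_cast h2.symm
      rw [h2']
      nth_rewrite 1 [h1']
      ring
    have hdp : (p : ℤ) ∣ (p : ℤ) ^ ((t - 1) * padicValNat p K) := by
      apply dvd_pow_self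
      apply mul_ne_zero <;> omega
    have hcong : (p : ℤ) ∣ (2 * (pf p K : ℤ) * A K (N + 1 + 1) -
          e * ((p : ℤ) ^ ((t - 1) * padicValNat p K) * (pf p (B K (N + 1 + 1)) : ℤ))) -
          2 * (pf p K : ℤ) * A K (N + 1 + 1) := by
      obtain ⟨w, hw⟩ := hdp
      rw [hw]
      exact ⟨-(e * (w * (pf p (B K (N + 1 + 1)) : ℤ))), by ring⟩
    have hnd : ¬ (p : ℤ) ∣ 2 * (pf p K : ℤ) * A K (N + 1 + 1) := by
      intro h
      rcases hpP.dvd_or_dvd h with h | h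
      · rcases hpP.dvd_or_dvd h with h | h
        · have h' : (p : ℤ) ∣ ((2 : ℕ) : ℤ) := by exact_mod_cast h
          rw [Int.natCast_dvd_natCast] at h'
          have := Nat.le_of_dvd (by norm_num) h'
          omega
        · rw [Int.natCast_dvd_natCast] at h
          exact not_dvd_pf hp hK.ne' h
      · rw [Int.natCast_dvd_natCast] at h
        exact hA2 h
    have hnd2 : ¬ p ∣ ((2 * (pf p K : ℤ) * A K (N + 1 + 1) -
          e * ((p : ℤ) ^ ((t - 1) * padicValNat p K) * (pf p (B K (N + 1 + 1)) : ℤ)))).natAbs := by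
      rw [← Int.natCast_dvd]
      intro h
      exact hnd ((dvd_sub_right h).1 hcong)
    unfold M1 ch
    rw [hz, Int.natAbs_mul, Int.natAbs_pow, Int.natAbs_natCast, pf_pow_mul hp hnd2, natAbs_sym hp4,
      sym_congr hcong, jacobiSym.mul_left, jacobiSym.mul_left, jac_two_neg (Or.inl hp5),
      pf_self hA2]
    ring
  change ch p (pf p K) * ch p (pf p (Gg K N)) * ch p (pf p (Gg K (N + 1))) = 1 at hk
  change ch p (M0 K p (N + 1) e * M1 K p (N + 1) e) = ch p (pf p K)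
  rw [ch_mul, c0, c1]
  rw [hAB] at r0
  exact pm_alg2 (pmK hK hp) (pmG hK hp N) (pmG hK hp (N + 1)) (pmB hK hp (N + 1))
    (pmA hK hp (N + 1 + 1)) hk r0 r1

/-- the leading coefficients after a zero of `C`: for `0 ≤ i ≤ t`:
`J(A_{N+2+i} pf(B_{N+2+i})|p) = - J(C'_N|p) J(k'|p)^i`.
PROOF: (RUN) `i = 0`: `pf(A_{N+1}) G_N = k' C'_N`, `B_{N+1} G_N = A_N B_N`,
`A_{N+2} pf(G_{N+1}) = k' C_{N+1} ≡ k' B_{N+1}^2`, `pf(B_{N+2}) pf(G_{N+1}) = pf(A_{N+1}) B_{N+1}`; multiply.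
Step `i < t`: `v(B_s) ≥ e`, `v(G_s) = e`: `pf(B_{s+1}) pf(G_s) = A_s pf(B_s)`,
`A_{s+1} pf(G_s) = k' C_s ≡ k' A_s^2`. -/
theorem lead_coeff {K p N t : ℕ} (hK : 0 < K) (hp : p.Prime) (hp5 : p % 8 = 5) (hpK : p ∣ K)
    (hC : p ∣ C K N) (ht : padicValNat p (C K N) = t * padicValNat p K) (i : ℕ) (hi : i ≤ t) :
    jacobiSym ((A K (N + 2 + i) * pf p (B K (N + 2 + i)) : ℕ) : ℤ) p =
      - jacobiSym (pf p (C K N) : ℤ) p * jacobiSym (pf p K : ℤ) p ^ i := by
  change ch p (A K (N + 2 + i) * pf p (B K (N + 2 + i))) = - ch p (pf p (C K N)) * ch p (pf p K) ^ i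
  have key : ch p (pf p (A K (N + 2 + i))) * ch p (pf p (B K (N + 2 + i))) =
      - ch p (pf p (C K N)) * ch p (pf p K) ^ i := by
    induction i with
    | zero =>
      have hu := unit_of_C hK hp hC
      obtain ⟨-, hB1, -, -⟩ := bad_step hp hK hC
      have hA1 : p ∣ A K (N + 1) * B K (N + 1) := by
        have := bad_nonunit hp hK hpK hC ht 1 le_rfl (by omega)
        exact this
      have hAB : ch p (pf p (A K N)) * ch p (pf p (B K N)) = -1 := by
        rw [pf_self (fun h => hu (h.mul_right _)), pf_self (fun h => hu (h.mul_left _)), ← ch_mul]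
        exact jac_AB_bad hK hp hp5 hC
      have r1 := rel_A (K := K) hK hp N
      have r2 := rel_B (K := K) hK hp N
      have r3 := rel_A (K := K) hK hp (N + 1)
      have r4 := rel_B (K := K) hK hp (N + 1)
      rw [delta_nonunit hK hp hA1, mul_one] at r3
      rw [hAB] at r2
      rw [pow_zero, mul_one]
      have g1 := pm_sq (pmG hK hp N)
      have g2 := pm_sq (pmG hK hp (N + 1))
      have k1 := pm_sq (pmK hK hp)
      have e1 : ch p (pf p (A K (N + 1))) = ch p (pf p K) * ch p (pf p (C K N)) * ch p (pf p (Gg K N)) := by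
        linear_combination ch p (pf p (Gg K N)) * r1 - ch p (pf p (A K (N + 1))) * g1
      have e2 : ch p (pf p (B K (N + 1))) = - ch p (pf p (Gg K N)) := by
        linear_combination ch p (pf p (Gg K N)) * r2 - ch p (pf p (B K (N + 1))) * g1
      have e3 : ch p (pf p (A K (N + 1 + 1))) = ch p (pf p K) * ch p (pf p (Gg K (N + 1))) := by
        linear_combination ch p (pf p (Gg K (N + 1))) * r3 - ch p (pf p (A K (N + 1 + 1))) * g2
      have e4 : ch p (pf p (B K (N + 1 + 1))) = ch p (pf p (A K (N + 1))) * ch p (pf p (B K (N + 1))) *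
          ch p (pf p (Gg K (N + 1))) := by
        linear_combination ch p (pf p (Gg K (N + 1))) * r4 - ch p (pf p (B K (N + 1 + 1))) * g2
      rw [show N + 2 + 0 = N + 1 + 1 from rfl, e3, e4, e1, e2]
      linear_combination (-ch p (pf p (C K N)) * ch p (pf p K) ^ 2 * ch p (pf p (Gg K N)) ^ 2) * g2 +
        (-ch p (pf p (C K N)) * ch p (pf p K) ^ 2) * g1 + (-ch p (pf p (C K N))) * k1
    | succ i ih =>
      have ih' := ih (by omega)
      have hn : p ∣ A K (N + 2 + i) * B K (N + 2 + i) := by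
        have := bad_nonunit hp hK hpK hC ht (2 + i) (by omega) (by omega)
        rwa [← add_assoc] at this
      have r3 := rel_A (K := K) hK hp (N + 2 + i)
      have r4 := rel_B (K := K) hK hp (N + 2 + i)
      rw [delta_nonunit hK hp hn, mul_one] at r3
      have g2 := pm_sq (pmG hK hp (N + 2 + i))
      have e3 : ch p (pf p (A K (N + 2 + i + 1))) = ch p (pf p K) * ch p (pf p (Gg K (N + 2 + i))) := by
        linear_combination ch p (pf p (Gg K (N + 2 + i))) * r3 - ch p (pf p (A K (N + 2 + i + 1))) * g2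
      have e4 : ch p (pf p (B K (N + 2 + i + 1))) = ch p (pf p (A K (N + 2 + i))) *
          ch p (pf p (B K (N + 2 + i))) * ch p (pf p (Gg K (N + 2 + i))) := by
        linear_combination ch p (pf p (Gg K (N + 2 + i))) * r4 - ch p (pf p (B K (N + 2 + i + 1))) * g2
      rw [show N + 2 + (i + 1) = N + 2 + i + 1 from rfl, e3, e4, ih']
      linear_combination (- ch p (pf p (C K N)) * ch p (pf p K) ^ (i + 1)) * g2
  have hA := (bad_run hp hK hpK hC ht i hi).2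
  rw [ch_mul, ← key, pf_self hA]

/-- PROOF (paper K2c): `m = N + 1 + t = N + 2 + (t-1)`, `v(B_m) = e`, `p ∤ A_m` (`bad_run`), `m + 1` a unit.
`A_m - e B_m ≡ A_m`, `2K A_{m+1} - e B_{m+1} ≡ -e B_{m+1}`, `B_{m+1} pf(G_m) = A_m pf(B_m)`.  So `J(M0 M1|p) =
J(A_m B_{m+1}|p) = J(pf(B_m) pf(G_m)|p)`.  `J(A_m|p) = J(k' pf(G_{m-1})|p)` (`A_m pf(G_{m-1}) = k' C_{m-1}`,
`C_{m-1} ≡` a square: `p ∣ A_{m-1}` or `p ∣ B_{m-1}`), and `lead_coeff` with `i = t-1`; `jac_kgg`. -/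
theorem K2c {K p N t m : ℕ} {e : ℤ} (hK : 0 < K) (h4 : 4 ∣ K) (hp : p.Prime) (hp5 : p % 8 = 5)
    (hpK : p ∣ K) (ho : OnlyBad K p) (he : e ^ 2 = 1) (hm : 3 ≤ m) (hC : p ∣ C K N)
    (ht : padicValNat p (C K N) = t * padicValNat p K) (hmN : m = N + 1 + t) :
    jacobiSym ((M0 K p m e * M1 K p m e : ℕ) : ℤ) p =
      - jacobiSym (pf p (C K N) : ℤ) p * jacobiSym (pf p K : ℤ) p ^ (t - 1) := by
  have hp2 : p ≠ 2 := by rintro rfl; omega
  have hp4 : p % 4 = 1 := by omega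
  have ht1 : 1 ≤ t := by
    have h := one_le_v hp (C_pos hK N) hC
    rw [ht] at h
    by_contra h0
    have h1 : t = 0 := by omega
    rw [h1, zero_mul] at h
    omega
  obtain ⟨w, rfl⟩ : ∃ w, t = w + 1 := ⟨t - 1, by omega⟩
  have hmN' : m = N + 2 + w := by omega
  subst hmN'
  rw [Nat.add_sub_cancel]
  have hlc := lead_coeff hK hp hp5 hpK hC ht w (by omega)
  obtain ⟨hvB, hA⟩ := bad_run hp hK hpK hC ht w (by omega)
  have hBd : p ∣ B K (N + 2 + w) := by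
    by_contra h
    rw [padicValNat.eq_zero_of_not_dvd h] at hvB
    have h1 := one_le_v hp hK hpK
    have h2 : w + 1 - w = 1 := by omega
    rw [h2, one_mul] at hvB
    omega
  have hu := bad_unit hp hK hpK hC ht
  have hB1 : ¬ p ∣ B K (N + 2 + w + 1) := by
    intro h
    apply hu
    rw [show N + (w + 1) + 2 = N + 2 + w + 1 by ring]
    exact h.mul_left _
  have hk := jac_kgg hK h4 hp hp2 ho hm
  have hn : p ∣ A K (N + 2 + w - 1) * B K (N + 2 + w - 1) := by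
    have h := bad_nonunit hp hK hpK hC ht (1 + w) (by omega) (by omega)
    rwa [show N + (1 + w) = N + 2 + w - 1 by omega] at h
  have r1 := rel_A (K := K) hK hp (N + 2 + w - 1)
  rw [delta_nonunit hK hp hn, mul_one, Nat.sub_add_cancel (by omega)] at r1
  have r2 := rel_B (K := K) hK hp (N + 2 + w)
  have c0 := chM0_A (e := e) hp4 hA hBd
  have c1 := chM1_B (m := N + 2 + w) (e := e) hp4 hpK he hB1
  change ch p (pf p K) * ch p (pf p (Gg K (N + 2 + w - 1))) * ch p (pf p (Gg K (N + 2 + w))) = 1 at hk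
  change ch p (A K (N + 2 + w) * pf p (B K (N + 2 + w))) =
    - ch p (pf p (C K N)) * ch p (pf p K) ^ w at hlc
  change ch p (M0 K p (N + 2 + w) e * M1 K p (N + 2 + w) e) =
    - ch p (pf p (C K N)) * ch p (pf p K) ^ w
  rw [ch_mul, c0, c1]
  rw [ch_mul] at hlc
  rw [← hlc, pf_self hA]
  rw [pf_self hA] at r1 r2
  exact pm_alg3 (pmK hK hp) (pmG hK hp (N + 2 + w - 1)) (pmG hK hp (N + 2 + w)) (ch_pm hp hA)
    (pmB hK hp (N + 2 + w)) (pmB hK hp (N + 2 + w + 1)) hk r1 r2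

/-- PROOF (paper RUN): `n' = N + 2 + t + 2u` (`last_bad`).  At `N+2+t`: `lead_coeff` with `i = t`
(`pf (B) = B` there) gives `-J(k'|p)^t` since `J(C'_N|p) = 1` (`hJ`).  Along the run (`unit_two`):
`J(A_{i+2} B_{i+2}|p) = J(A_i B_i C_i|p) = J(A_i B_i|p)` by `hJ` (`pf p (C_i) = C_i` since `p ∤ C_i`).  At `n'`:
`jac_AB_bad`: `-1`. -/
theorem run_symbol {K p N n' t : ℕ} (hK : 0 < K) (hp : p.Prime) (hp5 : p % 8 = 5) (hpK : p ∣ K)
    (hC : p ∣ C K N) (ht : padicValNat p (C K N) = t * padicValNat p K) (hNn : N < n')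
    (hC' : p ∣ C K n') (hno : ∀ i, N < i → i < n' → ¬ p ∣ C K i)
    (hJ : ∀ i, N ≤ i → i + 2 ≤ n' → jacobiSym (pf p (C K i) : ℤ) p = 1) :
    jacobiSym (pf p K : ℤ) p ^ t = 1 := by
  obtain ⟨t', u, ht1, ht', hn'⟩ := last_bad hp hK hpK hC hNn (unit_of_C hK hp hC') hno
  have htt : t' = t := by
    have h1 := one_le_v hp hK hpK
    rw [ht] at ht'
    exact (Nat.eq_of_mul_eq_mul_right (by omega) ht').symm
  subst htt
  have hlc := lead_coeff hK hp hp5 hpK hC ht t' le_rfl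
  have hu0 := bad_unit hp hK hpK hC ht
  rw [show N + t' + 2 = N + 2 + t' by ring] at hu0
  change ch p (A K (N + 2 + t') * pf p (B K (N + 2 + t'))) =
    - ch p (pf p (C K N)) * ch p (pf p K) ^ t' at hlc
  have hJ' : ∀ i, N ≤ i → i + 2 ≤ n' → ch p (pf p (C K i)) = 1 := hJ
  rw [hJ' N le_rfl (by omega), pf_self (fun h => hu0 (h.mul_left _))] at hlc
  have key : ∀ w, w ≤ u → ¬ p ∣ A K (N + 2 + t' + 2 * w) * B K (N + 2 + t' + 2 * w) ∧
      ch p (A K (N + 2 + t' + 2 * w) * B K (N + 2 + t' + 2 * w)) = -1 * ch p (pf p K) ^ t' := by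
    intro w
    induction w with
    | zero => exact fun _ => ⟨hu0, hlc⟩
    | succ w ih =>
      intro hw
      obtain ⟨hu1, h1⟩ := ih (by omega)
      have hnC : ¬ p ∣ C K (N + 2 + t' + 2 * w) := hno _ (by omega) (by omega)
      obtain ⟨hu2, h2⟩ := unit_two hp hK hpK hu1 hnC
      have hC1 := hJ' (N + 2 + t' + 2 * w) (by omega) (by omega)
      rw [pf_self hnC] at hC1
      have h3 : ch p (A K (N + 2 + t' + 2 * w + 2) * C K (N + 2 + t' + 2 * w)) =
          ch p (B K (N + 2 + t' + 2 * w + 2) *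
            (A K (N + 2 + t' + 2 * w) * B K (N + 2 + t' + 2 * w))) := by
        apply sym_congr
        push_cast
        exact h2
      rw [ch_mul, ch_mul _ (B K _), hC1, mul_one, h1] at h3
      have hB2 : ¬ p ∣ B K (N + 2 + t' + 2 * w + 2) := fun h => hu2 (h.mul_left _)
      refine ⟨hu2, ?_⟩
      rw [show N + 2 + t' + 2 * (w + 1) = N + 2 + t' + 2 * w + 2 by ring, ch_mul, h3]
      have h4 := ch_sq hp hB2
      linear_combination (-ch p (pf p K) ^ t') * h4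
  obtain ⟨-, h5⟩ := key u le_rfl
  rw [← hn'] at h5
  have h6 : ch p (A K n' * B K n') = -1 := jac_AB_bad hK hp hp5 hC'
  rw [h6] at h5
  change ch p (pf p K) ^ t' = 1
  linear_combination h5

/-- PROOF (paper F5): modulo `5` the numbers `A, B` are nonzero, `(A/B)^2 ∈ {1, 4}`; `4` would give
`5 ∣ C`; so `C ≡ 2 B^2`, symbol `-1` (`decide` on `ZMod 5`). -/
theorem F5 {K i : ℕ} (hK : 0 < K) (hu : ¬ 5 ∣ A K i * B K i) (hC : ¬ 5 ∣ C K i) :
    jacobiSym (C K i : ℤ) 5 = -1 := by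
  have hA : A K i % 5 ≠ 0 := fun h => hu ((Nat.dvd_of_mod_eq_zero h).mul_right _)
  have hB : B K i % 5 ≠ 0 := fun h => hu ((Nat.dvd_of_mod_eq_zero h).mul_left _)
  have hC1 : C K i % 5 = ((A K i % 5) ^ 2 + (B K i % 5) ^ 2) % 5 := by
    unfold C
    simp [Nat.add_mod, Nat.pow_mod]
  have hC2 : C K i % 5 ≠ 0 := fun h => hC (Nat.dvd_of_mod_eq_zero h)
  have hA5 : A K i % 5 < 5 := Nat.mod_lt _ (by norm_num)
  have hB5 : B K i % 5 < 5 := Nat.mod_lt _ (by norm_num)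
  have h : C K i % 5 = 2 ∨ C K i % 5 = 3 := by
    generalize A K i % 5 = a at *
    generalize B K i % 5 = b at *
    interval_cases a <;> interval_cases b <;> simp_all
  rw [jacobiSym.mod_left]
  have h2 : ((C K i : ℤ) % ((5 : ℕ) : ℤ)) = ((C K i % 5 : ℕ) : ℤ) := by
    push_cast
    rfl
  rw [h2]
  rcases h with h | h <;> rw [h] <;> norm_num

end Pool.Agent.Lib.MP_e26d5c_nt.AG
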