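import Pool.Agent.Lib.MP_e26d5c_nt.AG.R12
import Pool.Agent.Lib.MP_e26d5c_nt.AG.R13

set_option autoImplicit false

namespace Pool.Agent.Lib.MP_e26d5c_nt.AG

private theorem R14_unit {K p n : ℕ} (hK : 0 < K) (hp : p.Prime) (h : p ∣ C K n) :
    ¬ p ∣ A K n * B K n :=
  fun h2 => Nat.not_coprime_of_dvd_of_dvd hp.one_lt h h2 (coprime_C_AB hK n)

private theorem R14_pf {p n : ℕ} (h : ¬ p ∣ n) : pf p n = n := by
  unfold pf
  rw [padicValNat.eq_zero_of_not_dvd h, pow_zero, Nat.div_one]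

private theorem R14_dvd {p n : ℕ} (h : Odd (padicValNat p n)) : p ∣ n := by
  by_contra h2
  rw [padicValNat.eq_zero_of_not_dvd h2] at h
  exact absurd h (by decide)

/-- `J(C'_i|p) = 1` for `1 ≤ i < n`.  PROOF: `K0` gives `J(p|C'_i) = 1`; reciprocity
(`pf p (C_i)` odd). -/
theorem K0' {K p i n s : ℕ} (hK : K % 8 = 4) (hp : p.Prime) (hp5 : p % 8 = 5)
    (ho : OnlyBad K p) (hn : C K n = p * s ^ 2) (hi : 1 ≤ i) (hin : i < n) :
    jacobiSym (pf p (C K i) : ℤ) p = 1 := by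
  have hK0 : 0 < K := by omega
  have h4 : 4 ∣ K := by omega
  have hp2 : p ≠ 2 := by omega
  have h1 := K0 hK0 h4 hp hp2 ho hn hi hin
  have h2 := pf_C_coprime (i := i) hK0 h4 hp hp2 ho hi
  have hodd : Odd (pf p (C K i)) := by
    rw [← Nat.not_even_iff_odd]
    intro he
    have h3 : 2 ∣ pf p (C K i) := even_iff_two_dvd.1 he
    have h5 : 2 ∣ K := (by norm_num : 2 ∣ 4).trans h4
    exact Nat.not_coprime_of_dvd_of_dvd (by norm_num) h3 h5 h2
  rw [← jacobiSym.quadratic_reciprocity_one_mod_four (by omega) hodd]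
  exact h1

/-- PROOF: let `j0 ≥ 1` be the first index with `p ∣ C_{j0}`; it is a unit, so even and `≥ 2`
(`run_units` from `0`).  `K1` with `m = j0`, `j = n % j0`: if `j ≥ 1` then `v_p(C_j)` is odd, so
`p ∣ C_j`, contradiction to the choice of `j0`.  So `j0 ∣ n`. -/
theorem n_even {K p n s : ℕ} (hK : K % 8 = 4) (hp : p.Prime) (hp5 : p % 8 = 5) (hpK : p ∣ K)
    (ho : OnlyBad K p) (hn : C K n = p * s ^ 2) (hn1 : 1 ≤ n) : n % 2 = 0 := by
  have hK0 : 0 < K := by omega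
  have hp2 : p ≠ 2 := by omega
  have hCn : p ∣ C K n := ⟨s ^ 2, hn⟩
  have hex : ∃ j, 1 ≤ j ∧ p ∣ C K j := ⟨n, hn1, hCn⟩
  obtain ⟨j0, hj0⟩ : ∃ j0, j0 = Nat.find hex := ⟨_, rfl⟩
  have hs := Nat.find_spec hex
  rw [← hj0] at hs
  have hmin : ∀ i, 1 ≤ i → i < j0 → ¬ p ∣ C K i := by
    intro i h1 h2 h3
    rw [hj0] at h2
    exact Nat.find_min hex h2 ⟨h1, h3⟩
  have hle : j0 ≤ n := by
    rw [hj0]
    exact Nat.find_min' hex ⟨hn1, hCn⟩
  have hC0 : ¬ p ∣ C K 0 := by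
    rw [C_zero]
    intro h
    exact hp2 ((Nat.prime_dvd_prime_iff_eq hp Nat.prime_two).1 h)
  have hr := run_units (N := 0) (M := j0) hp hK0 hpK (by
      simp only [A_zero, B_zero, mul_one, Nat.dvd_one]
      exact hp.one_lt.ne') (fun i _ h2 => by
      rcases Nat.eq_zero_or_pos i with rfl | h3
      · exact hC0
      · exact hmin i h3 h2) j0 (Nat.zero_le _) le_rfl
  have hev : j0 % 2 = 0 := by
    have := hr.1 (R14_unit hK0 hp hs.2)
    omega
  have hj2 : 2 ≤ j0 := by omega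
  rcases Nat.eq_zero_or_pos (n % j0) with h0 | h0
  · obtain ⟨c, hc⟩ := Nat.dvd_of_mod_eq_zero h0
    rw [hc, Nat.mul_mod, hev, Nat.zero_mul, Nat.zero_mod]
  · exfalso
    have hlt : n % j0 < j0 := Nat.mod_lt _ (by omega)
    have hq : 1 ≤ n / j0 := (Nat.one_le_div_iff (by omega)).2 hle
    have h1 := K1 hK hp hp5 hpK ho hn hj2 hs.2 h0 hlt hq (by
      have := Nat.div_add_mod n j0
      rw [mul_comm]
      exact this.symm)
    exact hmin _ h0 hlt (R14_dvd h1)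

/-- the data of the last zero before `n`.  PROOF: `n` is a unit; the set of `N < n`, `N ≥ 1` with `p ∣ C_N` is not
empty (it contains `j0 < n`, hypothesis); `last_bad`. -/
theorem last_data {K p n j0 : ℕ} (hK : 0 < K) (hp : p.Prime) (hpK : p ∣ K)
    (hC : p ∣ C K n) (hj0 : 1 ≤ j0) (hj0n : j0 < n) (hCj : p ∣ C K j0) :
    ∃ N t u : ℕ, 1 ≤ N ∧ N < n ∧ p ∣ C K N ∧ (∀ i, N < i → i < n → ¬ p ∣ C K i) ∧ 1 ≤ t ∧
      padicValNat p (C K N) = t * padicValNat p K ∧ n = N + 2 + t + 2 * u := by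
  obtain ⟨N, hNd⟩ : ∃ N, N = Nat.findGreatest (fun N => 1 ≤ N ∧ p ∣ C K N) (n - 1) := ⟨_, rfl⟩
  have hs := Nat.findGreatest_spec (P := fun N => 1 ≤ N ∧ p ∣ C K N) (m := j0) (n := n - 1)
    (by omega) ⟨hj0, hCj⟩
  have hle : N ≤ n - 1 := by
    rw [hNd]
    exact Nat.findGreatest_le _
  rw [← hNd] at hs
  have hno : ∀ i, N < i → i < n → ¬ p ∣ C K i := by
    intro i h1 h2 h3
    rw [hNd] at h1
    exact Nat.findGreatest_is_greatest h1 (by omega) ⟨by omega, h3⟩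
  obtain ⟨t, u, h1, h2, h3⟩ := last_bad (N := N) (n := n) hp hK hpK hs.2 (by omega)
    (R14_unit hK hp hC) hno
  exact ⟨N, t, u, hs.1, by omega, hs.2, hno, h1, h2, h3⟩

/-- PROOF: paper A11 CASES, `u ≥ 2`: `m = n - 3`, `q = 1`, `j = 3`: `p ∤ C_3` (`not_dvd_C13`), so `K2` gives
`-1`; `m - 1 = n - 4 ≥ N + 2 + t` is a unit (`run_units`), `p ∤ C_{n-4}`: `K2a`, `K0'` give `+1`. -/
theorem case_u {K p n s N t u : ℕ} (hK : K % 8 = 4) (hp : p.Prime) (hp5 : p % 8 = 5)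
    (hpK : p ∣ K) (ho : OnlyBad K p) (hn : C K n = p * s ^ 2) (hN : 1 ≤ N) (hCN : p ∣ C K N)
    (hno : ∀ i, N < i → i < n → ¬ p ∣ C K i) (ht1 : 1 ≤ t)
    (ht : padicValNat p (C K N) = t * padicValNat p K) (hnu : n = N + 2 + t + 2 * u)
    (hn20 : 20 ≤ n) : u ≤ 1 := by
  by_contra hu
  have hK0 : 0 < K := by omega
  have h4 : 4 ∣ K := by omega
  have hp2 : p ≠ 2 := by omega
  have h3 := (not_dvd_C13 hp hp2 hK0 hpK).2
  have h2 := K2 (e := 1) (m := n - 3) (q := 1) (j := 3) hK hp hp5 hpK ho hn (by norm_num)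
    (by omega) (by norm_num) (by omega) le_rfl (by omega) (by
      rw [padicValNat.eq_zero_of_not_dvd h3]
      exact Even.zero)
  have e1 : n - 3 - 1 = n - 4 := by omega
  have hC4 : ¬ p ∣ C K (n - 4) := hno _ (by omega) (by omega)
  have hu4 : ¬ p ∣ A K (n - 4) * B K (n - 4) := by
    refine (run_units (N := N + t + 2) (M := n) hp hK0 hpK (bad_unit hp hK0 hpK hCN ht)
      (fun i h5 h6 => hno i (by omega) h6) (n - 4) (by omega) (by omega)).2 ?_
    omega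
  have h5 := K2a (e := 1) (m := n - 3) hK0 h4 hp (by omega) hpK ho (by norm_num) (by omega)
    (by rw [e1]; exact hu4) (by rw [e1]; exact hC4)
  have h6 := K0' (i := n - 4) hK hp hp5 ho hn (by omega) (by omega)
  rw [R14_pf hC4] at h6
  rw [h2, e1, h6] at h5
  exact absurd h5 (by norm_num)

/-- PROOF: `2 N < n`: `m = n/2` (`n` even) lies in `(N, N+1+t]` (`n ≤ N+t+4`, `n ≥ 20`), not a unit by
`bad_nonunit`; `K3` with `q = 2`. -/
theorem case_half {K p n s N t u : ℕ} (hK : K % 8 = 4) (hp : p.Prime) (hp5 : p % 8 = 5)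
    (hpK : p ∣ K) (ho : OnlyBad K p) (hn : C K n = p * s ^ 2) (hN : 1 ≤ N) (hCN : p ∣ C K N)
    (hu : u ≤ 1) (ht : padicValNat p (C K N) = t * padicValNat p K)
    (hnu : n = N + 2 + t + 2 * u) (hn20 : 20 ≤ n) (hne : n % 2 = 0) : n ≤ 2 * N := by
  by_contra hlt
  have hK0 : 0 < K := by omega
  have h1 := bad_nonunit hp hK0 hpK hCN ht (n / 2 - N) (by omega) (by omega)
  rw [show N + (n / 2 - N) = n / 2 by omega] at h1
  exact K3 (m := n / 2) (q := 2) hK hp hp5 hpK ho hn (by omega) le_rfl (by omega) h1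

end Pool.Agent.Lib.MP_e26d5c_nt.AG
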