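import Pool.Agent.Lib.MP_e26d5c_nt.AG.R12
import Pool.Agent.Lib.MP_e26d5c_nt.AG.R13
import Pool.Agent.Lib.MP_e26d5c_nt.AG.R14a

set_option autoImplicit false

namespace Pool.Agent.Lib.MP_e26d5c_nt.AG

private theorem R14_unit {K p N : ℕ} (hK : 0 < K) (hp : p.Prime) (h : p ∣ C K N) :
    ¬ p ∣ A K N * B K N := fun h2 => by
  have h3 := Nat.dvd_gcd h h2
  rw [(coprime_C_AB hK N).gcd_eq_one] at h3
  exact hp.one_lt.ne' (Nat.dvd_one.1 h3)

private theorem R14_pf {p n : ℕ} (h : ¬ p ∣ n) : pf p n = n := by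
  unfold pf
  rw [padicValNat.eq_zero_of_not_dvd h, pow_zero, Nat.div_one]

private theorem R14_dvd {p n : ℕ} (h : Odd (padicValNat p n)) : p ∣ n := by
  by_contra h2
  rw [padicValNat.eq_zero_of_not_dvd h2] at h
  exact absurd h (by decide)

private theorem R14_dvdC {K p n s : ℕ} (hn : C K n = p * s ^ 2) : p ∣ C K n := by
  rw [hn]
  exact dvd_mul_right p _

private theorem R14_mult {K p j N : ℕ} (hp : p.Prime) (hK : 0 < K) (hpK : p ∣ K)
    (hj : p ∣ C K j) (hjN : j < N) (hu : ¬ p ∣ A K N * B K N) :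
    ∃ t, padicValNat p (C K j) = t * padicValNat p K := by
  by_contra h
  have h2 : ¬ padicValNat p K ∣ padicValNat p (C K j) := by
    rintro ⟨t, ht⟩
    exact h ⟨t, by rw [ht, mul_comm]⟩
  have h3 := bad_no_unit hp hK hpK hj h2 (N - j) (by omega)
  rw [show j + (N - j) = N by omega] at h3
  exact hu h3

/-- PROOF: `t = 1`: `n = N + s'`, `s' = 3` or `5`, `s' < N`; `K1` with `m = N`, `q = 1`, `j = s'`: `v_p(C_{s'})` is
odd.  `s' = 3`: `not_dvd_C13`.  `s' = 5` (`u = 1`): `p ∣ C_5`, `p = 5` (`dvd_C5`); `n - 2 = N + 3` is a unit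
(`bad_unit`), `5 ∤ C_{n-2}`, `F5` gives `-1`, `K0'` gives `+1` (`pf 5 (C) = C`). -/
theorem case_t1 {K p n s N t u : ℕ} (hK : K % 8 = 4) (hp : p.Prime) (hp5 : p % 8 = 5)
    (hpK : p ∣ K) (ho : OnlyBad K p) (hn : C K n = p * s ^ 2) (hN : 1 ≤ N) (hCN : p ∣ C K N)
    (hno : ∀ i, N < i → i < n → ¬ p ∣ C K i) (hu : u ≤ 1) (ht1 : 1 ≤ t)
    (ht : padicValNat p (C K N) = t * padicValNat p K)
    (hnu : n = N + 2 + t + 2 * u) (hn20 : 20 ≤ n) (h2N : n ≤ 2 * N) : 2 ≤ t := by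
  by_contra hlt
  have ht' : t = 1 := by omega
  subst ht'
  have hK0 : 0 < K := by omega
  have hp2 : p ≠ 2 := by
    rintro rfl
    omega
  have hlt2 : u = 0 ∨ u = 1 := by omega
  rcases hlt2 with hu0 | hu1
  · subst hu0
    have h1 := K1 (j := 3) (m := N) (q := 1) hK hp hp5 hpK ho hn (by omega) hCN (by omega)
      (by omega) le_rfl (by omega)
    exact (not_dvd_C13 hp hp2 hK0 hpK).2 (R14_dvd h1)
  · subst hu1
    have h1 := K1 (j := 5) (m := N) (q := 1) hK hp hp5 hpK ho hn (by omega) hCN (by omega)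
      (by omega) le_rfl (by omega)
    have h5 : p = 5 := dvd_C5 hp hp2 hK0 hpK (R14_dvd h1)
    subst h5
    have hu := bad_unit hp hK0 hpK hCN ht
    have hC : ¬ 5 ∣ C K (N + 1 + 2) := hno _ (by omega) (by omega)
    have h2 := F5 hK0 hu hC
    have h3 := K0' (i := N + 1 + 2) hK hp hp5 ho hn (by omega) (by omega)
    rw [R14_pf hC] at h3
    rw [h2] at h3
    exact absurd h3 (by decide)

/-- PROOF: `m = N + 1`, `q = 1`, `j = n - N - 1` (`2 ≤ j ≤ m - 2` as `n ≤ 2N`).  `v_p(C_j) = 0`: `j + 1 = n - N`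
is a unit (if `n < 2N`: `K1` with `m = N`, `j = n - N`: `p ∣ C_{n-N}`; if `n = 2N`: `j + 1 = N`), so `j` is not a
unit (`no_two_units`).  `K2` and `K2b`. -/
theorem jk_neg {K p n s N t u : ℕ} (hK : K % 8 = 4) (hp : p.Prime) (hp5 : p % 8 = 5)
    (hpK : p ∣ K) (ho : OnlyBad K p) (hn : C K n = p * s ^ 2) (hN : 1 ≤ N) (hCN : p ∣ C K N)
    (ht2 : 2 ≤ t) (ht : padicValNat p (C K N) = t * padicValNat p K)
    (hnu : n = N + 2 + t + 2 * u) (hn20 : 20 ≤ n) (h2N : n ≤ 2 * N) :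
    jacobiSym (pf p K : ℤ) p = -1 := by
  have hK0 : 0 < K := by omega
  have h4 : 4 ∣ K := by omega
  have hCj : ¬ p ∣ C K (n - N - 1) := by
    intro hd
    have hu1 := R14_unit hK0 hp hd
    have h2 := no_two_units hp hK0 hpK hu1
    have hu2 : ¬ p ∣ A K (n - N - 1 + 1) * B K (n - N - 1 + 1) := by
      rw [show n - N - 1 + 1 = n - N by omega]
      by_cases hlt : n < 2 * N
      · have h3 := K1 (j := n - N) (m := N) (q := 1) hK hp hp5 hpK ho hn (by omega) hCN (by omega)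
          (by omega) le_rfl (by omega)
        exact R14_unit hK0 hp (R14_dvd h3)
      · rw [show n - N = N by omega]
        exact R14_unit hK0 hp hCN
    exact hu2 h2
  have hev : Even (padicValNat p (C K (n - N - 1))) := by
    rw [padicValNat.eq_zero_of_not_dvd hCj]
    exact Even.zero
  have h1 := K2 (m := N + 1) (j := n - N - 1) (q := 1) (e := 1) hK hp hp5 hpK ho hn (by norm_num)
    (by omega) (by omega) (by omega) le_rfl (by omega) hev
  have h2 := K2b (m := N + 1) (t := t) (e := 1) hK0 h4 hp hp5 hpK ho (by norm_num) (by omega)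
    hCN ht ht2
  rw [← h2, h1]

/-- PROOF: for every zero `N' < n` of `C` with `v = t' e`, `t'` is even: `run_symbol` with the next zero
`n' ≤ n` (`K0'` for `hJ`: `i + 2 ≤ n' ≤ n`, so `i < n`), and `J(k'|p) = -1`. -/
theorem t_even {K p n s N t : ℕ} (hK : K % 8 = 4) (hp : p.Prime) (hp5 : p % 8 = 5)
    (hpK : p ∣ K) (ho : OnlyBad K p) (hn : C K n = p * s ^ 2) (hN : 1 ≤ N) (hNn : N < n)
    (hCN : p ∣ C K N) (ht : padicValNat p (C K N) = t * padicValNat p K)
    (hk : jacobiSym (pf p K : ℤ) p = -1) : Even t := by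
  have hK0 : 0 < K := by omega
  have hex : ∃ i, N < i ∧ p ∣ C K i := ⟨n, hNn, R14_dvdC hn⟩
  classical
  have hle : Nat.find hex ≤ n := Nat.find_min' hex ⟨hNn, R14_dvdC hn⟩
  have hsp := Nat.find_spec hex
  have h1 := run_symbol hK0 hp hp5 hpK hCN ht hsp.1 hsp.2
    (fun i hi hi' hd => Nat.find_min hex hi' ⟨hi, hd⟩)
    (fun i hi hi' => K0' hK hp hp5 ho hn (by omega) (by omega))
  rw [hk] at h1
  by_contra hodd
  rw [Nat.not_even_iff_odd] at hodd
  rw [hodd.neg_one_pow] at h1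
  exact absurd h1 (by decide)

/-- PROOF: `n < 2N`: `j = n - N`, `K1` with `m = N`: `v_p(C_j)` odd, `p ∣ C_j`; `N` is a later unit, so
`v_p(C_j) = t' e` (`bad_no_unit`), `t'` odd; `t_even` says `t'` even.  So `n = 2N`. -/
theorem n_eq {K p n s N t u : ℕ} (hK : K % 8 = 4) (hp : p.Prime) (hp5 : p % 8 = 5)
    (hpK : p ∣ K) (ho : OnlyBad K p) (hn : C K n = p * s ^ 2) (hN : 1 ≤ N) (hCN : p ∣ C K N)
    (ht2 : 2 ≤ t) (ht : padicValNat p (C K N) = t * padicValNat p K)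
    (hnu : n = N + 2 + t + 2 * u) (hn20 : 20 ≤ n) (h2N : n ≤ 2 * N) : n = 2 * N := by
  have hK0 : 0 < K := by omega
  by_contra hne
  have hlt : n < 2 * N := by omega
  have h1 := K1 (j := n - N) (m := N) (q := 1) hK hp hp5 hpK ho hn (by omega) hCN (by omega)
    (by omega) le_rfl (by omega)
  have hd := R14_dvd h1
  obtain ⟨t', ht'⟩ := R14_mult hp hK0 hpK hd (by omega) (R14_unit hK0 hp hCN)
  have hk := jk_neg hK hp hp5 hpK ho hn hN hCN ht2 ht hnu hn20 h2N
  have h2 := t_even hK hp hp5 hpK ho hn (by omega) (by omega) hd ht' hk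
  rw [ht'] at h1
  exact (Nat.not_even_iff_odd.2 h1) (h2.mul_right _)

/-- PROOF: paper A11, case `2N = n`.  `J(k'|p) = -1` (`jk_neg`), all `t` are even (`t_even`).
`u = 1`: `m = N + 1 + t = n - 3`, `j = 3`, `p ∤ C_3`: `K2c` (with `J(C'_N|p) = 1` by `K0'`) gives
`-(-1)^{t-1} = 1`, `K2` gives `-1`.
`u = 0`: `m = N - 1`, `n = 2 m + 2`, `q = 2`, `j = 2`; `v_p(C_2)` is even (if `p ∣ C_2` then, `N` being a later unit,
`v_p(C_2) = t0 e` with `t0` even; otherwise `0`), so `K2` gives `-1`.  `last_data` for `N` (its zero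
`j0 < N`): `N2, t2, u2`.  `u2 ≥ 1`: `m - 1 = N - 2 ≥ N2 + 2 + t2` is a unit with `p ∤ C_{N-2}`: `K2a`, `K0'`: `+1`.
`u2 = 0`: `m = N2 + 1 + t2`: `K2c`: `-(-1)^{t2-1} = 1` (`t2` even).  Contradiction in each case. -/
theorem case_eq {K p n s N t u j0 : ℕ} (hK : K % 8 = 4) (hp : p.Prime) (hp5 : p % 8 = 5)
    (hpK : p ∣ K) (ho : OnlyBad K p) (hn : C K n = p * s ^ 2) (hN : 1 ≤ N) (hCN : p ∣ C K N)
    (hu : u ≤ 1) (ht2 : 2 ≤ t) (ht : padicValNat p (C K N) = t * padicValNat p K)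
    (hnu : n = N + 2 + t + 2 * u) (hn20 : 20 ≤ n) (h2N : n = 2 * N)
    (hj0 : 1 ≤ j0) (hj0n : j0 < N) (hCj : p ∣ C K j0) : False := by
  have hK0 : 0 < K := by omega
  have h4 : 4 ∣ K := by omega
  have hp2 : p ≠ 2 := by
    rintro rfl
    omega
  have hk := jk_neg hK hp hp5 hpK ho hn hN hCN ht2 ht hnu hn20 (by omega)
  have hsign : ∀ t' : ℕ, 1 ≤ t' → Even t' →
      - (1 : ℤ) * jacobiSym (pf p K : ℤ) p ^ (t' - 1) = 1 := by
    intro t' h1 h2
    have h3 : Odd (t' - 1) := by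
      obtain ⟨r, hr⟩ := h2
      exact ⟨r - 1, by omega⟩
    rw [hk, h3.neg_one_pow]
    norm_num
  have hJ : ∀ i, 1 ≤ i → i < n → jacobiSym (pf p (C K i) : ℤ) p = 1 := fun i h1 h2 =>
    K0' hK hp hp5 ho hn h1 h2
  rcases (show u = 0 ∨ u = 1 by omega) with hu0 | hu1
  · subst hu0
    have hev : Even (padicValNat p (C K 2)) := by
      by_cases hd : p ∣ C K 2
      · obtain ⟨t0, ht0⟩ := R14_mult hp hK0 hpK hd (show 2 < N by omega) (R14_unit hK0 hp hCN)
        have h2 := t_even hK hp hp5 hpK ho hn (by omega) (by omega) hd ht0 hk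
        rw [ht0]
        exact h2.mul_right _
      · rw [padicValNat.eq_zero_of_not_dvd hd]
        exact Even.zero
    have h1 := K2 (m := N - 1) (j := 2) (q := 2) (e := 1) hK hp hp5 hpK ho hn (by norm_num)
      (by omega) (by omega) (by omega) (by omega) (by omega) hev
    obtain ⟨N2, t2, u2, hN2, hN2N, hC2, hno2, ht21, hv2, hN2e⟩ :=
      last_data hK0 hp hpK hCN hj0 hj0n hCj
    by_cases hu2 : 1 ≤ u2
    · have hC : ¬ p ∣ C K (N - 1 - 1) := hno2 _ (by omega) (by omega)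
      have hun : ¬ p ∣ A K (N - 1 - 1) * B K (N - 1 - 1) := by
        have h3 := bad_unit hp hK0 hpK hC2 hv2
        exact (run_units (M := N - 1 - 1) hp hK0 hpK h3
          (fun i hi hi' => hno2 i (by omega) (by omega)) (N - 1 - 1) (by omega) le_rfl).2
            (by omega)
      have h2 := K2a (m := N - 1) (e := 1) hK0 h4 hp (by omega) hpK ho (by norm_num) (by omega)
        hun hC
      have h3 := hJ (N - 1 - 1) (by omega) (by omega)
      rw [R14_pf hC] at h3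
      rw [h2, h3] at h1
      exact absurd h1 (by decide)
    · have hu20 : u2 = 0 := by omega
      subst hu20
      have ht2e := t_even hK hp hp5 hpK ho hn hN2 (by omega) hC2 hv2 hk
      have h2 := K2c (m := N - 1) (N := N2) (t := t2) (e := 1) hK0 h4 hp hp5 hpK ho (by norm_num)
        (by omega) hC2 hv2 (by omega)
      rw [hJ N2 hN2 (by omega), hsign t2 ht21 ht2e] at h2
      rw [h2] at h1
      exact absurd h1 (by decide)
  · subst hu1
    have hte := t_even hK hp hp5 hpK ho hn hN (by omega) hCN ht hk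
    have hev : Even (padicValNat p (C K 3)) := by
      rw [padicValNat.eq_zero_of_not_dvd (not_dvd_C13 hp hp2 hK0 hpK).2]
      exact Even.zero
    have h1 := K2 (m := N + 1 + t) (j := 3) (q := 1) (e := 1) hK hp hp5 hpK ho hn (by norm_num)
      (by omega) (by omega) (by omega) le_rfl (by omega) hev
    have h2 := K2c (m := N + 1 + t) (N := N) (t := t) (e := 1) hK0 h4 hp hp5 hpK ho (by norm_num)
      (by omega) hCN ht rfl
    rw [hJ N hN (by omega), hsign t (by omega) hte] at h2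
    rw [h2] at h1
    exact absurd h1 (by decide)

/-- PROOF: assembly of the cases.  If `p` is not bad there is nothing to do (`p ∣ C_n`, `n ≥ 1`).
Otherwise let `j0 ≥ 1` with `p ∣ C_{j0}`, `n0 := 20 + 2 j0 + 2`.  `p % 8 = 5` follows from
`C_n ≡ 5 (mod 8)`, `s` odd: `p s^2 ≡ p`; so for `p % 8 ≠ 5` there is nothing to do either. -/
theorem four_finite_p {K p : ℕ} (hK : K % 8 = 4) (hp : p.Prime) (hp2 : p ≠ 2)
    (hpK : p ∣ K) (ho : OnlyBad K p) :
    ∃ n0 : ℕ, ∀ n, n0 ≤ n → ¬ ∃ s, C K n = p * s ^ 2 := by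
  have hK0 : 0 < K := by omega
  by_cases hp5 : p % 8 = 5
  · by_cases hb : Bad K p
    · obtain ⟨j0, hj0, hCj0⟩ := hb
      refine ⟨20 + 2 * j0 + 2, ?_⟩
      rintro n hn ⟨s, hs⟩
      have hne := n_even hK hp hp5 hpK ho hs (by omega)
      obtain ⟨N, t, u, hN, hNn, hCN, hno, ht1, ht, hnu⟩ :=
        last_data hK0 hp hpK (R14_dvdC hs) hj0 (by omega) hCj0
      have hu := case_u hK hp hp5 hpK ho hs hN hCN hno ht1 ht hnu (by omega)
      have h2N := case_half hK hp hp5 hpK ho hs hN hCN hu ht hnu (by omega) hne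
      have ht2 := case_t1 hK hp hp5 hpK ho hs hN hCN hno hu ht1 ht hnu (by omega) h2N
      have heq := n_eq hK hp hp5 hpK ho hs hN hCN ht2 ht hnu (by omega) h2N
      exact case_eq hK hp hp5 hpK ho hs hN hCN hu ht2 ht hnu (by omega) heq hj0 (by omega) hCj0
    · refine ⟨1, ?_⟩
      rintro n hn ⟨s, hs⟩
      exact hb ⟨n, hn, R14_dvdC hs⟩
  · refine ⟨2, ?_⟩
    rintro n hn ⟨s, hs⟩
    have h1 := C_mod_four hK hn
    have h2 : (p % 8) * ((s % 8) ^ 2 % 8) % 8 = 5 := by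
      rw [← h1, hs, Nat.mul_mod p, Nat.pow_mod s]
    have h3 : s % 8 = 0 ∨ s % 8 = 1 ∨ s % 8 = 2 ∨ s % 8 = 3 ∨ s % 8 = 4 ∨ s % 8 = 5 ∨
        s % 8 = 6 ∨ s % 8 = 7 := by omega
    rcases h3 with h | h | h | h | h | h | h | h <;> rw [h] at h2 <;> norm_num at h2 <;> omega

end Pool.Agent.Lib.MP_e26d5c_nt.AG
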