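import Pool.Agent.Lib.MP_e26d5c_nt.AG.Ar

set_option autoImplicit false

namespace Pool.Agent.Lib.MP_e26d5c_nt.AG

/-- PROOF: `A_succ`: `A (j+1) * Gg j = K * C j` is divisible by `Q`, and `Q` is coprime to `Gg K j`
(a divisor of `K`). -/
theorem dvd_A_succ {K Q j : ℕ} (hQ : Nat.Coprime Q K) (h : Q ∣ C K j) : Q ∣ A K (j + 1) := by
  have h1 : Nat.Coprime Q (Gg K j) := hQ.coprime_dvd_right (Gg_dvd K j)
  apply h1.dvd_of_dvd_mul_right
  rw [A_succ]
  exact Dvd.dvd.mul_left h K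

/-- PROOF: induction on `n ≥ j+2`: `B_succ`, `Q ∣ A (j+1)` (`dvd_A_succ`), `Q` coprime to `Gg`. -/
theorem dvd_B {K Q j n : ℕ} (hQ : Nat.Coprime Q K) (h : Q ∣ C K j) (hn : j + 2 ≤ n) :
    Q ∣ B K n := by
  induction n, hn using Nat.le_induction with
  | base =>
    have h1 : Nat.Coprime Q (Gg K (j + 1)) := hQ.coprime_dvd_right (Gg_dvd K (j + 1))
    apply h1.dvd_of_dvd_mul_right
    rw [show j + 2 = j + 1 + 1 from rfl, B_succ]
    exact Dvd.dvd.mul_right (dvd_A_succ hQ h) _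
  | succ n _ ih =>
    have h1 : Nat.Coprime Q (Gg K n) := hQ.coprime_dvd_right (Gg_dvd K n)
    apply h1.dvd_of_dvd_mul_right
    rw [B_succ]
    exact Dvd.dvd.mul_left ih _

private theorem R3_dvd_AB {K Q j n : ℕ} (hQ : Nat.Coprime Q K) (h : Q ∣ C K j)
    (hn : j < n) : Q ∣ A K n ∨ Q ∣ B K n := by
  rcases Nat.lt_or_ge n (j + 2) with h1 | h1
  · left
    have h2 : n = j + 1 := by omega
    rw [h2]
    exact dvd_A_succ hQ h
  · right
    exact dvd_B hQ h h1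

/-- PROOF: `n = j+1`: `Q ∣ A_n`, `gcd(Q, B_n) = 1`, so `C_n ≡ B_n^2` is coprime to `Q`; `n ≥ j+2`:
`Q ∣ B_n`, `gcd(Q, A_n) = 1`. -/
theorem coprime_C {K Q j n : ℕ} (hK : 0 < K) (hQ : Nat.Coprime Q K) (h : Q ∣ C K j)
    (hn : j < n) : Nat.Coprime (C K n) Q := by
  have h1 := coprime_C_AB hK n
  rcases R3_dvd_AB hQ h hn with h2 | h2
  · exact h1.coprime_dvd_right (Dvd.dvd.mul_right h2 _)
  · exact h1.coprime_dvd_right (Dvd.dvd.mul_left h2 _)

private theorem R3_sq {a Q : ℕ} (h : Nat.Coprime a Q) : jacobiSym ((a : ℤ) ^ 2) Q = 1 := by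
  apply jacobiSym.sq_one'
  rw [Int.gcd_natCast_natCast]
  exact h

private theorem R3_mul {a Q : ℕ} (h : Nat.Coprime a Q) :
    jacobiSym (a : ℤ) Q * jacobiSym (a : ℤ) Q = 1 := by
  rw [← jacobiSym.mul_left, ← sq]
  exact R3_sq h

/-- PROOF: `C_n ≡ B_n^2` (`n = j+1`) or `≡ A_n^2` (`n ≥ j+2`) modulo `Q`, with a number coprime to `Q`;
`jacobiSym.sq_one`. -/
theorem jac_C_one {K Q j n : ℕ} (hK : 0 < K) (hQ : Nat.Coprime Q K) (h : Q ∣ C K j)
    (hn : j < n) : jacobiSym (C K n : ℤ) Q = 1 := by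
  have h1 := coprime_AB hK n
  have h2 : (C K n : ℤ) = (A K n : ℤ) ^ 2 + (B K n : ℤ) ^ 2 := by
    unfold C
    push_cast
    ring
  rcases R3_dvd_AB hQ h hn with h3 | h3
  · have h4 : jacobiSym (C K n : ℤ) Q = jacobiSym ((B K n : ℤ) ^ 2) Q := by
      apply jacobiSym.mod_left'
      apply Int.ModEq.symm
      rw [Int.modEq_iff_dvd, h2]
      obtain ⟨c, hc⟩ := h3
      refine ⟨c * A K n, ?_⟩
      rw [hc]
      push_cast
      ring
    rw [h4]
    exact R3_sq (h1.symm.coprime_dvd_right h3)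
  · have h4 : jacobiSym (C K n : ℤ) Q = jacobiSym ((A K n : ℤ) ^ 2) Q := by
      apply jacobiSym.mod_left'
      apply Int.ModEq.symm
      rw [Int.modEq_iff_dvd, h2]
      obtain ⟨c, hc⟩ := h3
      refine ⟨c * B K n, ?_⟩
      rw [hc]
      push_cast
      ring
    rw [h4]
    exact R3_sq (h1.coprime_dvd_right h3)

/-- a prime divides at most one `C_j` (if it does not divide `2K` it is enough that it does not
divide `K`).  PROOF: `coprime_C` with `Q = l`. -/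
theorem not_dvd_C {K l j n : ℕ} (hK : 0 < K) (hl : l.Prime) (hlK : ¬ l ∣ K) (h : l ∣ C K j)
    (hn : j ≠ n) : ¬ l ∣ C K n := by
  intro h2
  have hQ : Nat.Coprime l K := (Nat.Prime.coprime_iff_not_dvd hl).2 hlK
  have key : ∀ i k : ℕ, i < k → l ∣ C K i → l ∣ C K k → False := by
    intro i k hik h3 h4
    have h5 := coprime_C hK hQ h3 hik
    have h6 : l ∣ Nat.gcd (C K k) l := Nat.dvd_gcd h4 dvd_rfl
    rw [h5] at h6
    exact hl.one_lt.ne' (Nat.dvd_one.mp h6)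
  rcases Nat.lt_or_gt_of_ne hn with h3 | h3
  · exact key j n h3 h h2
  · exact key n j h3 h2 h

/-- PROOF: `A_m * Gg_{m-1} = K * C_{m-1}` so `A_m * Gg^2 = K * C_{m-1} * Gg`, multiplicativity
(`jacobiSym.mul_left`), `jac_C_one` for `C_{m-1}` (`j < m-1`), `Gg` is coprime to `Q`
(`jacobiSym.sq_one`). -/
theorem jac_A {K Q j m : ℕ} (hK : 0 < K) (hQ : Nat.Coprime Q K) (h : Q ∣ C K j)
    (hm : j + 2 ≤ m) : jacobiSym (A K m : ℤ) Q = jacobiSym ((K * Gg K (m - 1) : ℕ) : ℤ) Q := by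
  obtain ⟨k, rfl⟩ : ∃ k, m = k + 1 := ⟨m - 1, by omega⟩
  have hk : k + 1 - 1 = k := by omega
  rw [hk]
  have h1 := A_succ K k
  have h2 := jac_C_one hK hQ h (show j < k by omega)
  have h3 : Nat.Coprime (Gg K k) Q := (hQ.coprime_dvd_right (Gg_dvd K k)).symm
  have h4 := R3_mul h3
  have h5 : (A K (k + 1) : ℤ) * (Gg K k : ℤ) = (K : ℤ) * (C K k : ℤ) := by exact_mod_cast h1
  have h6 : jacobiSym ((A K (k + 1) : ℤ) * (Gg K k : ℤ)) Q = jacobiSym (K : ℤ) Q := by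
    rw [h5, jacobiSym.mul_left, h2, mul_one]
  rw [jacobiSym.mul_left] at h6
  push_cast
  rw [jacobiSym.mul_left, ← h6, mul_assoc, h4, mul_one]

/-- Jacobi symbols of the two moduli at a divisor `Q` of `C_j`.
PROOF: `Q ∣ B_m`, `Q ∣ B_{m+1}` (`dvd_B`), so the symbol of the product is that of
`A_m * (2 K A_{m+1})` (`jacobiSym.mod_left'`), and `jac_A` for `m` and `m+1`:
`= J(K G_{m-1}) J(2K) J(K G_m) = J(2 K G_{m-1} G_m) J(K^2)`. -/
theorem jac_L0L1 {K Q j m : ℕ} {e : ℤ} (hK : 0 < K) (hQ : Nat.Coprime Q K) (h : Q ∣ C K j)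
    (hm : j + 2 ≤ m) :
    jacobiSym (((A K m : ℤ) - e * B K m) * (2 * (K : ℤ) * A K (m + 1) - e * B K (m + 1))) Q =
      jacobiSym ((2 * (K * Gg K (m - 1) * Gg K m) : ℕ) : ℤ) Q := by
  obtain ⟨b₁, hb₁⟩ := dvd_B hQ h hm
  obtain ⟨b₂, hb₂⟩ := dvd_B hQ h (show j + 2 ≤ m + 1 by omega)
  have h1 : jacobiSym (((A K m : ℤ) - e * B K m) *
      (2 * (K : ℤ) * A K (m + 1) - e * B K (m + 1))) Q =
      jacobiSym ((A K m : ℤ) * (2 * ((K : ℤ) * A K (m + 1)))) Q := by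
    apply jacobiSym.mod_left'
    apply Int.ModEq.symm
    rw [Int.modEq_iff_dvd]
    refine ⟨-(A K m : ℤ) * e * b₂ - e * b₁ * (2 * (K : ℤ) * A K (m + 1)) +
      e ^ 2 * b₁ * (Q * b₂), ?_⟩
    rw [hb₁, hb₂]
    push_cast
    ring
  have h2 := jac_A hK hQ h hm
  have h3 := jac_A hK hQ h (show j + 2 ≤ m + 1 by omega)
  have h4 : m + 1 - 1 = m := by omega
  rw [h4] at h3
  have h5 := R3_mul hQ.symm
  rw [h1, jacobiSym.mul_left, jacobiSym.mul_left, jacobiSym.mul_left, h2, h3]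
  push_cast
  rw [jacobiSym.mul_left, jacobiSym.mul_left, jacobiSym.mul_left, jacobiSym.mul_left,
    jacobiSym.mul_left]
  linear_combination (jacobiSym 2 Q * jacobiSym (K : ℤ) Q * jacobiSym (Gg K (m - 1) : ℤ) Q *
    jacobiSym (Gg K m : ℤ) Q) * h5

/-- PROOF: all prime factors of `C_i` are `2` or `≡ 1 (mod 4)`: a prime `q ≡ 3 (mod 4)` dividing
`A^2+B^2` divides `A` and `B` (`ZMod.mod_four_ne_three_of_sq_eq_neg_sq'` or
`Nat.Prime.sq_add_sq` theory), contradiction to `coprime_AB`; an odd natural number all of whose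
prime factors are `≡ 1 (mod 4)` is `≡ 1 (mod 4)` (`Nat.recOnMul` / induction on the factorisation). -/
theorem mod_four_of_dvd_C {K Q i : ℕ} (hK : 0 < K) (hQ : Q ∣ C K i) (hodd : Odd Q) :
    Q % 4 = 1 := by
  have h1 : Nat.Coprime (C K i) (A K i * B K i) := coprime_C_AB hK i
  have h2 : Nat.Coprime Q (A K i * B K i) := h1.coprime_dvd_left hQ
  have hA : Nat.Coprime (A K i) Q := (h2.coprime_mul_right_right).symm
  have hB : Nat.Coprime (B K i) Q := (h2.coprime_mul_left_right).symm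
  obtain ⟨c, hc⟩ := hQ
  have h3 : jacobiSym (-1 * (B K i : ℤ) ^ 2) Q = jacobiSym ((A K i : ℤ) ^ 2) Q := by
    apply jacobiSym.mod_left'
    apply Int.ModEq.symm
    rw [Int.modEq_iff_dvd]
    refine ⟨-c, ?_⟩
    have h4 : (A K i : ℤ) ^ 2 + (B K i : ℤ) ^ 2 = Q * c := by
      unfold C at hc
      exact_mod_cast hc
    linear_combination -h4
  rw [jacobiSym.mul_left, R3_sq hA, R3_sq hB, mul_one, jacobiSym.at_neg_one hodd] at h3
  rw [ZMod.χ₄_nat_eq_if_mod_four] at h3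
  have h5 : Q % 2 = 1 := Nat.odd_iff.mp hodd
  by_contra h6
  rw [if_neg (by omega), if_neg h6] at h3
  norm_num at h3

end Pool.Agent.Lib.MP_e26d5c_nt.AG
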