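import Pool.Agent.Lib.MP_e26d5c_nt.AG.R4

set_option autoImplicit false

namespace Pool.Agent.Lib.MP_e26d5c_nt.AG

private theorem R4b_valpos {p n : ℕ} (hp : p.Prime) (hn : 0 < n) (h : p ∣ n) :
    1 ≤ padicValNat p n := by
  have := Fact.mk hp
  exact one_le_padicValNat_of_dvd (by omega) h

private theorem R4b_dvd {p n : ℕ} (h : 1 ≤ padicValNat p n) : p ∣ n :=
  dvd_of_one_le_padicValNat h

private theorem R4b_ndvd {p n : ℕ} (hp : p.Prime) (hn : 0 < n) (h : padicValNat p n = 0) :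
    ¬ p ∣ n := by
  intro hd
  have := R4b_valpos hp hn hd
  omega

private theorem R4b_two {K p n : ℕ} (hp : p.Prime) (hK : 0 < K) (hpK : p ∣ K)
    (hu : ¬ p ∣ A K n * B K n) : p ∣ A K (n + 1) * B K (n + 1) := by
  have h1 := A_succ K n
  have h2 : p ∣ A K (n + 1) * Gg K n := by
    rw [h1]
    exact Dvd.dvd.mul_right hpK _
  rcases hp.dvd_mul.mp h2 with h | h
  · exact Dvd.dvd.mul_right h _
  · exact absurd h (not_dvd_Gg hp hu)

/-- `v(B_{N+2+i}) = (t-i) e`, `p ∤ A_{N+2+i}` for `i ≤ t`.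
PROOF: induction on `i`: `bad_step` for `i = 0`, `descent` for the step (`(t-i) e ≥ e` as `i < t`). -/
theorem bad_run {K p N t : ℕ} (hp : p.Prime) (hK : 0 < K) (hpK : p ∣ K) (hC : p ∣ C K N)
    (ht : padicValNat p (C K N) = t * padicValNat p K) (i : ℕ) (hi : i ≤ t) :
    padicValNat p (B K (N + 2 + i)) = (t - i) * padicValNat p K ∧ ¬ p ∣ A K (N + 2 + i) := by
  have he : 1 ≤ padicValNat p K := R4b_valpos hp hK hpK
  obtain ⟨_, _, h3, h4⟩ := bad_step hp hK hC
  induction i with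
  | zero =>
    refine ⟨?_, ?_⟩
    · rw [Nat.add_zero, h3, ht, Nat.sub_zero]
    · exact h4
  | succ i ih =>
    obtain ⟨ih1, ih2⟩ := ih (by omega)
    have h5 : padicValNat p K ≤ padicValNat p (B K (N + 2 + i)) := by
      rw [ih1]
      exact Nat.le_mul_of_pos_left _ (by omega)
    obtain ⟨h6, h7⟩ := descent hp hK hpK ih2 h5
    refine ⟨?_, h7⟩
    have h8 : N + 2 + (i + 1) = N + 2 + i + 1 := by omega
    rw [h8, h6, ih1]
    have h9 : t - i = (t - (i + 1)) + 1 := by omega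
    rw [h9, Nat.add_mul, Nat.one_mul]
    omega

/-- PROOF: `s = 1`: `p ∣ A (N+1)` (`bad_step`); `s = 2 + i`, `i ≤ t - 1`: `bad_run` gives
`v(B) = (t-i) e ≥ 1`.  (`t ≥ 1` because `p ∣ C_N`.) -/
theorem bad_nonunit {K p N t : ℕ} (hp : p.Prime) (hK : 0 < K) (hpK : p ∣ K) (hC : p ∣ C K N)
    (ht : padicValNat p (C K N) = t * padicValNat p K) (s : ℕ) (hs : 1 ≤ s) (hs' : s ≤ t + 1) :
    p ∣ A K (N + s) * B K (N + s) := by
  have he : 1 ≤ padicValNat p K := R4b_valpos hp hK hpK
  rcases Nat.lt_or_ge s 2 with h | h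
  · have h1 : s = 1 := by omega
    subst h1
    obtain ⟨h1, _, _, _⟩ := bad_step hp hK hC
    exact Dvd.dvd.mul_right (R4b_dvd (by rw [h1]; omega)) _
  · obtain ⟨i, rfl⟩ := Nat.exists_eq_add_of_le h
    have h1 := (bad_run hp hK hpK hC ht i (by omega)).1
    have h2 : N + (2 + i) = N + 2 + i := by omega
    rw [h2]
    refine Dvd.dvd.mul_left (R4b_dvd ?_) _
    rw [h1]
    exact Nat.mul_pos (by omega) he

/-- PROOF: `bad_run` with `i = t`. -/
theorem bad_unit {K p N t : ℕ} (hp : p.Prime) (hK : 0 < K) (hpK : p ∣ K) (hC : p ∣ C K N)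
    (ht : padicValNat p (C K N) = t * padicValNat p K) :
    ¬ p ∣ A K (N + t + 2) * B K (N + t + 2) := by
  obtain ⟨h1, h2⟩ := bad_run hp hK hpK hC ht t le_rfl
  have h3 : N + t + 2 = N + 2 + t := by omega
  rw [h3, hp.dvd_mul]
  rintro (h | h)
  · exact h2 h
  · refine R4b_ndvd hp (B_pos hK _) ?_ h
    rw [h1, Nat.sub_self, Nat.zero_mul]

/-- if the valuation of `K` does not divide that of `C_N` there are no units after `N`.
PROOF: write `v(C_N) = q e + r`, `0 < r < e`.  `s = 1`: `bad_step`.  By induction (`descent`)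
`v(B_{N+2+i}) = (q-i) e + r > 0` for `i ≤ q`, and at `i = q` we have `0 < v(B) < e`; from then on
`trap_step` (induction) gives `p ∣ A`. -/
theorem bad_no_unit {K p N : ℕ} (hp : p.Prime) (hK : 0 < K) (hpK : p ∣ K) (hC : p ∣ C K N)
    (ht : ¬ padicValNat p K ∣ padicValNat p (C K N)) (s : ℕ) (hs : 1 ≤ s) :
    p ∣ A K (N + s) * B K (N + s) := by
  have he : 1 ≤ padicValNat p K := R4b_valpos hp hK hpK
  obtain ⟨b1, _, b3, b4⟩ := bad_step hp hK hC
  rcases Nat.lt_or_ge s 2 with h | h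
  · have h1 : s = 1 := by omega
    subst h1
    exact Dvd.dvd.mul_right (R4b_dvd (by rw [b1]; omega)) _
  obtain ⟨i, rfl⟩ := Nat.exists_eq_add_of_le h
  set e := padicValNat p K with hedef
  set v := padicValNat p (C K N) with hvdef
  have hr : 0 < v % e := by
    rcases Nat.eq_zero_or_pos (v % e) with h0 | h0
    · exact absurd (Nat.dvd_of_mod_eq_zero h0) ht
    · exact h0
  have hr' : v % e < e := Nat.mod_lt _ he
  have hdm := Nat.div_add_mod v e
  -- run down
  have hrun : ∀ j, j ≤ v / e → padicValNat p (B K (N + 2 + j)) = (v / e - j) * e + v % e ∧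
      ¬ p ∣ A K (N + 2 + j) := by
    intro j
    induction j with
    | zero =>
      intro _
      refine ⟨?_, b4⟩
      rw [Nat.add_zero, b3, Nat.sub_zero, Nat.mul_comm]
      exact hdm.symm
    | succ j ih =>
      intro hj
      obtain ⟨ih1, ih2⟩ := ih (by omega)
      have h9 : v / e - j = (v / e - (j + 1)) + 1 := by omega
      have h5 : padicValNat p K ≤ padicValNat p (B K (N + 2 + j)) := by
        rw [ih1, h9, Nat.add_mul, Nat.one_mul, ← hedef]
        omega
      obtain ⟨h6, h7⟩ := descent hp hK hpK ih2 h5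
      refine ⟨?_, h7⟩
      have h8 : N + 2 + (j + 1) = N + 2 + j + 1 := by omega
      rw [h8, h6, ih1, h9, Nat.add_mul, Nat.one_mul, ← hedef]
      omega
  have htrap : ∀ j, p ∣ A K (N + 2 + v / e + 1 + j) ∧
      padicValNat p (A K (N + 2 + v / e + 1 + j)) < padicValNat p K := by
    intro j
    induction j with
    | zero =>
      obtain ⟨h1, h2⟩ := hrun (v / e) le_rfl
      rw [Nat.sub_self, Nat.zero_mul, Nat.zero_add] at h1
      exact trap_step hp hK (Or.inr ⟨R4b_dvd (by rw [h1]; exact hr), by rw [h1]; exact hr'⟩)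
    | succ j ih =>
      exact trap_step hp hK (Or.inl ih)
  have h2 : N + (2 + i) = N + 2 + i := by omega
  rw [h2]
  rcases Nat.lt_or_ge (v / e) i with h3 | h3
  · obtain ⟨j, rfl⟩ := Nat.exists_eq_add_of_le (Nat.succ_le_of_lt h3)
    have h4 : N + 2 + (v / e + 1 + j) = N + 2 + v / e + 1 + j := by omega
    have h5 := (htrap j).1
    refine Dvd.dvd.mul_right ?_ _
    have h6 : N + 2 + (Nat.succ (v / e) + j) = N + 2 + v / e + 1 + j := by omega
    rw [h6]
    exact h5
  · refine Dvd.dvd.mul_left (R4b_dvd ?_) _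
    rw [(hrun i h3).1]
    omega

/-- along a run of units: if `N` is a unit, and `p` divides no `C_i` for `N ≤ i < M`, then the units
in `[N, M]` are exactly the indices of the parity of `N`.
PROOF: induction on `M`; `unit_step` (`p ∣ A_{n+1}`), `unit_two`. -/
theorem run_units {K p N M : ℕ} (hp : p.Prime) (hK : 0 < K) (hpK : p ∣ K)
    (hu : ¬ p ∣ A K N * B K N) (hC : ∀ i, N ≤ i → i < M → ¬ p ∣ C K i) (i : ℕ) (hi : N ≤ i)
    (hi' : i ≤ M) : (¬ p ∣ A K i * B K i) ↔ i % 2 = N % 2 := by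
  have heven : ∀ u, N + 2 * u ≤ M → ¬ p ∣ A K (N + 2 * u) * B K (N + 2 * u) := by
    intro u
    induction u with
    | zero => intro _; exact hu
    | succ u ih =>
      intro h
      have h1 := ih (by omega)
      exact (unit_two hp hK hpK h1 (hC _ (by omega) (by omega))).1
  obtain ⟨d, rfl⟩ := Nat.exists_eq_add_of_le hi
  rcases Nat.mod_two_eq_zero_or_one d with h | h
  · obtain ⟨u, rfl⟩ : ∃ u, d = 2 * u := ⟨d / 2, by omega⟩
    constructor
    · intro _; omega
    · intro _; exact heven u hi'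
  · obtain ⟨u, rfl⟩ : ∃ u, d = 2 * u + 1 := ⟨d / 2, by omega⟩
    constructor
    · intro h1
      exact absurd (R4b_two hp hK hpK (heven u (by omega))) h1
    · intro h1; omega

/-- two neighbours are never both units.  PROOF: if `n` is a unit: `p ∣ A_{n+1}` by `A_succ`
(`p ∣ K`, `p ∤ Gg_n`). -/
theorem no_two_units {K p n : ℕ} (hp : p.Prime) (hK : 0 < K) (hpK : p ∣ K)
    (hu : ¬ p ∣ A K n * B K n) : p ∣ A K (n + 1) * B K (n + 1) := by
  have h1 := A_succ K n
  have h2 : p ∣ A K (n + 1) * Gg K n := by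
    rw [h1]
    exact Dvd.dvd.mul_right hpK _
  rcases hp.dvd_mul.mp h2 with h | h
  · exact Dvd.dvd.mul_right h _
  · exact absurd h (not_dvd_Gg hp hu)

/-- Let `N < n`, `p ∣ C_N`, `n` a unit, and `p` divide no `C_i` for `N < i < n`.  Then `v(C_N) = t e` with
`t ≥ 1`, and `n = N + 2 + t + 2u`.
PROOF: `bad_no_unit` shows `e ∣ v(C_N)`; `bad_nonunit`, `bad_unit`, then `run_units` from
`N + t + 2` to `n`. -/
theorem last_bad {K p N n : ℕ} (hp : p.Prime) (hK : 0 < K) (hpK : p ∣ K) (hC : p ∣ C K N)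
    (hNn : N < n) (hu : ¬ p ∣ A K n * B K n) (hno : ∀ i, N < i → i < n → ¬ p ∣ C K i) :
    ∃ t u : ℕ, 1 ≤ t ∧ padicValNat p (C K N) = t * padicValNat p K ∧ n = N + 2 + t + 2 * u := by
  obtain ⟨s, rfl⟩ := Nat.exists_eq_add_of_le (le_of_lt hNn)
  by_cases hd : padicValNat p K ∣ padicValNat p (C K N)
  · obtain ⟨t, ht⟩ := hd
    rw [Nat.mul_comm] at ht
    have hv : 1 ≤ padicValNat p (C K N) := R4b_valpos hp (C_pos hK N) hC
    have ht1 : 1 ≤ t := by
      rcases Nat.eq_zero_or_pos t with h0 | h0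
      · rw [h0, Nat.zero_mul] at ht
        omega
      · exact h0
    have hs : t + 2 ≤ s := by
      by_contra hcon
      exact hu (bad_nonunit hp hK hpK hC ht s (by omega) (by omega))
    have h1 := bad_unit hp hK hpK hC ht
    have h2 := (run_units hp hK hpK h1 (M := N + s)
      (fun i h3 h4 => hno i (by omega) h4) (N + s) (by omega) le_rfl).mp hu
    exact ⟨t, (s - (t + 2)) / 2, ht1, ht, by omega⟩
  · exact absurd (bad_no_unit hp hK hpK hC hd s (by omega)) hu

end Pool.Agent.Lib.MP_e26d5c_nt.AG
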