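import Pool.Agent.Lib.MP_e26d5c_nt.AG.Ar

set_option autoImplicit false

namespace Pool.Agent.Lib.MP_e26d5c_nt.AG

private theorem R6_dvd {x : ℕ} (hx : x ≠ 0) (n : ℕ) : 2 ^ n ∣ x ↔ n ≤ padicValNat 2 x :=
  padicValNat_dvd_iff_le hx

private theorem R6_two {x : ℕ} (hx : 0 < x) : x % 2 = 1 ↔ padicValNat 2 x = 0 := by
  have h1 := R6_dvd (by omega : x ≠ 0) 1
  rw [pow_one] at h1
  constructor
  · intro h
    by_contra h2
    have := h1.2 (by omega)
    omega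
  · intro h
    by_contra h2
    have := h1.1 (by omega)
    omega

private theorem R6_four {x : ℕ} (hx : 0 < x) : x % 4 = 2 ↔ padicValNat 2 x = 1 := by
  have h1 := R6_dvd (by omega : x ≠ 0) 1
  have h2 := R6_dvd (by omega : x ≠ 0) 2
  rw [pow_one] at h1
  have e : (2 : ℕ) ^ 2 = 4 := by norm_num
  rw [e] at h2
  constructor
  · intro h
    have h3 := h1.1 (by omega)
    have h4 : ¬ 2 ≤ padicValNat 2 x := fun h5 => by
      have := h2.2 h5
      omega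
    omega
  · intro h
    have h3 := h1.2 (by omega)
    have h4 : ¬ 4 ∣ x := fun h5 => by
      have := h2.1 h5
      omega
    omega

private theorem R6_eight {x : ℕ} (hx : 0 < x) : x % 8 = 4 ↔ padicValNat 2 x = 2 := by
  have h2 := R6_dvd (by omega : x ≠ 0) 2
  have h3 := R6_dvd (by omega : x ≠ 0) 3
  have e : (2 : ℕ) ^ 2 = 4 := by norm_num
  have e' : (2 : ℕ) ^ 3 = 8 := by norm_num
  rw [e] at h2
  rw [e'] at h3
  constructor
  · intro h
    have h4 := h2.1 (by omega)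
    have h5 : ¬ 3 ≤ padicValNat 2 x := fun h5 => by
      have := h3.2 h5
      omega
    omega
  · intro h
    have h4 := h2.2 (by omega)
    have h5 : ¬ 8 ∣ x := fun h5 => by
      have := h3.1 h5
      omega
    omega

private theorem R6_sq1 {x : ℕ} (h : x % 2 = 1) : x ^ 2 % 8 = 1 := by
  have h1 : x % 8 = 1 ∨ x % 8 = 3 ∨ x % 8 = 5 ∨ x % 8 = 7 := by omega
  rcases h1 with h1 | h1 | h1 | h1 <;> simp [Nat.pow_mod, h1]

private theorem R6_sq2 {x : ℕ} (h : x % 4 = 2) : x ^ 2 % 8 = 4 := by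
  have h1 : x % 8 = 2 ∨ x % 8 = 6 := by omega
  rcases h1 with h1 | h1 <;> simp [Nat.pow_mod, h1]

private theorem R6_sq4 {x : ℕ} (h : x % 4 = 0) : x ^ 2 % 8 = 0 := by
  have h1 : x % 8 = 0 ∨ x % 8 = 4 := by omega
  rcases h1 with h1 | h1 <;> simp [Nat.pow_mod, h1]

private theorem R6_C {K : ℕ} (hK : 0 < K) (n : ℕ) :
    (padicValNat 2 (A K n) = 0 ∨ padicValNat 2 (B K n) = 0) ∧
    padicValNat 2 (C K n) =
      (if padicValNat 2 (A K n) = 0 ∧ padicValNat 2 (B K n) = 0 then 1 else 0) := by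
  have hA := A_pos hK n
  have hB := B_pos hK n
  have hC := C_pos hK n
  have h1 : padicValNat 2 (A K n) = 0 ∨ padicValNat 2 (B K n) = 0 := by
    by_contra h
    push Not at h
    have h2 : 2 ∣ A K n := by
      have := (R6_dvd hA.ne' 1).2 (by omega)
      simpa using this
    have h3 : 2 ∣ B K n := by
      have := (R6_dvd hB.ne' 1).2 (by omega)
      simpa using this
    have h4 := Nat.dvd_gcd h2 h3
    rw [coprime_AB hK n] at h4
    omega
  refine ⟨h1, ?_⟩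
  by_cases ha : padicValNat 2 (A K n) = 0
  · by_cases hb : padicValNat 2 (B K n) = 0
    · rw [if_pos ⟨ha, hb⟩, ← R6_four hC]
      have e1 := R6_sq1 ((R6_two hA).2 ha)
      have e2 := R6_sq1 ((R6_two hB).2 hb)
      unfold C
      omega
    · rw [if_neg (fun h => hb h.2), ← R6_two hC]
      have e1 := R6_sq1 ((R6_two hA).2 ha)
      have e2 : 2 ∣ B K n := by
        have := (R6_dvd hB.ne' 1).2 (by omega)
        simpa using this
      have e3 : 2 ∣ B K n ^ 2 := Dvd.dvd.pow e2 (by norm_num)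
      unfold C
      omega
  · have hb : padicValNat 2 (B K n) = 0 := by
      rcases h1 with h1 | h1
      · exact absurd h1 ha
      · exact h1
    rw [if_neg (fun h => ha h.1), ← R6_two hC]
    have e1 := R6_sq1 ((R6_two hB).2 hb)
    have e2 : 2 ∣ A K n := by
      have := (R6_dvd hA.ne' 1).2 (by omega)
      simpa using this
    have e3 : 2 ∣ A K n ^ 2 := Dvd.dvd.pow e2 (by norm_num)
    unfold C
    omega

private theorem R6_gcd {a b : ℕ} (ha : 0 < a) (hb : 0 < b) :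
    padicValNat 2 (Nat.gcd a b) = min (padicValNat 2 a) (padicValNat 2 b) := by
  rw [← Nat.factorization_def _ Nat.prime_two, ← Nat.factorization_def _ Nat.prime_two,
    ← Nat.factorization_def _ Nat.prime_two, Nat.factorization_gcd ha.ne' hb.ne']
  rfl

private theorem R6_step {K : ℕ} (hK : 0 < K) (n : ℕ) {k a b : ℕ} (hk : padicValNat 2 K = k)
    (ha : padicValNat 2 (A K n) = a) (hb : padicValNat 2 (B K n) = b) :
    ∃ c g : ℕ, (a = 0 ∧ b = 0 → c = 1) ∧ (¬ (a = 0 ∧ b = 0) → c = 0) ∧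
    (k ≤ a + b → g = k) ∧ (a + b ≤ k → g = a + b) ∧
    padicValNat 2 (Gg K n) = g ∧
    padicValNat 2 (A K (n + 1)) + g = k + c ∧
    padicValNat 2 (B K (n + 1)) + g = a + b := by
  have hA := A_pos hK n
  have hB := B_pos hK n
  have hC := C_pos hK n
  have hG := Gg_pos hK n
  have hA' := A_pos hK (n + 1)
  have hB' := B_pos hK (n + 1)
  have e1 : padicValNat 2 (A K n * B K n) = a + b := by
    rw [padicValNat.mul hA.ne' hB.ne', ha, hb]
  have hg : padicValNat 2 (Gg K n) = min k (a + b) := by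
    unfold Gg
    rw [R6_gcd hK (Nat.mul_pos hA hB), hk, e1]
  refine ⟨if a = 0 ∧ b = 0 then 1 else 0, min k (a + b), fun h => if_pos h, fun h => if_neg h,
    fun h => min_eq_left h, fun h => min_eq_right h, hg, ?_, ?_⟩
  · have h1 := congrArg (padicValNat 2) (A_succ K n)
    rw [padicValNat.mul hA'.ne' hG.ne', padicValNat.mul hK.ne' hC.ne', hg, hk, (R6_C hK n).2, ha,
      hb] at h1
    exact h1
  · have h1 := congrArg (padicValNat 2) (B_succ K n)
    rw [padicValNat.mul hB'.ne' hG.ne', hg, e1] at h1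
    exact h1

private theorem R6_one {K : ℕ} (hK : 0 < K) :
    padicValNat 2 (A K 1) = padicValNat 2 K + 1 ∧ padicValNat 2 (B K 1) = 0 := by
  obtain ⟨c, g, c1, c2, g1, g2, h0, h1, h2⟩ := R6_step hK 0 rfl (a := 0) (b := 0) (by simp) (by simp)
  simp only [zero_add] at h1 h2
  constructor <;> omega

private theorem R6_C5 {K n : ℕ} (hK : 0 < K)
    (h : (padicValNat 2 (A K n) = 0 ∧ padicValNat 2 (B K n) = 1) ∨
      (padicValNat 2 (A K n) = 1 ∧ padicValNat 2 (B K n) = 0)) : C K n % 8 = 5 := by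
  have hA := A_pos hK n
  have hB := B_pos hK n
  rcases h with ⟨h1, h2⟩ | ⟨h1, h2⟩
  · have e1 := R6_sq1 ((R6_two hA).2 h1)
    have e2 := R6_sq2 ((R6_four hB).2 h2)
    unfold C
    omega
  · have e1 := R6_sq2 ((R6_four hA).2 h1)
    have e2 := R6_sq1 ((R6_two hB).2 h2)
    unfold C
    omega

/-- `K = 4 odd`: the valuations from `n = 3` on -/
private theorem R6_v4 {K : ℕ} (hK : 0 < K) (hk : padicValNat 2 K = 2) :
    (padicValNat 2 (A K 2) = 0 ∧ padicValNat 2 (B K 2) = 1 ∧ padicValNat 2 (Gg K 2) = 1) ∧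
    ∀ n, 3 ≤ n → padicValNat 2 (A K n) = 1 ∧ padicValNat 2 (B K n) = 0 ∧
      padicValNat 2 (Gg K n) = 1 := by
  have h1 := R6_one hK
  rw [hk] at h1
  obtain ⟨c, g, c1, c2, g1, g2, h20, h21, h22⟩ := R6_step hK 1 hk h1.1 h1.2
  simp only [Nat.reduceAdd] at h21 h22
  have h2a : padicValNat 2 (A K 2) = 0 := by omega
  have h2b : padicValNat 2 (B K 2) = 1 := by omega
  obtain ⟨c', g', c1', c2', g1', g2', h30, h31, h32⟩ := R6_step hK 2 hk h2a h2b
  simp only [Nat.reduceAdd] at h31 h32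
  have h3a : padicValNat 2 (A K 3) = 1 := by omega
  have h3b : padicValNat 2 (B K 3) = 0 := by omega
  refine ⟨⟨h2a, h2b, by omega⟩, ?_⟩
  intro n hn
  induction n, hn using Nat.le_induction with
  | base =>
    obtain ⟨c, g, c1, c2, g1, g2, h40, h41, h42⟩ := R6_step hK 3 hk h3a h3b
    exact ⟨h3a, h3b, by omega⟩
  | succ n hn ih =>
    obtain ⟨c, g, c1, c2, g1, g2, h40, h41, h42⟩ := R6_step hK n hk ih.1 ih.2.1
    have h5a : padicValNat 2 (A K (n + 1)) = 1 := by omega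
    have h5b : padicValNat 2 (B K (n + 1)) = 0 := by omega
    obtain ⟨c', g', c1', c2', g1', g2', h60, h61, h62⟩ := R6_step hK (n + 1) hk h5a h5b
    exact ⟨h5a, h5b, by omega⟩

/-- `8 ∣ K`: the valuations -/
private theorem R6_v8 {K : ℕ} (hK : 0 < K) (hk : 3 ≤ padicValNat 2 K) :
    (padicValNat 2 (A K 2) = 0 ∧ padicValNat 2 (B K 2) = 1 ∧ padicValNat 2 (Gg K 2) = 1) ∧
    ∀ n, 3 ≤ n → padicValNat 2 (A K n) = (if n % 2 = 0 then 1 else padicValNat 2 K - 1) ∧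
      padicValNat 2 (B K n) = 0 ∧
      padicValNat 2 (Gg K n) = (if n % 2 = 0 then 1 else padicValNat 2 K - 1) := by
  obtain ⟨k, hk'⟩ : ∃ k, k = padicValNat 2 K := ⟨_, rfl⟩
  rw [← hk'] at hk ⊢
  have h1 := R6_one hK
  rw [← hk'] at h1
  obtain ⟨c, g, c1, c2, g1, g2, h20, h21, h22⟩ := R6_step hK 1 hk'.symm h1.1 h1.2
  simp only [Nat.reduceAdd] at h21 h22
  have h2a : padicValNat 2 (A K 2) = 0 := by omega
  have h2b : padicValNat 2 (B K 2) = 1 := by omega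
  obtain ⟨c', g', c1', c2', g1', g2', h30, h31, h32⟩ := R6_step hK 2 hk'.symm h2a h2b
  simp only [Nat.reduceAdd] at h31 h32
  have h3a : padicValNat 2 (A K 3) = k - 1 := by omega
  have h3b : padicValNat 2 (B K 3) = 0 := by omega
  refine ⟨⟨h2a, h2b, by omega⟩, ?_⟩
  have hg : ∀ n, (padicValNat 2 (A K n) = (if n % 2 = 0 then 1 else k - 1) ∧
      padicValNat 2 (B K n) = 0) →
      padicValNat 2 (Gg K n) = (if n % 2 = 0 then 1 else k - 1) ∧
      padicValNat 2 (A K (n + 1)) = (if (n + 1) % 2 = 0 then 1 else k - 1) ∧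
      padicValNat 2 (B K (n + 1)) = 0 := by
    intro n hn
    obtain ⟨hn1, hn2⟩ := hn
    by_cases he : n % 2 = 0
    · rw [if_pos he] at hn1 ⊢
      rw [if_neg (by omega : ¬ (n + 1) % 2 = 0)]
      obtain ⟨c, g, c1, c2, g1, g2, h40, h41, h42⟩ := R6_step hK n hk'.symm hn1 hn2
      omega
    · rw [if_neg he] at hn1 ⊢
      rw [if_pos (by omega : (n + 1) % 2 = 0)]
      obtain ⟨c, g, c1, c2, g1, g2, h40, h41, h42⟩ := R6_step hK n hk'.symm hn1 hn2
      omega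
  intro n hn
  have key : ∀ n, 3 ≤ n → (padicValNat 2 (A K n) = (if n % 2 = 0 then 1 else k - 1) ∧
      padicValNat 2 (B K n) = 0) := by
    intro n hn
    induction n, hn using Nat.le_induction with
    | base => exact ⟨by rw [if_neg (by norm_num)]; exact h3a, h3b⟩
    | succ n hn ih => exact (hg n ih).2
  exact ⟨(key n hn).1, (key n hn).2, (hg n (key n hn)).1⟩

private theorem R6_k {K : ℕ} (hK : 0 < K) (h4 : 4 ∣ K) :
    padicValNat 2 K = 2 ∨ 3 ≤ padicValNat 2 K := by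
  have := (R6_dvd hK.ne' 2).1 (by norm_num; exact h4)
  omega

/-- PROOF: `n = 1`: `A_1 = 2K`, `B_1 = 1`, `C_1 = 4K^2+1 ≡ 5 (mod 8)` for odd `K`.  For `n ≥ 1` show
by induction: one of `A_n, B_n` is odd, the other one `≡ 2 (mod 4)` (`Gg_n` is odd; `A_{n+1} Gg_n = K C_n`
is odd, `B_{n+1} Gg_n = A_n B_n ≡ 2 (mod 4)`).  Then `C_n = odd^2 + 4 odd^2 ≡ 5 (mod 8)`. -/
theorem two_odd {K n : ℕ} (hK : K % 2 = 1) (hn : 1 ≤ n) : C K n % 8 = 5 := by
  have hK0 : 0 < K := by omega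
  have hk := (R6_two hK0).1 hK
  have key : ∀ n, 1 ≤ n → (padicValNat 2 (A K n) = 0 ∧ padicValNat 2 (B K n) = 1) ∨
      (padicValNat 2 (A K n) = 1 ∧ padicValNat 2 (B K n) = 0) := by
    intro n hn
    induction n, hn using Nat.le_induction with
    | base =>
      have h1 := R6_one hK0
      rw [hk] at h1
      exact Or.inr h1
    | succ n hn ih =>
      rcases ih with ih | ih
      · obtain ⟨c, g, c1, c2, g1, g2, h40, h41, h42⟩ := R6_step hK0 n hk ih.1 ih.2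
        exact Or.inl ⟨by omega, by omega⟩
      · obtain ⟨c, g, c1, c2, g1, g2, h40, h41, h42⟩ := R6_step hK0 n hk ih.1 ih.2
        exact Or.inl ⟨by omega, by omega⟩
  exact R6_C5 hK0 (key n hn)

/-- `K ≡ 2 (mod 4)`: period 3.  PROOF by induction on `n`; the claims for index `3n+1` come from
`3n` (`A, B` odd: `Gg` odd, `A_{3n+1} Gg = K C`, `C ≡ 2 (mod 4)`, so `A_{3n+1} ≡ 0 (mod 4)`; `B_{3n+1}` odd);
for `3n+2`: `4 ∣ A`, so `Gg = 2 odd`, `A_{3n+2}` odd (`K/2` odd, `C` odd); `B_{3n+2} Gg = A B`, where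
`v_2(A_{3n+1}) = 2`, so `v_2(B_{3n+2}) = 1`; for `3n+3`: `Gg = 2 odd`, `A`, `B` odd.
(`v_2(A_{3n+1}) = v_2(K) + v_2(C_{3n}) = 1 + 1 = 2`: keep `A_{3n+1} % 8 = 4` in the induction.) -/
theorem two_two {K : ℕ} (hK : K % 4 = 2) (n : ℕ) :
    (A K (3 * n) % 2 = 1 ∧ B K (3 * n) % 2 = 1) ∧
    (A K (3 * n + 1) % 8 = 4 ∧ B K (3 * n + 1) % 2 = 1) ∧
    (A K (3 * n + 2) % 2 = 1 ∧ B K (3 * n + 2) % 4 = 2) := by
  have hK0 : 0 < K := by omega
  have hk := (R6_four hK0).1 hK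
  have key : ∀ n, padicValNat 2 (A K (3 * n)) = 0 → padicValNat 2 (B K (3 * n)) = 0 →
      (padicValNat 2 (A K (3 * n + 1)) = 2 ∧ padicValNat 2 (B K (3 * n + 1)) = 0) ∧
      (padicValNat 2 (A K (3 * n + 2)) = 0 ∧ padicValNat 2 (B K (3 * n + 2)) = 1) ∧
      (padicValNat 2 (A K (3 * n + 3)) = 0 ∧ padicValNat 2 (B K (3 * n + 3)) = 0) := by
    intro n ha hb
    obtain ⟨c, g, c1, c2, g1, g2, h10, h11, h12⟩ := R6_step hK0 (3 * n) hk ha hb
    have h1a : padicValNat 2 (A K (3 * n + 1)) = 2 := by omega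
    have h1b : padicValNat 2 (B K (3 * n + 1)) = 0 := by omega
    obtain ⟨c', g', c1', c2', g1', g2', h20, h21, h22⟩ := R6_step hK0 (3 * n + 1) hk h1a h1b
    have h2a : padicValNat 2 (A K (3 * n + 2)) = 0 := by
      have e : 3 * n + 1 + 1 = 3 * n + 2 := rfl
      rw [e] at h21
      omega
    have h2b : padicValNat 2 (B K (3 * n + 2)) = 1 := by
      have e : 3 * n + 1 + 1 = 3 * n + 2 := rfl
      rw [e] at h22
      omega
    obtain ⟨c'', g'', c1'', c2'', g1'', g2'', h30, h31, h32⟩ := R6_step hK0 (3 * n + 2) hk h2a h2b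
    have e : 3 * n + 2 + 1 = 3 * n + 3 := rfl
    rw [e] at h31 h32
    exact ⟨⟨h1a, h1b⟩, ⟨h2a, h2b⟩, ⟨by omega, by omega⟩⟩
  have base : padicValNat 2 (A K (3 * n)) = 0 ∧ padicValNat 2 (B K (3 * n)) = 0 := by
    induction n with
    | zero => simp
    | succ n ih =>
      have h1 := (key n ih.1 ih.2).2.2
      have e : 3 * (n + 1) = 3 * n + 3 := by ring
      rw [e]
      exact h1
  have h1 := key n base.1 base.2
  exact ⟨⟨(R6_two (A_pos hK0 _)).2 base.1, (R6_two (B_pos hK0 _)).2 base.2⟩,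
    ⟨(R6_eight (A_pos hK0 _)).2 h1.1.1, (R6_two (B_pos hK0 _)).2 h1.1.2⟩,
    ⟨(R6_two (A_pos hK0 _)).2 h1.2.1.1, (R6_four (B_pos hK0 _)).2 h1.2.1.2⟩⟩

/-- PROOF: from `n = 2` on one of `A_n, B_n` is odd, the other one `≡ 2 (mod 4)`:
`A_1 = 2K`, `B_1 = 1`, `Gg_1 = K`, `A_2 = C_1` odd, `B_2 = 2`; step: `Gg_n = 2 odd`, `K C_n/Gg_n = 2 odd`,
`A_n B_n/Gg_n` odd.  (So `A_n % 4 = 2`, `B_n` odd for `n ≥ 3`.) -/
theorem two_four {K n : ℕ} (hK : K % 8 = 4) (hn : 3 ≤ n) :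
    A K n % 4 = 2 ∧ B K n % 2 = 1 ∧ padicValNat 2 (Gg K n) = 1 := by
  have hK0 : 0 < K := by omega
  have hk := (R6_eight hK0).1 hK
  have h := (R6_v4 hK0 hk).2 n hn
  exact ⟨(R6_four (A_pos hK0 _)).2 h.1, (R6_two (B_pos hK0 _)).2 h.2.1, h.2.2⟩

theorem two_four_two {K : ℕ} (hK : 0 < K) (hK4 : 4 ∣ K) :
    A K 2 % 2 = 1 ∧ B K 2 = 2 ∧ padicValNat 2 (Gg K 2) = 1 := by
  have hg1 : Gg K 1 = K := by
    unfold Gg
    rw [A_one, B_one, mul_one]
    exact Nat.gcd_eq_left (Dvd.intro_left 2 rfl)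
  have hB2 : B K 2 = 2 := by
    have h := B_succ K 1
    rw [hg1, A_one, B_one, mul_one] at h
    exact Nat.eq_of_mul_eq_mul_right hK h
  have h : padicValNat 2 (A K 2) = 0 ∧ padicValNat 2 (B K 2) = 1 ∧
      padicValNat 2 (Gg K 2) = 1 := by
    rcases R6_k hK hK4 with hk | hk
    · exact (R6_v4 hK hk).1
    · exact (R6_v8 hK hk).1
  exact ⟨(R6_two (A_pos hK _)).2 h.1, hB2, h.2.2⟩

/-- `8 ∣ K`.  PROOF: induction.  `v_2(A_n) = 1` for even `n ≥ 4`, `v_2(A_n) = v - 1` for odd `n ≥ 3`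
(`v = v_2(K) ≥ 3`), `B_n` odd for `n ≥ 3`: `A_{n+1} Gg_n = K C_n`, `v_2(Gg_n) = min(v, v_2(A_n)) = v_2(A_n)`. -/
theorem two_eight {K n : ℕ} (hK : 0 < K) (h8 : 8 ∣ K) (hn : 3 ≤ n) :
    B K n % 2 = 1 ∧ padicValNat 2 (A K n) = (if n % 2 = 0 then 1 else padicValNat 2 K - 1) ∧
      padicValNat 2 (Gg K n) = (if n % 2 = 0 then 1 else padicValNat 2 K - 1) := by
  have hk : 3 ≤ padicValNat 2 K := (R6_dvd hK.ne' 3).1 (by norm_num; exact h8)
  have h := (R6_v8 hK hk).2 n hn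
  exact ⟨(R6_two (B_pos hK _)).2 h.2.1, h.1, h.2.2⟩

/-- PROOF: `two_four_two`, `two_four`; an odd square is `1 (mod 8)`, `4 * odd^2 ≡ 4 (mod 8)`. -/
theorem C_mod_four {K n : ℕ} (hK : K % 8 = 4) (hn : 2 ≤ n) : C K n % 8 = 5 := by
  have hK0 : 0 < K := by omega
  have hk := (R6_eight hK0).1 hK
  have h := R6_v4 hK0 hk
  apply R6_C5 hK0
  by_cases h2 : n = 2
  · rw [h2]
    exact Or.inl ⟨h.1.1, h.1.2.1⟩
  · have h3 := h.2 n (by omega)
    exact Or.inr ⟨h3.1, h3.2.1⟩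

/-- PROOF: `two_four_two`, `two_eight`. -/
theorem C_mod_eight_even {K n : ℕ} (hK : 0 < K) (h8 : 8 ∣ K) (hn : 2 ≤ n) (he : n % 2 = 0) :
    C K n % 8 = 5 := by
  have hk : 3 ≤ padicValNat 2 K := (R6_dvd hK.ne' 3).1 (by norm_num; exact h8)
  have h := R6_v8 hK hk
  apply R6_C5 hK
  by_cases h2 : n = 2
  · rw [h2]
    exact Or.inl ⟨h.1.1, h.1.2.1⟩
  · have h3 := h.2 n (by omega)
    rw [if_pos he] at h3
    exact Or.inr ⟨h3.1, h3.2.1⟩

/-- PROOF: `C_one` for `n = 1`; `two_eight` (`v - 1 ≥ 2`, so `4 ∣ A_n`). -/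
theorem C_mod_eight_odd {K n : ℕ} (hK : 0 < K) (h8 : 8 ∣ K) (ho : n % 2 = 1) :
    C K n % 8 = 1 := by
  by_cases h1 : n = 1
  · rw [h1, C_one]
    have h2 : 8 ∣ K ^ 2 := Dvd.dvd.pow h8 (by norm_num)
    omega
  · have hk : 3 ≤ padicValNat 2 K := (R6_dvd hK.ne' 3).1 (by norm_num; exact h8)
    have h3 := (R6_v8 hK hk).2 n (by omega)
    rw [if_neg (by omega : ¬ n % 2 = 0)] at h3
    have hA : 4 ∣ A K n := by
      have := (R6_dvd (A_pos hK n).ne' 2).2 (by omega)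
      simpa using this
    have e1 := R6_sq4 (by omega : A K n % 4 = 0)
    have e2 := R6_sq1 ((R6_two (B_pos hK n)).2 h3.2.1)
    unfold C
    omega

/-- PROOF: `two_four`, `two_four_two`, `two_eight`: `v + 1 + (v-1)` or `2 + 1 + 1`
(`m = 3`: `Gg_2` has valuation `1`). -/
theorem two_KGG {K m : ℕ} (hK : 0 < K) (h4 : 4 ∣ K) (hm : 3 ≤ m) :
    Even (padicValNat 2 (K * Gg K (m - 1) * Gg K m)) := by
  have hG := Gg_pos hK m
  have hG' := Gg_pos hK (m - 1)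
  rw [padicValNat.mul (Nat.mul_pos hK hG').ne' hG.ne', padicValNat.mul hK.ne' hG'.ne']
  rcases R6_k hK h4 with hk | hk
  · have h := R6_v4 hK hk
    have h1 : padicValNat 2 (Gg K (m - 1)) = 1 := by
      by_cases h2 : m = 3
      · rw [h2]
        exact h.1.2.2
      · exact (h.2 (m - 1) (by omega)).2.2
    rw [hk, h1, (h.2 m hm).2.2]
    decide
  · have h := R6_v8 hK hk
    have h1 : padicValNat 2 (Gg K (m - 1)) =
        (if (m - 1) % 2 = 0 then 1 else padicValNat 2 K - 1) := by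
      by_cases h2 : m = 3
      · rw [h2, if_pos (by norm_num)]
        exact h.1.2.2
      · exact (h.2 (m - 1) (by omega)).2.2
    rw [h1, (h.2 m hm).2.2]
    by_cases he : m % 2 = 0
    · rw [if_pos he, if_neg (by omega : ¬ (m - 1) % 2 = 0)]
      exact ⟨padicValNat 2 K, by omega⟩
    · rw [if_neg he, if_pos (by omega : (m - 1) % 2 = 0)]
      exact ⟨padicValNat 2 K, by omega⟩

/-- PROOF: `A_m` is even, `B_m` odd, `B_{m+1}` odd for `m ≥ 3` (`two_four`, `two_eight`). -/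
theorem two_L {K m : ℕ} {e : ℤ} (hK : 0 < K) (h4 : 4 ∣ K) (hm : 3 ≤ m) (he : e ^ 2 = 1) :
    Odd ((A K m : ℤ) - e * B K m) ∧ Odd (2 * (K : ℤ) * A K (m + 1) - e * B K (m + 1)) := by
  have hval : ∀ n, 3 ≤ n → A K n % 2 = 0 ∧ B K n % 2 = 1 := by
    intro n hn
    have hA := A_pos hK n
    have h1 : padicValNat 2 (A K n) ≠ 0 ∧ padicValNat 2 (B K n) = 0 := by
      rcases R6_k hK h4 with hk | hk
      · have h := (R6_v4 hK hk).2 n hn
        exact ⟨by omega, h.2.1⟩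
      · have h := (R6_v8 hK hk).2 n hn
        refine ⟨?_, h.2.1⟩
        rw [h.1]
        split_ifs <;> omega
    refine ⟨?_, (R6_two (B_pos hK n)).2 h1.2⟩
    have h2 := (R6_two hA).not.2 h1.1
    omega
  have h1 := hval m hm
  have h2 := hval (m + 1) (by omega)
  have he2 : e = 1 ∨ e = -1 := by
    have h3 : (e - 1) * (e + 1) = 0 := by linear_combination he
    rcases mul_eq_zero.1 h3 with h | h
    · exact Or.inl (by omega)
    · exact Or.inr (by omega)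
  constructor
  · rw [Int.odd_iff]
    rcases he2 with rfl | rfl <;> omega
  · have h3 : Odd (e * (B K (m + 1) : ℤ)) := by
      rw [Int.odd_iff]
      rcases he2 with rfl | rfl <;> omega
    have h4 : Even (2 * (K : ℤ) * A K (m + 1)) := ⟨(K : ℤ) * A K (m + 1), by ring⟩
    exact h4.sub_odd h3

/-- PROOF: `v_2` of `A_m` or `B_m` is `1` (`two_four_two`, `two_four`): `4 - 1` or `1 - 4` modulo `8`. -/
theorem two_sq_diff {K m : ℕ} (hK : K % 8 = 4) (hm : 2 ≤ m) :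
    ((A K m : ℤ) ^ 2 - (B K m : ℤ) ^ 2).natAbs % 8 = 3 ∨
      ((A K m : ℤ) ^ 2 - (B K m : ℤ) ^ 2).natAbs % 8 = 5 := by
  have hK0 : 0 < K := by omega
  have hk := (R6_eight hK0).1 hK
  have h := R6_v4 hK0 hk
  have hA := A_pos hK0 m
  have hB := B_pos hK0 m
  have key : (A K m ^ 2 % 8 = 1 ∧ B K m ^ 2 % 8 = 4) ∨ (A K m ^ 2 % 8 = 4 ∧ B K m ^ 2 % 8 = 1) := by
    by_cases h2 : m = 2
    · subst h2
      exact Or.inl ⟨R6_sq1 ((R6_two hA).2 h.1.1), R6_sq2 ((R6_four hB).2 h.1.2.1)⟩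
    · have h3 := h.2 m (by omega)
      exact Or.inr ⟨R6_sq2 ((R6_four hA).2 h3.1), R6_sq1 ((R6_two hB).2 h3.2.1)⟩
  obtain ⟨x, hx⟩ : ∃ x : ℕ, x = A K m ^ 2 := ⟨_, rfl⟩
  obtain ⟨y, hy⟩ : ∃ y : ℕ, y = B K m ^ 2 := ⟨_, rfl⟩
  have e1 : (A K m : ℤ) ^ 2 - (B K m : ℤ) ^ 2 = (x : ℤ) - y := by
    rw [hx, hy]
    push_cast
    ring
  rw [← hx, ← hy] at key
  rw [e1]
  omega

end Pool.Agent.Lib.MP_e26d5c_nt.AG
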