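import Pool.Agent.Lib.MP_e26d5c_nt.AG.R2
import Pool.Agent.Lib.MP_e26d5c_nt.AG.R3
import Pool.Agent.Lib.MP_e26d5c_nt.AG.R4b
import Pool.Agent.Lib.MP_e26d5c_nt.AG.R6
import Pool.Agent.Lib.MP_e26d5c_nt.AG.R8

set_option autoImplicit false

namespace Pool.Agent.Lib.MP_e26d5c_nt.AG

private theorem R15_emod {a b m : ℤ} (h : m ∣ a - b) : a % m = b % m :=
  Int.emod_eq_emod_iff_emod_sub_eq_zero.mpr (Int.emod_eq_zero_of_dvd h)

private theorem R15_sq_mod_four {a : ℕ} (h : a % 2 = 1) : a ^ 2 % 4 = 1 := by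
  have : a % 4 = 1 ∨ a % 4 = 3 := by omega
  rcases this with h | h <;> rw [Nat.pow_mod, h]

private theorem R15_sq_mod_eight {a : ℕ} (h : a % 2 = 1) : a ^ 2 % 8 = 1 := by
  have : a % 8 = 1 ∨ a % 8 = 3 ∨ a % 8 = 5 ∨ a % 8 = 7 := by omega
  rcases this with h | h | h | h <;> rw [Nat.pow_mod, h]

private theorem R15_jac_diff {a b : ℤ} {q : ℕ} (hab : IsCoprime a b) (h : (q : ℤ) ∣ b) :
    jacobiSym (a ^ 2 - b ^ 2) q = 1 := by
  have h1 : jacobiSym (a ^ 2 - b ^ 2) q = jacobiSym (a ^ 2) q := by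
    apply jacobiSym.mod_left'
    apply R15_emod
    have : a ^ 2 - b ^ 2 - a ^ 2 = (-b) * b := by ring
    rw [this]
    exact Dvd.dvd.mul_left h _
  rw [h1]
  apply jacobiSym.sq_one'
  rw [← Int.isCoprime_iff_gcd_eq_one]
  exact IsCoprime.of_isCoprime_of_dvd_right hab h

private theorem R15_jac_diff' {a b : ℤ} {q : ℕ} (hq : q % 4 = 1) (hqo : Odd q)
    (hab : IsCoprime a b) (h : (q : ℤ) ∣ a) : jacobiSym (a ^ 2 - b ^ 2) q = 1 := by
  have h1 : jacobiSym (a ^ 2 - b ^ 2) q = jacobiSym (-(b ^ 2)) q := by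
    apply jacobiSym.mod_left'
    apply R15_emod
    have : a ^ 2 - b ^ 2 - -(b ^ 2) = a * a := by ring
    rw [this]
    exact Dvd.dvd.mul_left h _
  rw [h1, jacobiSym.neg _ hqo, ZMod.χ₄_nat_one_mod_four hq, one_mul]
  apply jacobiSym.sq_one'
  rw [← Int.isCoprime_iff_gcd_eq_one]
  exact (IsCoprime.of_isCoprime_of_dvd_left hab h).symm

/-- PROOF: if all primes `l ∤ 2K` have even valuation, let `d` be the product of the primes `q ∣ 2K` with
odd valuation (`q ∈ (C K n).primeFactors`); `C_n/d` has only even valuations so it is a square; every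
prime factor of `d` divides `2K` and `C_n`. -/
theorem not_ram_form {K n : ℕ} (hK : 0 < K) (h : ¬ Ram K n) :
    ∃ d s : ℕ, C K n = d * s ^ 2 ∧ d ≠ 0 ∧ ∀ q : ℕ, q.Prime → q ∣ d → q ∣ 2 * K ∧ q ∣ C K n := by
  obtain ⟨a, b, hab, hsq⟩ := Nat.sq_mul_squarefree (C K n)
  have hC0 : C K n ≠ 0 := (C_pos hK n).ne'
  have ha : a ≠ 0 := by
    rintro rfl
    rw [Nat.mul_zero] at hab
    exact hC0 hab.symm
  have hb : b ≠ 0 := by
    rintro rfl
    rw [pow_two, Nat.zero_mul, Nat.zero_mul] at hab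
    exact hC0 hab.symm
  refine ⟨a, b, by rw [← hab, mul_comm], ha, ?_⟩
  intro q hq hqa
  have hqC : q ∣ C K n := by
    rw [← hab]
    exact Dvd.dvd.mul_left hqa _
  refine ⟨?_, hqC⟩
  by_contra hcon
  apply h
  refine ⟨q, hq, hcon, ?_⟩
  have : Fact q.Prime := ⟨hq⟩
  have hva : padicValNat q a = 1 := by
    apply le_antisymm
    · by_contra hlt
      have h2 : q ^ 2 ∣ a := (padicValNat_dvd_iff_le ha).mpr (by omega)
      have h3 : q * q ∣ a := by rwa [pow_two] at h2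
      have h4 := hsq q h3
      exact hq.one_lt.ne' (Nat.isUnit_iff.mp h4)
    · exact one_le_padicValNat_of_dvd ha hqa
  rw [← hab, padicValNat.mul (pow_ne_zero 2 hb) ha, padicValNat.pow, hva]
  exact ⟨padicValNat q b, rfl⟩

/-- all the `C_n` are `2` times a square modulo `M = 2K-1` or `2K+1`.
PROOF: for a prime `l ∣ M`: `l ∤ K` (`l ∣ 2K ± 1`), `l ∣ A_1 - e B_1 = 2K - e`, i.e. `m = 1` in `per0`:
`J(C_{1+i}|l) = J(C_i|l)` for all `i`; so `J(C_n|l) = J(C_0|l) = J(2|l)` for all `n`; `jac_eq_of_primes`. -/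
theorem jac_2K {K n M : ℕ} {e : ℤ} (hK : 0 < K) (he : e ^ 2 = 1) (hM : (M : ℤ) = 2 * (K : ℤ) - e)
    (hM0 : M ≠ 0) : jacobiSym (C K n : ℤ) M = jacobiSym 2 M := by
  apply jac_eq_of_primes _ hM0
  intro l hl hlM
  have hlM' : (l : ℤ) ∣ 2 * (K : ℤ) - e := by
    rw [← hM]
    exact_mod_cast hlM
  have hlK : ¬ l ∣ K := by
    intro hd
    have h1 : (l : ℤ) ∣ (K : ℤ) := by exact_mod_cast hd
    have h2 : (l : ℤ) ∣ e := by
      have := dvd_sub (Dvd.dvd.mul_left h1 2) hlM'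
      simpa using this
    have h3 : (l : ℤ) ∣ 1 := by
      rw [← he, pow_two]
      exact Dvd.dvd.mul_left h2 _
    have h4 : l ∣ 1 := by exact_mod_cast h3
    exact hl.one_lt.ne' (Nat.dvd_one.mp h4)
  have hbase : (l : ℤ) ∣ (A K 1 : ℤ) - e * B K 1 := by
    rw [A_one, B_one]
    push_cast
    rw [mul_one]
    exact hlM'
  have key : ∀ j : ℕ, jacobiSym (C K j : ℤ) l = jacobiSym 2 l := by
    intro j
    induction j with
    | zero => simp
    | succ j ih =>
      rw [← ih, Nat.add_comm j 1]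
      exact per0 hK he hl hlK hbase j
  exact key n

/-- PROOF: `d` is odd with prime factors dividing `C_n` (so `≡ 1 (mod 4)`, `d % 4 = 1`:
`mod_four_of_dvd_C` for `d ∣ C_n`) and dividing `K`; reciprocity `J(d|M) = J(M|d)`; modulo each prime
`q ∣ d`: `M = 2K - e ≡ -e`, `J(-e|q) = 1` (`q ≡ 1 (mod 4)`); `jac_eq_of_primes`. -/
theorem jac_d_2K {K n M d : ℕ} {e : ℤ} (hK : 0 < K) (he : e ^ 2 = 1)
    (hM : (M : ℤ) = 2 * (K : ℤ) - e) (hd : d ∣ C K n) (hdodd : Odd d)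
    (hq : ∀ q : ℕ, q.Prime → q ∣ d → q ∣ K) : jacobiSym (d : ℤ) M = 1 := by
  have hd4 : d % 4 = 1 := mod_four_of_dvd_C hK hd hdodd
  have he' : e = 1 ∨ e = -1 := by
    have : (e - 1) * (e + 1) = 0 := by linear_combination he
    rcases mul_eq_zero.mp this with h | h
    · left; linarith
    · right; linarith
  have hModd : Odd M := by
    rw [Nat.odd_iff]
    rcases he' with h | h <;> subst h <;> omega
  rw [jacobiSym.quadratic_reciprocity_one_mod_four hd4 hModd]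
  have hd0 : d ≠ 0 := by rintro rfl; simp at hdodd
  have h1 : jacobiSym (M : ℤ) d = jacobiSym 1 d := by
    apply jac_eq_of_primes _ hd0
    intro q hqp hqd
    have hqK : q ∣ K := hq q hqp hqd
    have hqodd : Odd q := by
      rcases hqp.eq_two_or_odd' with h | h
      · subst h
        exfalso
        rw [Nat.odd_iff] at hdodd
        omega
      · exact h
    have hq4 : q % 4 = 1 := mod_four_of_dvd_C hK (dvd_trans hqd hd) hqodd
    have hmod : jacobiSym (M : ℤ) q = jacobiSym (-e) q := by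
      apply jacobiSym.mod_left'
      apply R15_emod
      rw [hM]
      have : (2 * (K : ℤ) - e) - -e = 2 * (K : ℤ) := by ring
      rw [this]
      exact Dvd.dvd.mul_left (by exact_mod_cast hqK) 2
    rw [hmod, jacobiSym.one_left]
    rcases he' with h | h
    · rw [h, jacobiSym.neg _ hqodd, ZMod.χ₄_nat_one_mod_four hq4, jacobiSym.one_left]
      norm_num
    · rw [h]
      simp
  rw [h1, jacobiSym.one_left]

/-- `C_n` odd.  PROOF: (paper A8) `M = 2K - e` with `J(2|M) = -1`: `K` odd: one of `2K-1`, `2K+1` is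
`≡ 3` or `5 (mod 8)`; `K ≡ 2 (mod 4)`: `2K+1 ≡ 5 (mod 8)`.  If not `Ram`: `not_ram_form`, `d` odd (`C_n` is),
its primes divide `K`.  `-1 = J(2|M) = J(C_n|M) = J(d|M) J(s|M)^2 = J(s|M)^2 ≥ 0`.  Contradiction. -/
theorem ram_of_odd {K n : ℕ} (hK : 0 < K) (h4 : ¬ 4 ∣ K) (hodd : Odd (C K n)) : Ram K n := by
  by_contra hR
  obtain ⟨d, s, hds, hd0, hdq⟩ := not_ram_form hK hR
  have hdC : d ∣ C K n := ⟨s ^ 2, hds⟩
  have hdodd : Odd d := Nat.Odd.of_mul_left (by rw [← hds]; exact hodd)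
  have hdK : ∀ q : ℕ, q.Prime → q ∣ d → q ∣ K := by
    intro q hq hqd
    have h2 := (hdq q hq hqd).1
    rcases (Nat.Prime.dvd_mul hq).mp h2 with h | h
    · exfalso
      have : q = 2 := (Nat.prime_dvd_prime_iff_eq hq Nat.prime_two).mp h
      subst this
      rw [Nat.odd_iff] at hdodd
      omega
    · exact h
  obtain ⟨M, e, he, hM, hM8⟩ : ∃ (M : ℕ) (e : ℤ), e ^ 2 = 1 ∧ (M : ℤ) = 2 * (K : ℤ) - e ∧
      (M % 8 = 5 ∨ M % 8 = 3) := by
    by_cases h3 : K % 4 = 3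
    · refine ⟨2 * K - 1, 1, by norm_num, ?_, ?_⟩
      · omega
      · omega
    · refine ⟨2 * K + 1, -1, by norm_num, ?_, ?_⟩
      · push_cast; ring
      · omega
  have hM0 : M ≠ 0 := by rintro rfl; simp at hM8
  have h1 : jacobiSym (C K n : ℤ) M = -1 := by
    rw [jac_2K hK he hM hM0, jac_two_neg hM8]
  have h2 : jacobiSym (d : ℤ) M = 1 := jac_d_2K hK he hM hdC hdodd hdK
  rw [hds] at h1
  push_cast at h1
  rw [jacobiSym.mul_left, jacobiSym.pow_left, h2, one_mul] at h1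
  nlinarith [sq_nonneg (jacobiSym (s : ℤ) M)]

/-- `K ≡ 2 (mod 4)`, `n ≡ 0 (mod 3)`: `C_n ≡ 2 (mod 4)`.  PROOF: (paper A8) suppose not `Ram`; `n = 3i+3`,
`m = n - 1 = 3i+2`, `C_n = 2 d s^2` (`not_ram_form`; `d` odd), `M := |A_m^2 - B_m^2| ≡ 3, 5 (mod 8)`
(`two_two`: `A_m` odd, `B_m ≡ 2 (mod 4)`).  `J(C_n|M) = J(C_1|M)`: for a prime `l ∣ M`, `l ∣ A_m ∓ B_m`; `l ∤ K`:
`per0` with `i = 1`; `l ∣ K`: `l ∤ A_m B_m`, so `l ∣ A_n` (`A_n G_m = K C_m`, `l ∤ G_m`), `C_n ≡ B_n^2`, symbol `1`, and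
`C_1 = 4K^2+1 ≡ 1`.  `J(C_1|M) = J(A_m^2 - B_m^2|C_1)` (`recip_int`) `= 1` (`C_1` divides `B_m` (`m ≥ 3`) or `A_m`
(`m = 2`), `dvd_B`, `dvd_A_succ`).  On the other side `J(C_n|M) = J(2|M) J(d|M) J(s|M)^2 = -J(d|M) J(s|M)^2` and
`J(d|M) = J(A_m^2 - B_m^2|d)`: for a prime `q ∣ d`: `q ∣ C_n`, `q ∣ K`, so `n` is a unit and `m = n-1` is not
(`no_two_units`): `q` divides exactly one of `A_m`, `B_m`, so the symbol is `J(±square|q) = 1`; `d ≡ 1 (mod 4)`.
So `1 = -J(s|M)^2`: contradiction. -/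
theorem ram_three {K i : ℕ} (hK : 0 < K) (h2 : K % 4 = 2) : Ram K (3 * i + 3) := by
  by_contra hR
  obtain ⟨d, s, hds, hd0, hdq⟩ := not_ram_form hK hR
  obtain ⟨-, -, hAm, hBm⟩ := two_two h2 i
  obtain ⟨⟨hAn, hBn⟩, -, -⟩ := two_two h2 (i + 1)
  have hn3 : 3 * (i + 1) = 3 * i + 3 := by ring
  rw [hn3] at hAn hBn
  -- parity of `C_n`
  have hC4 : C K (3 * i + 3) % 4 = 2 := by
    unfold C
    rw [Nat.add_mod, R15_sq_mod_four hAn, R15_sq_mod_four hBn]
  have hsodd : s % 2 = 1 := by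
    by_contra hs
    have hs0 : s % 2 = 0 := by omega
    obtain ⟨t, rfl⟩ : 2 ∣ s := Nat.dvd_of_mod_eq_zero hs0
    have : 4 ∣ C K (3 * i + 3) := ⟨d * t ^ 2, by rw [hds]; ring⟩
    omega
  have hs4 : s ^ 2 % 4 = 1 := R15_sq_mod_four hsodd
  have hd4 : d % 4 = 2 := by
    have h := hC4
    rw [hds, Nat.mul_mod, hs4, mul_one, Nat.mod_mod] at h
    exact h
  obtain ⟨d', rfl⟩ : 2 ∣ d := Nat.dvd_of_mod_eq_zero (by omega)
  have hd'odd : Odd d' := by rw [Nat.odd_iff]; omega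
  have hd'0 : d' ≠ 0 := by rintro rfl; simp at hd0
  have hd'C : d' ∣ C K (3 * i + 3) := ⟨2 * s ^ 2, by rw [hds]; ring⟩
  have hd'4 : d' % 4 = 1 := mod_four_of_dvd_C hK hd'C hd'odd
  have hcopm : IsCoprime (A K (3 * i + 2) : ℤ) (B K (3 * i + 2) : ℤ) :=
    Nat.isCoprime_iff_coprime.mpr (coprime_AB hK _)
  have hcopn : IsCoprime (A K (3 * i + 3) : ℤ) (B K (3 * i + 3) : ℤ) :=
    Nat.isCoprime_iff_coprime.mpr (coprime_AB hK _)
  -- the modulus
  obtain ⟨L, hL⟩ : ∃ L : ℤ, L = (A K (3 * i + 2) : ℤ) ^ 2 - (B K (3 * i + 2) : ℤ) ^ 2 := ⟨_, rfl⟩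
  have hL8 : L % 8 = 5 := by
    have hA8 : (A K (3 * i + 2)) ^ 2 % 8 = 1 := R15_sq_mod_eight hAm
    obtain ⟨c, hc⟩ : 2 ∣ B K (3 * i + 2) := Nat.dvd_of_mod_eq_zero (by omega)
    have hc2 : c % 2 = 1 := by omega
    have hc8 : c ^ 2 % 8 = 1 := R15_sq_mod_eight hc2
    have hB8 : (B K (3 * i + 2)) ^ 2 = 4 * c ^ 2 := by rw [hc]; ring
    have hL' : L = (((A K (3 * i + 2)) ^ 2 : ℕ) : ℤ) - (((B K (3 * i + 2)) ^ 2 : ℕ) : ℤ) := by
      rw [hL]; push_cast; ring
    rw [hB8] at hL'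
    omega
  have hLodd : Odd L := by rw [Int.odd_iff]; omega
  have hL0 : L.natAbs ≠ 0 := by omega
  have hM8 : L.natAbs % 8 = 5 ∨ L.natAbs % 8 = 3 := by omega
  -- first evaluation
  have hfirst : jacobiSym (C K (3 * i + 3) : ℤ) L.natAbs = jacobiSym (C K 1 : ℤ) L.natAbs := by
    apply jac_eq_of_primes _ hL0
    intro l hl hlM
    have hlL : (l : ℤ) ∣ L := Int.natCast_dvd.mpr hlM
    have hlp : Prime (l : ℤ) := Nat.prime_iff_prime_int.mp hl
    have hfac : (l : ℤ) ∣ ((A K (3 * i + 2) : ℤ) - 1 * B K (3 * i + 2)) *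
        ((A K (3 * i + 2) : ℤ) - (-1) * B K (3 * i + 2)) := by
      have : ((A K (3 * i + 2) : ℤ) - 1 * B K (3 * i + 2)) *
        ((A K (3 * i + 2) : ℤ) - (-1) * B K (3 * i + 2)) = L := by rw [hL]; ring
      rw [this]
      exact hlL
    by_cases hlK : l ∣ K
    · have hlA : ¬ l ∣ A K (3 * i + 2) := by
        intro h
        have h' : (l : ℤ) ∣ (A K (3 * i + 2) : ℤ) := by exact_mod_cast h
        have h'' : (l : ℤ) ∣ (B K (3 * i + 2) : ℤ) ^ 2 := by
          have h3 := dvd_sub (Dvd.dvd.mul_left h' (A K (3 * i + 2) : ℤ)) hlL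
          have h4 : (A K (3 * i + 2) : ℤ) * (A K (3 * i + 2) : ℤ) - L =
            (B K (3 * i + 2) : ℤ) ^ 2 := by rw [hL]; ring
          rwa [h4] at h3
        exact hlp.not_isUnit (hcopm.isUnit_of_dvd' h' (hlp.dvd_of_dvd_pow h''))
      have hlB : ¬ l ∣ B K (3 * i + 2) := by
        intro h
        have h' : (l : ℤ) ∣ (B K (3 * i + 2) : ℤ) := by exact_mod_cast h
        have h'' : (l : ℤ) ∣ (A K (3 * i + 2) : ℤ) ^ 2 := by
          have h3 := dvd_add hlL (Dvd.dvd.mul_left h' (B K (3 * i + 2) : ℤ))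
          have h4 : L + (B K (3 * i + 2) : ℤ) * (B K (3 * i + 2) : ℤ) =
            (A K (3 * i + 2) : ℤ) ^ 2 := by rw [hL]; ring
          rwa [h4] at h3
        exact hlp.not_isUnit (hcopm.isUnit_of_dvd' (hlp.dvd_of_dvd_pow h'') h')
      have hlG : ¬ l ∣ Gg K (3 * i + 2) := by
        intro h
        rcases (Nat.Prime.dvd_mul hl).mp (dvd_trans h (Gg_dvd_AB K (3 * i + 2))) with h' | h'
        · exact hlA h'
        · exact hlB h'
      have hlAn : l ∣ A K (3 * i + 3) := by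
        have h3 : l ∣ A K (3 * i + 2 + 1) * Gg K (3 * i + 2) := by
          rw [A_succ]
          exact Dvd.dvd.mul_right hlK _
        rcases (Nat.Prime.dvd_mul hl).mp h3 with h' | h'
        · exact h'
        · exact absurd h' hlG
      have hlAn' : (l : ℤ) ∣ (A K (3 * i + 3) : ℤ) := by exact_mod_cast hlAn
      have hJ1 : jacobiSym (C K (3 * i + 3) : ℤ) l = 1 := by
        have hmod : jacobiSym (C K (3 * i + 3) : ℤ) l = jacobiSym ((B K (3 * i + 3) : ℤ) ^ 2) l := by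
          apply jacobiSym.mod_left'
          apply R15_emod
          have : (C K (3 * i + 3) : ℤ) - (B K (3 * i + 3) : ℤ) ^ 2 =
            (A K (3 * i + 3) : ℤ) * (A K (3 * i + 3) : ℤ) := by
            unfold C
            push_cast
            ring
          rw [this]
          exact Dvd.dvd.mul_left hlAn' _
        rw [hmod]
        apply jacobiSym.sq_one'
        rw [← Int.isCoprime_iff_gcd_eq_one]
        exact (IsCoprime.of_isCoprime_of_dvd_left hcopn hlAn').symm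
      have hJ2 : jacobiSym (C K 1 : ℤ) l = 1 := by
        have hmod : jacobiSym (C K 1 : ℤ) l = jacobiSym 1 l := by
          apply jacobiSym.mod_left'
          apply R15_emod
          rw [C_one]
          push_cast
          have : 4 * (K : ℤ) ^ 2 + 1 - 1 = (4 * K) * K := by ring
          rw [this]
          exact Dvd.dvd.mul_left (by exact_mod_cast hlK) _
        rw [hmod, jacobiSym.one_left]
      rw [hJ1, hJ2]
    · rcases hlp.dvd_or_dvd hfac with h | h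
      · exact per0 hK (by norm_num) hl hlK h 1
      · exact per0 hK (by norm_num) hl hlK h 1
  have hC14 : C K 1 % 4 = 1 := by rw [C_one]; omega
  have hC1odd : Odd (C K 1) := by rw [Nat.odd_iff]; omega
  have hC1K : Nat.Coprime (C K 1) K := by
    rw [C_one]
    have : 4 * K ^ 2 + 1 = 1 + (4 * K) * K := by ring
    rw [this]
    simp
  have hsecond : jacobiSym (C K 1 : ℤ) L.natAbs = 1 := by
    rw [recip_int hC14 hLodd, hL]
    rcases Nat.eq_zero_or_pos i with hi | hi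
    · subst hi
      have hdA : C K 1 ∣ A K (3 * 0 + 2) := dvd_A_succ hC1K (dvd_refl _)
      have hdA' : (C K 1 : ℤ) ∣ (A K (3 * 0 + 2) : ℤ) := by exact_mod_cast hdA
      exact R15_jac_diff' hC14 hC1odd hcopm hdA'
    · have hdB : C K 1 ∣ B K (3 * i + 2) := dvd_B hC1K (dvd_refl _) (by omega)
      have hdB' : (C K 1 : ℤ) ∣ (B K (3 * i + 2) : ℤ) := by exact_mod_cast hdB
      exact R15_jac_diff hcopm hdB'
  -- second evaluation
  have hthird : jacobiSym (d' : ℤ) L.natAbs = 1 := by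
    rw [recip_int hd'4 hLodd, ← jacobiSym.one_left d']
    apply jac_eq_of_primes _ hd'0
    intro q hq hqd
    have hqodd : Odd q := by
      rcases hq.eq_two_or_odd' with h | h
      · subst h
        exfalso
        rw [Nat.odd_iff] at hd'odd
        omega
      · exact h
    have hq4 : q % 4 = 1 := mod_four_of_dvd_C hK (dvd_trans hqd hd'C) hqodd
    obtain ⟨hq2K, hqC⟩ := hdq q hq (Dvd.dvd.mul_left hqd 2)
    have hqK : q ∣ K := by
      rcases (Nat.Prime.dvd_mul hq).mp hq2K with h | h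
      · exfalso
        have : q = 2 := (Nat.prime_dvd_prime_iff_eq hq Nat.prime_two).mp h
        subst this
        omega
      · exact h
    have hunit : ¬ q ∣ A K (3 * i + 3) * B K (3 * i + 3) := by
      intro h
      exact (Nat.Prime.not_coprime_iff_dvd.mpr ⟨q, hq, hqC, h⟩) (coprime_C_AB hK (3 * i + 3))
    have hnon : q ∣ A K (3 * i + 2) * B K (3 * i + 2) := by
      by_contra h
      exact hunit (no_two_units hq hK hqK h)
    rw [hL, jacobiSym.one_left]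
    rcases (Nat.Prime.dvd_mul hq).mp hnon with h | h
    · exact R15_jac_diff' hq4 hqodd hcopm (by exact_mod_cast h)
    · exact R15_jac_diff hcopm (by exact_mod_cast h)
  have hfin : jacobiSym (C K (3 * i + 3) : ℤ) L.natAbs = 1 := by rw [hfirst, hsecond]
  rw [hds] at hfin
  push_cast at hfin
  rw [jacobiSym.mul_left, jacobiSym.mul_left, jacobiSym.pow_left, hthird, jac_two_neg hM8] at hfin
  nlinarith [sq_nonneg (jacobiSym (s : ℤ) L.natAbs)]

/-- PROOF: `two_odd`, `two_two` for the parity of `C_n`. -/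
theorem ram_of_not_four {K n : ℕ} (hK : 0 < K) (h4 : ¬ 4 ∣ K) (hn : 1 ≤ n) : Ram K n := by
  have hK4 : K % 4 = 1 ∨ K % 4 = 2 ∨ K % 4 = 3 := by omega
  by_cases h2 : K % 4 = 2
  · obtain ⟨i, hi⟩ : ∃ i : ℕ, n = 3 * i + 1 ∨ n = 3 * i + 2 ∨ n = 3 * i + 3 :=
      ⟨(n - 1) / 3, by omega⟩
    obtain ⟨-, ⟨hA1, hB1⟩, hA2, hB2⟩ := two_two h2 i
    rcases hi with hi | hi | hi
    · apply ram_of_odd hK h4
      rw [hi, Nat.odd_iff]
      unfold C
      rw [Nat.add_mod, Nat.pow_mod (A K (3 * i + 1)), Nat.pow_mod (B K (3 * i + 1)), hB1,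
        show A K (3 * i + 1) % 2 = 0 by omega]
    · apply ram_of_odd hK h4
      rw [hi, Nat.odd_iff]
      unfold C
      rw [Nat.add_mod, Nat.pow_mod (A K (3 * i + 2)), Nat.pow_mod (B K (3 * i + 2)), hA2,
        show B K (3 * i + 2) % 2 = 0 by omega]
    · rw [hi]
      exact ram_three hK h2
  · apply ram_of_odd hK h4
    have := two_odd (K := K) (n := n) (by omega) hn
    rw [Nat.odd_iff]
    omega

end Pool.Agent.Lib.MP_e26d5c_nt.AG
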