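import Pool.Agent.Lib.MP_e26d5c_nt.AG.R11
import Pool.Agent.Lib.MP_e26d5c_nt.AG.R14
import Pool.Agent.Lib.MP_e26d5c_nt.AG.R15

set_option autoImplicit false

namespace Pool.Agent.Lib.MP_e26d5c_nt.AG

/-- PROOF: a square has even valuations. -/
theorem not_sq_of_ram {K n : ℕ} (hK : 0 < K) (h : Ram K n) : ¬ IsSquare (C K n) := by
  rintro ⟨r, hr⟩
  obtain ⟨l, hl, -, ho⟩ := h
  have := Fact.mk hl
  have hr0 : r ≠ 0 := by
    rintro rfl
    have := C_pos hK n
    omega
  rw [hr, padicValNat.mul hr0 hr0] at ho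
  exact (Nat.not_odd_iff_even.2 ⟨_, rfl⟩) ho

/-- PROOF: `C_n` is odd and good primes do not divide it, so a prime dividing `2K` and `C_n` is `p`; all
valuations except possibly that of `p` are even.  (`not_ram_form`: `d` divides ... `d = 1` or `p` up to
squares; or directly `isSquare_of_even_val` for `C_n` or `C_n/p`.) -/
theorem four_form {K p n : ℕ} (hK : 0 < K) (h4 : 4 ∣ K) (hp : p.Prime) (hp2 : p ≠ 2)
    (ho : OnlyBad K p) (hn : 1 ≤ n) (h : ¬ Ram K n) :
    IsSquare (C K n) ∨ (p ∣ K ∧ ∃ s, C K n = p * s ^ 2) := by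
  have hC0 : C K n ≠ 0 := (C_pos hK n).ne'
  have hodd : C K n % 2 = 1 := R10_C_odd hK h4 hn
  have key : ∀ l : ℕ, l.Prime → l ≠ p → Even (padicValNat l (C K n)) := by
    intro l hl hlp
    by_cases hd : l ∣ C K n
    · by_cases h2K : l ∣ 2 * K
      · exfalso
        have hl2 : l ≠ 2 := by
          rintro rfl
          omega
        have hlK : l ∣ K := by
          rcases (Nat.Prime.dvd_mul hl).1 h2K with h5 | h5
          · exact absurd ((Nat.prime_dvd_prime_iff_eq hl Nat.prime_two).1 h5) hl2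
          · exact h5
        exact ho l hl hl2 hlp hlK ⟨n, hn, hd⟩
      · rw [← Nat.not_odd_iff_even]
        intro h5
        exact h ⟨l, hl, h2K, h5⟩
    · rw [padicValNat.eq_zero_of_not_dvd hd]
      exact ⟨0, rfl⟩
  have := Fact.mk hp
  by_cases hev : Even (padicValNat p (C K n))
  · left
    apply isSquare_of_even_val hC0
    intro l hl
    by_cases hlp : l = p
    · rw [hlp]
      exact hev
    · exact key l hl hlp
  · right
    rw [Nat.not_even_iff_odd] at hev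
    have hpd : p ∣ C K n := by
      by_contra h5
      rw [padicValNat.eq_zero_of_not_dvd h5] at hev
      exact absurd hev (by decide)
    have hpK : p ∣ K := by
      by_contra h5
      apply h
      refine ⟨p, hp, ?_, hev⟩
      intro h6
      rcases (Nat.Prime.dvd_mul hp).1 h6 with h7 | h7
      · exact hp2 ((Nat.prime_dvd_prime_iff_eq hp Nat.prime_two).1 h7)
      · exact h5 h7
    refine ⟨hpK, ?_⟩
    obtain ⟨c, hc⟩ := hpd
    have hc0 : c ≠ 0 := by
      rintro rfl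
      rw [Nat.mul_zero] at hc
      exact hC0 hc
    have hsq : IsSquare c := by
      apply isSquare_of_even_val hc0
      intro l hl
      have := Fact.mk hl
      by_cases hlp : l = p
      · subst hlp
        rw [hc, padicValNat.mul hp.ne_zero hc0, padicValNat.self hp.one_lt] at hev
        have h8 : ¬ Odd (padicValNat l c) := by
          intro h9
          exact (Nat.not_odd_iff_even.2 (Odd.add_odd odd_one h9)) hev
        exact Nat.not_odd_iff_even.1 h8
      · have h8 := key l hl hlp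
        rw [hc, padicValNat.mul hp.ne_zero hc0] at h8
        have h9 : padicValNat l p = 0 := by
          apply padicValNat.eq_zero_of_not_dvd
          intro h10
          exact hlp ((Nat.prime_dvd_prime_iff_eq hl hp).1 h10)
        rw [h9, zero_add] at h8
        exact h8
    obtain ⟨s, hs⟩ := hsq
    exact ⟨s, by rw [hc, hs, sq]⟩

private theorem R16_mod {m : ℕ} (h : m % 8 = 5) : ¬ IsSquare m := by
  rintro ⟨r, hr⟩
  rw [hr, Nat.mul_mod] at h
  have h1 : r % 8 < 8 := Nat.mod_lt _ (by norm_num)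
  interval_cases (r % 8) <;> simp at h

/-- PROOF: choose `p`: if some odd prime `q ∣ K` is bad, `p := q`, else `p := 3`.  `OnlyBad K p`: a bad odd
prime divisor of `K` is in `Exc` (`exc_of_bad`), and two such primes are equal by `h`.  `8 ∣ K`:
`eight_finite_one`, `eight_finite_p`; `K % 8 = 4`: `C_mod_four` (`5 (mod 8)` is not a square),
`four_finite_p`.  (If `p = 3` is not bad or `3 ∤ K`: `C_n = 3 s^2` is impossible: `p ∣ K` in `four_form`, and a good
prime does not divide `C_n`; the lemmas `eight_finite_p`, `four_finite_p` cover it anyway.) -/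
theorem ram_of_one_exc {K : ℕ} (hK : 0 < K) (h4 : 4 ∣ K)
    (h : ∀ p q : ℕ, Exc p → Exc q → p ∣ K → q ∣ K → p = q) :
    ∃ n0 : ℕ, 1 ≤ n0 ∧ ∀ n, n0 ≤ n → Ram K n := by
  obtain ⟨p, hp, hp2, ho⟩ : ∃ p : ℕ, p.Prime ∧ p ≠ 2 ∧ OnlyBad K p := by
    by_cases hb : ∃ q : ℕ, q.Prime ∧ q ≠ 2 ∧ q ∣ K ∧ Bad K q
    · obtain ⟨q, hq, hq2, hqK, hqb⟩ := hb
      refine ⟨q, hq, hq2, ?_⟩
      intro q' hq' hq'2 hne hq'K hb'
      exact hne (h q' q (exc_of_bad hq' hq'2 hK hq'K hb') (exc_of_bad hq hq2 hK hqK hqb) hq'K hqK)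
    · refine ⟨3, Nat.prime_three, by norm_num, ?_⟩
      intro q' hq' hq'2 hne hq'K hb'
      exact hb ⟨q', hq', hq'2, hq'K, hb'⟩
  have hsq : ∃ n0 : ℕ, ∀ n, n0 ≤ n → ¬ IsSquare (C K n) := by
    by_cases h8 : 8 ∣ K
    · exact eight_finite_one hK h8 ho
    · have h84 : K % 8 = 4 := by omega
      exact ⟨2, fun n hn => R16_mod (C_mod_four h84 hn)⟩
  have hps : ∃ n0 : ℕ, ∀ n, n0 ≤ n → ¬ (p ∣ K ∧ ∃ s, C K n = p * s ^ 2) := by
    by_cases hpK : p ∣ K
    · have h5 : ∃ n0 : ℕ, ∀ n, n0 ≤ n → ¬ ∃ s, C K n = p * s ^ 2 := by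
        by_cases h8 : 8 ∣ K
        · exact eight_finite_p hK h8 hp hp2 hpK ho
        · exact four_finite_p (by omega) hp hp2 hpK ho
      obtain ⟨n0, hn0⟩ := h5
      exact ⟨n0, fun n hn h6 => hn0 n hn h6.2⟩
    · exact ⟨0, fun n _ h6 => hpK h6.1⟩
  obtain ⟨n1, h1⟩ := hsq
  obtain ⟨n2, h2⟩ := hps
  refine ⟨max 1 (max n1 n2), le_max_left _ _, ?_⟩
  intro n hn
  have hn1 : 1 ≤ n := (le_max_left _ _).trans hn
  have hn2 : n1 ≤ n := ((le_max_left _ _).trans (le_max_right 1 _)).trans hn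
  have hn3 : n2 ≤ n := ((le_max_right _ _).trans (le_max_right 1 _)).trans hn
  by_contra h5
  rcases four_form hK h4 hp hp2 ho hn1 h5 with h6 | h6
  · exact h1 n hn2 h6
  · exact h2 n hn3 h6

private theorem R16_between {m a : ℕ} (h1 : a ^ 2 < m) (h2 : m < (a + 1) ^ 2) : ¬ IsSquare m := by
  rintro ⟨r, hr⟩
  have h3 : a < r := by
    by_contra h4
    push Not at h4
    have : r * r ≤ a ^ 2 := by nlinarith
    omega
  have h4 : r < a + 1 := by
    by_contra h5
    push Not at h5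
    have : (a + 1) ^ 2 ≤ r * r := by nlinarith
    omega
  omega

/-- PROOF: `4 ∤ K`: `ram_of_not_four`, `not_sq_of_ram`.  `K % 8 = 4`: `n ≥ 2`: `C_mod_four`; `n = 1`: `4K^2+1` lies
between `(2K)^2` and `(2K+1)^2`.  `8 ∣ K`: `n` even: `C_mod_eight_even`; `n = 1` as before; `n = 3`:
`A_2 = C_1`, `B_2 = 2`, `A_3 = (K/2) C_2`, `B_3 = C_1` (`Gg_1 = K`, `Gg_2 = gcd(K, 2 C_1) = 2`), and
`A_3^2 < C_3 = A_3^2 + C_1^2 < (A_3+1)^2` as `C_1^2 < K C_2 + 1`, `C_2 = C_1^2 + 4`. -/
theorem not_square_all {K n : ℕ} (hK : 0 < K) (hn : 1 ≤ n) (h : ¬ 8 ∣ K ∨ n ≤ 3 ∨ n % 2 = 0) :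
    ¬ IsSquare (C K n) := by
  by_cases h4 : 4 ∣ K
  swap
  · exact not_sq_of_ram hK (ram_of_not_four hK h4 hn)
  by_cases hn1 : n = 1
  · subst hn1
    rw [C_one]
    apply R16_between (a := 2 * K)
    · nlinarith
    · nlinarith
  have hn2 : 2 ≤ n := by omega
  by_cases h8 : 8 ∣ K
  swap
  · exact R16_mod (C_mod_four (by omega) hn2)
  by_cases hev : n % 2 = 0
  · exact R16_mod (C_mod_eight_even hK h8 hn2 hev)
  have hn3 : n = 3 := by omega
  subst hn3
  obtain ⟨-, hB2, -⟩ := two_four_two hK h4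
  have hg1 : Gg K 1 = K := by
    unfold Gg
    rw [A_one, B_one, mul_one]
    exact Nat.gcd_eq_left (Dvd.intro_left 2 rfl)
  have hA2 : A K 2 = C K 1 := by
    have h5 := A_succ K 1
    rw [hg1] at h5
    have h6 : A K (1 + 1) * K = C K 1 * K := by rw [h5, mul_comm]
    exact Nat.eq_of_mul_eq_mul_right hK h6
  have hg2 : Gg K 2 = 2 := by
    unfold Gg
    rw [hA2, hB2, C_one]
    have h5 : Nat.Coprime K (4 * K ^ 2 + 1) := by
      have h6 : 4 * K ^ 2 + 1 = 1 + (4 * K) * K := by ring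
      rw [h6]
      exact (Nat.coprime_add_mul_right_right K 1 (4 * K)).2 (Nat.coprime_one_right K)
    rw [Nat.Coprime.gcd_mul_left_cancel_right 2 h5.symm]
    exact Nat.gcd_eq_right (Dvd.dvd.trans (by norm_num) h4)
  have hB3 : B K 3 = C K 1 := by
    have h5 := B_succ K 2
    rw [hg2, hA2, hB2] at h5
    exact Nat.eq_of_mul_eq_mul_right (by norm_num) h5
  have hA3 : A K 3 * 2 = K * C K 2 := by
    have h5 := A_succ K 2
    rw [hg2] at h5
    exact h5
  have hC2 : C K 2 = C K 1 ^ 2 + 4 := by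
    show A K 2 ^ 2 + B K 2 ^ 2 = _
    rw [hA2, hB2]
    norm_num
  have hC3 : C K 3 = A K 3 ^ 2 + C K 1 ^ 2 := by
    show A K 3 ^ 2 + B K 3 ^ 2 = _
    rw [hB3]
  have hC1 : 0 < C K 1 := C_pos hK 1
  have h5 : C K 2 ≤ K * C K 2 := Nat.le_mul_of_pos_left _ hK
  rw [hC3]
  apply R16_between (a := A K 3)
  · nlinarith
  · have h6 : C K 1 ^ 2 < 2 * A K 3 + 1 := by omega
    nlinarith

end Pool.Agent.Lib.MP_e26d5c_nt.AG
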