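import Pool.Agent.Lib.MP_e26d5c_nt.AG.Ar

set_option autoImplicit false

/-!
# The link with rational points on the curves `d y^2 = phi^2(t)^2 + 1`
-/

namespace Pool.Agent.Lib.MP_e26d5c_nt.AG

/-- the numerator of `phi(phi(t))^2 + 1`, a polynomial of degree `8` in `t` -/
def Fpol (k : ℤ) (t : ℚ) : ℚ := ((k : ℚ) ^ 2 * (t ^ 2 + 1) ^ 2 + t ^ 2) ^ 2 + t ^ 2 * (t ^ 2 + 1) ^ 2

/-- the orbit of the critical point `1` -/
def xx (K n : ℕ) : ℚ := (A K n : ℚ) / (B K n : ℚ)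

theorem xx_pos {K : ℕ} (hK : 0 < K) (n : ℕ) : 0 < xx K n := by
  have h1 : (0 : ℚ) < A K n := by exact_mod_cast A_pos hK n
  have h2 : (0 : ℚ) < B K n := by exact_mod_cast B_pos hK n
  exact div_pos h1 h2

theorem xx_succ {K : ℕ} (hK : 0 < K) (n : ℕ) :
    xx K (n + 1) = (K : ℚ) * (xx K n ^ 2 + 1) / xx K n := by
  have h1 : (A K n : ℚ) ≠ 0 := by exact_mod_cast (A_pos hK n).ne'
  have h2 : (B K n : ℚ) ≠ 0 := by exact_mod_cast (B_pos hK n).ne'
  have h3 : (Gg K n : ℚ) ≠ 0 := by exact_mod_cast (Gg_pos hK n).ne'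
  have h4 : (B K (n + 1) : ℚ) ≠ 0 := by exact_mod_cast (B_pos hK (n + 1)).ne'
  have h5 : (A K (n + 1) : ℚ) * Gg K n = K * ((A K n : ℚ) ^ 2 + (B K n : ℚ) ^ 2) := by
    exact_mod_cast A_succ K n
  have h6 : (B K (n + 1) : ℚ) * Gg K n = A K n * B K n := by
    exact_mod_cast B_succ K n
  have h7 : xx K (n + 1) = ((A K (n + 1) : ℚ) * Gg K n) / ((B K (n + 1) : ℚ) * Gg K n) := by
    rw [mul_div_mul_right _ _ h3]
    rfl
  rw [h7, h5, h6]
  unfold xx
  field_simp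

theorem xx_lt {K : ℕ} (hK : 0 < K) (n : ℕ) : xx K n < xx K (n + 1) := by
  have h1 := xx_pos hK n
  have h2 : (1 : ℚ) ≤ K := by exact_mod_cast hK
  rw [xx_succ hK, lt_div_iff₀ h1]
  nlinarith [sq_nonneg (xx K n)]

theorem xx_strictMono {K : ℕ} (hK : 0 < K) : StrictMono (xx K) :=
  strictMono_nat_of_lt_succ (xx_lt hK)

theorem xx_two {K : ℕ} (hK : 0 < K) (n : ℕ) :
    Fpol (K : ℤ) (xx K n) = (xx K n * (xx K n ^ 2 + 1)) ^ 2 * (xx K (n + 2) ^ 2 + 1) := by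
  have h1 := xx_pos hK n
  have h2 := xx_pos hK (n + 1)
  have h3 : (0 : ℚ) < K := by exact_mod_cast hK
  have h4 := xx_succ hK n
  have h5 : xx K (n + 2) = (K : ℚ) * (xx K (n + 1) ^ 2 + 1) / xx K (n + 1) := xx_succ hK (n + 1)
  have h6 : xx K (n + 1) * xx K n = (K : ℚ) * (xx K n ^ 2 + 1) := by
    rw [h4]
    field_simp
  have h7 : xx K (n + 2) * xx K (n + 1) = (K : ℚ) * (xx K (n + 1) ^ 2 + 1) := by
    rw [h5]
    field_simp
  set x := xx K n with hx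
  set y := xx K (n + 1) with hy
  set z := xx K (n + 2) with hz
  have h8 : (0 : ℚ) < x ^ 2 + 1 := by positivity
  -- `z x (x^2+1) = K^2 (x^2+1)^2 + x^2`
  have h9 : z * (x * (x ^ 2 + 1)) = (K : ℚ) ^ 2 * (x ^ 2 + 1) ^ 2 + x ^ 2 := by
    have h10 : z * y * x ^ 2 = (K : ℚ) * (y ^ 2 + 1) * x ^ 2 := by rw [h7]
    have h11 : z * x * (y * x) = (K : ℚ) * ((y * x) ^ 2 + x ^ 2) := by
      have : z * x * (y * x) = z * y * x ^ 2 := by ring
      rw [this, h10]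
      ring
    rw [h6] at h11
    have h12 : (K : ℚ) * (z * (x * (x ^ 2 + 1))) =
        (K : ℚ) * ((K : ℚ) ^ 2 * (x ^ 2 + 1) ^ 2 + x ^ 2) := by
      have : (K : ℚ) * (z * (x * (x ^ 2 + 1))) = z * x * ((K : ℚ) * (x ^ 2 + 1)) := by ring
      rw [this, h11]
      ring
    exact mul_left_cancel₀ h3.ne' h12
  have h13 : Fpol (K : ℤ) x = ((K : ℚ) ^ 2 * (x ^ 2 + 1) ^ 2 + x ^ 2) ^ 2 +
      x ^ 2 * (x ^ 2 + 1) ^ 2 := by
    simp [Fpol]
  rw [h13, ← h9]
  ring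

/-- if no prime `l ∤ 2K` has odd valuation in `C_n` then `C_n = d s^2` with `d ∣ 2K` -/
theorem form_of_not_ram {K n : ℕ} (hK : 0 < K) (h : ¬ Ram K n) :
    ∃ d s : ℕ, d ∣ 2 * K ∧ d ≠ 0 ∧ C K n = d * s ^ 2 := by
  obtain ⟨d, s, hds, hd⟩ := Nat.sq_mul_squarefree (C K n)
  have hC : C K n ≠ 0 := (C_pos hK n).ne'
  have hd0 : d ≠ 0 := hd.ne_zero
  have hs0 : s ≠ 0 := by
    rintro rfl
    apply hC
    rw [← hds]
    simp
  refine ⟨d, s, ?_, hd0, by rw [← hds]; ring⟩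
  have hK2 : 2 * K ≠ 0 := by omega
  rw [← Nat.factorization_prime_le_iff_dvd hd0 hK2]
  intro q hq
  have h1 : d.factorization q ≤ 1 := hd.natFactorization_le_one q
  by_cases hqd : q ∣ d
  · have h2 : q ∣ 2 * K := by
      by_contra hcon
      apply h
      refine ⟨q, hq, hcon, ?_⟩
      have h3 : d.factorization q = 1 := by
        have h4 : 1 ≤ d.factorization q := (hq.dvd_iff_one_le_factorization hd0).1 hqd
        omega
      rw [← hds, ← Nat.factorization_def _ hq, Nat.factorization_mul (pow_ne_zero 2 hs0) hd0,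
        Nat.factorization_pow]
      simp only [Finsupp.coe_add, Finsupp.coe_smul, Pi.add_apply, Pi.smul_apply, smul_eq_mul, h3]
      exact ⟨s.factorization q, rfl⟩
    have h5 : 1 ≤ (2 * K).factorization q := (hq.dvd_iff_one_le_factorization hK2).1 h2
    omega
  · rw [Nat.factorization_eq_zero_of_not_dvd hqd]
    exact Nat.zero_le _

/-- finiteness of rational points gives odd valuations -/
theorem ram_of_curves {k : ℤ} (hk : k ≠ 0)
    (h : ∀ d : ℤ, d ≠ 0 → d ∣ 2 * k → {P : ℚ × ℚ | (d : ℚ) * P.2 ^ 2 = Fpol k P.1}.Finite) :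
    ∃ n0 : ℕ, ∀ n, n0 ≤ n → Ram k.natAbs n := by
  set K : ℕ := k.natAbs with hKdef
  have hK : 0 < K := Int.natAbs_pos.2 hk
  have hkK : (k : ℚ) ^ 2 = (K : ℚ) ^ 2 := by
    have h1 : k ^ 2 = (K : ℤ) ^ 2 := by
      rw [hKdef, Int.natCast_natAbs, sq_abs]
    exact_mod_cast h1
  have hF : ∀ t : ℚ, Fpol k t = Fpol (K : ℤ) t := by
    intro t
    unfold Fpol
    rw [hkK]
    simp
  -- the bad indices
  have hfin : {n : ℕ | ¬ Ram K (n + 2)}.Finite := by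
    have hU : (⋃ d ∈ (2 * K).divisors, {t : ℚ | ∃ y : ℚ, ((d : ℤ) : ℚ) * y ^ 2 = Fpol k t}).Finite := by
      refine Set.Finite.biUnion (Finset.finite_toSet _) ?_
      intro d hd
      have hd' : d ∣ 2 * K := Nat.dvd_of_mem_divisors hd
      have hd0 : d ≠ 0 := by
        rintro rfl
        have := Nat.eq_zero_of_zero_dvd hd'
        omega
      have h1 := h (d : ℤ) (by exact_mod_cast hd0) (by
        have h2 : ((d : ℕ) : ℤ) ∣ ((2 * K : ℕ) : ℤ) := by exact_mod_cast hd'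
        push_cast at h2
        rw [hKdef, Int.natCast_natAbs] at h2
        have h3 : (2 : ℤ) * |k| = |2 * k| := by rw [abs_mul]; norm_num
        rw [h3] at h2
        exact (dvd_abs _ _).1 h2)
      refine (h1.image Prod.fst).subset ?_
      rintro t ⟨y, hy⟩
      exact ⟨(t, y), hy, rfl⟩
    refine Set.Finite.of_finite_image (hU.subset ?_)
      ((xx_strictMono hK).injective.injOn)
    rintro _ ⟨n, hn, rfl⟩
    obtain ⟨d, s, hd, hd0, hds⟩ := form_of_not_ram hK hn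
    have hmem : d ∈ (2 * K).divisors := Nat.mem_divisors.2 ⟨hd, by omega⟩
    refine Set.mem_biUnion (Finset.mem_coe.2 hmem) ?_
    have h2 : (B K (n + 2) : ℚ) ≠ 0 := by exact_mod_cast (B_pos hK (n + 2)).ne'
    refine ⟨xx K n * (xx K n ^ 2 + 1) * ((s : ℚ) / B K (n + 2)), ?_⟩
    rw [hF, xx_two hK]
    have h3 : xx K (n + 2) ^ 2 + 1 = (d : ℚ) * ((s : ℚ) / B K (n + 2)) ^ 2 := by
      have h4 : ((A K (n + 2) : ℚ) ^ 2 + (B K (n + 2) : ℚ) ^ 2) = d * (s : ℚ) ^ 2 := by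
        exact_mod_cast hds
      unfold xx
      field_simp
      exact h4
    rw [h3]
    push_cast
    ring
  obtain ⟨m, hm⟩ := hfin.bddAbove
  refine ⟨m + 3, fun n hn => ?_⟩
  by_contra hcon
  have h1 : n - 2 ∈ {n : ℕ | ¬ Ram K (n + 2)} := by
    show ¬ Ram K (n - 2 + 2)
    rwa [show n - 2 + 2 = n by omega]
  have h2 := hm h1
  omega

end Pool.Agent.Lib.MP_e26d5c_nt.AG
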