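import Pool.Agent.Lib.MP_e26d5c_nt.AG.Ar

set_option autoImplicit false

namespace Pool.Agent.Lib.MP_e26d5c_nt.AG

/-- PROOF: multiply the four relations `A_succ`, `B_succ` for `s` and `t` (cast to `ℤ`):
`A(s+1) G_s * B(t+1) G_t = K C_s A_t B_t`, `B(s+1) G_s * A(t+1) G_t = A_s B_s K C_t`, and the identity
`(A_s B_t - e B_s A_t)(A_s A_t - e B_s B_t) = A_t B_t (A_s^2+B_s^2) - e A_s B_s (A_t^2+B_t^2)`
(uses `e^2 = 1`; `linear_combination`). -/
theorem rec_D (K s t : ℕ) (e : ℤ) (he : e ^ 2 = 1) :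
    ((A K (s + 1) : ℤ) * B K (t + 1) - e * B K (s + 1) * A K (t + 1)) * ((Gg K s : ℤ) * Gg K t) =
      (K : ℤ) * ((A K s : ℤ) * B K t - e * B K s * A K t) *
        ((A K s : ℤ) * A K t - e * B K s * B K t) := by
  have h1 : (A K (s + 1) : ℤ) * Gg K s = K * C K s := by exact_mod_cast A_succ K s
  have h2 : (A K (t + 1) : ℤ) * Gg K t = K * C K t := by exact_mod_cast A_succ K t
  have h3 : (B K (s + 1) : ℤ) * Gg K s = A K s * B K s := by exact_mod_cast B_succ K s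
  have h4 : (B K (t + 1) : ℤ) * Gg K t = A K t * B K t := by exact_mod_cast B_succ K t
  have c1 : (C K s : ℤ) = (A K s : ℤ) ^ 2 + (B K s : ℤ) ^ 2 := by simp only [C]; push_cast; ring
  have c2 : (C K t : ℤ) = (A K t : ℤ) ^ 2 + (B K t : ℤ) ^ 2 := by simp only [C]; push_cast; ring
  rw [c1] at h1
  rw [c2] at h2
  linear_combination ((B K (t + 1) : ℤ) * Gg K t) * h1 +
    ((K : ℤ) * ((A K s : ℤ) ^ 2 + (B K s : ℤ) ^ 2)) * h4 -
    e * ((A K (t + 1) : ℤ) * Gg K t) * h3 - e * ((A K s : ℤ) * B K s) * h2 -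
    (K : ℤ) * A K t * B K t * (B K s : ℤ) ^ 2 * he

/-- PROOF: `rec_D`; `l` divides the right side, `l` does not divide `Gg K s`, `Gg K t` (they divide
`K`, `Gg_dvd`), so `l` (prime in `ℤ`, `Nat.prime_iff_prime_int`) divides the first factor. -/
theorem step_dvd {K s t l : ℕ} {e : ℤ} (he : e ^ 2 = 1) (hl : l.Prime) (hlK : ¬ l ∣ K)
    (h : (l : ℤ) ∣ (A K s : ℤ) * B K t - e * B K s * A K t ∨
      (l : ℤ) ∣ (A K s : ℤ) * A K t - e * B K s * B K t) :
    (l : ℤ) ∣ (A K (s + 1) : ℤ) * B K (t + 1) - e * B K (s + 1) * A K (t + 1) := by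
  have hp : Prime (l : ℤ) := Nat.prime_iff_prime_int.mp hl
  have h1 : (l : ℤ) ∣ ((A K (s + 1) : ℤ) * B K (t + 1) - e * B K (s + 1) * A K (t + 1)) *
      ((Gg K s : ℤ) * Gg K t) := by
    rw [rec_D K s t e he]
    rcases h with h | h
    · exact Dvd.dvd.mul_right (Dvd.dvd.mul_left h _) _
    · exact Dvd.dvd.mul_left h _
  have hG : ∀ n, ¬ (l : ℤ) ∣ (Gg K n : ℤ) := by
    intro n hn
    exact hlK ((Int.natCast_dvd_natCast.mp hn).trans (Gg_dvd K n))
  rcases hp.dvd_or_dvd h1 with h2 | h2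
  · exact h2
  · rcases hp.dvd_or_dvd h2 with h3 | h3
    · exact absurd h3 (hG s)
    · exact absurd h3 (hG t)

/-- If `(a:b) = (c:d)` in the projective line modulo the prime `l` and both pairs are coprime then
`a^2+b^2` and `c^2+d^2` differ by the square of a unit modulo `l`.
PROOF: take integers `x, y` with `x c + y d = 1` (`IsCoprime`), `u := x a + y b`.  Then
`u c ≡ a`, `u d ≡ b (mod l)` (as `a d ≡ b c`), so `a^2+b^2 ≡ u^2 (c^2+d^2)`.  `l` does not divide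
`u` (otherwise `l` divides `a` and `b`).  `jacobiSym.mod_left'`, `jacobiSym.mul_left`,
`jacobiSym.sq_one` (gcd of `u` and `l` is `1`). -/
theorem jac_of_proj {a b c d : ℤ} {l : ℕ} (hl : l.Prime) (hab : IsCoprime a b)
    (hcd : IsCoprime c d) (h : (l : ℤ) ∣ a * d - b * c) :
    jacobiSym (a ^ 2 + b ^ 2) l = jacobiSym (c ^ 2 + d ^ 2) l := by
  obtain ⟨x, y, hxy⟩ := hcd
  have h1 : (l : ℤ) ∣ a - (x * a + y * b) * c := by
    have h2 : a - (x * a + y * b) * c = y * (a * d - b * c) := by linear_combination (-a) * hxy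
    rw [h2]
    exact Dvd.dvd.mul_left h _
  have h2 : (l : ℤ) ∣ b - (x * a + y * b) * d := by
    have h3 : b - (x * a + y * b) * d = -x * (a * d - b * c) := by linear_combination (-b) * hxy
    rw [h3]
    exact Dvd.dvd.mul_left h _
  have hu : ¬ (l : ℤ) ∣ x * a + y * b := by
    intro hu
    have ha : (l : ℤ) ∣ a := (dvd_sub_left (Dvd.dvd.mul_right hu _)).mp h1
    have hb : (l : ℤ) ∣ b := (dvd_sub_left (Dvd.dvd.mul_right hu _)).mp h2
    obtain ⟨p, q, hpq⟩ := hab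
    have h3 : (l : ℤ) ∣ 1 := by
      rw [← hpq]
      exact dvd_add (Dvd.dvd.mul_left ha _) (Dvd.dvd.mul_left hb _)
    exact (Nat.prime_iff_prime_int.mp hl).not_dvd_one h3
  have hg : (x * a + y * b).gcd l = 1 := by
    have h3 : ¬ l ∣ (x * a + y * b).natAbs := fun h4 => hu (Int.natCast_dvd.mpr h4)
    have h4 := ((Nat.Prime.coprime_iff_not_dvd hl).mpr h3).symm
    exact h4
  have hm : (a ^ 2 + b ^ 2) % (l : ℤ) = ((x * a + y * b) ^ 2 * (c ^ 2 + d ^ 2)) % (l : ℤ) := by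
    symm
    apply Int.modEq_iff_dvd.mpr
    have h3 : a ^ 2 + b ^ 2 - (x * a + y * b) ^ 2 * (c ^ 2 + d ^ 2) =
        (a - (x * a + y * b) * c) * (a + (x * a + y * b) * c) +
        (b - (x * a + y * b) * d) * (b + (x * a + y * b) * d) := by ring
    rw [h3]
    exact dvd_add (Dvd.dvd.mul_right h1 _) (Dvd.dvd.mul_right h2 _)
  rw [jacobiSym.mod_left' hm, jacobiSym.mul_left, jacobiSym.sq_one' hg, one_mul]

/-- PROOF: `jac_of_proj` with `(a,b) = (A_s, e B_s)` and `(c,d) = (A_t, B_t)` respectively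
`(c,d) = (B_t, A_t)`; `(e B)^2 = B^2`, `e = ±1` is a unit. -/
theorem jac_C_eq {K s t l : ℕ} {e : ℤ} (hK : 0 < K) (he : e ^ 2 = 1) (hl : l.Prime)
    (h : (l : ℤ) ∣ (A K s : ℤ) * B K t - e * B K s * A K t ∨
      (l : ℤ) ∣ (A K s : ℤ) * A K t - e * B K s * B K t) :
    jacobiSym (C K s : ℤ) l = jacobiSym (C K t : ℤ) l := by
  have hc : ∀ n, IsCoprime (A K n : ℤ) (B K n : ℤ) := fun n =>
    Nat.isCoprime_iff_coprime.mpr (coprime_AB hK n)
  have h1 : IsCoprime (A K s : ℤ) (e * B K s) := by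
    obtain ⟨x, y, hxy⟩ := hc s
    exact ⟨x, y * e, by linear_combination hxy + y * (B K s : ℤ) * he⟩
  have h2 : (C K s : ℤ) = (A K s : ℤ) ^ 2 + (e * B K s) ^ 2 := by
    simp only [C]
    push_cast
    linear_combination (-(B K s : ℤ) ^ 2) * he
  have h3 : (C K t : ℤ) = (A K t : ℤ) ^ 2 + (B K t : ℤ) ^ 2 := by simp only [C]; push_cast; ring
  rcases h with h | h
  · rw [h2, h3]
    exact jac_of_proj hl h1 (hc t) h
  · rw [h2, h3, add_comm ((A K t : ℤ) ^ 2)]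
    exact jac_of_proj hl h1 (hc t).symm h

/-- PROOF: induction on `i` with `step_dvd`: `l` divides `A_{m+i} B_i - e B_{m+i} A_i` for all `i`
(for `i = 0` this is `A_m - e B_m`), then `jac_C_eq`. -/
theorem per0 {K m l : ℕ} {e : ℤ} (hK : 0 < K) (he : e ^ 2 = 1) (hl : l.Prime) (hlK : ¬ l ∣ K)
    (h : (l : ℤ) ∣ (A K m : ℤ) - e * B K m) (i : ℕ) :
    jacobiSym (C K (m + i) : ℤ) l = jacobiSym (C K i : ℤ) l := by
  have hd : (l : ℤ) ∣ (A K (m + i) : ℤ) * B K i - e * B K (m + i) * A K i := by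
    induction i with
    | zero => simpa using h
    | succ i ih => exact step_dvd he hl hlK (Or.inl ih)
  exact jac_C_eq hK he hl (Or.inl hd)

/-- PROOF: `(l) ∣ 2K A_{m+1} - e B_{m+1} = A_{m+1} A_1 - e B_{m+1} B_1` (`A_one`, `B_one`), so by
`step_dvd` `l` divides `A_{m+2} B_2 - e B_{m+2} A_2`, and by induction `A_{m+i} B_i - e B_{m+i} A_i`
for all `i ≥ 2`; `jac_C_eq`. -/
theorem per1 {K m l : ℕ} {e : ℤ} (hK : 0 < K) (he : e ^ 2 = 1) (hl : l.Prime) (hlK : ¬ l ∣ K)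
    (h : (l : ℤ) ∣ 2 * (K : ℤ) * A K (m + 1) - e * B K (m + 1)) (i : ℕ) (hi : 2 ≤ i) :
    jacobiSym (C K (m + i) : ℤ) l = jacobiSym (C K i : ℤ) l := by
  have h1 : (l : ℤ) ∣ (A K (m + 1) : ℤ) * A K 1 - e * B K (m + 1) * B K 1 := by
    rw [A_one, B_one]
    push_cast
    have h2 : (A K (m + 1) : ℤ) * (2 * (K : ℤ)) - e * B K (m + 1) * 1 =
        2 * (K : ℤ) * A K (m + 1) - e * B K (m + 1) := by ring
    rw [h2]
    exact h
  have hd : (l : ℤ) ∣ (A K (m + i) : ℤ) * B K i - e * B K (m + i) * A K i := by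
    induction i, hi using Nat.le_induction with
    | base => exact step_dvd he hl hlK (Or.inr h1)
    | succ i _ ih => exact step_dvd he hl hlK (Or.inl ih)
  exact jac_C_eq hK he hl (Or.inl hd)

end Pool.Agent.Lib.MP_e26d5c_nt.AG
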