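import Pool.Agent.Lib.MP_e26d5c_nt.AG.Ar

set_option autoImplicit false

namespace Pool.Agent.Lib.MP_e26d5c_nt.AG

/-- PROOF: `Gg = gcd (K, A B)` and `p` does not divide `A B`. -/
theorem not_dvd_Gg {K p n : ℕ} (hp : p.Prime) (hu : ¬ p ∣ A K n * B K n) : ¬ p ∣ Gg K n := by
  exact fun h => hu (h.trans (Gg_dvd_AB K n))

/-- valuation of a gcd.  PROOF: `Nat.factorization_gcd` (or `padicValNat` of gcd = min). -/
theorem val_Gg {K p n : ℕ} (hp : p.Prime) (hK : 0 < K) :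
    padicValNat p (Gg K n) = min (padicValNat p K) (padicValNat p (A K n * B K n)) := by
  have h1 : A K n * B K n ≠ 0 := mul_ne_zero (A_pos hK n).ne' (B_pos hK n).ne'
  have h2 := congrArg (fun f => f p) (Nat.factorization_gcd hK.ne' h1)
  simp only [Finsupp.inf_apply] at h2
  rw [Nat.factorization_def _ hp, Nat.factorization_def _ hp, Nat.factorization_def _ hp] at h2
  exact h2

private theorem R4_ne {K p n : ℕ} (hK : 0 < K) :
    A K n ≠ 0 ∧ B K n ≠ 0 ∧ C K n ≠ 0 ∧ Gg K n ≠ 0 ∧ K ≠ 0 :=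
  ⟨(A_pos hK n).ne', (B_pos hK n).ne', (C_pos hK n).ne', (Gg_pos hK n).ne', hK.ne'⟩

private theorem R4_iff {p m : ℕ} (hp : p.Prime) (hm : m ≠ 0) : p ∣ m ↔ 1 ≤ padicValNat p m := by
  have := Fact.mk hp
  rw [dvd_iff_padicValNat_ne_zero hm]
  omega

/-- all valuations at level `n` -/
private theorem R4_facts {K p : ℕ} (hp : p.Prime) (hK : 0 < K) (n : ℕ) :
    padicValNat p (A K (n + 1)) + padicValNat p (Gg K n) =
        padicValNat p K + padicValNat p (C K n) ∧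
      padicValNat p (B K (n + 1)) + padicValNat p (Gg K n) =
        padicValNat p (A K n) + padicValNat p (B K n) ∧
      padicValNat p (Gg K n) =
        min (padicValNat p K) (padicValNat p (A K n) + padicValNat p (B K n)) ∧
      (padicValNat p (A K n) = 0 ∨ padicValNat p (B K n) = 0) ∧
      (padicValNat p (C K n) = 0 ∨
        (padicValNat p (A K n) = 0 ∧ padicValNat p (B K n) = 0)) := by
  have := Fact.mk hp
  obtain ⟨a0, b0, c0, g0, k0⟩ := R4_ne (p := p) (n := n) hK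
  obtain ⟨a1, b1, -, -, -⟩ := R4_ne (p := p) (n := n + 1) hK
  refine ⟨?_, ?_, ?_, ?_, ?_⟩
  · rw [← padicValNat.mul a1 g0, ← padicValNat.mul k0 c0, A_succ]
  · rw [← padicValNat.mul b1 g0, ← padicValNat.mul a0 b0, B_succ]
  · rw [val_Gg hp hK, padicValNat.mul a0 b0]
  · by_contra hcon
    push Not at hcon
    have h1 : p ∣ A K n := (R4_iff hp a0).2 (by omega)
    have h2 : p ∣ B K n := (R4_iff hp b0).2 (by omega)
    exact Nat.not_coprime_of_dvd_of_dvd hp.one_lt h1 h2 (coprime_AB hK n)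
  · by_contra hcon
    rw [not_or] at hcon
    have h1 : p ∣ C K n := (R4_iff hp c0).2 (by omega)
    have h2 : p ∣ A K n * B K n := by
      rw [R4_iff hp (mul_ne_zero a0 b0), padicValNat.mul a0 b0]
      omega
    exact Nat.not_coprime_of_dvd_of_dvd hp.one_lt h1 h2 (coprime_C_AB hK n)

private theorem R4_unit {K p n : ℕ} (hp : p.Prime) (hK : 0 < K) (hu : ¬ p ∣ A K n * B K n) :
    padicValNat p (A K n) = 0 ∧ padicValNat p (B K n) = 0 := by
  constructor
  · exact padicValNat.eq_zero_of_not_dvd fun h => hu (Dvd.dvd.mul_right h _)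
  · exact padicValNat.eq_zero_of_not_dvd fun h => hu (Dvd.dvd.mul_left h _)

/-- (a) unit at `n`, `p ∤ C_n`.  PROOF: `A_succ`, `B_succ`, `not_dvd_Gg`, additivity of
`padicValNat` on products of positive numbers. -/
theorem unit_step {K p n : ℕ} (hp : p.Prime) (hK : 0 < K) (hu : ¬ p ∣ A K n * B K n)
    (hC : ¬ p ∣ C K n) :
    padicValNat p (A K (n + 1)) = padicValNat p K ∧ ¬ p ∣ B K (n + 1) := by
  obtain ⟨f1, f2, f3, f4, f5⟩ := R4_facts hp hK n
  obtain ⟨h1, h2⟩ := R4_unit hp hK hu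
  have h3 : padicValNat p (C K n) = 0 := padicValNat.eq_zero_of_not_dvd hC
  refine ⟨by omega, ?_⟩
  rw [R4_iff hp (B_pos hK (n + 1)).ne']
  omega

/-- the two step map at a unit which is not a zero of `C`.
PROOF: `v(A_{n+1}) = v(K) = e ≥ 1`, `p ∤ B_{n+1}`, so `v(Gg_{n+1}) = e`, `v(A_{n+2}) = 0`
(`A_{n+2} Gg_{n+1} = K C_{n+1}`, `p ∤ C_{n+1}` because `p ∣ A_{n+1}`, `p ∤ B_{n+1}`) and
`v(B_{n+2}) = 0`.  Congruence: from `A_{n+2} G = K C_{n+1}`, `B_{n+2} G = A_{n+1} B_{n+1}` we get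
`A_{n+2} A_{n+1} B_{n+1} = B_{n+2} K C_{n+1}`; multiply by `Gg_n` and use `A_{n+1} Gg_n = K C_n`;
cancel `K`: `A_{n+2} C_n B_{n+1} = B_{n+2} C_{n+1} Gg_n`.  Modulo `p`: `C_{n+1} ≡ B_{n+1}^2`; cancel
`B_{n+1}`: `A_{n+2} C_n ≡ B_{n+2} B_{n+1} Gg_n = B_{n+2} A_n B_n`. -/
theorem unit_two {K p n : ℕ} (hp : p.Prime) (hK : 0 < K) (hpK : p ∣ K)
    (hu : ¬ p ∣ A K n * B K n) (hC : ¬ p ∣ C K n) :
    ¬ p ∣ A K (n + 2) * B K (n + 2) ∧
      (p : ℤ) ∣ (A K (n + 2) : ℤ) * C K n - (B K (n + 2) : ℤ) * ((A K n : ℤ) * B K n) := by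
  have := Fact.mk hp
  obtain ⟨f1, f2, f3, f4, f5⟩ := R4_facts hp hK n
  obtain ⟨g1, g2, g3, g4, g5⟩ := R4_facts hp hK (n + 1)
  obtain ⟨h1, h2⟩ := R4_unit hp hK hu
  have h3 : padicValNat p (C K n) = 0 := padicValNat.eq_zero_of_not_dvd hC
  have h4 : 1 ≤ padicValNat p K := (R4_iff hp hK.ne').1 hpK
  have a2 : A K (n + 2) ≠ 0 := (A_pos hK (n + 2)).ne'
  have b2 : B K (n + 2) ≠ 0 := (B_pos hK (n + 2)).ne'
  have e1 : padicValNat p (A K (n + 2)) = 0 := by
    have : A K (n + 1 + 1) = A K (n + 2) := rfl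
    rw [this] at g1
    omega
  have e2 : padicValNat p (B K (n + 2)) = 0 := by
    have : B K (n + 1 + 1) = B K (n + 2) := rfl
    rw [this] at g2
    omega
  constructor
  · rw [R4_iff hp (mul_ne_zero a2 b2), padicValNat.mul a2 b2]
    omega
  · have hA1 : p ∣ A K (n + 1) := by
      rw [R4_iff hp (A_pos hK (n + 1)).ne']
      omega
    have hB1 : ¬ p ∣ B K (n + 1) := by
      rw [R4_iff hp (B_pos hK (n + 1)).ne']
      omega
    have q1 : (A K (n + 2) : ℤ) * Gg K (n + 1) = K * C K (n + 1) := by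
      exact_mod_cast A_succ K (n + 1)
    have q2 : (B K (n + 2) : ℤ) * Gg K (n + 1) = A K (n + 1) * B K (n + 1) := by
      exact_mod_cast B_succ K (n + 1)
    have q3 : (A K (n + 1) : ℤ) * Gg K n = K * C K n := by
      exact_mod_cast A_succ K n
    have q4 : (B K (n + 1) : ℤ) * Gg K n = A K n * B K n := by
      exact_mod_cast B_succ K n
    have hC1 : (C K (n + 1) : ℤ) = (A K (n + 1) : ℤ) ^ 2 + (B K (n + 1) : ℤ) ^ 2 := by
      unfold C
      push_cast
      rfl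
    have hG1 : (Gg K (n + 1) : ℤ) ≠ 0 := by exact_mod_cast (Gg_pos hK (n + 1)).ne'
    have hKz : (K : ℤ) ≠ 0 := by exact_mod_cast hK.ne'
    have r1 : (A K (n + 2) : ℤ) * A K (n + 1) * B K (n + 1) =
        B K (n + 2) * (K * C K (n + 1)) := by
      apply mul_right_cancel₀ hG1
      calc (A K (n + 2) : ℤ) * A K (n + 1) * B K (n + 1) * Gg K (n + 1)
          = (A K (n + 2) * Gg K (n + 1)) * (A K (n + 1) * B K (n + 1)) := by ring
        _ = (K * C K (n + 1)) * (B K (n + 2) * Gg K (n + 1)) := by rw [q1, q2]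
        _ = B K (n + 2) * (K * C K (n + 1)) * Gg K (n + 1) := by ring
    have r2 : (A K (n + 2) : ℤ) * C K n * B K (n + 1) =
        B K (n + 2) * C K (n + 1) * Gg K n := by
      apply mul_right_cancel₀ hKz
      calc (A K (n + 2) : ℤ) * C K n * B K (n + 1) * K
          = A K (n + 2) * B K (n + 1) * (K * C K n) := by ring
        _ = A K (n + 2) * B K (n + 1) * (A K (n + 1) * Gg K n) := by rw [q3]
        _ = (A K (n + 2) * A K (n + 1) * B K (n + 1)) * Gg K n := by ring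
        _ = (B K (n + 2) * (K * C K (n + 1))) * Gg K n := by rw [r1]
        _ = B K (n + 2) * C K (n + 1) * Gg K n * K := by ring
    have r3 : (B K (n + 1) : ℤ) *
        ((A K (n + 2) : ℤ) * C K n - (B K (n + 2) : ℤ) * ((A K n : ℤ) * B K n)) =
        A K (n + 1) * (A K (n + 1) * B K (n + 2) * Gg K n) := by
      rw [← q4]
      calc (B K (n + 1) : ℤ) * ((A K (n + 2) : ℤ) * C K n -
            (B K (n + 2) : ℤ) * (B K (n + 1) * Gg K n))
          = A K (n + 2) * C K n * B K (n + 1) -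
            B K (n + 2) * B K (n + 1) ^ 2 * Gg K n := by ring
        _ = B K (n + 2) * C K (n + 1) * Gg K n -
            B K (n + 2) * B K (n + 1) ^ 2 * Gg K n := by rw [r2]
        _ = A K (n + 1) * (A K (n + 1) * B K (n + 2) * Gg K n) := by rw [hC1]; ring
    have r4 : (p : ℤ) ∣ (B K (n + 1) : ℤ) *
        ((A K (n + 2) : ℤ) * C K n - (B K (n + 2) : ℤ) * ((A K n : ℤ) * B K n)) := by
      rw [r3]
      exact Dvd.dvd.mul_right (by exact_mod_cast hA1) _
    rcases (Nat.prime_iff_prime_int.1 hp).dvd_or_dvd r4 with h | h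
    · exact absurd (by exact_mod_cast h) hB1
    · exact h

/-- (b) after a zero of `C`.  PROOF: `p ∣ C_n` implies that `n` is a unit (`coprime_C_AB`), so
`p ∤ Gg_n`, `v(A_{n+1}) = v(K) + v(C_n)`, `p ∤ B_{n+1}`; then `v(Gg_{n+1}) = v(K)` (`val_Gg`), and
`B_{n+2} Gg_{n+1} = A_{n+1} B_{n+1}` gives `v(B_{n+2}) = v(C_n)`; `p ∤ A_{n+2}` by coprimality when
`v(C_n) ≥ 1`. -/
theorem bad_step {K p n : ℕ} (hp : p.Prime) (hK : 0 < K) (hC : p ∣ C K n) :
    padicValNat p (A K (n + 1)) = padicValNat p K + padicValNat p (C K n) ∧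
      ¬ p ∣ B K (n + 1) ∧ padicValNat p (B K (n + 2)) = padicValNat p (C K n) ∧
        ¬ p ∣ A K (n + 2) := by
  have := Fact.mk hp
  obtain ⟨f1, f2, f3, f4, f5⟩ := R4_facts hp hK n
  obtain ⟨g1, g2, g3, g4, g5⟩ := R4_facts hp hK (n + 1)
  have h3 : 1 ≤ padicValNat p (C K n) := (R4_iff hp (C_pos hK n).ne').1 hC
  have h5 : A K (n + 1 + 1) = A K (n + 2) := rfl
  have h6 : B K (n + 1 + 1) = B K (n + 2) := rfl
  rw [h5] at g1
  rw [h6] at g2
  rw [R4_iff hp (B_pos hK (n + 1)).ne', R4_iff hp (A_pos hK (n + 2)).ne']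
  refine ⟨by omega, by omega, by omega, by omega⟩

/-- (c) descent.  PROOF: `v(Gg_s) = min(e, w) = e`, so `v(B_{s+1}) = w - e`; `A_{s+1} Gg_s = K C_s`
and `p ∤ C_s` (as `p ∣ B_s`, `p ∤ A_s`; here `w ≥ e ≥ 1`), so `p ∤ A_{s+1}`. -/
theorem descent {K p s : ℕ} (hp : p.Prime) (hK : 0 < K) (hpK : p ∣ K) (hA : ¬ p ∣ A K s)
    (hw : padicValNat p K ≤ padicValNat p (B K s)) :
    padicValNat p (B K (s + 1)) = padicValNat p (B K s) - padicValNat p K ∧
      ¬ p ∣ A K (s + 1) := by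
  have := Fact.mk hp
  obtain ⟨f1, f2, f3, f4, f5⟩ := R4_facts hp hK s
  have h4 : 1 ≤ padicValNat p K := (R4_iff hp hK.ne').1 hpK
  have h1 : padicValNat p (A K s) = 0 := padicValNat.eq_zero_of_not_dvd hA
  rw [R4_iff hp (A_pos hK (s + 1)).ne']
  refine ⟨by omega, by omega⟩

/-- (d) trap.  `0 < v(A_s) < e` implies the same at `s+1`, and `0 < v(B_s) < e` implies
`0 < v(A_{s+1}) < e`.  PROOF: `v(Gg_s) = a` or `w` (`val_Gg`), `v(A_{s+1}) = e - a` respectively
`e - w` (`p ∤ C_s`), where exactly one of `A_s, B_s` is divisible by `p`. -/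
theorem trap_step {K p s : ℕ} (hp : p.Prime) (hK : 0 < K)
    (h : (p ∣ A K s ∧ padicValNat p (A K s) < padicValNat p K) ∨
      (p ∣ B K s ∧ padicValNat p (B K s) < padicValNat p K)) :
    p ∣ A K (s + 1) ∧ padicValNat p (A K (s + 1)) < padicValNat p K := by
  have := Fact.mk hp
  obtain ⟨f1, f2, f3, f4, f5⟩ := R4_facts hp hK s
  rw [R4_iff hp (A_pos hK s).ne', R4_iff hp (B_pos hK s).ne'] at h
  rw [R4_iff hp (A_pos hK (s + 1)).ne']
  refine ⟨by omega, by omega⟩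

end Pool.Agent.Lib.MP_e26d5c_nt.AG
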