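import Pool.Agent.Lib.MP_e26d5c_nt.AG.R4b
import Pool.Agent.Lib.MP_e26d5c_nt.AG.Defs
import Pool.Agent.Lib.MP_e26d5c_nt.AG.R2
import Pool.Agent.Lib.MP_e26d5c_nt.AG.R3

set_option autoImplicit false

namespace Pool.Agent.Lib.MP_e26d5c_nt.AG

private theorem R5_not_dvd_C {K p : ℕ} (hp : p.Prime) (hp2 : p ≠ 2)
    (hg : ¬ Bad K p) (n : ℕ) : ¬ p ∣ C K n := by
  rcases Nat.eq_zero_or_pos n with h | h
  · subst h
    rw [C_zero]
    intro hd
    exact hp2 ((Nat.prime_dvd_prime_iff_eq hp Nat.prime_two).mp hd)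
  · exact fun hd => hg ⟨n, h, hd⟩

/-- good odd primes: even indices are units, odd indices have `v(A) = v(K)`, `p ∤ B`.
PROOF: induction on `i`, from `A_0 = B_0 = 1`, `C_0 = 2` (`p` odd), `unit_two`, `unit_step`. -/
theorem good_even {K p : ℕ} (hp : p.Prime) (hp2 : p ≠ 2) (hK : 0 < K) (hpK : p ∣ K)
    (hg : ¬ Bad K p) (i : ℕ) : ¬ p ∣ A K (2 * i) * B K (2 * i) := by
  induction i with
  | zero =>
    have h1 : A K (2 * 0) * B K (2 * 0) = 1 := by simp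
    rw [h1]
    intro h
    exact hp.one_lt.ne' (Nat.dvd_one.mp h)
  | succ i ih =>
    have hC : ¬ p ∣ C K (2 * i) := R5_not_dvd_C hp hp2 hg (2 * i)
    exact (unit_two hp hK hpK ih hC).1

theorem good_odd {K p : ℕ} (hp : p.Prime) (hp2 : p ≠ 2) (hK : 0 < K) (hpK : p ∣ K)
    (hg : ¬ Bad K p) (i : ℕ) :
    padicValNat p (A K (2 * i + 1)) = padicValNat p K ∧ ¬ p ∣ B K (2 * i + 1) := by
  exact unit_step hp hK (good_even hp hp2 hK hpK hg i) (R5_not_dvd_C hp hp2 hg (2 * i))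

private theorem R5_val_even {K p : ℕ} (hp : p.Prime) (hp2 : p ≠ 2) (hK : 0 < K) (hpK : p ∣ K)
    (hg : ¬ Bad K p) (i : ℕ) : padicValNat p (Gg K (2 * i)) = 0 :=
  padicValNat.eq_zero_of_not_dvd (not_dvd_Gg hp (good_even hp hp2 hK hpK hg i))

private theorem R5_val_odd {K p : ℕ} (hp : p.Prime) (hp2 : p ≠ 2) (hK : 0 < K) (hpK : p ∣ K)
    (hg : ¬ Bad K p) (i : ℕ) : padicValNat p (Gg K (2 * i + 1)) = padicValNat p K := by
  have : Fact p.Prime := ⟨hp⟩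
  have h := good_odd hp hp2 hK hpK hg i
  rw [val_Gg hp hK, padicValNat.mul (A_pos hK _).ne' (B_pos hK _).ne', h.1,
    padicValNat.eq_zero_of_not_dvd h.2]
  simp

/-- PROOF: `val_Gg`, `good_even`, `good_odd`: one of `m-1`, `m` is even (`v(Gg) = 0`), the other one odd
(`v(Gg) = min(e, e) = e`), so the valuation is `2 e`. -/
theorem good_KGG {K p m : ℕ} (hp : p.Prime) (hp2 : p ≠ 2) (hK : 0 < K) (hpK : p ∣ K)
    (hg : ¬ Bad K p) (hm : 1 ≤ m) : Even (padicValNat p (K * Gg K (m - 1) * Gg K m)) := by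
  have hK0 : K ≠ 0 := hK.ne'
  have hG1 : Gg K (m - 1) ≠ 0 := (Gg_pos hK (m - 1)).ne'
  have hG2 : Gg K m ≠ 0 := (Gg_pos hK m).ne'
  have : Fact p.Prime := ⟨hp⟩
  rw [padicValNat.mul (mul_ne_zero hK0 hG1) hG2, padicValNat.mul hK0 hG1]
  rcases Nat.even_or_odd' m with ⟨c, hc | hc⟩
  · obtain ⟨d, rfl⟩ : ∃ d, c = d + 1 := ⟨c - 1, by omega⟩
    have h1 : m - 1 = 2 * d + 1 := by omega
    rw [h1, hc, R5_val_odd hp hp2 hK hpK hg d, R5_val_even hp hp2 hK hpK hg (d + 1)]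
    exact ⟨padicValNat p K, by ring⟩
  · have h1 : m - 1 = 2 * c := by omega
    rw [h1, hc, R5_val_odd hp hp2 hK hpK hg c, R5_val_even hp hp2 hK hpK hg c]
    exact ⟨padicValNat p K, by ring⟩

/-- coprimality of numerator and denominator -/
private theorem R5_isCoprime (r : ℚ) : IsCoprime r.num (r.den : ℤ) := by
  rw [Int.isCoprime_iff_gcd_eq_one]
  have h := r.reduced
  simpa [Int.gcd, Nat.Coprime] using h

private theorem R5_unit {p : ℕ} (hp : p.Prime) {a b A B : ℤ} (hab : IsCoprime a b)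
    (h : (p : ℤ) ∣ A * b - B * a) (hA : ¬ (p : ℤ) ∣ A) :
    ∃ u : ℤ, (p : ℤ) ∣ A - u * a ∧ (p : ℤ) ∣ B - u * b ∧ ¬ (p : ℤ) ∣ u := by
  obtain ⟨x, y, hxy⟩ := hab
  obtain ⟨c, hc⟩ := h
  have h1 : (p : ℤ) ∣ A - (x * A + y * B) * a := ⟨y * c, by
    linear_combination (-A) * hxy + y * hc⟩
  refine ⟨x * A + y * B, h1, ⟨- x * c, by linear_combination (-B) * hxy - x * hc⟩, ?_⟩
  intro hu
  apply hA
  have h2 : (p : ℤ) ∣ (A - (x * A + y * B) * a) + (x * A + y * B) * a :=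
    dvd_add h1 (Dvd.dvd.mul_right hu a)
  simpa using h2

private theorem R5_sq_coprime {a b : ℤ} (hab : IsCoprime a b) : IsCoprime (a * b) (a ^ 2 + b ^ 2) := by
  apply IsCoprime.mul_left
  · have h1 : IsCoprime a (b ^ 2) := hab.pow_right
    have h2 : a ^ 2 + b ^ 2 = b ^ 2 + a * a := by ring
    rw [h2]
    exact h1.add_mul_left_right a
  · have h1 : IsCoprime b (a ^ 2) := hab.symm.pow_right
    have h2 : a ^ 2 + b ^ 2 = a ^ 2 + b * b := by ring
    rw [h2]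
    exact h1.add_mul_left_right b

private theorem R5_pos (r : ℚ) : 0 < r.num ^ 2 + (r.den : ℤ) ^ 2 := by
  have h : 0 < (r.den : ℤ) := by exact_mod_cast r.den_pos
  positivity

private theorem R5_rr_step (r : ℚ) :
    (((r / (r ^ 2 + 1)).den : ℕ) : ℤ) = r.num ^ 2 + (r.den : ℤ) ^ 2 ∧
      (r / (r ^ 2 + 1)).num = r.num * (r.den : ℤ) := by
  have hcop := R5_sq_coprime (R5_isCoprime r)
  have hcop' : Nat.Coprime (r.num * (r.den : ℤ)).natAbs (r.num ^ 2 + (r.den : ℤ) ^ 2).natAbs := by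
    rw [Int.isCoprime_iff_gcd_eq_one] at hcop
    exact hcop
  have hpos := R5_pos r
  have hd : (r.den : ℚ) ≠ 0 := by exact_mod_cast r.den_ne_zero
  have hr : r = (r.num : ℚ) / (r.den : ℚ) := (Rat.num_div_den r).symm
  have hq : (0 : ℚ) < (r.num : ℚ) ^ 2 + (r.den : ℚ) ^ 2 := by
    have h : (0 : ℚ) < (r.den : ℚ) := by exact_mod_cast r.den_pos
    positivity
  have e : r / (r ^ 2 + 1) = (((r.num * (r.den : ℤ) : ℤ)) : ℚ) / ((r.num ^ 2 + (r.den : ℤ) ^ 2 : ℤ) : ℚ) := by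
    have hr1 : r ^ 2 + 1 ≠ 0 := by positivity
    push_cast
    rw [div_eq_div_iff hr1 hq.ne']
    generalize hn : (r.num : ℚ) = nn at *
    generalize hdd : (r.den : ℚ) = dd at *
    rw [hr]
    field_simp
  rw [e]
  exact ⟨Rat.den_div_eq_of_coprime hpos hcop', Rat.num_div_eq_of_coprime hpos hcop'⟩

/-- the orbit at even places modulo an odd prime `p ∣ K` up to the first zero of `C`: if `p` divides no
`C_i`, `1 ≤ i < 2j+2`, then `(A_{2j+2} : B_{2j+2}) = (num r_j : den r_j)` modulo `p`.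
PROOF: induction on `j`.  `rr 0 = 1/2`: `unit_two` at `n = 0` (`C_0 = 2`, `A_0 B_0 = 1`):
`2 A_2 ≡ B_2`.  Step: `n = 2j+2` is a unit (`unit_two`), `unit_two` gives
`A_{n+2} C_n ≡ B_{n+2} A_n B_n`; with `rr j = a/b` in lowest terms, `A_n b ≡ B_n a`, we have
`A_n ≡ u a`, `B_n ≡ u b` (`u` a unit), so `A_{n+2} (a^2+b^2) ≡ B_{n+2} a b`; and
`rr (j+1) = a b/(a^2+b^2)` in lowest terms (`gcd(ab, a^2+b^2) = 1`, `b > 0`). -/
theorem orbit_rr {K p : ℕ} (hp : p.Prime) (hp2 : p ≠ 2) (hK : 0 < K) (hpK : p ∣ K) (j : ℕ)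
    (hno : ∀ i, 1 ≤ i → i < 2 * j + 2 → ¬ p ∣ C K i) :
    (p : ℤ) ∣ (A K (2 * j + 2) : ℤ) * (rr j).den - (B K (2 * j + 2) : ℤ) * (rr j).num := by
  induction j with
  | zero =>
    have hu : ¬ p ∣ A K 0 * B K 0 := by
      have h1 : A K 0 * B K 0 = 1 := by simp
      rw [h1]
      intro h
      exact hp.one_lt.ne' (Nat.dvd_one.mp h)
    have hC : ¬ p ∣ C K 0 := by
      rw [C_zero]
      intro hd
      exact hp2 ((Nat.prime_dvd_prime_iff_eq hp Nat.prime_two).mp hd)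
    have h := (unit_two hp hK hpK hu hC).2
    have h0 : rr 0 = 1 / 2 := rfl
    have hden : ((rr 0).den : ℤ) = 2 := by
      rw [h0]
      norm_num
    have hnum : (rr 0).num = 1 := by
      rw [h0]
      norm_num
    rw [hden, hnum]
    simpa using h
  | succ j ih =>
    have hno' : ∀ i, 1 ≤ i → i < 2 * j + 2 → ¬ p ∣ C K i :=
      fun i h1 h2 => hno i h1 (by omega)
    have ih' := ih hno'
    have hC0 : ∀ i, 0 ≤ i → i < 2 * j + 2 → ¬ p ∣ C K i := by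
      intro i _ h2
      rcases Nat.eq_zero_or_pos i with h | h
      · subst h
        rw [C_zero]
        intro hd
        exact hp2 ((Nat.prime_dvd_prime_iff_eq hp Nat.prime_two).mp hd)
      · exact hno' i h h2
    have hu0 : ¬ p ∣ A K 0 * B K 0 := by
      have h1 : A K 0 * B K 0 = 1 := by simp
      rw [h1]
      intro h
      exact hp.one_lt.ne' (Nat.dvd_one.mp h)
    have hu : ¬ p ∣ A K (2 * j + 2) * B K (2 * j + 2) :=
      (run_units hp hK hpK hu0 hC0 (2 * j + 2) (by omega) le_rfl).mpr (by omega)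
    have hCn : ¬ p ∣ C K (2 * j + 2) := hno (2 * j + 2) (by omega) (by omega)
    have h2 := (unit_two hp hK hpK hu hCn).2
    obtain ⟨u, hua, hub, hu'⟩ := R5_unit hp (a := (rr j).num) (b := ((rr j).den : ℤ))
      (A := (A K (2 * j + 2) : ℤ)) (B := (B K (2 * j + 2) : ℤ)) (R5_isCoprime (rr j)) ih' (by
        intro h
        apply hu
        exact Int.natCast_dvd_natCast.mp (by push_cast; exact h.mul_right _))
    have hr : rr (j + 1) = rr j / (rr j ^ 2 + 1) := rfl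
    rw [hr, (R5_rr_step (rr j)).1, (R5_rr_step (rr j)).2]
    have e1 : 2 * (j + 1) + 2 = 2 * j + 2 + 2 := by ring
    rw [e1]
    set a : ℤ := (rr j).num with ha
    set b : ℤ := ((rr j).den : ℤ) with hb
    obtain ⟨c1, hc1⟩ := hua
    obtain ⟨c2, hc2⟩ := hub
    obtain ⟨c3, hc3⟩ := h2
    have hCc : (C K (2 * j + 2) : ℤ) = (A K (2 * j + 2) : ℤ) ^ 2 + (B K (2 * j + 2) : ℤ) ^ 2 := by
      simp [C]
    rw [hCc] at hc3
    have hpr : Prime (p : ℤ) := Nat.prime_iff_prime_int.mp hp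
    have key : (p : ℤ) ∣ u ^ 2 * ((A K (2 * j + 2 + 2) : ℤ) * (a ^ 2 + b ^ 2) -
        (B K (2 * j + 2 + 2) : ℤ) * (a * b)) := by
      refine ⟨c3 - (A K (2 * j + 2 + 2) : ℤ) * (c1 * ((A K (2 * j + 2) : ℤ) + u * a) +
        c2 * ((B K (2 * j + 2) : ℤ) + u * b)) + (B K (2 * j + 2 + 2) : ℤ) *
        (c1 * (B K (2 * j + 2) : ℤ) + c2 * (u * a)), ?_⟩
      linear_combination hc3 - (A K (2 * j + 2 + 2) : ℤ) * (((A K (2 * j + 2) : ℤ) + u * a) * hc1 +
        ((B K (2 * j + 2) : ℤ) + u * b) * hc2) + (B K (2 * j + 2 + 2) : ℤ) *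
        ((B K (2 * j + 2) : ℤ) * hc1 + (u * a) * hc2)
    rcases hpr.dvd_or_dvd key with h | h
    · exact absurd (hpr.dvd_of_dvd_pow h) hu'
    · exact h

private theorem R5_unit_of_dvd {K p n : ℕ} (hp : p.Prime) (hK : 0 < K) (h : p ∣ C K n) :
    ¬ p ∣ A K n * B K n := by
  intro h2
  have h3 : p ∣ Nat.gcd (C K n) (A K n * B K n) := Nat.dvd_gcd h h2
  rw [coprime_C_AB hK n] at h3
  exact hp.one_lt.ne' (Nat.dvd_one.mp h3)

private theorem R5_num_sq (r : ℚ) : (r ^ 2 + 1).num = r.num ^ 2 + (r.den : ℤ) ^ 2 := by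
  have hab := R5_isCoprime r
  have hcop : IsCoprime (r.num ^ 2 + (r.den : ℤ) ^ 2) ((r.den : ℤ) ^ 2) := by
    have h1 : IsCoprime (r.num ^ 2) ((r.den : ℤ) ^ 2) := hab.pow
    have h2 := h1.add_mul_left_left 1
    simpa using h2
  have hcop' : Nat.Coprime (r.num ^ 2 + (r.den : ℤ) ^ 2).natAbs ((r.den : ℤ) ^ 2).natAbs := by
    rw [Int.isCoprime_iff_gcd_eq_one] at hcop
    exact hcop
  have hd' : 0 < (r.den : ℤ) := by exact_mod_cast r.den_pos
  have hd : (r.den : ℚ) ≠ 0 := by exact_mod_cast r.den_ne_zero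
  have hr : r = (r.num : ℚ) / (r.den : ℚ) := (Rat.num_div_den r).symm
  have e : r ^ 2 + 1 = ((r.num ^ 2 + (r.den : ℤ) ^ 2 : ℤ) : ℚ) / (((r.den : ℤ) ^ 2 : ℤ) : ℚ) := by
    push_cast
    rw [eq_div_iff (pow_ne_zero 2 hd)]
    generalize hn : (r.num : ℚ) = nn at *
    generalize hdd : (r.den : ℚ) = dd at *
    rw [hr]
    field_simp
  rw [e]
  exact Rat.num_div_eq_of_coprime (by positivity) hcop'

/-- PROOF: let `i ≥ 1` be the first index with `p ∣ C_i` (`Nat.find`).  `i` is a unit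
(`coprime_C_AB`), so `i` is even (`run_units` from `0`; `p ∤ C_0 = 2`), `i = 2j+2`.  `orbit_rr`:
`(A_i : B_i) = (num : den)` modulo `p`, so `p ∣ num^2 + den^2 = (rr j ^2+1).num`
(`(rr j)^2 + 1 = (num^2+den^2)/den^2` in lowest terms). -/
theorem exc_of_bad {K p : ℕ} (hp : p.Prime) (hp2 : p ≠ 2) (hK : 0 < K) (hpK : p ∣ K)
    (hb : Bad K p) : Exc p := by
  classical
  obtain ⟨i0, hi0⟩ := hb
  have hex : ∃ i, 1 ≤ i ∧ p ∣ C K i := ⟨i0, hi0⟩
  obtain ⟨hi1, hiC⟩ := Nat.find_spec hex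
  have hmin : ∀ s, 1 ≤ s → s < Nat.find hex → ¬ p ∣ C K s :=
    fun s hs hs' hd => Nat.find_min hex hs' ⟨hs, hd⟩
  generalize Nat.find hex = i at hi1 hiC hmin
  have hC0 : ∀ s, 0 ≤ s → s < i → ¬ p ∣ C K s := by
    intro s _ h2
    rcases Nat.eq_zero_or_pos s with h | h
    · subst h
      rw [C_zero]
      intro hd
      exact hp2 ((Nat.prime_dvd_prime_iff_eq hp Nat.prime_two).mp hd)
    · exact hmin s h h2
  have hu0 : ¬ p ∣ A K 0 * B K 0 := by
    have h1 : A K 0 * B K 0 = 1 := by simp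
    rw [h1]
    intro h
    exact hp.one_lt.ne' (Nat.dvd_one.mp h)
  have hui : ¬ p ∣ A K i * B K i := R5_unit_of_dvd hp hK hiC
  have hpar := (run_units hp hK hpK hu0 hC0 i (Nat.zero_le _) le_rfl).mp hui
  obtain ⟨j, rfl⟩ : ∃ j, i = 2 * j + 2 := ⟨i / 2 - 1, by omega⟩
  refine ⟨hp, j, ?_⟩
  have ho := orbit_rr hp hp2 hK hpK j hmin
  obtain ⟨u, hua, hub, hu'⟩ := R5_unit hp (a := (rr j).num) (b := ((rr j).den : ℤ))
      (A := (A K (2 * j + 2) : ℤ)) (B := (B K (2 * j + 2) : ℤ)) (R5_isCoprime (rr j)) ho (by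
        intro h
        apply hui
        exact Int.natCast_dvd_natCast.mp (by push_cast; exact h.mul_right _))
  rw [R5_num_sq (rr j)]
  obtain ⟨c1, hc1⟩ := hua
  obtain ⟨c2, hc2⟩ := hub
  have hCd : (p : ℤ) ∣ (A K (2 * j + 2) : ℤ) ^ 2 + (B K (2 * j + 2) : ℤ) ^ 2 := by
    have := Int.natCast_dvd_natCast.mpr hiC
    simpa [C] using this
  obtain ⟨c3, hc3⟩ := hCd
  have hpr : Prime (p : ℤ) := Nat.prime_iff_prime_int.mp hp
  have key : (p : ℤ) ∣ u ^ 2 * ((rr j).num ^ 2 + ((rr j).den : ℤ) ^ 2) := by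
    refine ⟨c3 - c1 * ((A K (2 * j + 2) : ℤ) + u * (rr j).num) -
      c2 * ((B K (2 * j + 2) : ℤ) + u * ((rr j).den : ℤ)), ?_⟩
    linear_combination hc3 - ((A K (2 * j + 2) : ℤ) + u * (rr j).num) * hc1 -
      ((B K (2 * j + 2) : ℤ) + u * ((rr j).den : ℤ)) * hc2
  rcases hpr.dvd_or_dvd key with h | h
  · exact absurd (hpr.dvd_of_dvd_pow h) hu'
  · exact h

/-- PROOF: `C_2`, `C_3`, `C_5`: `p ∤ C_1` and `p ∤ C_3` because `1` and `3` are not units
(`no_two_units` at `0` and `2`; `2` is a unit by `unit_two` at `0`). -/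
theorem not_dvd_C13 {K p : ℕ} (hp : p.Prime) (hp2 : p ≠ 2) (hK : 0 < K) (hpK : p ∣ K) :
    ¬ p ∣ C K 1 ∧ ¬ p ∣ C K 3 := by
  have hu0 : ¬ p ∣ A K 0 * B K 0 := by
    have h1 : A K 0 * B K 0 = 1 := by simp
    rw [h1]
    intro h
    exact hp.one_lt.ne' (Nat.dvd_one.mp h)
  have hC0 : ¬ p ∣ C K 0 := by
    rw [C_zero]
    intro hd
    exact hp2 ((Nat.prime_dvd_prime_iff_eq hp Nat.prime_two).mp hd)
  have hu2 : ¬ p ∣ A K 2 * B K 2 := (unit_two hp hK hpK hu0 hC0).1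
  refine ⟨fun h => ?_, fun h => ?_⟩
  · exact R5_unit_of_dvd hp hK h (no_two_units hp hK hpK hu0)
  · exact R5_unit_of_dvd hp hK h (no_two_units hp hK hpK hu2)

/-- PROOF: by `unit_two` at `n = 0`: `2 A_2 ≡ B_2`, so `4 C_2 ≡ 5 B_2^2`; if `p ∣ C_2` then `p ∣ 5`. -/
theorem dvd_C2 {K p : ℕ} (hp : p.Prime) (hp2 : p ≠ 2) (hK : 0 < K) (hpK : p ∣ K)
    (h : p ∣ C K 2) : p = 5 := by
  have hu0 : ¬ p ∣ A K 0 * B K 0 := by
    have h1 : A K 0 * B K 0 = 1 := by simp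
    rw [h1]
    intro h
    exact hp.one_lt.ne' (Nat.dvd_one.mp h)
  have hC0 : ¬ p ∣ C K 0 := by
    rw [C_zero]
    intro hd
    exact hp2 ((Nat.prime_dvd_prime_iff_eq hp Nat.prime_two).mp hd)
  have h2 := (unit_two hp hK hpK hu0 hC0).2
  have h2' : (p : ℤ) ∣ (A K 2 : ℤ) * 2 - (B K 2 : ℤ) := by simpa using h2
  have hCd : (p : ℤ) ∣ (A K 2 : ℤ) ^ 2 + (B K 2 : ℤ) ^ 2 := by
    have := Int.natCast_dvd_natCast.mpr h
    simpa [C] using this
  obtain ⟨c1, hc1⟩ := h2'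
  obtain ⟨c2, hc2⟩ := hCd
  have hpr : Prime (p : ℤ) := Nat.prime_iff_prime_int.mp hp
  have key : (p : ℤ) ∣ 5 * (B K 2 : ℤ) ^ 2 := by
    refine ⟨4 * c2 - c1 * ((A K 2 : ℤ) * 2 + (B K 2 : ℤ)), ?_⟩
    linear_combination 4 * hc2 - ((A K 2 : ℤ) * 2 + (B K 2 : ℤ)) * hc1
  rcases hpr.dvd_or_dvd key with h5 | h5
  · have h6 : p ∣ 5 := by exact_mod_cast h5
    exact (Nat.prime_dvd_prime_iff_eq hp (by norm_num)).mp h6
  · exfalso
    have h6 : (p : ℤ) ∣ (B K 2 : ℤ) := hpr.dvd_of_dvd_pow h5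
    have h7 : p ∣ B K 2 := Int.natCast_dvd_natCast.mp h6
    exact R5_unit_of_dvd hp hK h (Dvd.dvd.mul_left h7 _)

/-- PROOF: if `p ∣ C_5` then `5` is a unit; if `p ∤ C_2`, then `2`, `4` are units (`unit_two`), so `5`
is not (`no_two_units`).  So `p ∣ C_2` and `p = 5`. -/
theorem dvd_C5 {K p : ℕ} (hp : p.Prime) (hp2 : p ≠ 2) (hK : 0 < K) (hpK : p ∣ K)
    (h : p ∣ C K 5) : p = 5 := by
  by_contra h5
  have hC2 : ¬ p ∣ C K 2 := fun h2 => h5 (dvd_C2 hp hp2 hK hpK h2)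
  have hu0 : ¬ p ∣ A K 0 * B K 0 := by
    have h1 : A K 0 * B K 0 = 1 := by simp
    rw [h1]
    intro h
    exact hp.one_lt.ne' (Nat.dvd_one.mp h)
  have hC0 : ¬ p ∣ C K 0 := by
    rw [C_zero]
    intro hd
    exact hp2 ((Nat.prime_dvd_prime_iff_eq hp Nat.prime_two).mp hd)
  have hu2 : ¬ p ∣ A K 2 * B K 2 := (unit_two hp hK hpK hu0 hC0).1
  have hu4 : ¬ p ∣ A K 4 * B K 4 := (unit_two hp hK hpK hu2 hC2).1
  exact R5_unit_of_dvd hp hK h (no_two_units hp hK hpK hu4)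

private theorem R5_dvd_A {K p : ℕ} (hp : p.Prime) (hp2 : p ≠ 2) (hK : 0 < K) (hpK : p ∣ K)
    (hg : ¬ Bad K p) (i : ℕ) : p ∣ A K (2 * i + 1) := by
  have : Fact p.Prime := ⟨hp⟩
  have h := (good_odd hp hp2 hK hpK hg i).1
  have h1 : 1 ≤ padicValNat p K := one_le_padicValNat_of_dvd hK.ne' hpK
  rw [← h] at h1
  exact dvd_of_one_le_padicValNat h1

private theorem R5_jac_odd {K p : ℕ} (hp : p.Prime) (hp2 : p ≠ 2) (hK : 0 < K) (hpK : p ∣ K)
    (hg : ¬ Bad K p) (i : ℕ) : jacobiSym (C K (2 * i + 1) : ℤ) p = 1 := by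
  have h1 := R5_dvd_A hp hp2 hK hpK hg i
  have h2 := (good_odd hp hp2 hK hpK hg i).2
  have h3 : jacobiSym (C K (2 * i + 1) : ℤ) p = jacobiSym ((B K (2 * i + 1) : ℤ) ^ 2) p := by
    apply jacobiSym.mod_left'
    apply Int.ModEq.symm
    rw [Int.modEq_iff_dvd]
    have h4 : (C K (2 * i + 1) : ℤ) - (B K (2 * i + 1) : ℤ) ^ 2 = (A K (2 * i + 1) : ℤ) ^ 2 := by
      simp [C]
    rw [h4]
    exact dvd_pow (Int.natCast_dvd_natCast.mpr h1) (by norm_num)
  rw [h3]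
  apply jacobiSym.sq_one'
  rw [Int.gcd_natCast_natCast]
  exact ((Nat.Prime.coprime_iff_not_dvd hp).mpr h2).symm

/-- a good odd prime dividing `A_m - e B_m` or `2K A_{m+1} - e B_{m+1}` divides only the first one, `m` is
even, and the `C`'s have period `m` for the Legendre symbol.
PROOF: `m` odd: `p ∣ A_m`, `p ∤ B_m`.  Second number: `m` odd: `m+1` is a unit, `p ∣ 2K`, so `p` would
divide `B_{m+1}`; `m` even: `p ∤ B_{m+1}` (`good_odd`).  For `m` even and `p ∣ A_m - e B_m`: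
by induction on `i`, `p ∣ A_{m+2i} B_{2i} - e B_{m+2i} A_{2i}`: `unit_two` at `m+2i` and `2i`:
`(A_{m+2i+2} : B_{m+2i+2}) = (A B : C)` at `m+2i`, `= (e A B : C)` at `2i`.  So the symbols of
`C_{m+2i}`, `C_{2i}` agree (`jac_C_eq`-argument); at odd indices `C ≡ B^2`, symbol `1`. -/
theorem good_period {K p m : ℕ} {e : ℤ} (hp : p.Prime) (hp2 : p ≠ 2) (hK : 0 < K) (hpK : p ∣ K)
    (hg : ¬ Bad K p) (he : e ^ 2 = 1) (h : (p : ℤ) ∣ (A K m : ℤ) - e * B K m) (i : ℕ) :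
    jacobiSym (C K (m + i) : ℤ) p = jacobiSym (C K i : ℤ) p := by
  have hpr : Prime (p : ℤ) := Nat.prime_iff_prime_int.mp hp
  have he1 : ¬ (p : ℤ) ∣ e := by
    intro hd
    have h1 : (p : ℤ) ∣ e ^ 2 := dvd_pow hd (by norm_num)
    rw [he] at h1
    exact hpr.not_unit (isUnit_of_dvd_one h1)
  have : Fact p.Prime := ⟨hp⟩
  rcases Nat.even_or_odd' m with ⟨c, hc | hc⟩
  · subst hc
    rcases Nat.even_or_odd' i with ⟨d, hd | hd⟩
    · subst hd
      have key : ∀ s : ℕ, (p : ℤ) ∣ (A K (2 * c + 2 * s) : ℤ) * B K (2 * s) -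
          e * B K (2 * c + 2 * s) * A K (2 * s) := by
        intro s
        induction s with
        | zero => simpa using h
        | succ s ih =>
          have hus : ¬ p ∣ A K (2 * c + 2 * s) * B K (2 * c + 2 * s) := by
            have := good_even hp hp2 hK hpK hg (c + s)
            have e1 : 2 * (c + s) = 2 * c + 2 * s := by ring
            rwa [e1] at this
          have hut := good_even hp hp2 hK hpK hg s
          have hCs := R5_not_dvd_C hp hp2 hg (2 * c + 2 * s)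
          have hCt := R5_not_dvd_C hp hp2 hg (2 * s)
          obtain ⟨c1, hc1⟩ := (unit_two hp hK hpK hus hCs).2
          obtain ⟨c2, hc2⟩ := (unit_two hp hK hpK hut hCt).2
          obtain ⟨c3, hc3⟩ := ih
          have e2 : 2 * c + 2 * (s + 1) = 2 * c + 2 * s + 2 := by ring
          have e3 : 2 * (s + 1) = 2 * s + 2 := by ring
          rw [e2, e3]
          have q1 : (C K (2 * c + 2 * s) : ℤ) = (A K (2 * c + 2 * s) : ℤ) ^ 2 +
            (B K (2 * c + 2 * s) : ℤ) ^ 2 := by simp [C]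
          have q2 : (C K (2 * s) : ℤ) = (A K (2 * s) : ℤ) ^ 2 + (B K (2 * s) : ℤ) ^ 2 := by
            simp [C]
          have hCs' : ¬ (p : ℤ) ∣ (C K (2 * c + 2 * s) : ℤ) :=
            fun hh => hCs (Int.natCast_dvd_natCast.mp hh)
          have hCt' : ¬ (p : ℤ) ∣ (C K (2 * s) : ℤ) :=
            fun hh => hCt (Int.natCast_dvd_natCast.mp hh)
          rw [q1] at hc1 hCs'
          rw [q2] at hc2 hCt'
          generalize (A K (2 * c + 2 * s) : ℤ) = As at *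
          generalize (B K (2 * c + 2 * s) : ℤ) = Bs at *
          generalize (A K (2 * s) : ℤ) = At at *
          generalize (B K (2 * s) : ℤ) = Bt at *
          generalize (A K (2 * c + 2 * s + 2) : ℤ) = As2 at *
          generalize (B K (2 * c + 2 * s + 2) : ℤ) = Bs2 at *
          generalize (A K (2 * s + 2) : ℤ) = At2 at *
          generalize (B K (2 * s + 2) : ℤ) = Bt2 at *
          have key2 : (p : ℤ) ∣ ((As ^ 2 + Bs ^ 2) * (At ^ 2 + Bt ^ 2)) *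
              (As2 * Bt2 - e * Bs2 * At2) := by
            refine ⟨c1 * Bt2 * (At ^ 2 + Bt ^ 2) - e * Bs2 * (As ^ 2 + Bs ^ 2) * c2 -
              e * Bs2 * Bt2 * (As * At - e * Bs * Bt) * c3, ?_⟩
            linear_combination Bt2 * (At ^ 2 + Bt ^ 2) * hc1 - e * Bs2 * (As ^ 2 + Bs ^ 2) * hc2 -
              e * Bs2 * Bt2 * (As * At - e * Bs * Bt) * hc3 +
              Bs2 * Bt2 * (-(As * Bs * (At ^ 2 + Bt ^ 2)) + e * At * Bt * Bs ^ 2) * he
          rcases hpr.dvd_or_dvd key2 with h8 | h8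
          · rcases hpr.dvd_or_dvd h8 with h9 | h9
            · exact absurd h9 hCs'
            · exact absurd h9 hCt'
          · exact h8
      exact jac_C_eq hK he hp (Or.inl (key d))
    · subst hd
      have e1 : 2 * c + (2 * d + 1) = 2 * (c + d) + 1 := by ring
      rw [e1, R5_jac_odd hp hp2 hK hpK hg, R5_jac_odd hp hp2 hK hpK hg]
  · exfalso
    subst hc
    have h1 := good_odd hp hp2 hK hpK hg c
    have h2 : p ∣ A K (2 * c + 1) := R5_dvd_A hp hp2 hK hpK hg c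
    have h3 : (p : ℤ) ∣ (A K (2 * c + 1) : ℤ) := Int.natCast_dvd_natCast.mpr h2
    have h4 : (p : ℤ) ∣ e * (B K (2 * c + 1) : ℤ) := by
      have := dvd_sub h3 h
      simpa using this
    rcases hpr.dvd_or_dvd h4 with h5 | h5
    · exact he1 h5
    · exact h1.2 (Int.natCast_dvd_natCast.mp h5)

theorem good_not_dvd {K p m : ℕ} {e : ℤ} (hp : p.Prime) (hp2 : p ≠ 2) (hK : 0 < K) (hpK : p ∣ K)
    (hg : ¬ Bad K p) (he : e ^ 2 = 1) :
    ¬ (p : ℤ) ∣ 2 * (K : ℤ) * A K (m + 1) - e * B K (m + 1) := by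
  have hpr : Prime (p : ℤ) := Nat.prime_iff_prime_int.mp hp
  have he1 : ¬ (p : ℤ) ∣ e := by
    intro hd
    have h1 : (p : ℤ) ∣ e ^ 2 := dvd_pow hd (by norm_num)
    rw [he] at h1
    exact hpr.not_unit (isUnit_of_dvd_one h1)
  intro h
  have h1 : (p : ℤ) ∣ (K : ℤ) := Int.natCast_dvd_natCast.mpr hpK
  have h2 : (p : ℤ) ∣ 2 * (K : ℤ) * A K (m + 1) := Dvd.dvd.mul_right (Dvd.dvd.mul_left h1 _) _
  have h3 : (p : ℤ) ∣ e * (B K (m + 1) : ℤ) := by
    have := dvd_sub h2 h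
    simpa using this
  rcases hpr.dvd_or_dvd h3 with h5 | h5
  · exact he1 h5
  · have h6 : p ∣ B K (m + 1) := Int.natCast_dvd_natCast.mp h5
    rcases Nat.even_or_odd' (m + 1) with ⟨c, hc | hc⟩
    · rw [hc] at h6
      exact good_even hp hp2 hK hpK hg c (Dvd.dvd.mul_left h6 _)
    · rw [hc] at h6
      exact (good_odd hp hp2 hK hpK hg c).2 h6

end Pool.Agent.Lib.MP_e26d5c_nt.AG
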