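import Pool.Agent.Lib.MP_e26d5c_nt.AG.R5
import Pool.Agent.Lib.MP_e26d5c_nt.AG.R6

set_option autoImplicit false

namespace Pool.Agent.Lib.MP_e26d5c_nt.AG

/-- a natural number all of whose prime valuations are even is a square.
PROOF: `Nat.factorization_prod_pow_eq_self`, or induction; Mathlib may have
`Nat.isSquare_iff_...`/`Nat.sq_of_...`; product over the prime factors of `p^(v/2)`. -/
theorem isSquare_of_even_val {N : ℕ} (hN : N ≠ 0) (h : ∀ p : ℕ, p.Prime → Even (padicValNat p N)) :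
    IsSquare N := by
  obtain ⟨a, b, hab, hsq⟩ := Nat.sq_mul_squarefree N
  have ha0 : a ≠ 0 := hsq.ne_zero
  have hb0 : b ≠ 0 := by
    rintro rfl
    apply hN
    rw [← hab]
    simp
  have ha1 : a = 1 := by
    by_contra hne
    obtain ⟨p, hp, hpa⟩ := Nat.exists_prime_and_dvd hne
    have : Fact p.Prime := ⟨hp⟩
    have h1 := h p hp
    rw [← hab, padicValNat.mul (pow_ne_zero 2 hb0) ha0, padicValNat.pow] at h1
    have h2 : padicValNat p a = 1 := by
      have h3 : 1 ≤ padicValNat p a := one_le_padicValNat_of_dvd ha0 hpa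
      have h4 : padicValNat p a < 2 := by
        by_contra hc
        have h5 : p ^ 2 ∣ a := (padicValNat_dvd_iff_le ha0).mpr (not_lt.mp hc)
        have h6 : IsUnit p := hsq p (by rw [← pow_two]; exact h5)
        exact hp.one_lt.ne' (Nat.isUnit_iff.mp h6)
      omega
    rw [h2] at h1
    obtain ⟨r, hr⟩ := h1
    omega
  rw [ha1, mul_one] at hab
  exact ⟨b, by rw [← hab, pow_two]⟩

/-- `p` the only possible bad odd prime divisor of `K`: `K G_{m-1} G_m = p^h s^2`.
PROOF: for a prime `q ≠ p`: if `q ∤ K` the valuation is `0` (`Gg_dvd`); `q = 2`: `two_KGG`;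
`q` odd: `good_KGG`.  So `N / p^{v_p(N)}` is a square (`isSquare_of_even_val`). -/
theorem KGG_form {K m p : ℕ} (hK : 0 < K) (h4 : 4 ∣ K) (hp : p.Prime) (hp2 : p ≠ 2)
    (hgood : ∀ q : ℕ, q.Prime → q ≠ 2 → q ≠ p → q ∣ K → ¬ Bad K q) (hm : 3 ≤ m) :
    ∃ s : ℕ, K * Gg K (m - 1) * Gg K m = p ^ (padicValNat p (K * Gg K (m - 1) * Gg K m)) * s ^ 2 := by
  have hG1 := Gg_pos hK (m - 1)
  have hG2 := Gg_pos hK m
  have hN0 : K * Gg K (m - 1) * Gg K m ≠ 0 := by positivity
  set N := K * Gg K (m - 1) * Gg K m with hNdef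
  have : Fact p.Prime := ⟨hp⟩
  obtain ⟨R, hR⟩ : p ^ padicValNat p N ∣ N := pow_padicValNat_dvd
  have hR0 : R ≠ 0 := by
    rintro rfl
    apply hN0
    rw [hR, mul_zero]
  have hpp : p ^ padicValNat p N ≠ 0 := pow_ne_zero _ hp.ne_zero
  have hsq : IsSquare R := by
    apply isSquare_of_even_val hR0
    intro q hq
    have : Fact q.Prime := ⟨hq⟩
    by_cases hqp : q = p
    · subst hqp
      have h1 : padicValNat q N = padicValNat q N + padicValNat q R := by
        conv_lhs => rw [hR]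
        rw [padicValNat.mul hpp hR0, padicValNat.prime_pow]
      have h2 : padicValNat q R = 0 := by omega
      rw [h2]
      exact Even.zero
    · have h1 : padicValNat q N = padicValNat q R := by
        conv_lhs => rw [hR]
        rw [padicValNat.mul hpp hR0]
        have h3 : padicValNat q (p ^ padicValNat p N) = 0 := by
          apply padicValNat.eq_zero_of_not_dvd
          intro h4
          exact hqp ((Nat.prime_dvd_prime_iff_eq hq hp).mp (hq.dvd_of_dvd_pow h4))
        rw [h3, zero_add]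
      rw [← h1]
      by_cases hqK : q ∣ K
      · by_cases hq2 : q = 2
        · subst hq2
          exact two_KGG hK h4 hm
        · exact good_KGG hq hq2 hK hqK (hgood q hq hq2 hqp hqK) (by omega)
      · have h5 : padicValNat q N = 0 := by
          apply padicValNat.eq_zero_of_not_dvd
          intro h6
          rcases (Nat.Prime.dvd_mul hq).mp h6 with h7 | h7
          · rcases (Nat.Prime.dvd_mul hq).mp h7 with h8 | h8
            · exact hqK h8
            · exact hqK (h8.trans (Gg_dvd K (m - 1)))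
          · exact hqK (h7.trans (Gg_dvd K m))
        rw [h5]
        exact Even.zero
  obtain ⟨s, hs⟩ := hsq
  refine ⟨s, ?_⟩
  conv_lhs => rw [hR]
  rw [hs, pow_two]

private theorem R7_jac_congr {a b : ℤ} (M : ℕ) (h : ∀ l : ℕ, l.Prime → l ∣ M →
    jacobiSym a l = jacobiSym b l) (hM : M ≠ 0) : jacobiSym a M = jacobiSym b M := by
  induction M using induction_on_primes with
  | zero => exact absurd rfl hM
  | one => simp
  | prime_mul q c hq ih =>
    have hc : c ≠ 0 := by
      rintro rfl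
      exact hM (mul_zero q)
    rw [jacobiSym.mul_right' a hq.ne_zero hc, jacobiSym.mul_right' b hq.ne_zero hc,
      h q hq (Dvd.intro c rfl), ih (fun l hl hlc => h l hl (hlc.mul_left q)) hc]

private theorem R7_iter {K m l : ℕ} (t : ℕ)
    (h : ∀ i, t ≤ i → jacobiSym (C K (m + i) : ℤ) l = jacobiSym (C K i : ℤ) l) (q j : ℕ)
    (hj : t ≤ j) : jacobiSym (C K (q * m + j) : ℤ) l = jacobiSym (C K j : ℤ) l := by
  induction q with
  | zero => rw [zero_mul, zero_add]
  | succ q ih =>
    have h1 : (q + 1) * m + j = m + (q * m + j) := by ring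
    rw [h1, h (q * m + j) (hj.trans (Nat.le_add_left _ _)), ih]

/-- the moduli: `M` divides one of the two numbers, `M` is free of `p`, `p` the only possible bad odd
prime: then `J(C_{qm+j}|M) = J(C_j|M)`.
PROOF: `jacobiSym` is a product over the prime factors `l` of `M` (`jacobiSym` definition via
`Nat.primeFactorsList`, or induction `Nat.recOnMul`).  For a prime `l ∣ M` and `i ≥ 2`:
`J(C_{m+i}|l) = J(C_i|l)`: `l ∤ K`: `per0`/`per1`; `l ∣ K`, `l ≠ 2` (`two_L`), good: `good_period`,
`good_not_dvd`.  Iterate over `q`. -/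
theorem per_M {K m p M : ℕ} {e : ℤ} (hK : 0 < K) (h4 : 4 ∣ K) (hm : 3 ≤ m) (he : e ^ 2 = 1)
    (hgood : ∀ q : ℕ, q.Prime → q ≠ 2 → q ≠ p → q ∣ K → ¬ Bad K q)
    (hM : (M : ℤ) ∣ (A K m : ℤ) - e * B K m ∨
      (M : ℤ) ∣ 2 * (K : ℤ) * A K (m + 1) - e * B K (m + 1))
    (hpM : p ∣ K → ¬ p ∣ M) (q j : ℕ) (hj : 2 ≤ j) :
    jacobiSym (C K (q * m + j) : ℤ) M = jacobiSym (C K j : ℤ) M := by
  by_cases hM0 : M = 0
  · subst hM0
    simp
  apply R7_jac_congr M _ hM0
  intro l hl hlM
  apply R7_iter 2 _ q j hj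
  intro i hi
  have hlM' : (l : ℤ) ∣ (M : ℤ) := by exact_mod_cast hlM
  by_cases hlK : l ∣ K
  · have hl2 : l ≠ 2 := by
      rintro rfl
      obtain ⟨o1, o2⟩ := two_L hK h4 hm he
      have h2 : (2 : ℤ) ∣ (M : ℤ) := by exact_mod_cast hlM
      rcases hM with hM | hM
      · exact (Int.not_even_iff_odd.mpr o1) (even_iff_two_dvd.mpr (h2.trans hM))
      · exact (Int.not_even_iff_odd.mpr o2) (even_iff_two_dvd.mpr (h2.trans hM))
    have hlp : l ≠ p := by
      rintro rfl
      exact hpM hlK hlM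
    have hb := hgood l hl hl2 hlp hlK
    rcases hM with hM | hM
    · exact good_period hl hl2 hK hlK hb he (hlM'.trans hM) i
    · exact absurd (hlM'.trans hM) (good_not_dvd hl hl2 hK hlK hb he)
  · rcases hM with hM | hM
    · exact per0 hK he hl hlK (hlM'.trans hM) i
    · exact per1 hK he hl hlK (hlM'.trans hM) i hi

/-- first kind only, all `j ≥ 0`, `m ≥ 2` (here the two numbers `A_m ∓ B_m` may be even? they are odd:
`two_sq_diff`).  PROOF: as `per_M`, with `per0`, `good_period`; `l = 2` does not occur (`hodd`). -/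
theorem per_M0 {K m p M : ℕ} {e : ℤ} (hK : 0 < K) (he : e ^ 2 = 1) (hodd : Odd M)
    (hgood : ∀ q : ℕ, q.Prime → q ≠ 2 → q ≠ p → q ∣ K → ¬ Bad K q)
    (hM : (M : ℤ) ∣ (A K m : ℤ) - e * B K m) (hpM : p ∣ K → ¬ p ∣ M) (q j : ℕ) :
    jacobiSym (C K (q * m + j) : ℤ) M = jacobiSym (C K j : ℤ) M := by
  have hM0 : M ≠ 0 := by
    rintro rfl
    exact absurd hodd (by decide)
  apply R7_jac_congr M _ hM0
  intro l hl hlM
  apply R7_iter 0 _ q j (Nat.zero_le _)
  intro i _
  have hlM' : (l : ℤ) ∣ (M : ℤ) := by exact_mod_cast hlM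
  by_cases hlK : l ∣ K
  · have hl2 : l ≠ 2 := by
      rintro rfl
      exact (Nat.not_even_iff_odd.mpr hodd) (even_iff_two_dvd.mpr hlM)
    have hlp : l ≠ p := by
      rintro rfl
      exact hpM hlK hlM
    exact good_period hl hl2 hK hlK (hgood l hl hl2 hlp hlK) he (hlM'.trans hM) i
  · exact per0 hK he hl hlK (hlM'.trans hM) i

end Pool.Agent.Lib.MP_e26d5c_nt.AG
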