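import Pool.Agent.Lib.MP_e26d5c_nt.AG.R7
import Pool.Agent.Lib.MP_e26d5c_nt.AG.R8

set_option autoImplicit false

namespace Pool.Agent.Lib.MP_e26d5c_nt.AG

private theorem R9_coprime {K j : ℕ} (hj : 1 ≤ j)
    (hbad : ∀ q : ℕ, q.Prime → q ≠ 2 → q ∣ K → Bad K q → jacobiSym (C K j : ℤ) q = 1)
    (hmod : C K j % 4 = 1) : Nat.Coprime K (C K j) := by
  apply Nat.Coprime.symm
  apply Nat.coprime_of_dvd
  intro p hp hpC hpK
  by_cases hp2 : p = 2
  · subst hp2
    omega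
  · have h1 := hbad p hp hp2 hpK ⟨j, hj, hpC⟩
    have h2 : jacobiSym (C K j : ℤ) p = 0 := by
      have : NeZero p := ⟨hp.ne_zero⟩
      rw [jacobiSym.eq_zero_iff_not_coprime]
      intro h3
      have h4 : p ∣ Int.gcd (C K j : ℤ) (p : ℤ) := by
        rw [Int.gcd_natCast_natCast]
        exact Nat.dvd_gcd hpC (dvd_refl p)
      rw [h3] at h4
      exact hp.one_lt.ne' (Nat.dvd_one.mp h4)
    rw [h1] at h2
    exact one_ne_zero h2

private theorem R9_sq {C' l : ℕ} (hl : l.Prime) (hsq : IsSquare C') (h : ¬ l ∣ C') :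
    jacobiSym (C' : ℤ) l = 1 := by
  obtain ⟨s, rfl⟩ := hsq
  have h1 : ((s * s : ℕ) : ℤ) = (s : ℤ) ^ 2 := by
    push_cast
    ring
  rw [h1]
  apply jacobiSym.sq_one'
  rw [Int.gcd_natCast_natCast]
  have h2 : ¬ l ∣ s := fun h3 => h (Dvd.dvd.mul_right h3 s)
  exact ((Nat.Prime.coprime_iff_not_dvd hl).mpr h2).symm

private theorem R9_zero {C' l : ℕ} (hl : l.Prime) (h : l ∣ C') :
    jacobiSym (C' : ℤ) l = 0 := by
  have : NeZero l := ⟨hl.ne_zero⟩
  rw [jacobiSym.eq_zero_iff_not_coprime]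
  intro h3
  have h4 : l ∣ Int.gcd (C' : ℤ) (l : ℤ) := by
    rw [Int.gcd_natCast_natCast]
    exact Nat.dvd_gcd h (dvd_refl l)
  rw [h3] at h4
  exact hl.one_lt.ne' (Nat.dvd_one.mp h4)

private theorem R9_zero' {C' l : ℕ} (hl : l.Prime) (h : jacobiSym (C' : ℤ) l = 0) : l ∣ C' := by
  have : NeZero l := ⟨hl.ne_zero⟩
  rw [jacobiSym.eq_zero_iff_not_coprime, Int.gcd_natCast_natCast] at h
  by_contra h3
  exact h ((Nat.Prime.coprime_iff_not_dvd hl).mpr h3).symm

/-- one modulus: all symbols of `C_j` are `1`.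
PROOF: `jac_eq_of_primes` with `b = 1` (`jacobiSym.one_left`).  A prime `l ∣ M` is odd (`two_L`).
`l ∤ K`: `J(C_j|l) = J(C_n|l)` (`per0`/`per1`, `n = m + j`) `= J(s|l)^2`; it is not `0`: otherwise
`l ∣ C_j` and `l ∣ C_n`, contradiction to `not_dvd_C`.  `l ∣ K` good: `good_period`/`good_not_dvd`,
`J(C_j|l) = J(C_n|l)`, not `0` since a good prime does not divide `C_j`.  `l` bad: hypothesis. -/
theorem sq_modulus {K m j : ℕ} {e : ℤ} {L : ℤ} (hK : 0 < K) (h4 : 4 ∣ K) (hm : 3 ≤ m)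
    (hj : 2 ≤ j) (he : e ^ 2 = 1) (hsq : IsSquare (C K (m + j)))
    (hL : L = (A K m : ℤ) - e * B K m ∨ L = 2 * (K : ℤ) * A K (m + 1) - e * B K (m + 1))
    (hbad : ∀ q : ℕ, q.Prime → q ≠ 2 → q ∣ K → Bad K q → jacobiSym (C K j : ℤ) q = 1) :
    jacobiSym (C K j : ℤ) L.natAbs = 1 := by
  have hodd : Odd L := by
    rcases hL with rfl | rfl
    · exact (two_L hK h4 hm he).1
    · exact (two_L hK h4 hm he).2
  have hoddN : Odd L.natAbs := Int.natAbs_odd.mpr hodd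
  have hne : L.natAbs ≠ 0 := by
    intro h0
    rw [h0] at hoddN
    exact (by decide : ¬ Odd 0) hoddN
  rw [← jacobiSym.one_left L.natAbs]
  apply jac_eq_of_primes _ hne
  intro l hl hlM
  rw [jacobiSym.one_left]
  have hlL : (l : ℤ) ∣ L := Int.natCast_dvd.mpr hlM
  have hl2 : l ≠ 2 := by
    rintro rfl
    rcases hoddN with ⟨t, ht⟩
    omega
  by_cases hlK : l ∣ K
  · by_cases hb : Bad K l
    · exact hbad l hl hl2 hlK hb
    · rcases hL with rfl | rfl
      · rw [← good_period hl hl2 hK hlK hb he hlL j]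
        apply R9_sq hl hsq
        intro h
        exact hb ⟨m + j, by omega, h⟩
      · exact absurd hlL (good_not_dvd hl hl2 hK hlK hb he)
  · have hper : jacobiSym (C K (m + j) : ℤ) l = jacobiSym (C K j : ℤ) l := by
      rcases hL with rfl | rfl
      · exact per0 hK he hl hlK hlL j
      · exact per1 hK he hl hlK hlL j hj
    have hnd : ¬ l ∣ C K (m + j) := by
      intro h
      have h1 := R9_zero hl h
      rw [hper] at h1
      have h2 := R9_zero' hl h1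
      exact not_dvd_C hK hl hlK h2 (by omega) h
    rw [← hper]
    exact R9_sq hl hsq hnd

/-- PROOF: `jac_one_of_primes` with `Q = C_j`: `q = 2`: `two_KGG`; `q` good: `good_KGG`; `q` bad:
`J(q|C_j) = J(C_j|q) = 1` by reciprocity (`C_j ≡ 1 (mod 4)`, `mod_four_of_dvd_C` or `hmod`).  `C_j` is
coprime to `K`: `C_j` odd, good primes do not divide it, bad primes have symbol `1 ≠ 0`. -/
theorem jac_KGG_one {K m j : ℕ} (hK : 0 < K) (h4 : 4 ∣ K) (hm : 3 ≤ m) (hj : 1 ≤ j)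
    (hbad : ∀ q : ℕ, q.Prime → q ≠ 2 → q ∣ K → Bad K q → jacobiSym (C K j : ℤ) q = 1)
    (hmod : C K j % 4 = 1) :
    jacobiSym ((K * Gg K (m - 1) * Gg K m : ℕ) : ℤ) (C K j) = 1 := by
  have hcop := R9_coprime hj hbad hmod
  have hG1 := Gg_pos hK (m - 1)
  have hG2 := Gg_pos hK m
  apply jac_one_of_primes
  · exact (Nat.mul_pos (Nat.mul_pos hK hG1) hG2).ne'
  · exact Nat.Coprime.mul_left (Nat.Coprime.mul_left hcop
      (Nat.Coprime.coprime_dvd_left (Gg_dvd K (m - 1)) hcop))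
      (Nat.Coprime.coprime_dvd_left (Gg_dvd K m) hcop)
  · intro q hq hqN
    have hqK : q ∣ K := by
      rcases (Nat.Prime.dvd_mul hq).mp hqN with h | h
      · rcases (Nat.Prime.dvd_mul hq).mp h with h | h
        · exact h
        · exact h.trans (Gg_dvd K (m - 1))
      · exact h.trans (Gg_dvd K m)
    by_cases hq2 : q = 2
    · subst hq2
      exact Or.inl (two_KGG hK h4 hm)
    · by_cases hb : Bad K q
      · right
        have hqo : Odd q := hq.odd_of_ne_two hq2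
        rw [← jacobiSym.quadratic_reciprocity_one_mod_four hmod hqo]
        exact hbad q hq hq2 hqK hb
      · left
        exact good_KGG hq hq2 hK hqK hb (by omega)

/-- PROOF: (paper A9) suppose `C_n` is a square; `m := n - j` (`≥ j + 2 ≥ 4`, `n = m + j`), `e := 1`,
`L0 := A_m - B_m`, `L1 := 2 K A_{m+1} - B_{m+1}`.  `sq_modulus` for both:
`J(C_j | |L0|) = J(C_j | |L1|) = 1`.  By `recip_int` (`C_j ≡ 5 (mod 8)`), the product is
`J(L0 L1 | C_j) = J(2 K G_{m-1} G_m | C_j)` (`jac_L0L1` with `Q = C_j`), `= J(2|C_j)` (`jac_KGG_one`)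
`= -1` (`jac_two_neg`).  Contradiction. -/
theorem not_square_eight {K n j : ℕ} (hK : 0 < K) (h8 : 8 ∣ K) (hj : 2 ≤ j) (hje : j % 2 = 0)
    (hn : 2 * j + 2 ≤ n)
    (hbad : ∀ q : ℕ, q.Prime → q ≠ 2 → q ∣ K → Bad K q → jacobiSym (C K j : ℤ) q = 1) :
    ¬ IsSquare (C K n) := by
  intro hsq
  obtain ⟨m, rfl⟩ : ∃ m, n = m + j := ⟨n - j, by omega⟩
  have hm : j + 2 ≤ m := by omega
  have h4 : 4 ∣ K := Dvd.dvd.trans (by norm_num) h8
  have he : (1 : ℤ) ^ 2 = 1 := one_pow 2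
  have hC8 : C K j % 8 = 5 := C_mod_eight_even hK h8 hj hje
  have hC4 : C K j % 4 = 1 := by omega
  have hcop : Nat.Coprime (C K j) K := (R9_coprime (by omega) hbad hC4).symm
  have hodd := two_L (e := 1) hK h4 (by omega : 3 ≤ m) he
  have h0 := sq_modulus (L := (A K m : ℤ) - 1 * B K m) hK h4 (by omega : 3 ≤ m) hj he hsq
    (Or.inl rfl) hbad
  have h1 := sq_modulus (L := 2 * (K : ℤ) * A K (m + 1) - 1 * B K (m + 1)) hK h4
    (by omega : 3 ≤ m) hj he hsq (Or.inr rfl) hbad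
  rw [recip_int hC4 hodd.1] at h0
  rw [recip_int hC4 hodd.2] at h1
  have h2 := jac_L0L1 (e := 1) hK hcop (dvd_refl (C K j)) hm
  rw [jacobiSym.mul_left, h0, h1, one_mul] at h2
  have h3 : ((2 * (K * Gg K (m - 1) * Gg K m) : ℕ) : ℤ) =
      2 * ((K * Gg K (m - 1) * Gg K m : ℕ) : ℤ) := by
    push_cast
    ring
  rw [h3, jacobiSym.mul_left, jac_KGG_one hK h4 (by omega : 3 ≤ m) (by omega) hbad hC4,
    jac_two_neg (Or.inl hC8)] at h2
  norm_num at h2

end Pool.Agent.Lib.MP_e26d5c_nt.AG
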