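import Pool.Agent.Lib.MP_e26d5c_nt.AG.Defs
import Pool.Agent.Lib.MP_e26d5c_nt.AG.Ar

set_option autoImplicit false

namespace Pool.Agent.Lib.MP_e26d5c_nt.AG

theorem exists_im : ∃ i : Qb, i ^ 2 = -1 := by
  obtain ⟨z, hz⟩ := IsAlgClosed.exists_pow_nat_eq (-1 : Qb) (n := 2) (by norm_num)
  exact ⟨z, hz⟩

/-- a square root of `-1` -/
noncomputable def im : Qb := Classical.choose exists_im

theorem im_sq : im ^ 2 = -1 := Classical.choose_spec exists_im

/-- the half tree above `im`: `LP k n` is the part of level `n+1` above `im` -/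
def LP (k : ℤ) : ℕ → Set Qb
  | 0 => {im}
  | n + 1 => {y | y ≠ 0 ∧ phi k y ∈ LP k n}

/-- the orbit `1, 2k, phi(2k), ...` of `1` -/
def X (k : ℤ) : ℕ → ℚ
  | 0 => 1
  | n + 1 => (k : ℚ) * (X k n ^ 2 + 1) / X k n

/-- the Galois group element fixes the half tree up to level `n` -/
def Fix (k : ℤ) (n : ℕ) (σ : Qb ≃ₐ[ℚ] Qb) : Prop := σ im = im ∧ ∀ x ∈ LP k n, σ x = x

theorem phi_neg (k : ℤ) (y : Qb) : phi k (-y) = -phi k y := by
  unfold phi
  rw [neg_sq, div_neg]

theorem phi_map (k : ℤ) (σ : Qb ≃ₐ[ℚ] Qb) (y : Qb) : phi k (σ y) = σ (phi k y) := by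
  simp [phi]

private theorem S1_im_ne_zero : im ≠ 0 := by
  intro h
  have h1 := im_sq
  rw [h] at h1
  norm_num at h1

private theorem S1_fin {k : ℤ} (hk : k ≠ 0) (x : Qb) : {y : Qb | y ≠ 0 ∧ phi k y = x}.Finite := by
  have hk' : (k : Qb) ≠ 0 := by exact_mod_cast hk
  by_cases hex : ∃ y : Qb, y ≠ 0 ∧ phi k y = x
  · obtain ⟨c, hc, hcx⟩ := hex
    apply ((Set.finite_singleton c⁻¹).insert c).subset
    rintro y ⟨hy, hyx⟩
    have h1 : (k : Qb) * (y ^ 2 + 1) = x * y := by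
      unfold phi at hyx
      rwa [div_eq_iff hy] at hyx
    have h2 : (k : Qb) * (c ^ 2 + 1) = x * c := by
      unfold phi at hcx
      rwa [div_eq_iff hc] at hcx
    have h3 : (k : Qb) * ((y - c) * (y * c - 1)) = 0 := by
      linear_combination c * h1 - y * h2
    rcases mul_eq_zero.1 ((mul_eq_zero.1 h3).resolve_left hk') with h4 | h4
    · left
      exact sub_eq_zero.1 h4
    · right
      show y = c⁻¹
      exact eq_inv_of_mul_eq_one_left (sub_eq_zero.1 h4)
  · push Not at hex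
    apply Set.finite_empty.subset
    rintro y ⟨hy, hyx⟩
    exact absurd hyx (hex y hy)

/-- PROOF: induction on `n` with `phi_map`. -/
theorem LP_map {k : ℤ} {n : ℕ} {σ : Qb ≃ₐ[ℚ] Qb} (hσ : σ im = im) {x : Qb} (hx : x ∈ LP k n) :
    σ x ∈ LP k n := by
  induction n generalizing x with
  | zero =>
    have h : x = im := hx
    show σ x = im
    rw [h, hσ]
  | succ n ih =>
    refine ⟨fun h => hx.1 ?_, ?_⟩
    · simpa using h
    · rw [phi_map]
      exact ih hx.2

/-- PROOF: `im ≠ 0`; definition for `n+1`. -/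
theorem LP_ne_zero {k : ℤ} {n : ℕ} {x : Qb} (hx : x ∈ LP k n) : x ≠ 0 := by
  cases n with
  | zero =>
    have h : x = im := hx
    rw [h]
    exact S1_im_ne_zero
  | succ n => exact hx.1

/-- PROOF: induction on `n`.  Level 1: `y ≠ 0`, `k (y^2+1)/y = 0` iff `y^2 = -1` iff `y = ± im`
(`k ≠ 0`).  Step: `phi_neg`. -/
theorem mem_Lev_succ {k : ℤ} (hk : k ≠ 0) (n : ℕ) (y : Qb) :
    y ∈ Lev k (n + 1) ↔ y ∈ LP k n ∨ -y ∈ LP k n := by
  induction n generalizing y with
  | zero =>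
    have hk' : (k : Qb) ≠ 0 := by exact_mod_cast hk
    constructor
    · rintro ⟨hy, h⟩
      have h0 : phi k y = 0 := h
      unfold phi at h0
      rw [div_eq_zero_iff, mul_eq_zero] at h0
      have h1 : y ^ 2 + 1 = 0 := by
        rcases h0 with (h0 | h0) | h0
        · exact absurd h0 hk'
        · exact h0
        · exact absurd h0 hy
      have h2 : (y - im) * (y + im) = 0 := by
        linear_combination h1 - im_sq
      rcases mul_eq_zero.1 h2 with h3 | h3
      · left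
        exact sub_eq_zero.1 h3
      · right
        show -y = im
        linear_combination -h3
    · intro h
      have h1 : y ^ 2 = -1 := by
        rcases h with h | h
        · have h' : y = im := h
          rw [h', im_sq]
        · have h' : -y = im := h
          rw [← neg_sq, h', im_sq]
      refine ⟨?_, ?_⟩
      · rintro rfl
        norm_num at h1
      · show phi k y = 0
        unfold phi
        rw [h1]
        simp
  | succ n ih =>
    constructor
    · rintro ⟨hy, h⟩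
      rcases (ih (phi k y)).1 h with h1 | h1
      · left
        exact ⟨hy, h1⟩
      · right
        refine ⟨neg_ne_zero.2 hy, ?_⟩
        rw [phi_neg]
        exact h1
    · rintro (⟨hy, h⟩ | ⟨hy, h⟩)
      · exact ⟨hy, (ih (phi k y)).2 (Or.inl h)⟩
      · rw [phi_neg] at h
        exact ⟨neg_ne_zero.1 hy, (ih (phi k y)).2 (Or.inr h)⟩

/-- PROOF: induction on `n`: `im ≠ -im`; `phi_neg`. -/
theorem LP_not_neg {k : ℤ} {n : ℕ} {x : Qb} (hx : x ∈ LP k n) : ¬ -x ∈ LP k n := by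
  induction n generalizing x with
  | zero =>
    intro h
    have h1 : x = im := hx
    have h2 : -x = im := h
    rw [h1] at h2
    apply S1_im_ne_zero
    have h3 : (2 : Qb) * im = 0 := by linear_combination -h2
    exact (mul_eq_zero.1 h3).resolve_left (by norm_num)
  | succ n ih =>
    intro h
    have h2 := h.2
    rw [phi_neg] at h2
    exact ih hx.2 h2

/-- PROOF: induction; the rational numbers `X` are nonzero as `X^2+1 > 0`. -/
theorem X_ne_zero {k : ℤ} (hk : k ≠ 0) (n : ℕ) : X k n ≠ 0 := by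
  induction n with
  | zero => exact one_ne_zero
  | succ n ih =>
    show (k : ℚ) * (X k n ^ 2 + 1) / X k n ≠ 0
    apply div_ne_zero _ ih
    apply mul_ne_zero
    · exact_mod_cast hk
    · positivity

/-- PROOF: induction on `n` with `A_succ`, `B_succ`: `X_{n+1}^2 = k^2 (X_n^2+1)^2/X_n^2`, where
`X_n^2 = A^2/B^2`, so `X_{n+1}^2 = K^2 C^2/(A B)^2 = (A_{n+1}/B_{n+1})^2`. -/
theorem X_sq {k : ℤ} (hk : k ≠ 0) (n : ℕ) :
    X k n ^ 2 = ((A k.natAbs n : ℚ) / (B k.natAbs n : ℚ)) ^ 2 := by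
  have hK : 0 < k.natAbs := Int.natAbs_pos.2 hk
  have hk2 : (k : ℚ) ^ 2 = (k.natAbs : ℚ) ^ 2 := by
    have h : (k : ℤ) ^ 2 = ((k.natAbs : ℕ) : ℤ) ^ 2 := (Int.natAbs_sq k).symm
    have h' : ((k ^ 2 : ℤ) : ℚ) = ((((k.natAbs : ℕ) : ℤ) ^ 2 : ℤ) : ℚ) := by rw [h]
    rw [Int.cast_pow, Int.cast_pow, Int.cast_natCast] at h'
    exact h'
  induction n with
  | zero => simp [X]
  | succ n ih =>
    have hX := X_ne_zero hk n
    have hA : (A k.natAbs n : ℚ) ≠ 0 := by exact_mod_cast (A_pos hK n).ne'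
    have hB : (B k.natAbs n : ℚ) ≠ 0 := by exact_mod_cast (B_pos hK n).ne'
    have hG : (Gg k.natAbs n : ℚ) ≠ 0 := by exact_mod_cast (Gg_pos hK n).ne'
    have hA1 : (A k.natAbs (n + 1) : ℚ) * Gg k.natAbs n = k.natAbs * C k.natAbs n := by
      exact_mod_cast A_succ k.natAbs n
    have hB1 : (B k.natAbs (n + 1) : ℚ) * Gg k.natAbs n = A k.natAbs n * B k.natAbs n := by
      exact_mod_cast B_succ k.natAbs n
    have hC : (C k.natAbs n : ℚ) = (A k.natAbs n : ℚ) ^ 2 + (B k.natAbs n : ℚ) ^ 2 := by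
      unfold C
      push_cast
      ring
    have e1 : (A k.natAbs (n + 1) : ℚ) / B k.natAbs (n + 1)
        = (k.natAbs * C k.natAbs n : ℚ) / (A k.natAbs n * B k.natAbs n) := by
      rw [← hA1, ← hB1, mul_div_mul_right _ _ hG]
    rw [e1]
    show ((k : ℚ) * (X k n ^ 2 + 1) / X k n) ^ 2 = _
    rw [div_pow, mul_pow, hk2, ih, hC]
    field_simp

/-- PROOF: `X_sq`, `C = A^2 + B^2`, `B ≠ 0`. -/
theorem X_sq_add_one {k : ℤ} (hk : k ≠ 0) (n : ℕ) :
    X k n ^ 2 + 1 = (C k.natAbs n : ℚ) / (B k.natAbs n : ℚ) ^ 2 := by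
  have hK : 0 < k.natAbs := Int.natAbs_pos.2 hk
  have hB : (B k.natAbs n : ℚ) ≠ 0 := by exact_mod_cast (B_pos hK n).ne'
  have hC : (C k.natAbs n : ℚ) = (A k.natAbs n : ℚ) ^ 2 + (B k.natAbs n : ℚ) ^ 2 := by
    unfold C
    push_cast
    ring
  rw [X_sq hk, hC]
  field_simp

/-- PROOF: if `x = ± q` with `q` rational and `x ∈ LP k n` then by induction `im` is rational
(`phi k (q) = ` a rational), impossible: `im^2 = -1 < 0`. -/
theorem LP_not_rat {k : ℤ} {n : ℕ} {x : Qb} (hx : x ∈ LP k n) (q : ℚ) : x ≠ (q : Qb) := by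
  induction n generalizing x q with
  | zero =>
    intro h
    have h1 : x = im := hx
    have h2 := im_sq
    rw [← h1, h] at h2
    have h3 : q ^ 2 = -1 := by exact_mod_cast h2
    nlinarith [sq_nonneg q]
  | succ n ih =>
    intro h
    apply ih hx.2 ((k : ℚ) * (q ^ 2 + 1) / q)
    rw [h]
    unfold phi
    push_cast
    rfl

/-- PROOF: `LP k 0` is a singleton; `LP k (n+1)` is the union over `x ∈ LP k n` of the root sets of
`k y^2 - x y + k` (a nonzero polynomial of degree 2). -/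
theorem LP_finite {k : ℤ} (hk : k ≠ 0) (n : ℕ) : (LP k n).Finite := by
  induction n with
  | zero => exact Set.finite_singleton _
  | succ n ih =>
    have h : LP k (n + 1) ⊆ ⋃ x ∈ LP k n, {y : Qb | y ≠ 0 ∧ phi k y = x} := by
      rintro y ⟨hy, h⟩
      simp only [Set.mem_iUnion]
      exact ⟨phi k y, h, hy, rfl⟩
    exact (ih.biUnion fun x _ => S1_fin hk x).subset h

theorem exists_ch {k : ℤ} (hk : k ≠ 0) (x : Qb) :
    ∃ y : Qb, (k : Qb) * y ^ 2 - x * y + (k : Qb) = 0 := by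
  have hk' : (k : Qb) ≠ 0 := by exact_mod_cast hk
  obtain ⟨s, hs⟩ := IsAlgClosed.exists_pow_nat_eq (x ^ 2 - 4 * (k : Qb) ^ 2) (n := 2) (by norm_num)
  refine ⟨(x + s) / (2 * k), ?_⟩
  field_simp
  linear_combination hs

/-- a chosen child of `x`: a root of `k y^2 - x y + k` -/
noncomputable def ch (k : ℤ) (x : Qb) : Qb :=
  open Classical in if h : ∃ y : Qb, (k : Qb) * y ^ 2 - x * y + (k : Qb) = 0 then h.choose else 0

theorem ch_spec {k : ℤ} (hk : k ≠ 0) (x : Qb) :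
    (k : Qb) * (ch k x) ^ 2 - x * ch k x + (k : Qb) = 0 := by
  unfold ch
  rw [dif_pos (exists_ch hk x)]
  exact (exists_ch hk x).choose_spec

/-- PROOF: `ch k x ≠ 0` since `k ≠ 0`. -/
theorem ch_ne_zero {k : ℤ} (hk : k ≠ 0) (x : Qb) : ch k x ≠ 0 := by
  intro h
  have h1 := ch_spec hk x
  rw [h] at h1
  have hk' : (k : Qb) ≠ 0 := by exact_mod_cast hk
  apply hk'
  linear_combination h1

/-- PROOF: `phi k y = x` iff `k y^2 - x y + k = 0` for `y ≠ 0`. -/
theorem ch_mem {k : ℤ} (hk : k ≠ 0) {n : ℕ} {x : Qb} (hx : x ∈ LP k n) :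
    ch k x ∈ LP k (n + 1) ∧ (ch k x)⁻¹ ∈ LP k (n + 1) ∧ phi k (ch k x) = x ∧
      phi k (ch k x)⁻¹ = x := by
  have hc := ch_ne_zero hk x
  have hs := ch_spec hk x
  have h1 : phi k (ch k x) = x := by
    unfold phi
    rw [div_eq_iff hc]
    linear_combination hs
  have h2 : phi k (ch k x)⁻¹ = x := by
    rw [← h1]
    rw [h1]
    unfold phi
    rw [div_eq_iff (inv_ne_zero hc)]
    have hc2 : ch k x * (ch k x)⁻¹ = 1 := mul_inv_cancel₀ hc
    field_simp
    linear_combination hs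
  refine ⟨⟨hc, ?_⟩, ⟨inv_ne_zero hc, ?_⟩, h1, h2⟩
  · rw [h1]
    exact hx
  · rw [h2]
    exact hx

/-- PROOF: `k y^2 - x y + k = k (y - c)(y - c⁻¹)` with `c = ch k x` (`c + c⁻¹ = x/k`). -/
theorem eq_ch {k : ℤ} (hk : k ≠ 0) {x y : Qb} (hy : y ≠ 0) (h : phi k y = x) :
    y = ch k x ∨ y = (ch k x)⁻¹ := by
  have hk' : (k : Qb) ≠ 0 := by exact_mod_cast hk
  have hc := ch_ne_zero hk x
  have hs := ch_spec hk x
  have h1 : (k : Qb) * (y ^ 2 + 1) = x * y := by
    unfold phi at h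
    rwa [div_eq_iff hy] at h
  have h2 : (k : Qb) * ((y - ch k x) * (y * ch k x - 1)) = 0 := by
    linear_combination (ch k x) * h1 - y * hs
  have h3 := (mul_eq_zero.1 h2).resolve_left hk'
  rcases mul_eq_zero.1 h3 with h4 | h4
  · left
    exact sub_eq_zero.1 h4
  · right
    exact eq_inv_of_mul_eq_one_left (sub_eq_zero.1 h4)

/-- PROOF: `c = c⁻¹` gives `c = ± 1`, `x = ± 2k` rational: `LP_not_rat`. -/
theorem ch_ne_inv {k : ℤ} (hk : k ≠ 0) {n : ℕ} {x : Qb} (hx : x ∈ LP k n) :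
    ch k x ≠ (ch k x)⁻¹ := by
  intro h
  have hk' : (k : Qb) ≠ 0 := by exact_mod_cast hk
  have hc := ch_ne_zero hk x
  have hs := ch_spec hk x
  have h1 : ch k x * ch k x = 1 := by
    nth_rewrite 2 [h]
    exact mul_inv_cancel₀ hc
  have h2 : (ch k x - 1) * (ch k x + 1) = 0 := by linear_combination h1
  rcases mul_eq_zero.1 h2 with h3 | h3
  · have h4 : ch k x = 1 := sub_eq_zero.1 h3
    apply LP_not_rat hx (2 * k)
    rw [h4] at hs
    push_cast
    linear_combination -hs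
  · have h4 : ch k x = -1 := eq_neg_of_add_eq_zero_left h3
    apply LP_not_rat hx (-(2 * k))
    rw [h4] at hs
    push_cast
    linear_combination hs

/-- a square root of `x^2 - 4k^2` -/
noncomputable def ww (k : ℤ) (x : Qb) : Qb := 2 * (k : Qb) * ch k x - x

/-- PROOF: `ch_spec`, `linear_combination`. -/
theorem ww_sq {k : ℤ} (hk : k ≠ 0) (x : Qb) : ww k x ^ 2 = x ^ 2 - 4 * (k : Qb) ^ 2 := by
  have hs := ch_spec hk x
  unfold ww
  linear_combination (4 * (k : Qb)) * hs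

/-- PROOF: `c⁻¹ = x/k - c`, so `2 k c⁻¹ - x = -w`; `σ c` is a root of the same quadratic
(`σ x = x`), so `σ c = c` or `c⁻¹` (`eq_ch`). -/
theorem swap_iff {k : ℤ} (hk : k ≠ 0) {n : ℕ} {x : Qb} (hx : x ∈ LP k n) {σ : Qb ≃ₐ[ℚ] Qb}
    (hσ : σ x = x) :
    (σ (ch k x) = ch k x ∧ σ (ww k x) = ww k x) ∨
      (σ (ch k x) = (ch k x)⁻¹ ∧ σ (ww k x) = -ww k x) := by
  have hc := ch_ne_zero hk x
  have hs := ch_spec hk x
  have hm := ch_mem hk hx
  have h1 : phi k (σ (ch k x)) = x := by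
    rw [phi_map, hm.2.2.1, hσ]
  have h0 : σ (ch k x) ≠ 0 := by
    intro h
    apply hc
    simpa using h
  have hw : σ (ww k x) = 2 * (k : Qb) * σ (ch k x) - x := by
    unfold ww
    rw [map_sub, map_mul, map_mul, map_ofNat, map_intCast, hσ]
  rcases eq_ch hk h0 h1 with h2 | h2
  · left
    refine ⟨h2, ?_⟩
    rw [hw, h2]
    rfl
  · right
    refine ⟨h2, ?_⟩
    rw [hw, h2]
    unfold ww
    have h3 : (k : Qb) * ((ch k x)⁻¹ ^ 2 + 1) / (ch k x)⁻¹ = x := hm.2.2.2
    have h4 : (k : Qb) * (ch k x + (ch k x)⁻¹) = x := by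
      have h5 : (ch k x) * (ch k x)⁻¹ = 1 := mul_inv_cancel₀ hc
      apply mul_left_cancel₀ hc
      linear_combination hs + (k : Qb) * h5
    linear_combination 2 * h4

theorem ww_ne_zero {k : ℤ} (hk : k ≠ 0) {n : ℕ} {x : Qb} (hx : x ∈ LP k n) : ww k x ≠ 0 := by
  intro h
  have h1 := ww_sq hk x
  rw [h] at h1
  have h2 : (x - 2 * (k : Qb)) * (x + 2 * (k : Qb)) = 0 := by linear_combination -h1
  rcases mul_eq_zero.1 h2 with h3 | h3
  · apply LP_not_rat hx (2 * k)
    push_cast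
    exact sub_eq_zero.1 h3
  · apply LP_not_rat hx (-(2 * k))
    push_cast
    exact eq_neg_of_add_eq_zero_left h3

end Pool.Agent.Lib.MP_e26d5c_nt.AG
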