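import Pool.Agent.Lib.MP_e26d5c_nt.AG.S9
import Pool.Agent.Lib.MP_e26d5c_nt.AG.R17

set_option autoImplicit false

namespace Pool.Agent.Lib.MP_e26d5c_nt.AG

/-- PROOF: `ram_of_not_four` for `K = k.natAbs` (`¬ 4 ∣ K`), `full_of_ram`, `trans_all`, `eq_of_full`. -/
theorem main_not_four {k : ℤ} (hk : k ≠ 0) (h4 : ¬ (4 : ℤ) ∣ k) : GalImg k = CentGroup k := by
  have hK : 0 < k.natAbs := Int.natAbs_pos.2 hk
  have h4' : ¬ 4 ∣ k.natAbs := fun h => h4 (by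
    have h1 : ((4 : ℕ) : ℤ) ∣ k := Int.natCast_dvd.2 h
    exact_mod_cast h1)
  refine eq_of_full hk fun m => ?_
  exact full_of_ram hk m (trans_all hk m) (ram_of_not_four hK h4' (by omega))

/-- PROOF: `ram_of_one_exc` for `K = k.natAbs`, `full_of_ram`, `trans_all`, `relIndex_ne_zero`. -/
theorem main_four {k : ℤ} (hk : k ≠ 0) (h4 : (4 : ℤ) ∣ k)
    (h : ∀ p q : ℕ, Exc p → Exc q → (p : ℤ) ∣ k → (q : ℤ) ∣ k → p = q) :
    (GalImg k).relIndex (CentGroup k) ≠ 0 := by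
  have hK : 0 < k.natAbs := Int.natAbs_pos.2 hk
  have h4' : 4 ∣ k.natAbs := Int.natCast_dvd.1 (by exact_mod_cast h4)
  obtain ⟨n0, hn0, hram⟩ := ram_of_one_exc hK h4' fun p q hp hq hpk hqk =>
    h p q hp hq (Int.natCast_dvd.2 hpk) (Int.natCast_dvd.2 hqk)
  refine relIndex_ne_zero hk (N := n0) fun m hm => ?_
  exact full_of_ram hk m (trans_all hk m) (hram (m + 1) (by omega))

/-- finiteness of the rational points of the curves `d y^2 = Fpol k t`, `d ∣ 2k`, gives finite index -/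
theorem main_curves {k : ℤ} (hk : k ≠ 0)
    (h : ∀ d : ℤ, d ≠ 0 → d ∣ 2 * k → {P : ℚ × ℚ | (d : ℚ) * P.2 ^ 2 = Fpol k P.1}.Finite) :
    (GalImg k).relIndex (CentGroup k) ≠ 0 := by
  obtain ⟨n0, hram⟩ := ram_of_curves hk h
  refine relIndex_ne_zero hk (N := n0) fun m hm => ?_
  exact full_of_ram hk m (trans_all hk m) (hram (m + 1) (by omega))

/-- The main theorem on the arboreal Galois groups of `phi = k (x^2+1)/x`, `k ≠ 0` an integer. -/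
theorem main :
    (∀ k : ℤ, k ≠ 0 → GalImg k ≤ CentGroup k ∧
      ∀ (n : ℕ) (y z : Qb), y ∈ Lev k n → z ∈ Lev k n → ∃ σ : Qb ≃ₐ[ℚ] Qb, σ y = z) ∧
    (∀ k : ℤ, k ≠ 0 → ¬ (4 : ℤ) ∣ k → GalImg k = CentGroup k) ∧
    (∀ k : ℤ, k ≠ 0 → (∀ p q : ℕ, Exc p → Exc q → (p : ℤ) ∣ k → (q : ℤ) ∣ k → p = q) →
      (GalImg k).relIndex (CentGroup k) ≠ 0) ∧
    (∀ k : ℤ, k ≠ 0 →
      (∀ d : ℤ, d ≠ 0 → d ∣ 2 * k → {P : ℚ × ℚ | (d : ℚ) * P.2 ^ 2 = Fpol k P.1}.Finite) →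
      (GalImg k).relIndex (CentGroup k) ≠ 0) := by
  refine ⟨fun k hk => ⟨GalImg_le hk, fun n y z hy hz => trans_Lev hk n y z hy hz⟩,
    fun k hk h4 => main_not_four hk h4, fun k hk h => ?_, fun k hk h => main_curves hk h⟩
  by_cases h4 : (4 : ℤ) ∣ k
  · exact main_four hk h4 h
  · rw [main_not_four hk h4, Subgroup.relIndex_self]
    exact one_ne_zero

end Pool.Agent.Lib.MP_e26d5c_nt.AG
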