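import Pool.Agent.Lib.MP_e26d5c_nt.AG.S10

set_option autoImplicit false

/-!
# Number of points of a level and degree of the points
-/

namespace Pool.Agent.Lib.MP_e26d5c_nt.AG

theorem Lev_succ_eq {k : ℤ} (hk : k ≠ 0) (n : ℕ) :
    Lev k (n + 1) = (LPf hk n : Set Qb) ∪ (fun x : Qb => -x) '' (LPf hk n : Set Qb) := by
  ext y
  rw [mem_Lev_succ hk]
  simp only [Set.mem_union, Finset.mem_coe, mem_LPf, Set.mem_image]
  constructor
  · rintro (h | h)
    · exact Or.inl h
    · exact Or.inr ⟨-y, h, neg_neg y⟩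
  · rintro (h | ⟨x, hx, rfl⟩)
    · exact Or.inl h
    · right
      rwa [neg_neg]

theorem ncard_Lev {k : ℤ} (hk : k ≠ 0) (n : ℕ) : (Lev k n).ncard = 2 ^ n := by
  cases n with
  | zero =>
    show ({0} : Set Qb).ncard = 2 ^ 0
    rw [Set.ncard_singleton, pow_zero]
  | succ n =>
    rw [Lev_succ_eq hk, Set.ncard_union_eq]
    · rw [Set.ncard_image_of_injective _ neg_injective, Set.ncard_coe_finset, card_LPf]
      ring
    · rw [Set.disjoint_left]
      rintro _ h1 ⟨x, hx, rfl⟩
      rw [Finset.mem_coe, mem_LPf] at h1 hx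
      exact LP_not_neg hx h1

private theorem S11_gal0 (k : Type) [Field k] [CharZero k] : IsGalois k (AlgebraicClosure k) :=
  inferInstance

private theorem S11_gal : IsGalois ℚ Qb := by
  have h : (DivisionRing.toRatAlgebra : Algebra ℚ Qb) = AlgebraicClosure.instAlgebra ℚ :=
    Subsingleton.elim _ _
  rw [h]
  exact S11_gal0 ℚ

theorem natDegree_Lev {k : ℤ} (hk : k ≠ 0) (n : ℕ) {y : Qb} (hy : y ∈ Lev k n) :
    (minpoly ℚ y).natDegree = 2 ^ n := by
  classical
  have hgal : IsGalois ℚ Qb := S11_gal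
  have hint : IsIntegral ℚ y := (hgal.to_normal.isIntegral y)
  have hsep : (minpoly ℚ y).Separable := hgal.to_isSeparable.isSeparable' y
  have hsplit : ((minpoly ℚ y).map (algebraMap ℚ Qb)).Splits := hgal.to_normal.splits' y
  have hcard : Fintype.card ((minpoly ℚ y).rootSet Qb) = (minpoly ℚ y).natDegree :=
    Polynomial.card_rootSet_eq_natDegree hsep hsplit
  have hset : (minpoly ℚ y).rootSet Qb = Lev k n := by
    ext z
    rw [Polynomial.mem_rootSet]
    constructor
    · rintro ⟨-, hz⟩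
      have hconj : IsConjRoot ℚ y z := isConjRoot_of_aeval_eq_zero hint hz
      obtain ⟨σ, hσ⟩ := IsConjRoot.exists_algEquiv hconj.symm
      rw [← hσ]
      exact map_mem_Lev k σ n y hy
    · intro hz
      obtain ⟨σ, hσ⟩ := trans_Lev hk n y z hy hz
      refine ⟨minpoly.ne_zero hint, ?_⟩
      rw [← hσ]
      exact IsConjRoot.aeval_eq_zero (isConjRoot_of_algEquiv y σ)
  rw [← hcard, ← ncard_Lev hk n, ← hset, Set.ncard_eq_toFinset_card', Set.toFinset_card]

end Pool.Agent.Lib.MP_e26d5c_nt.AG
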