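import Pool.Agent.Lib.MP_e26d5c_nt.AG.S10

set_option autoImplicit false
open Polynomial

namespace Pool.Agent.Lib.MP_e26d5c_nt.AG

/-- the polynomial `(k^2 (X^2+1)^2 + X^2)^2 + X^2 (X^2+1)^2` -/
noncomputable def octic (k : ℤ) : ℚ[X] :=
  (Polynomial.C ((k : ℚ) ^ 2) * (Polynomial.X ^ 2 + 1) ^ 2 + Polynomial.X ^ 2) ^ 2 + Polynomial.X ^ 2 * (Polynomial.X ^ 2 + 1) ^ 2

theorem eval_octic (k : ℤ) (t : ℚ) : (octic k).eval t = Fpol k t := by
  simp [octic, Fpol]

theorem natDegree_octic {k : ℤ} (hk : k ≠ 0) : (octic k).natDegree = 8 := by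
  have hk' : (k : ℚ) ≠ 0 := by exact_mod_cast hk
  unfold octic
  compute_degree!

/-- no common root of the octic and its derivative -/
theorem no_double {κ a : ℂ} (hκ : κ ≠ 0) (h1 : 4 * κ + 1 ≠ 0) (h2 : (4 * κ + 1) ^ 2 + 4 ≠ 0)
    (hf : (κ * (a ^ 2 + 1) ^ 2 + a ^ 2) ^ 2 + a ^ 2 * (a ^ 2 + 1) ^ 2 = 0)
    (hf' : 2 * (κ * (a ^ 2 + 1) ^ 2 + a ^ 2) * (4 * κ * a * (a ^ 2 + 1) + 2 * a) +
      2 * a * (a ^ 2 + 1) ^ 2 + 4 * a ^ 3 * (a ^ 2 + 1) = 0) : False := by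
  have ha : a ≠ 0 := by
    rintro rfl
    apply hκ
    have : κ ^ 2 = 0 := by linear_combination hf
    exact pow_eq_zero_iff (two_ne_zero) |>.1 this
  obtain ⟨A, hA⟩ : ∃ A : ℂ, A = a ^ 2 + 1 := ⟨_, rfl⟩
  have hB : a ^ 2 = A - 1 := by rw [hA]; ring
  have hF : (κ * A ^ 2 + (A - 1)) ^ 2 + (A - 1) * A ^ 2 = 0 := by
    rw [← hB]; rw [hA]; exact hf
  have hF' : 2 * (κ * A ^ 2 + (A - 1)) * (2 * κ * A + 1) + 3 * A ^ 2 - 2 * A = 0 := by
    have h : (2 * a) * (2 * (κ * A ^ 2 + (A - 1)) * (2 * κ * A + 1) + 3 * A ^ 2 - 2 * A) = 0 := by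
      rw [hA]; linear_combination hf'
    rcases mul_eq_zero.1 h with h | h
    · exact absurd h (mul_ne_zero two_ne_zero ha)
    · exact h
  have hB0 : A - 1 ≠ 0 := by rw [← hB]; exact pow_ne_zero 2 ha
  have key : A * (A - 2) * (2 * κ * (κ * A ^ 2 + (A - 1)) + (A - 1)) = 0 := by
    linear_combination (A - 1) * hF' - 2 * hF
  rcases mul_eq_zero.1 key with h | h
  · rcases mul_eq_zero.1 h with h | h
    · rw [h] at hF
      norm_num at hF
    · have hA2 : A = 2 := by linear_combination h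
      rw [hA2] at hF
      apply h2
      linear_combination hF
  · -- B = -2 κ P
    have h3 : (κ * A ^ 2 + (A - 1)) * ((κ * A ^ 2 + (A - 1)) - 2 * κ * A ^ 2) = 0 := by
      linear_combination hF - A ^ 2 * h
    rcases mul_eq_zero.1 h3 with h4 | h4
    · rw [h4] at h
      apply hB0
      linear_combination h
    · have h5 : κ * A ^ 2 * (4 * κ + 1) = 0 := by
        linear_combination h - (2 * κ + 1) * h4
      rcases mul_eq_zero.1 h5 with h6 | h6
      · rcases mul_eq_zero.1 h6 with h7 | h7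
        · exact hκ h7
        · have h8 : A = 0 := pow_eq_zero_iff (two_ne_zero) |>.1 h7
          rw [h8] at hF
          norm_num at hF
      · exact h1 h6

theorem squarefree_octic {k : ℤ} (hk : k ≠ 0) : Squarefree (octic k) := by
  have hsep : (octic k).Separable := by
    rw [Polynomial.Separable, Polynomial.isCoprime_iff_aeval_ne_zero_of_isAlgClosed ℚ ℂ]
    intro a
    by_contra hcon
    rw [not_or, not_not, not_not] at hcon
    obtain ⟨h1, h2⟩ := hcon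
    have e1 : aeval a (octic k) =
        (((k : ℂ) ^ 2) * (a ^ 2 + 1) ^ 2 + a ^ 2) ^ 2 + a ^ 2 * (a ^ 2 + 1) ^ 2 := by
      simp [octic]
    have e2 : aeval a (derivative (octic k)) =
        2 * (((k : ℂ) ^ 2) * (a ^ 2 + 1) ^ 2 + a ^ 2) *
          (4 * ((k : ℂ) ^ 2) * a * (a ^ 2 + 1) + 2 * a) +
        2 * a * (a ^ 2 + 1) ^ 2 + 4 * a ^ 3 * (a ^ 2 + 1) := by
      simp [octic, derivative_pow]
      ring
    rw [e1] at h1
    rw [e2] at h2
    have hkc : (k : ℂ) ≠ 0 := by exact_mod_cast hk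
    have p1 : (4 * (k : ℂ) ^ 2 + 1) ≠ 0 := by
      have : (4 * k ^ 2 + 1 : ℤ) ≠ 0 := by positivity
      exact_mod_cast this
    have p2 : (4 * (k : ℂ) ^ 2 + 1) ^ 2 + 4 ≠ 0 := by
      have : ((4 * k ^ 2 + 1) ^ 2 + 4 : ℤ) ≠ 0 := by positivity
      exact_mod_cast this
    exact no_double (pow_ne_zero 2 hkc) p1 p2 h1 h2
  exact hsep.squarefree

theorem octic_facts {k : ℤ} (hk : k ≠ 0) {d : ℤ} (hd : d ≠ 0) :
    (Polynomial.C (d : ℚ) * octic k).natDegree = 8 ∧ Squarefree (Polynomial.C (d : ℚ) * octic k) := by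
  have hd' : (d : ℚ) ≠ 0 := by exact_mod_cast hd
  refine ⟨?_, ?_⟩
  · rw [natDegree_C_mul hd', natDegree_octic hk]
  · have hu : IsUnit (Polynomial.C (d : ℚ)) := isUnit_C.2 (isUnit_iff_ne_zero.2 hd')
    have : Associated (octic k) (Polynomial.C (d : ℚ) * octic k) := by
      have := associated_unit_mul_left (octic k) (Polynomial.C (d : ℚ)) hu
      exact this.symm
    exact this.squarefree_iff.1 (squarefree_octic hk)

end Pool.Agent.Lib.MP_e26d5c_nt.AG
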