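import Pool.Agent.Lib.MP_e26d5c_nt.AG.S1

set_option autoImplicit false

namespace Pool.Agent.Lib.MP_e26d5c_nt.AG

/-- the finite set `LP k n` -/
noncomputable def LPf {k : ℤ} (hk : k ≠ 0) (n : ℕ) : Finset Qb := (LP_finite hk n).toFinset

theorem mem_LPf {k : ℤ} (hk : k ≠ 0) {n : ℕ} {x : Qb} : x ∈ LPf hk n ↔ x ∈ LP k n :=
  Set.Finite.mem_toFinset _

/-- the fibres of `phi k` -/
private theorem S2_fib {k : ℤ} (hk : k ≠ 0) (n : ℕ) [DecidableEq Qb] {x : Qb}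
    (hx : x ∈ LP k n) :
    (LPf hk (n + 1)).filter (fun y => phi k y = x) = {ch k x, (ch k x)⁻¹} := by
  ext y
  rw [Finset.mem_filter, mem_LPf, Finset.mem_insert, Finset.mem_singleton]
  constructor
  · rintro ⟨h1, h2⟩
    exact eq_ch hk (LP_ne_zero h1) h2
  · obtain ⟨a, b, c, d⟩ := ch_mem hk hx
    rintro (h | h)
    · rw [h]
      exact ⟨a, c⟩
    · rw [h]
      exact ⟨b, d⟩

private theorem S2_maps {k : ℤ} (hk : k ≠ 0) (n : ℕ) :
    ∀ y ∈ LPf hk (n + 1), phi k y ∈ LPf hk n := by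
  intro y hy
  rw [mem_LPf] at hy ⊢
  exact hy.2

/-- products over `LP (n+1)`: children come in pairs.
PROOF: `LPf (n+1)` is the disjoint union over `x ∈ LPf n` of `{ch x, (ch x)⁻¹}` (`eq_ch`, `ch_mem`, `ch_ne_inv`,
disjoint because `phi` of both is `x`); `Finset.prod_biUnion` or `Finset.prod_fiberwise_of_maps_to` with the map `phi k`. -/
theorem prod_succ {k : ℤ} (hk : k ≠ 0) (n : ℕ) (f : Qb → Qb) :
    ∏ y ∈ LPf hk (n + 1), f y = ∏ x ∈ LPf hk n, (f (ch k x) * f (ch k x)⁻¹) := by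
  classical
  rw [← Finset.prod_fiberwise_of_maps_to (S2_maps hk n)]
  refine Finset.prod_congr rfl fun x hx => ?_
  rw [mem_LPf] at hx
  rw [S2_fib hk n hx, Finset.prod_pair (ch_ne_inv hk hx)]

/-- PROOF: `prod_succ` with `f y = z - y`; `(z - c)(z - c⁻¹) = z^2 - (x/k) z + 1 = (z/k) (phi z - x)`;
`Finset.prod_mul_distrib`, `Finset.prod_const`. -/
theorem F_succ {k : ℤ} (hk : k ≠ 0) (n : ℕ) {z : Qb} (hz : z ≠ 0) :
    ∏ y ∈ LPf hk (n + 1), (z - y) =
      (z / (k : Qb)) ^ (LPf hk n).card * ∏ x ∈ LPf hk n, (phi k z - x) := by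
  rw [prod_succ hk n (fun y => z - y), ← Finset.prod_const, ← Finset.prod_mul_distrib]
  refine Finset.prod_congr rfl fun x _ => ?_
  have hkq : (k : Qb) ≠ 0 := by exact_mod_cast hk
  have hc := ch_spec hk x
  have hc0 := ch_ne_zero hk x
  have h1 : ch k x + (ch k x)⁻¹ = x / (k : Qb) := by
    field_simp
    linear_combination hc
  have h2 : z / (k : Qb) * (phi k z - x) = z ^ 2 + 1 - z * (x / (k : Qb)) := by
    unfold phi
    field_simp
  rw [h2, ← h1]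
  have h3 : ch k x * (ch k x)⁻¹ = 1 := mul_inv_cancel₀ hc0
  linear_combination h3

/-- PROOF: `prod_succ` with `f = 2`-type counting, or `Finset.card_eq_sum_card_fiberwise`: each fibre
has two elements. -/
theorem card_LPf {k : ℤ} (hk : k ≠ 0) (n : ℕ) : (LPf hk n).card = 2 ^ n := by
  classical
  induction n with
  | zero =>
    have h : LPf hk 0 = {im} := by
      ext y
      rw [mem_LPf, Finset.mem_singleton]
      exact Iff.rfl
    rw [h, Finset.card_singleton, pow_zero]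
  | succ n ih =>
    rw [Finset.card_eq_sum_card_fiberwise (S2_maps hk n)]
    have h : ∀ x ∈ LPf hk n,
        ((LPf hk (n + 1)).filter (fun y => phi k y = x)).card = 2 := by
      intro x hx
      rw [mem_LPf] at hx
      rw [S2_fib hk n hx, Finset.card_pair (ch_ne_inv hk hx)]
    rw [Finset.sum_congr rfl h, Finset.sum_const, ih, smul_eq_mul, pow_succ]

/-- the value at the rational points: for every `m ≥ 1` and sign `e = ±1`:
`prod_{x in LP n} (e X_m - x) = rho * (e X_{m+n} - im)` with `rho ≠ 0` fixed by all `σ` fixing `im`;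
more precisely `rho` is rational and for the two signs `rho_+ rho_- = (±) square`.
PROOF: induction on `n` (for all `m`): `n = 0`: `e X_m - im`.  Step: `F_succ` at `z = e X_m` (nonzero),
`phi k (e X_m) = e X_{m+1}`: factor `(e X_m/k)^(2^n)` times the value for `m+1`.  So
`P k n m e = prod_{i<n} (e X_{m+i}/k)^(2^(n-1-i))` (this is the definition used below). -/
noncomputable def P (k : ℤ) : ℕ → ℕ → ℤ → ℚ
  | 0, _, _ => 1
  | n + 1, m, e => ((e : ℚ) * X k m / (k : ℚ)) ^ (2 ^ n) * P k n (m + 1) e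

theorem F_value {k : ℤ} (hk : k ≠ 0) (n m : ℕ) {e : ℤ} (he : e ^ 2 = 1) :
    ∏ x ∈ LPf hk n, (((e : ℚ) * X k m : ℚ) - x : Qb) =
      ((P k n m e : ℚ) : Qb) * ((((e : ℚ) * X k (m + n) : ℚ) : Qb) - im) := by
  have hkq : (k : Qb) ≠ 0 := by exact_mod_cast hk
  have heq : ((e : ℚ) : Qb) ^ 2 = 1 := by exact_mod_cast he
  have he0 : ((e : ℚ) : Qb) ≠ 0 := by
    intro h
    rw [h] at heq
    norm_num at heq
  induction n generalizing m with
  | zero =>
    have h : LPf hk 0 = {im} := by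
      ext y
      rw [mem_LPf, Finset.mem_singleton]
      exact Iff.rfl
    rw [h, Finset.prod_singleton]
    simp [P]
  | succ n ih =>
    have hX : ((X k m : ℚ) : Qb) ≠ 0 := by exact_mod_cast X_ne_zero hk m
    have hz : (((e : ℚ) * X k m : ℚ) : Qb) ≠ 0 := by
      push_cast
      push_cast at he0
      exact mul_ne_zero he0 hX
    rw [F_succ hk n hz, card_LPf]
    have hphi : phi k (((e : ℚ) * X k m : ℚ) : Qb) =
        (((e : ℚ) * X k (m + 1) : ℚ) : Qb) := by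
      have hXs : X k (m + 1) = (k : ℚ) * (X k m ^ 2 + 1) / X k m := rfl
      rw [hXs]
      unfold phi
      push_cast
      push_cast at he0 heq
      field_simp
      linear_combination ((X k m : Qb) ^ 2) * heq - heq * ((X k m : Qb) ^ 2 + 1)
    rw [hphi, ih (m + 1)]
    have hP : P k (n + 1) m e = ((e : ℚ) * X k m / (k : ℚ)) ^ (2 ^ n) * P k n (m + 1) e := rfl
    rw [hP, show m + 1 + n = m + (n + 1) by ring]
    push_cast
    ring

/-- PROOF: induction on `n`: for `n + 1` with `2^n` even (`n ≥ 1`) both factors are equal and the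
product is a square times the product for `n`; for `n = 0` (first step) `P k 1 m 1 * P k 1 m (-1) = -(X_m/k)^2`. -/
theorem P_mul {k : ℤ} (hk : k ≠ 0) (n m : ℕ) :
    ∃ a : ℚ, a ≠ 0 ∧ P k (n + 1) m 1 * P k (n + 1) m (-1) = -a ^ 2 := by
  have hkq : (k : ℚ) ≠ 0 := by exact_mod_cast hk
  induction n generalizing m with
  | zero =>
    refine ⟨X k m / k, div_ne_zero (X_ne_zero hk m) hkq, ?_⟩
    have h1 : P k (0 + 1) m 1 = (((1 : ℤ) : ℚ) * X k m / (k : ℚ)) ^ (2 ^ 0) * 1 := rfl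
    have h2 : P k (0 + 1) m (-1) = (((-1 : ℤ) : ℚ) * X k m / (k : ℚ)) ^ (2 ^ 0) * 1 := rfl
    rw [h1, h2]
    push_cast
    ring
  | succ n ih =>
    obtain ⟨a, ha, h⟩ := ih (m + 1)
    refine ⟨(X k m / k) ^ (2 ^ (n + 1)) * a,
      mul_ne_zero (pow_ne_zero _ (div_ne_zero (X_ne_zero hk m) hkq)) ha, ?_⟩
    have h1 : P k (n + 1 + 1) m 1 =
        (((1 : ℤ) : ℚ) * X k m / (k : ℚ)) ^ (2 ^ (n + 1)) * P k (n + 1) (m + 1) 1 := rfl
    have h2 : P k (n + 1 + 1) m (-1) =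
        (((-1 : ℤ) : ℚ) * X k m / (k : ℚ)) ^ (2 ^ (n + 1)) * P k (n + 1) (m + 1) (-1) := rfl
    have h3 : (((-1 : ℤ) : ℚ) * X k m / (k : ℚ)) ^ (2 ^ (n + 1)) =
        (X k m / k) ^ (2 ^ (n + 1)) := by
      have h4 : ((-1 : ℤ) : ℚ) * X k m / (k : ℚ) = -(X k m / k) := by
        push_cast
        ring
      rw [h4, Even.neg_pow]
      exact (Nat.even_pow.2 ⟨even_two, by omega⟩)
    have h5 : (((1 : ℤ) : ℚ) * X k m / (k : ℚ)) ^ (2 ^ (n + 1)) =
        (X k m / k) ^ (2 ^ (n + 1)) := by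
      congr 1
      push_cast
      ring
    rw [h1, h2, h3, h5]
    linear_combination ((X k m / k) ^ (2 ^ (n + 1))) ^ 2 * h

/-- THE PRODUCT FORMULA.  PROOF: `x^2 - 4k^2 = (2k - x)(-2k - x)` and `X k 1 = 2k`; `F_value` with `m = 1`,
`e = 1` and `e = -1`: the product is `P_+ P_- (X - im)(-X - im) = - P_+ P_- (X^2+1)`, `X = X k (n+1)`.  `n = 0`:
`P = 1`: `= -(X^2+1) = im^2 (X^2+1)`, `rho = im`.  `n ≥ 1`: `P_mul`: `rho = a`. -/
theorem prod_formula {k : ℤ} (hk : k ≠ 0) (n : ℕ) :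
    ∃ rho : Qb, rho ≠ 0 ∧ (∀ σ : Qb ≃ₐ[ℚ] Qb, σ im = im → σ rho = rho) ∧
      ∏ x ∈ LPf hk n, (x ^ 2 - 4 * (k : Qb) ^ 2) =
        rho ^ 2 * (((X k (n + 1)) ^ 2 + 1 : ℚ) : Qb) := by
  have hX1 : X k 1 = 2 * (k : ℚ) := by
    have h : X k 1 = (k : ℚ) * (X k 0 ^ 2 + 1) / X k 0 := rfl
    have h0 : X k 0 = 1 := rfl
    rw [h, h0]
    ring
  have h1 := F_value hk n 1 (e := 1) (by norm_num)
  have h2 := F_value hk n 1 (e := -1) (by norm_num)
  have h3 : ∏ x ∈ LPf hk n, (x ^ 2 - 4 * (k : Qb) ^ 2) =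
      (∏ x ∈ LPf hk n, (((((1 : ℤ) : ℚ) * X k 1 : ℚ) : Qb) - x)) *
        ∏ x ∈ LPf hk n, ((((((-1 : ℤ) : ℚ) * X k 1 : ℚ)) : Qb) - x) := by
    rw [← Finset.prod_mul_distrib]
    refine Finset.prod_congr rfl fun x _ => ?_
    rw [hX1]
    push_cast
    ring
  rw [h3, h1, h2, show 1 + n = n + 1 by ring]
  have him := im_sq
  rcases n with _ | n
  · refine ⟨im, ?_, fun σ hσ => hσ, ?_⟩
    · intro h
      rw [h] at him
      norm_num at him
    · have e1 : P k 0 1 1 = 1 := rfl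
      have e2 : P k 0 1 (-1) = 1 := rfl
      rw [e1, e2]
      push_cast
      linear_combination (-(X k (0 + 1) : Qb) ^ 2) * him
  · obtain ⟨a, ha, h⟩ := P_mul hk n 1
    refine ⟨(a : Qb), by exact_mod_cast ha, fun σ _ => ?_, ?_⟩
    · exact map_ratCast σ a
    · have h' : ((P k (n + 1) 1 1 : ℚ) : Qb) * ((P k (n + 1) 1 (-1) : ℚ) : Qb) =
          -(a : Qb) ^ 2 := by exact_mod_cast h
      push_cast
      linear_combination (-(X k (n + 1 + 1) : Qb) ^ 2 + im ^ 2) * h' - (a : Qb) ^ 2 * him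

/-- PROOF: `(∏ ww)^2 = ∏ (x^2-4k^2)` (`ww_sq`) `= (rho c)^2`. -/
theorem prod_ww {k : ℤ} (hk : k ≠ 0) (n : ℕ) {c : Qb}
    (hc : c ^ 2 = (((X k (n + 1)) ^ 2 + 1 : ℚ) : Qb)) :
    ∃ rho : Qb, rho ≠ 0 ∧ (∀ σ : Qb ≃ₐ[ℚ] Qb, σ im = im → σ rho = rho) ∧
      ∏ x ∈ LPf hk n, ww k x = rho * c := by
  obtain ⟨rho, h1, h2, h3⟩ := prod_formula hk n
  have h4 : (∏ x ∈ LPf hk n, ww k x) ^ 2 = (rho * c) ^ 2 := by
    rw [← Finset.prod_pow, mul_pow, hc, ← h3]
    exact Finset.prod_congr rfl fun x _ => ww_sq hk x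
  rcases sq_eq_sq_iff_eq_or_eq_neg.1 h4 with h | h
  · exact ⟨rho, h1, h2, h⟩
  · refine ⟨-rho, neg_ne_zero.2 h1, fun σ hσ => ?_, ?_⟩
    · rw [map_neg, h2 σ hσ]
    · rw [h]
      ring

end Pool.Agent.Lib.MP_e26d5c_nt.AG
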