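import Mathlib

set_option autoImplicit false

namespace Pool.Agent.Lib.MP_e26d5c_nt.AG

/-- PURE GROUP THEORY.  `Γ` acts transitively on the finite set `X` through a 2-group, `S` is a normal
subgroup acting trivially on `X`, `sw : S → F_2^X` a `Γ`-equivariant homomorphism (`s` swaps the two children
of `x` iff `sw s x = 1`).  If some `s` has an odd number of swaps then `sw` is surjective.
PROOF: let `V ≤ (X → ZMod 2)` be the image, a subspace, and suppose `V ≠ ⊤`.  The set
`W = {w : X → ZMod 2 | ∀ s, ∑ x, w x * sw s x = 0}` is nonzero (a proper subspace of a finite-dimensional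
space is killed by a nonzero functional: `Submodule.exists_le_ker_of_lt_top`, functionals on
`X → ZMod 2` are `v ↦ ∑ w x v x`), `Γ`-invariant (`(γ w) x = w (γ⁻¹ • x)`; `hconj`).  The action of `Γ` on the finite
set `W` factors through the image of `Γ` in `Equiv.Perm X`, a 2-group (`h2`): `IsPGroup 2`.  `card W` is a power of `2`
and `> 1`, so even; `0` is a fixed point; `IsPGroup.exists_fixed_point_of_prime_dvd_card_of_fixed_point` gives
another fixed point `w ≠ 0`.  By transitivity `w` is constant `= 1`, so `∑ x, sw s x = 0` for all `s`: contradiction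
to `hodd`. -/
theorem patterns {Γ X : Type} [Group Γ] [Fintype X] [DecidableEq X] [MulAction Γ X]
    (S : Subgroup Γ) (hSn : S.Normal) (hS : ∀ s ∈ S, ∀ x : X, s • x = x)
    (sw : Γ → X → ZMod 2)
    (hhom : ∀ s ∈ S, ∀ t ∈ S, ∀ x, sw (s * t) x = sw s x + sw t x)
    (hconj : ∀ (γ : Γ), ∀ s ∈ S, ∀ x, sw (γ * s * γ⁻¹) (γ • x) = sw s x)
    (htrans : ∀ x y : X, ∃ γ : Γ, γ • x = y)
    (h2 : ∀ γ : Γ, ∃ m : ℕ, ∀ x : X, γ ^ (2 ^ m) • x = x)
    (hodd : ∃ s ∈ S, ∑ x, sw s x = 1) (v : X → ZMod 2) :
    ∃ s ∈ S, ∀ x, sw s x = v x := by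
  classical
  have h7 : ∀ c : ZMod 2, c ≠ 0 → c = 1 := by decide
  by_contra hv
  -- the image as a submodule
  let V : Submodule (ZMod 2) (X → ZMod 2) :=
    { carrier := {u | ∃ s ∈ S, ∀ x, sw s x = u x}
      add_mem' := by
        rintro a b ⟨s, hs, hsa⟩ ⟨t, ht, htb⟩
        refine ⟨s * t, S.mul_mem hs ht, fun x => ?_⟩
        rw [hhom s hs t ht x, hsa x, htb x]
        rfl
      zero_mem' := by
        refine ⟨1, S.one_mem, fun x => ?_⟩
        have h := hhom 1 S.one_mem 1 S.one_mem x
        rw [mul_one] at h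
        have h' : sw 1 x = 0 := by
          have : sw 1 x + 0 = sw 1 x + sw 1 x := by rw [add_zero]; exact h
          exact (add_left_cancel this).symm
        exact h'
      smul_mem' := by
        rintro c a ⟨s, hs, hsa⟩
        have hc : c = 0 ∨ c = 1 := by
          revert c; decide
        rcases hc with rfl | rfl
        · refine ⟨1, S.one_mem, fun x => ?_⟩
          have h := hhom 1 S.one_mem 1 S.one_mem x
          rw [mul_one] at h
          have h' : sw 1 x = 0 := by
            have : sw 1 x + 0 = sw 1 x + sw 1 x := by rw [add_zero]; exact h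
            exact (add_left_cancel this).symm
          rw [h']; simp
        · exact ⟨s, hs, fun x => by simpa using hsa x⟩ }
  have hVmem : ∀ u, u ∈ V ↔ ∃ s ∈ S, ∀ x, sw s x = u x := fun u => Iff.rfl
  have hVtop : V < ⊤ := by
    rw [lt_top_iff_ne_top]
    intro h
    apply hv
    have : v ∈ V := by rw [h]; trivial
    exact this
  obtain ⟨f, hf0, hfV⟩ := Submodule.exists_le_ker_of_lt_top V hVtop
  have hfsum : ∀ u : X → ZMod 2, f u = ∑ x, u x * f (Pi.single x 1) := by
    intro u
    conv_lhs => rw [← Finset.univ_sum_single u]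
    rw [map_sum]
    refine Finset.sum_congr rfl fun x _ => ?_
    have : (Pi.single x (u x) : X → ZMod 2) = u x • Pi.single x 1 := by
      rw [← Pi.single_smul', smul_eq_mul, mul_one]
    rw [this, map_smul, smul_eq_mul]
  -- the annihilator
  let W : AddSubgroup (X → ZMod 2) :=
    { carrier := {w | ∀ s ∈ S, ∑ x, w x * sw s x = 0}
      add_mem' := by
        intro a b ha hb s hs
        have h1 := ha s hs
        have h2' := hb s hs
        simp only [Pi.add_apply, add_mul, Finset.sum_add_distrib, h1, h2', add_zero]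
      zero_mem' := by
        intro s hs
        simp
      neg_mem' := by
        intro a ha s hs
        have h1 := ha s hs
        simp only [Pi.neg_apply, neg_mul, Finset.sum_neg_distrib, h1, neg_zero] }
  have hWmem : ∀ w, w ∈ W ↔ ∀ s ∈ S, ∑ x, w x * sw s x = 0 := fun w => Iff.rfl
  have hWinv : ∀ γ : Γ, ∀ w ∈ W, (fun x => w (γ⁻¹ • x)) ∈ W := by
    intro γ w hw s hs
    have h1 : ∑ x, w (γ⁻¹ • x) * sw s x = ∑ y, w y * sw s (γ • y) := by
      rw [← Equiv.sum_comp (MulAction.toPerm γ : Equiv.Perm X)]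
      refine Finset.sum_congr rfl fun y _ => ?_
      simp [MulAction.toPerm_apply]
    have h3 : γ⁻¹ * s * γ ∈ S := by
      have := hSn.conj_mem s hs γ⁻¹
      simpa using this
    have h4 : ∀ y, sw s (γ • y) = sw (γ⁻¹ * s * γ) y := by
      intro y
      have := hconj γ (γ⁻¹ * s * γ) h3 y
      rw [← this]
      congr 1
      group
    show ∑ x, w (γ⁻¹ • x) * sw s x = 0
    rw [h1]
    simp only [h4]
    exact hw _ h3
  let G := (MulAction.toPermHom Γ X).range
  have hGP : IsPGroup 2 G := by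
    rintro ⟨g, γ, rfl⟩
    obtain ⟨m, hm⟩ := h2 γ
    refine ⟨m, ?_⟩
    apply Subtype.ext
    have h1 : ((⟨MulAction.toPermHom Γ X γ, γ, rfl⟩ : G) ^ 2 ^ m).1 =
        (MulAction.toPermHom Γ X γ) ^ 2 ^ m := SubgroupClass.coe_pow _ _
    refine h1.trans ?_
    rw [← map_pow]
    ext x
    exact hm x
  have hGW : ∀ (g : G) (w : W), (fun x => w.1 ((g⁻¹ : G).1 x)) ∈ W := by
    rintro ⟨g, γ, rfl⟩ w
    have := hWinv γ w.1 w.2
    have h1 : ∀ x, ((⟨MulAction.toPermHom Γ X γ, γ, rfl⟩ : G)⁻¹ : G).1 x = γ⁻¹ • x := by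
      intro x
      have h3 : ((⟨MulAction.toPermHom Γ X γ, γ, rfl⟩ : G)⁻¹ : G).1 =
          (MulAction.toPermHom Γ X γ)⁻¹ := rfl
      rw [h3, ← map_inv]
      rfl
    have h5 : (fun x => w.1 (((⟨MulAction.toPermHom Γ X γ, γ, rfl⟩ : G)⁻¹ : G).1 x)) =
        (fun x => w.1 (γ⁻¹ • x)) := by
      funext x
      rw [h1 x]
    exact h5 ▸ this
  let act : MulAction G W :=
    { smul := fun g w => ⟨fun x => w.1 ((g⁻¹ : G).1 x), hGW g w⟩
      one_smul := by
        intro w
        apply Subtype.ext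
        funext x
        show w.1 ((1⁻¹ : G).1 x) = w.1 x
        simp
      mul_smul := by
        intro g h w
        apply Subtype.ext
        funext x
        show w.1 (((g * h)⁻¹ : G).1 x) = w.1 ((h⁻¹ : G).1 ((g⁻¹ : G).1 x))
        rw [mul_inv_rev]
        rfl }
  have hact : ∀ (g : G) (w : W) (x : X), (g • w).1 x = w.1 ((g⁻¹ : G).1 x) := fun _ _ _ => rfl
  let w0 : W := ⟨fun x => f (Pi.single x 1), by
    intro s hs
    have h1 : (fun x => sw s x) ∈ V := ⟨s, hs, fun x => rfl⟩
    have h3 := hfV h1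
    rw [LinearMap.mem_ker, hfsum] at h3
    show ∑ x, f (Pi.single x 1) * sw s x = 0
    rw [← h3]
    exact Finset.sum_congr rfl fun x _ => mul_comm _ _⟩
  have hw0 : w0 ≠ 0 := by
    intro h
    apply hf0
    apply LinearMap.ext
    intro u
    rw [hfsum u]
    have : ∀ x, f (Pi.single x 1) = 0 := by
      intro x
      have := congrFun (congrArg Subtype.val h) x
      simpa [w0] using this
    simp [this]
  have hcard : 2 ∣ Nat.card W := by
    have h1 : addOrderOf w0 = 2 := by
      apply addOrderOf_eq_prime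
      · apply Subtype.ext
        funext x
        show (2 • w0.1) x = 0
        rw [Pi.smul_apply, two_nsmul]
        exact CharTwo.add_self_eq_zero _
      · exact hw0
    have h3 := addOrderOf_dvd_natCard w0
    rwa [h1] at h3
  have hfix0 : (0 : W) ∈ MulAction.fixedPoints G W := by
    intro g
    apply Subtype.ext
    funext x
    rw [hact]
    rfl
  have : Fact (Nat.Prime 2) := ⟨Nat.prime_two⟩
  obtain ⟨w, hwfix, hwne⟩ :=
    hGP.exists_fixed_point_of_prime_dvd_card_of_fixed_point W hcard hfix0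
  have hconst : ∀ x y, w.1 x = w.1 y := by
    intro x y
    obtain ⟨γ, hγ⟩ := htrans x y
    have h1 := hwfix ⟨MulAction.toPermHom Γ X γ, γ, rfl⟩
    have h3 := congrFun (congrArg Subtype.val h1) y
    rw [hact] at h3
    rw [← h3]
    have h5 : ((⟨MulAction.toPermHom Γ X γ, γ, rfl⟩ : G)⁻¹ : G).1 y = x := by
      have h6 : ((⟨MulAction.toPermHom Γ X γ, γ, rfl⟩ : G)⁻¹ : G).1 =
          (MulAction.toPermHom Γ X γ)⁻¹ := rfl
      rw [h6, ← map_inv, ← hγ]
      show γ⁻¹ • γ • x = x
      rw [inv_smul_smul]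
    rw [h5]
  have hex : ∃ x, w.1 x ≠ 0 := by
    by_contra hno
    push Not at hno
    apply hwne
    apply Subtype.ext
    funext x
    exact (hno x).symm
  obtain ⟨x0, hx0⟩ := hex
  have hone : ∀ x, w.1 x = 1 := by
    intro x
    rw [hconst x x0]
    exact h7 _ hx0
  obtain ⟨s, hs, hs1⟩ := hodd
  have h5 := w.2 s hs
  simp only [hone, one_mul] at h5
  rw [hs1] at h5
  exact one_ne_zero h5

end Pool.Agent.Lib.MP_e26d5c_nt.AG
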