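import Pool.Agent.Lib.MP_e26d5c_nt.AG.S2
import Pool.Agent.Lib.MP_e26d5c_nt.AG.S3

set_option autoImplicit false

namespace Pool.Agent.Lib.MP_e26d5c_nt.AG

/-- transitivity of the stabiliser of `im` on `LP k n` -/
def Trans (k : ℤ) (n : ℕ) : Prop :=
  ∀ x ∈ LP k n, ∀ y ∈ LP k n, ∃ σ : Qb ≃ₐ[ℚ] Qb, σ im = im ∧ σ x = y

/-- all swap patterns are realised above level `n` -/
def Full (k : ℤ) (n : ℕ) : Prop :=
  ∀ T : Set Qb, ∃ σ : Qb ≃ₐ[ℚ] Qb, Fix k n σ ∧
    ∀ x ∈ LP k n, (x ∈ T → σ (ch k x) = (ch k x)⁻¹) ∧ (x ∉ T → σ (ch k x) = ch k x)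

private theorem S4_child {k : ℤ} (hk : k ≠ 0) {n : ℕ} {y : Qb} (hy : y ∈ LP k (n + 1)) :
    phi k y ∈ LP k n ∧ (y = ch k (phi k y) ∨ y = (ch k (phi k y))⁻¹) :=
  ⟨hy.2, eq_ch hk hy.1 rfl⟩

private theorem S4_im_mem (k : ℤ) : im ∈ LP k 0 := rfl

private theorem S4_nonempty {k : ℤ} (hk : k ≠ 0) (n : ℕ) : ∃ x, x ∈ LP k n := by
  induction n with
  | zero => exact ⟨im, rfl⟩
  | succ n ih =>
    obtain ⟨x, hx⟩ := ih
    exact ⟨_, (ch_mem hk hx).1⟩

private theorem S4_inv_im {σ : Qb ≃ₐ[ℚ] Qb} (hσ : σ im = im) : σ⁻¹ im = im := by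
  have h : σ⁻¹ (σ im) = im := by
    show (σ⁻¹ * σ) im = im
    rw [inv_mul_cancel]
    rfl
  rwa [hσ] at h

private theorem S4_inv_apply (σ : Qb ≃ₐ[ℚ] Qb) (x : Qb) : σ⁻¹ (σ x) = x := by
  show (σ⁻¹ * σ) x = x
  rw [inv_mul_cancel]
  rfl

private theorem S4_apply_inv (σ : Qb ≃ₐ[ℚ] Qb) (x : Qb) : σ (σ⁻¹ x) = x := by
  show (σ * σ⁻¹) x = x
  rw [mul_inv_cancel]
  rfl

private theorem S4_mul_im {σ τ : Qb ≃ₐ[ℚ] Qb} (hσ : σ im = im) (hτ : τ im = im) :
    (σ * τ) im = im := by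
  show σ (τ im) = im
  rw [hτ, hσ]

/-- parity of the number of swaps and the sign -/
private theorem S4_sign {X : Type} [DecidableEq X] (T : Finset X) (Q : X → Prop)
    [DecidablePred Q] :
    ((∑ x ∈ T, (if Q x then (0 : ZMod 2) else 1)) = 0 ∧
      (∏ x ∈ T, (if Q x then (1 : Qb) else -1)) = 1) ∨
    ((∑ x ∈ T, (if Q x then (0 : ZMod 2) else 1)) = 1 ∧
      (∏ x ∈ T, (if Q x then (1 : Qb) else -1)) = -1) := by
  induction T using Finset.induction_on with
  | empty => left; simp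
  | insert a T ha ih =>
    rw [Finset.sum_insert ha, Finset.prod_insert ha]
    by_cases hQ : Q a
    · simp only [if_pos hQ, zero_add, one_mul]
      exact ih
    · simp only [if_neg hQ]
      rcases ih with ⟨h1, h2⟩ | ⟨h1, h2⟩
      · right
        rw [h1, h2]
        simp
      · left
        rw [h1, h2]
        refine ⟨by decide, by ring⟩

/-- the group fixing `im` -/
private noncomputable def S4_Ga : Subgroup (Qb ≃ₐ[ℚ] Qb) where
  carrier := {σ | σ im = im}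
  mul_mem' := fun ha hb => S4_mul_im ha hb
  one_mem' := rfl
  inv_mem' := fun ha => S4_inv_im ha

@[instance_reducible] private noncomputable def S4_act (k : ℤ) (n : ℕ) : MulAction S4_Ga (LP k n) where
  smul γ x := ⟨γ.1 x.1, LP_map γ.2 x.2⟩
  one_smul x := rfl
  mul_smul a b x := rfl

private def S4_S (k : ℤ) (n : ℕ) : Subgroup S4_Ga where
  carrier := {γ | ∀ x ∈ LP k n, γ.1 x = x}
  mul_mem' := by
    intro a b ha hb x hx
    show a.1 (b.1 x) = x
    rw [hb x hx, ha x hx]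
  one_mem' := fun x _ => rfl
  inv_mem' := by
    intro a ha x hx
    have h : a.1 x = x := ha x hx
    show (a.1)⁻¹ x = x
    conv_lhs => rw [← h]
    exact S4_inv_apply a.1 x

/-- an element of the rational field with im adjoined -/
private theorem S4_adjoin (x : Qb) (hx : x ∈ IntermediateField.adjoin ℚ {im}) :
    ∃ u v : ℚ, x = (u : Qb) + (v : Qb) * im := by
  have halg0 : Algebra.IsAlgebraic ℚ Qb := AlgebraicClosure.isAlgebraic ℚ
  have halg : IsAlgebraic ℚ im := Algebra.IsAlgebraic.isAlgebraic im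
  have h1 : x ∈ (IntermediateField.adjoin ℚ {im}).toSubalgebra := hx
  rw [IntermediateField.adjoin_simple_toSubalgebra_of_isAlgebraic halg] at h1
  induction h1 using Algebra.adjoin_induction with
  | mem y hy =>
    refine ⟨0, 1, ?_⟩
    have : y = im := hy
    rw [this]
    push_cast
    ring
  | algebraMap r =>
    refine ⟨r, 0, ?_⟩
    push_cast
    rw [zero_mul, add_zero]
    exact eq_ratCast (algebraMap ℚ Qb) r
  | add y z _ _ hy hz =>
    obtain ⟨u, v, rfl⟩ := hy (by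
      show y ∈ (IntermediateField.adjoin ℚ {im}).toSubalgebra
      rw [IntermediateField.adjoin_simple_toSubalgebra_of_isAlgebraic halg]
      assumption)
    obtain ⟨u', v', rfl⟩ := hz (by
      show z ∈ (IntermediateField.adjoin ℚ {im}).toSubalgebra
      rw [IntermediateField.adjoin_simple_toSubalgebra_of_isAlgebraic halg]
      assumption)
    refine ⟨u + u', v + v', ?_⟩
    push_cast
    ring
  | mul y z _ _ hy hz =>
    obtain ⟨u, v, rfl⟩ := hy (by
      show y ∈ (IntermediateField.adjoin ℚ {im}).toSubalgebra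
      rw [IntermediateField.adjoin_simple_toSubalgebra_of_isAlgebraic halg]
      assumption)
    obtain ⟨u', v', rfl⟩ := hz (by
      show z ∈ (IntermediateField.adjoin ℚ {im}).toSubalgebra
      rw [IntermediateField.adjoin_simple_toSubalgebra_of_isAlgebraic halg]
      assumption)
    refine ⟨u * u' - v * v', u * v' + v * u', ?_⟩
    push_cast
    linear_combination (v : Qb) * (v' : Qb) * im_sq

/-- some Galois element fixes `im` and moves `c` -/
private theorem S4_exists_sigma {k : ℤ} (hk : k ≠ 0) (n : ℕ) {c : Qb}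
    (hc : c ^ 2 = (((X k (n + 1)) ^ 2 + 1 : ℚ) : Qb))
    (h : ¬ IsSquare (C k.natAbs (n + 1))) :
    ∃ σ : Qb ≃ₐ[ℚ] Qb, σ im = im ∧ σ c = -c := by
  have hK : 0 < k.natAbs := Int.natAbs_pos.mpr hk
  have hnot : ¬ c ∈ IntermediateField.adjoin ℚ {im} := by
    intro hmem
    obtain ⟨u, v, huv⟩ := S4_adjoin c hmem
    have h1 : (((u ^ 2 - v ^ 2 : ℚ) : Qb)) + ((2 * u * v : ℚ) : Qb) * im =
        (((X k (n + 1)) ^ 2 + 1 : ℚ) : Qb) := by
      rw [← hc, huv]
      push_cast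
      linear_combination (-(v : Qb) ^ 2) * im_sq
    by_cases huv0 : 2 * u * v = 0
    · have h2 : u ^ 2 - v ^ 2 = (X k (n + 1)) ^ 2 + 1 := by
        rw [huv0] at h1
        have h3 : (((u ^ 2 - v ^ 2 : ℚ) : Qb)) = (((X k (n + 1)) ^ 2 + 1 : ℚ) : Qb) := by
          rw [← h1]
          push_cast
          ring
        exact_mod_cast h3
      have hv : v = 0 := by
        rcases mul_eq_zero.mp huv0 with h3 | h3
        · have hu : u = 0 := by linarith
          exfalso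
          rw [hu] at h2
          nlinarith [sq_nonneg v, sq_nonneg (X k (n + 1))]
        · exact h3
      rw [hv] at h2
      apply h
      rw [← Rat.isSquare_natCast_iff]
      have hB : (B k.natAbs (n + 1) : ℚ) ≠ 0 := by
        have := B_pos hK (n + 1)
        positivity
      have h4 := X_sq_add_one hk (n + 1)
      refine ⟨u * (B k.natAbs (n + 1) : ℚ), ?_⟩
      have h5 : u ^ 2 = (C k.natAbs (n + 1) : ℚ) / (B k.natAbs (n + 1) : ℚ) ^ 2 := by
        rw [← h4, ← h2]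
        ring
      field_simp at h5
      linarith
    · have h2 : im = ((((X k (n + 1)) ^ 2 + 1 - (u ^ 2 - v ^ 2)) / (2 * u * v) : ℚ) : Qb) := by
        have h3 : (((2 * u * v : ℚ) : Qb)) ≠ 0 := by exact_mod_cast huv0
        rw [Rat.cast_div, eq_div_iff h3]
        rw [Rat.cast_sub, ← h1]
        ring
      exact LP_not_rat (S4_im_mem k) _ h2
  have hbot : ¬ c ∈ (⊥ : IntermediateField (IntermediateField.adjoin ℚ {im}) Qb) := by
    intro hmem
    rw [IntermediateField.mem_bot] at hmem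
    obtain ⟨z, hz⟩ := hmem
    apply hnot
    rw [← hz]
    exact z.2
  have halg0 : Algebra.IsAlgebraic ℚ Qb := AlgebraicClosure.isAlgebraic ℚ
  have hclo : IsAlgClosure ℚ Qb := ⟨inferInstance, inferInstance⟩
  have hgal : IsGalois ℚ Qb := inferInstance
  have hgal' : IsGalois (IntermediateField.adjoin ℚ {im}) Qb := inferInstance
  rw [InfiniteGalois.mem_bot_iff_fixed] at hbot
  push Not at hbot
  obtain ⟨f, hf⟩ := hbot
  refine ⟨AlgEquiv.restrictScalars ℚ f, ?_, ?_⟩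
  · exact f.commutes ⟨im, IntermediateField.mem_adjoin_simple_self ℚ im⟩
  · have h2 : (f c) ^ 2 = c ^ 2 := by
      rw [← map_pow, hc]
      exact map_ratCast f _
    rcases sq_eq_sq_iff_eq_or_eq_neg.mp h2 with h3 | h3
    · exact absurd h3 hf
    · exact h3

/-- PROOF: induction on `n`: if `σ^(2^n)` fixes `LP k n` pointwise then `σ^(2^(n+1))` fixes `LP k (n+1)`: an element
fixing `x = phi y` fixes or exchanges the two children (`swap_iff`, `eq_ch`), so its square fixes `y`. -/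
theorem pow_fix {k : ℤ} (hk : k ≠ 0) (n : ℕ) {σ : Qb ≃ₐ[ℚ] Qb} (hσ : σ im = im) :
    ∀ x ∈ LP k n, (σ ^ (2 ^ n)) x = x := by
  induction n with
  | zero =>
    intro x hx
    have h : x = im := hx
    rw [h, pow_zero, pow_one]
    exact hσ
  | succ n ih =>
    intro x hx
    obtain ⟨h1, h2⟩ := S4_child hk hx
    have h3 := ih _ h1
    have h4 : (σ ^ (2 ^ (n + 1))) x = (σ ^ (2 ^ n)) ((σ ^ (2 ^ n)) x) := by
      rw [pow_succ 2 n, pow_mul, pow_two]
      rfl
    rw [h4]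
    set τ := σ ^ (2 ^ n) with hτ
    set c := ch k (phi k x) with hcdef
    have h5 : τ (τ c) = c := by
      rcases swap_iff hk h1 h3 with ⟨h6, _⟩ | ⟨h6, _⟩
      · rw [h6, h6]
      · rw [h6, map_inv₀, h6, inv_inv]
    rcases h2 with h6 | h6
    · rw [h6]
      exact h5
    · rw [h6, map_inv₀, map_inv₀, h5]

/-- PROOF: if `σ` fixes `LP k n` pointwise (`Fix`) then it fixes all `LP k j`, `j ≤ n`: every element of `LP k j`
is `phi` of one of `LP k (j+1)` (`ch_mem`). -/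
theorem fix_mono {k : ℤ} (hk : k ≠ 0) {j n : ℕ} (hjn : j ≤ n) {σ : Qb ≃ₐ[ℚ] Qb}
    (hσ : Fix k n σ) : Fix k j σ := by
  induction n, hjn using Nat.le_induction with
  | base => exact hσ
  | succ m hm ih =>
    apply ih
    refine ⟨hσ.1, fun x hx => ?_⟩
    obtain ⟨h1, _, h3, _⟩ := ch_mem hk hx
    have h4 := hσ.2 _ h1
    rw [← h3, ← phi_map, h4]

/-- PROOF: `patterns` (S3) with `Γ = {σ | σ im = im}` (a subgroup of the Galois group), `X = LP k n` (finite),
`S = {σ | Fix k n σ}`, `sw σ x = if σ (ch k x) = ch k x then 0 else 1` (for general `σ` any junk is allowed; for `σ ∈ S` it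
says whether the children are exchanged: `swap_iff`).  `hhom`: compositions of swaps.  `hconj`: `γ` maps the children of
`x` to the children of `γ x`.  `h2`: `pow_fix`.  `hodd`: `σ (∏ ww) = (-1)^(number of swaps) ∏ ww` (`swap_iff`), and by
`prod_ww` `σ (rho c) = -(rho c)`, `ww ≠ 0`: the number is odd. -/
theorem full_of_odd {k : ℤ} (hk : k ≠ 0) (n : ℕ) (htr : Trans k n) {c : Qb}
    (hc : c ^ 2 = (((X k (n + 1)) ^ 2 + 1 : ℚ) : Qb))
    (h : ∃ σ : Qb ≃ₐ[ℚ] Qb, Fix k n σ ∧ σ c = -c) : Full k n := by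
  classical
  obtain ⟨σ0, hσ0, hσc⟩ := h
  let _ : MulAction S4_Ga (LP k n) := S4_act k n
  let _ : Fintype (LP k n) := (LP_finite hk n).fintype
  have hsmul : ∀ (γ : S4_Ga) (x : LP k n), ((γ • x : LP k n) : Qb) = γ.1 x.1 := fun _ _ => rfl
  set sw : S4_Ga → LP k n → ZMod 2 :=
    fun γ x => if γ.1 (ch k x.1) = ch k x.1 then 0 else 1 with hsw
  have key := patterns (Γ := S4_Ga) (X := LP k n) (S4_S k n) ?_ ?_ sw ?_ ?_ ?_ ?_ ?_
  · intro T
    obtain ⟨s, hs, hs2⟩ := key (fun x => if x.1 ∈ T then 1 else 0)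
    refine ⟨s.1, ⟨s.2, hs⟩, fun x hx => ?_⟩
    have h1 := hs2 ⟨x, hx⟩
    simp only [hsw] at h1
    have h2 := swap_iff hk hx (hs x hx)
    constructor
    · intro hT
      rw [if_pos hT] at h1
      rcases h2 with ⟨h3, _⟩ | ⟨h3, _⟩
      · rw [if_pos h3] at h1
        exact absurd h1 (by decide)
      · exact h3
    · intro hT
      rw [if_neg hT] at h1
      by_contra h3
      rw [if_neg h3] at h1
      exact absurd h1 (by decide)
  · -- normal
    constructor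
    intro s hs γ x hx
    show γ.1 (s.1 ((γ.1)⁻¹ x)) = x
    have h1 : (γ.1)⁻¹ x ∈ LP k n := LP_map (S4_inv_im γ.2) hx
    rw [hs _ h1, S4_apply_inv]
  · intro s hs x
    apply Subtype.ext
    rw [hsmul]
    exact hs x.1 x.2
  · -- hhom
    intro s hs t ht x
    simp only [hsw]
    have hne := ch_ne_inv hk x.2
    have h1 : (s * t).1 (ch k x.1) = s.1 (t.1 (ch k x.1)) := rfl
    rw [h1]
    rcases swap_iff hk x.2 (hs x.1 x.2) with ⟨h2, _⟩ | ⟨h2, _⟩ <;>
      rcases swap_iff hk x.2 (ht x.1 x.2) with ⟨h3, _⟩ | ⟨h3, _⟩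
    · rw [h3, h2]
      simp
    · rw [h3, map_inv₀, h2]
      rw [if_neg (Ne.symm hne), if_pos rfl]
      simp
    · rw [h3, h2]
      rw [if_neg (Ne.symm hne), if_pos rfl]
      simp
    · rw [h3, map_inv₀, h2, inv_inv]
      rw [if_neg (Ne.symm hne), if_pos rfl]
      decide
  · -- hconj
    intro γ s hs x
    simp only [hsw]
    rw [hsmul]
    have hx' : γ.1 x.1 ∈ LP k n := LP_map γ.2 x.2
    set d := ch k (γ.1 x.1) with hd
    have h1 : (γ * s * γ⁻¹).1 d = γ.1 (s.1 ((γ.1)⁻¹ d)) := rfl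
    rw [h1]
    have h2 : phi k ((γ.1)⁻¹ d) = x.1 := by
      rw [phi_map, (ch_mem hk hx').2.2.1, S4_inv_apply]
    have hd0 : (γ.1)⁻¹ d ≠ 0 := by
      intro h0
      have h00 : d = 0 := by
        rw [← S4_apply_inv γ.1 d, h0, map_zero]
      exact ch_ne_zero hk _ h00
    have h3 := eq_ch hk hd0 h2
    have h4 : (γ.1 (s.1 ((γ.1)⁻¹ d)) = d) ↔ (s.1 (ch k x.1) = ch k x.1) := by
      constructor
      · intro h5
        have h6 : s.1 ((γ.1)⁻¹ d) = (γ.1)⁻¹ d := by
          rw [← S4_inv_apply γ.1 (s.1 ((γ.1)⁻¹ d)), h5]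
        rcases h3 with h3 | h3
        · rwa [h3] at h6
        · rw [h3, map_inv₀] at h6
          exact inv_inj.mp h6
      · intro h5
        rcases h3 with h3 | h3
        · rw [h3, h5, ← h3, S4_apply_inv]
        · rw [h3, map_inv₀, h5, ← h3, S4_apply_inv]
    by_cases h5 : s.1 (ch k x.1) = ch k x.1
    · rw [if_pos h5, if_pos (h4.mpr h5)]
    · rw [if_neg h5, if_neg (fun h6 => h5 (h4.mp h6))]
  · -- htrans
    intro x y
    obtain ⟨σ, h1, h2⟩ := htr x.1 x.2 y.1 y.2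
    exact ⟨⟨σ, h1⟩, Subtype.ext h2⟩
  · -- h2
    intro γ
    refine ⟨n, fun x => Subtype.ext ?_⟩
    rw [hsmul, SubgroupClass.coe_pow]
    exact pow_fix hk n γ.2 x.1 x.2
  · -- hodd
    refine ⟨⟨σ0, hσ0.1⟩, hσ0.2, ?_⟩
    simp only [hsw]
    obtain ⟨rho, hrho, hrho2, hprod⟩ := prod_ww hk n hc
    have hP : ∏ x ∈ LPf hk n, ww k x = ∏ x : LP k n, ww k x.1 :=
      Finset.prod_subtype (LPf hk n) (fun x => mem_LPf hk) _
    have h1 : σ0 (∏ x : LP k n, ww k x.1) =
        (∏ x : LP k n, (if σ0 (ch k x.1) = ch k x.1 then (1 : Qb) else -1)) *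
          ∏ x : LP k n, ww k x.1 := by
      rw [map_prod, ← Finset.prod_mul_distrib]
      apply Finset.prod_congr rfl
      intro x _
      rcases swap_iff hk x.2 (hσ0.2 x.1 x.2) with ⟨h2, h3⟩ | ⟨h2, h3⟩
      · rw [if_pos h2, one_mul, h3]
      · rw [if_neg (by rw [h2]; exact Ne.symm (ch_ne_inv hk x.2)), h3]
        ring
    have h2 : σ0 (∏ x : LP k n, ww k x.1) = - ∏ x : LP k n, ww k x.1 := by
      rw [← hP, hprod, map_mul, hrho2 σ0 hσ0.1, hσc]
      ring
    have h3 : (∏ x : LP k n, ww k x.1) ≠ 0 :=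
      Finset.prod_ne_zero_iff.mpr (fun x _ => ww_ne_zero hk x.2)
    rcases S4_sign (Finset.univ : Finset (LP k n))
      (fun x => σ0 (ch k x.1) = ch k x.1) with ⟨_, h5⟩ | ⟨h4, _⟩
    · exfalso
      rw [h1, h5, one_mul] at h2
      apply h3
      have h6 : (2 : Qb) * ∏ x : LP k n, ww k x.1 = 0 := by
        linear_combination h2
      rcases mul_eq_zero.mp h6 with h7 | h7
      · exact absurd h7 two_ne_zero
      · exact h7
    · exact h4

/-- PROOF: let `y, y' ∈ LP k (n+1)`; `htr` moves `phi y'` to `phi y`, and `phi y` to `x`; so we may assume that both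
are children of `x`; if they are different then `y' = y⁻¹` and a conjugate of `σ` exchanges them (`swap_iff`). -/
theorem trans_succ_of_swap {k : ℤ} (hk : k ≠ 0) (n : ℕ) (htr : Trans k n)
    (h : ∃ (x : Qb) (σ : Qb ≃ₐ[ℚ] Qb), x ∈ LP k n ∧ σ im = im ∧ σ x = x ∧ σ (ch k x) ≠ ch k x) :
    Trans k (n + 1) := by
  obtain ⟨x, σ, hx, hσ, hσx, hne⟩ := h
  have hsw : σ (ch k x) = (ch k x)⁻¹ := by
    rcases swap_iff hk hx hσx with ⟨h1, _⟩ | ⟨h1, _⟩
    · exact absurd h1 hne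
    · exact h1
  have key : ∀ y ∈ LP k (n + 1), ∃ γ : Qb ≃ₐ[ℚ] Qb, γ im = im ∧ γ y = ch k x := by
    intro y hy
    obtain ⟨τ, h1, h2⟩ := htr (phi k y) hy.2 x hx
    have h3 : phi k (τ y) = x := by rw [phi_map, h2]
    have h4 : τ y ≠ 0 := LP_ne_zero (LP_map h1 hy)
    rcases eq_ch hk h4 h3 with h5 | h5
    · exact ⟨τ, h1, h5⟩
    · refine ⟨σ * τ, S4_mul_im hσ h1, ?_⟩
      show σ (τ y) = ch k x
      rw [h5, map_inv₀, hsw, inv_inv]
  intro y hy y' hy'
  obtain ⟨γ, h1, h2⟩ := key y hy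
  obtain ⟨γ', h1', h2'⟩ := key y' hy'
  refine ⟨γ'⁻¹ * γ, S4_mul_im (S4_inv_im h1') h1, ?_⟩
  show γ'⁻¹ (γ y) = y'
  rw [h2, ← h2', S4_inv_apply]

/-- PROOF: `c` is not in `ℚ(im)` (otherwise `c = u + v im`, `c^2 = u^2 - v^2 + 2 u v im` rational and positive, so `v = 0`
and `X^2+1 = u^2`), so some `σ` fixes `im` and `σ c = -c`.  Suppose that no element fixing `im` exchanges the
children of a vertex `x ∈ LP k n` it fixes.  Then (with `htr`) `w' (γ x0) := γ (ww k x0)` is well defined on `LP k n` for a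
fixed `x0`, `w'(x)^2 = x^2 - 4k^2`, so `w' = ± ww`, `∏ w' = ± rho c`, and `∏ w'` is fixed by all `γ` with `γ im = im`:
contradiction for `γ = σ`.  Then `trans_succ_of_swap`. -/
theorem trans_succ_of_not_square {k : ℤ} (hk : k ≠ 0) (n : ℕ) (htr : Trans k n)
    (h : ¬ IsSquare (C k.natAbs (n + 1))) : Trans k (n + 1) := by
  classical
  by_cases hsw : ∃ (x : Qb) (σ : Qb ≃ₐ[ℚ] Qb), x ∈ LP k n ∧ σ im = im ∧ σ x = x ∧
      σ (ch k x) ≠ ch k x
  · exact trans_succ_of_swap hk n htr hsw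
  exfalso
  push Not at hsw
  obtain ⟨c, hc⟩ := IsAlgClosed.exists_pow_nat_eq
    ((((X k (n + 1)) ^ 2 + 1 : ℚ) : Qb)) (n := 2) (by norm_num)
  obtain ⟨σ, hσ, hσc⟩ := S4_exists_sigma hk n hc h
  obtain ⟨rho, hrho, hrho2, hprod⟩ := prod_ww hk n hc
  obtain ⟨x0, hx0⟩ := S4_nonempty hk n
  have hch : ∀ x : Qb, ∃ γ : Qb ≃ₐ[ℚ] Qb, x ∈ LP k n → γ im = im ∧ γ x0 = x := by
    intro x
    by_cases hx : x ∈ LP k n
    · obtain ⟨γ, h1, h2⟩ := htr x0 hx0 x hx
      exact ⟨γ, fun _ => ⟨h1, h2⟩⟩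
    · exact ⟨1, fun h => absurd h hx⟩
  choose g hg using hch
  set w' : Qb → Qb := fun x => g x (ww k x0) with hw'
  have hfixw : ∀ γ : Qb ≃ₐ[ℚ] Qb, γ im = im → γ x0 = x0 → γ (ww k x0) = ww k x0 := by
    intro γ h1 h2
    have h3 := hsw x0 γ hx0 h1 h2
    rcases swap_iff hk hx0 h2 with ⟨_, h5⟩ | ⟨h4, _⟩
    · exact h5
    · exact absurd (h3.symm.trans h4) (ch_ne_inv hk hx0)
  have hequi : ∀ γ : Qb ≃ₐ[ℚ] Qb, γ im = im → ∀ x ∈ LP k n, γ (w' x) = w' (γ x) := by
    intro γ hγ x hx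
    have hγx : γ x ∈ LP k n := LP_map hγ hx
    obtain ⟨h1, h2⟩ := hg x hx
    obtain ⟨h3, h4⟩ := hg (γ x) hγx
    have h5 : ((g (γ x))⁻¹ * (γ * g x)) (ww k x0) = ww k x0 := by
      apply hfixw
      · exact S4_mul_im (S4_inv_im h3) (S4_mul_im hγ h1)
      · show (g (γ x))⁻¹ (γ (g x x0)) = x0
        rw [h2]
        have h7 := S4_inv_apply (g (γ x)) x0
        rwa [h4] at h7
    have h6 : (g (γ x))⁻¹ (γ (g x (ww k x0))) = ww k x0 := h5
    show γ (g x (ww k x0)) = g (γ x) (ww k x0)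
    conv_rhs => rw [← h6]
    rw [S4_apply_inv]
  have hsq : ∀ x ∈ LP k n, (w' x) ^ 2 = (ww k x) ^ 2 := by
    intro x hx
    obtain ⟨h1, h2⟩ := hg x hx
    show (g x (ww k x0)) ^ 2 = _
    rw [← map_pow, ww_sq hk, ww_sq hk, map_sub, map_pow, h2, map_mul, map_pow, map_intCast]
    congr 2
    exact map_ofNat (g x) 4
  have hprodsq : (∏ x ∈ LPf hk n, w' x) ^ 2 = (rho * c) ^ 2 := by
    rw [← hprod, ← Finset.prod_pow, ← Finset.prod_pow]
    exact Finset.prod_congr rfl (fun x hx => hsq x ((mem_LPf hk).mp hx))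
  have hfix : σ (∏ x ∈ LPf hk n, w' x) = ∏ x ∈ LPf hk n, w' x := by
    rw [map_prod]
    refine Finset.prod_nbij (fun x => σ x) ?_ ?_ ?_ ?_
    · intro x hx
      exact (mem_LPf hk).mpr (LP_map hσ ((mem_LPf hk).mp hx))
    · intro x _ y _ hxy
      exact σ.injective hxy
    · intro y hy
      refine ⟨σ⁻¹ y, ?_, S4_apply_inv σ y⟩
      exact (mem_LPf hk).mpr (LP_map (S4_inv_im hσ) ((mem_LPf hk).mp hy))
    · intro x hx
      exact hequi σ hσ x ((mem_LPf hk).mp hx)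
  have hc0 : rho * c ≠ 0 := by
    apply mul_ne_zero hrho
    intro h0
    rw [h0] at hc
    have h1 : (((X k (n + 1)) ^ 2 + 1 : ℚ)) = 0 := by
      have h2 : ((((X k (n + 1)) ^ 2 + 1 : ℚ)) : Qb) = 0 := by
        rw [← hc]
        ring
      exact_mod_cast h2
    nlinarith [sq_nonneg (X k (n + 1))]
  have hneg : σ (rho * c) = -(rho * c) := by
    rw [map_mul, hrho2 σ hσ, hσc]
    ring
  have h2 : (2 : Qb) * (rho * c) = 0 := by
    rcases sq_eq_sq_iff_eq_or_eq_neg.mp hprodsq with h1 | h1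
    · rw [h1, hneg] at hfix
      linear_combination -hfix
    · rw [h1, map_neg, hneg] at hfix
      linear_combination hfix
  rcases mul_eq_zero.mp h2 with h3 | h3
  · exact absurd h3 two_ne_zero
  · exact hc0 h3

end Pool.Agent.Lib.MP_e26d5c_nt.AG
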