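import Mathlib

set_option autoImplicit false

namespace Pool.Agent.Lib.MP_e26d5c_nt.AG

/-- a discrete valuation ring of characteristic `0` with uniformiser the odd prime `l` in which all units are
squares: the Witt vectors of an algebraic closure of `F_l`. -/
theorem exists_local (l : ℕ) (hl : l.Prime) (hl2 : l ≠ 2) :
    ∃ (O : Type) (_ : CommRing O) (_ : IsDomain O) (_ : IsDiscreteValuationRing O) (_ : CharZero O),
      Irreducible ((l : ℕ) : O) ∧ ∀ u : O, IsUnit u → ∃ v : O, v ^ 2 = u := by
  have hfact : Fact l.Prime := ⟨hl⟩
  let k : Type := AlgebraicClosure (ZMod l)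
  have hirr : Irreducible ((l : ℕ) : WittVector l k) := WittVector.irreducible l
  have hch : CharZero (WittVector l k) := by
    obtain ⟨q, hq⟩ := CharP.exists (WittVector l k)
    rcases CharP.char_is_prime_or_zero (WittVector l k) q with h | h
    · exfalso
      have h1 : ((q : ℕ) : WittVector l k) = 0 := CharP.cast_eq_zero _ q
      have h2 : ((q : ℕ) : k) = 0 := by
        have := congrArg (WittVector.constantCoeff : WittVector l k →+* k) h1
        rwa [map_natCast, map_zero] at this
      have h3 : l ∣ q := (CharP.cast_eq_zero_iff k l q).1 h2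
      have h4 : l = q := (Nat.prime_dvd_prime_iff_eq hl h).1 h3
      rw [← h4] at h1
      exact hirr.ne_zero h1
    · subst h
      exact CharP.charP_to_charZero _
  refine ⟨WittVector l k, inferInstance, inferInstance, inferInstance, hch, hirr, ?_⟩
  intro u hu
  have hu0 : u.coeff 0 ≠ 0 := by
    have h1 : IsUnit ((WittVector.constantCoeff : WittVector l k →+* k) u) := hu.map _
    exact h1.ne_zero
  obtain ⟨d, hd⟩ := IsAlgClosed.exists_pow_nat_eq (u.coeff 0) (n := 2) (by norm_num)
  have hd0 : d ≠ 0 := by
    rintro rfl
    apply hu0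
    rw [← hd]
    simp
  obtain ⟨a, ha⟩ := WittVector.constantCoeff_surjective (R := k) l d
  have ha' : a.coeff 0 = d := ha
  have hI : HenselianRing (WittVector l k) (Ideal.span {((l : ℕ) : WittVector l k)}) :=
    inferInstance
  have h2k : (2 : k) ≠ 0 := by
    intro h
    have h1 : ((2 : ℕ) : k) = 0 := by exact_mod_cast h
    have h3 : l ∣ 2 := (CharP.cast_eq_zero_iff k l 2).1 h1
    exact hl2 ((Nat.prime_dvd_prime_iff_eq hl Nat.prime_two).1 h3)
  obtain ⟨v, hv, -⟩ := hI.is_henselian (Polynomial.X ^ 2 - Polynomial.C u)
    (Polynomial.monic_X_pow_sub_C u (by norm_num)) a (by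
      rw [WittVector.mem_span_p_iff_coeff_zero_eq_zero]
      have h1 : (WittVector.constantCoeff : WittVector l k →+* k)
          (Polynomial.eval a (Polynomial.X ^ 2 - Polynomial.C u)) = 0 := by
        simp only [Polynomial.eval_sub, Polynomial.eval_pow, Polynomial.eval_X,
          Polynomial.eval_C, map_sub, map_pow, WittVector.constantCoeff_apply, ha', hd, sub_self]
      exact h1) (by
      refine IsUnit.map _ ?_
      apply WittVector.isUnit_of_coeff_zero_ne_zero
      have h1 : (WittVector.constantCoeff : WittVector l k →+* k)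
          (Polynomial.eval a (Polynomial.derivative (Polynomial.X ^ 2 - Polynomial.C u))) =
            2 * d := by
        have h5 : Polynomial.eval a (Polynomial.derivative (Polynomial.X ^ 2 - Polynomial.C u)) =
            2 * a := by
          rw [Polynomial.derivative_sub, Polynomial.derivative_C, sub_zero,
            Polynomial.derivative_X_pow]
          simp
        rw [h5, map_mul, map_ofNat, ha]
      intro h2
      have h3 : (2 : k) * d = 0 := by rw [← h1]; exact h2
      rcases mul_eq_zero.1 h3 with h4 | h4
      · exact h2k h4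
      · exact hd0 h4)
  refine ⟨v, ?_⟩
  have h1 : Polynomial.eval v (Polynomial.X ^ 2 - Polynomial.C u) = 0 := hv
  simp only [Polynomial.eval_sub, Polynomial.eval_pow, Polynomial.eval_X, Polynomial.eval_C] at h1
  exact sub_eq_zero.1 h1

end Pool.Agent.Lib.MP_e26d5c_nt.AG
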