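import Pool.Agent.Lib.MP_e26d5c_nt.AG.S4
import Pool.Agent.Lib.MP_e26d5c_nt.AG.S5
import Pool.Agent.Lib.MP_e26d5c_nt.AG.R3

set_option autoImplicit false

namespace Pool.Agent.Lib.MP_e26d5c_nt.AG

section
variable {O : Type} [CommRing O] [IsDomain O] [IsDiscreteValuationRing O] [CharZero O]
  {E : Type} [Field E] [Algebra O E] [IsFractionRing O E]
  {F : Type} [Field F] [Algebra E F]

/-- an integer prime to `l` is a unit of `O`.  PROOF: Bezout `a n + b l = 1` and `l` is in the maximal ideal (a non-unit `n`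
would put `1` into the maximal ideal). -/
theorem isUnit_int {l : ℕ} (hl : Irreducible ((l : ℕ) : O)) {n : ℤ} (hn : ¬ (l : ℤ) ∣ n)
    (hlp : l.Prime) : IsUnit (n : O) := by
  have hco : IsCoprime (l : ℤ) n :=
    (Prime.coprime_iff_not_dvd (Nat.prime_iff_prime_int.mp hlp)).mpr hn
  obtain ⟨a, b, hab⟩ := hco
  by_contra hnu
  have h1 : (n : O) ∈ IsLocalRing.maximalIdeal O := (IsLocalRing.mem_maximalIdeal _).mpr hnu
  have h2 : ((l : ℕ) : O) ∈ IsLocalRing.maximalIdeal O :=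
    (IsLocalRing.mem_maximalIdeal _).mpr hl.not_isUnit
  have h3 : (1 : O) ∈ IsLocalRing.maximalIdeal O := by
    have h4 : (1 : O) = (a : O) * ((l : ℕ) : O) + (b : O) * (n : O) := by
      have h5 := congrArg (Int.cast : ℤ → O) hab
      push_cast at h5
      exact h5.symm
    rw [h4]
    exact Ideal.add_mem _ (Ideal.mul_mem_left _ _ h2) (Ideal.mul_mem_left _ _ h1)
  exact (IsLocalRing.mem_maximalIdeal _).mp h3 isUnit_one

/-- divisibility of integers by `l` may be tested in `O`.  PROOF: `isUnit_int`. -/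
theorem dvd_int {l : ℕ} (hl : Irreducible ((l : ℕ) : O)) {n : ℤ} (hlp : l.Prime)
    (h : ((l : ℕ) : O) ∣ (n : O)) : (l : ℤ) ∣ n := by
  by_contra hn
  exact hl.not_isUnit (isUnit_of_dvd_unit h (isUnit_int hl hn hlp))

private theorem X_two_k {k : ℤ} {l : ℕ}
    (hl : Irreducible ((l : ℕ) : O)) (hlp : l.Prime)
    (hlk : ¬ l ∣ 2 * k.natAbs) : IsUnit (2 * (k : O)) := by
  have h1 : ¬ (l : ℤ) ∣ 2 * k := by
    intro h2
    apply hlk
    have h3 := Int.natAbs_dvd_natAbs.mpr h2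
    simpa [Int.natAbs_mul] using h3
  have h4 := isUnit_int (O := O) hl h1 hlp
  push_cast at h4
  exact h4

/-- the children of a unit vertex are units, if `x^2 - 4k^2` is a unit.
PROOF: `x = ι y + (ι y)⁻¹)` times `k`; `w := ι (ww)` satisfies `w^2 = x^2 - 4k^2 ∈ O^×`, a square `v^2` of a unit `v ∈ O`, so
`w = ± v ∈ O`; `ι y = (x + w)/(2k) ∈ O` (`2k` unit), and its inverse is the other root, also in `O`. -/
theorem child_unit {k : ℤ} (hk : k ≠ 0) {l : ℕ} (hl : Irreducible ((l : ℕ) : O)) (hlp : l.Prime)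
    (hlk : ¬ l ∣ 2 * k.natAbs) (hsq : ∀ u : O, IsUnit u → ∃ v : O, v ^ 2 = u) (ι : Qb →+* F)
    {x y : Qb} (hy : y ≠ 0) (hxy : phi k y = x) {a : O}
    (ha : ι x = algebraMap E F (algebraMap O E a))
    (hδ : IsUnit (a ^ 2 - 4 * (k : O) ^ 2)) :
    ∃ b : O, IsUnit b ∧ ι y = algebraMap E F (algebraMap O E b) := by
  obtain ⟨v, hv⟩ := hsq _ hδ
  obtain ⟨u, hu⟩ := X_two_k (O := O) hl hlp hlk
  set f : O →+* F := (algebraMap E F).comp (algebraMap O E) with hf
  have ha' : ι x = f a := ha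
  have hfk : f (k : O) = (k : F) := map_intCast f k
  have hιk : ι (k : Qb) = (k : F) := map_intCast ι k
  have hq : (k : F) * (ι y ^ 2 + 1) = f a * ι y := by
    have h1 : (k : Qb) * (y ^ 2 + 1) = x * y := by
      rw [← hxy]
      unfold phi
      field_simp
    have h2 := congrArg ι h1
    simp only [map_mul, map_add, map_pow, map_one, hιk, ha'] at h2
    exact h2
  have hfu : f (u : O) = 2 * (k : F) := by
    rw [hu, map_mul, hfk, map_ofNat]
  have hfv : f v ^ 2 = f a ^ 2 - 4 * (k : F) ^ 2 := by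
    have h2 := congrArg f hv
    simp only [map_pow, map_sub, map_mul, hfk, map_ofNat] at h2
    exact h2
  have hww : (2 * (k : F) * ι y - f a) ^ 2 = f v ^ 2 := by
    rw [hfv]
    linear_combination (4 * (k : F)) * hq
  have hui : f (u : O) * f ((u⁻¹ : Oˣ) : O) = 1 := by
    rw [← map_mul, Units.mul_inv, map_one]
  have key : ∀ w : O, w ^ 2 = a ^ 2 - 4 * (k : O) ^ 2 → 2 * (k : F) * ι y - f a = f w →
      ∃ b : O, IsUnit b ∧ ι y = algebraMap E F (algebraMap O E b) := by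
    intro w hw hwy
    refine ⟨(a + w) * ((u⁻¹ : Oˣ) : O), ?_, ?_⟩
    · refine IsUnit.of_mul_eq_one ((a - w) * ((u⁻¹ : Oˣ) : O)) ?_
      have h1 : (u : O) * ((u⁻¹ : Oˣ) : O) = 1 := Units.mul_inv u
      have h2 : (a + w) * (a - w) = (u : O) ^ 2 := by
        rw [hu]
        linear_combination -hw
      calc (a + w) * ((u⁻¹ : Oˣ) : O) * ((a - w) * ((u⁻¹ : Oˣ) : O))
          = ((a + w) * (a - w)) * ((u⁻¹ : Oˣ) : O) ^ 2 := by ring
        _ = ((u : O) * ((u⁻¹ : Oˣ) : O)) ^ 2 := by rw [h2]; ring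
        _ = 1 := by rw [h1]; ring
    · show ι y = f ((a + w) * ((u⁻¹ : Oˣ) : O))
      rw [map_mul, map_add]
      have h3 : f a + f w = f (u : O) * ι y := by
        rw [hfu]
        linear_combination -hwy
      rw [h3]
      linear_combination (-(ι y)) * hui
  rcases sq_eq_sq_iff_eq_or_eq_neg.mp hww with h1 | h1
  · exact key v hv h1
  · exact key (-v) (by rw [neg_sq]; exact hv) (by rw [map_neg]; exact h1)

/-- the reduction argument.  Let `x ∈ LP k n` whose forward orbit `x, phi x, ..., phi^n x = im` consists of units of `O`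
(elements `a i`, `a 0` for `x`).  If `l` divides `a 0 ^2 - 4 k^2` then `l` divides `C_{n+1}`.
PROOF: `a_0 ≡ 2 e k (mod l)`, `e = ±1` (`l` prime in `O`), i.e. `B_1 a_0 ≡ e A_1`-type congruence
(`K = k.natAbs`, `k = ± K`).  Claim by induction: `B_{i+1} a_i ≡ ± A_{i+1} (mod l)` in `O`, for `i ≤ n`:
`a_{i+1} a_i = k (a_i^2 + 1)`; multiply by `Gg_{i+1}` and use `A_succ`, `B_succ`:
`B_{i+2} a_{i+1} Gg = A_{i+1} B_{i+1} a_{i+1}`, `A_{i+1} ≡ ± B_{i+1} a_i`, so `≡ ± B_{i+1}^2 a_i a_{i+1} = ± k (B^2 a_i^2 + B^2) ≡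
± k C_{i+1} = ± A_{i+2} Gg`; `Gg` is a unit (it divides `K`).  For `i = n`: `a_n = im`-value with `a_n^2 = -1`:
`-B_{n+1}^2 ≡ A_{n+1}^2`, so `l ∣ C_{n+1}` in `O`, hence in `ℤ` (`dvd_int`). -/
theorem reduction {k : ℤ} (hk : k ≠ 0) {l : ℕ} (hl : Irreducible ((l : ℕ) : O)) (hlp : l.Prime)
    (hlk : ¬ l ∣ 2 * k.natAbs) (n : ℕ) (a : ℕ → O)
    (hrec : ∀ i, i < n → a (i + 1) * a i = (k : O) * (a i ^ 2 + 1)) (hend : a n ^ 2 = -1)
    (h : ((l : ℕ) : O) ∣ a 0 ^ 2 - 4 * (k : O) ^ 2) : l ∣ C k.natAbs (n + 1) := by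
  have hK : ((k.natAbs : ℕ) : O) ^ 2 = (k : O) ^ 2 := by
    have h1 : ((k.natAbs : ℕ) : ℤ) ^ 2 = k ^ 2 := Int.natAbs_sq k
    have h2 : (((k.natAbs : ℕ) : ℤ) : O) ^ 2 = (k : O) ^ 2 := by
      rw [← Int.cast_pow, h1, Int.cast_pow]
    rw [Int.cast_natCast] at h2
    exact h2
  have hprime : Prime ((l : ℕ) : O) := hl.prime
  have hG : ∀ i, IsUnit ((Gg k.natAbs i : ℕ) : O) := by
    intro i
    have h1 : ¬ (l : ℤ) ∣ ((Gg k.natAbs i : ℕ) : ℤ) := by
      intro h2
      have h3 : l ∣ Gg k.natAbs i := by exact_mod_cast h2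
      exact hlk (Dvd.dvd.mul_left (h3.trans (Gg_dvd _ _)) 2)
    have h4 := isUnit_int (O := O) hl h1 hlp
    push_cast at h4
    exact h4
  have claim : ∀ i, i ≤ n → ((l : ℕ) : O) ∣
      ((B k.natAbs (i + 1) : ℕ) : O) ^ 2 * a i ^ 2 - ((A k.natAbs (i + 1) : ℕ) : O) ^ 2 := by
    intro i
    induction i with
    | zero =>
      intro _
      rw [A_one, B_one]
      have h1 : ((1 : ℕ) : O) ^ 2 * a 0 ^ 2 - ((2 * k.natAbs : ℕ) : O) ^ 2 =
          a 0 ^ 2 - 4 * (k : O) ^ 2 := by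
        push_cast
        linear_combination (-4) * hK
      rw [h1]
      exact h
    | succ i ih =>
      intro hi
      have ih' := ih (by omega)
      have hr := hrec i (by omega)
      have hA := congrArg (Nat.cast : ℕ → O) (A_succ k.natAbs (i + 1))
      have hB := congrArg (Nat.cast : ℕ → O) (B_succ k.natAbs (i + 1))
      have hCd : C k.natAbs (i + 1) = A k.natAbs (i + 1) ^ 2 + B k.natAbs (i + 1) ^ 2 := rfl
      rw [hCd] at hA
      push_cast at hA hB
      set G : O := ((Gg k.natAbs (i + 1) : ℕ) : O) with hGdef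
      set A' : O := ((A k.natAbs (i + 1 + 1) : ℕ) : O)
      set B' : O := ((B k.natAbs (i + 1 + 1) : ℕ) : O)
      set A0 : O := ((A k.natAbs (i + 1) : ℕ) : O)
      set B0 : O := ((B k.natAbs (i + 1) : ℕ) : O)
      set K0 : O := ((k.natAbs : ℕ) : O)
      have h1 : G ^ 2 * (B' ^ 2 * a (i + 1) ^ 2 - A' ^ 2) =
          (B0 ^ 2 * a i ^ 2 - A0 ^ 2) *
            ((k : O) ^ 2 * (B0 ^ 2 * a i ^ 2 + 2 * B0 ^ 2 + A0 ^ 2) -
              B0 ^ 2 * a (i + 1) ^ 2) := by
        have h2 : (G * B') ^ 2 = (A0 * B0) ^ 2 := by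
          rw [← hB]
          ring
        have h3 : (G * A') ^ 2 = (k : O) ^ 2 * (A0 ^ 2 + B0 ^ 2) ^ 2 := by
          have h4 : (G * A') ^ 2 = (K0 * (A0 ^ 2 + B0 ^ 2)) ^ 2 := by
            rw [← hA]
            ring
          rw [h4, mul_pow, hK]
        have h5 : (a (i + 1) * a i) ^ 2 = (k : O) ^ 2 * (a i ^ 2 + 1) ^ 2 := by
          rw [hr]
          ring
        linear_combination (a (i + 1) ^ 2) * h2 - h3 + (B0 ^ 4) * h5
      have h6 : ((l : ℕ) : O) ∣ G ^ 2 * (B' ^ 2 * a (i + 1) ^ 2 - A' ^ 2) := by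
        rw [h1]
        exact Dvd.dvd.mul_right ih' _
      have hGu : IsUnit (G ^ 2) := (hG (i + 1)).pow 2
      exact (hGu.dvd_mul_left).mp h6
  have h1 := claim n le_rfl
  rw [hend] at h1
  have h2 : ((l : ℕ) : O) ∣ ((C k.natAbs (n + 1) : ℕ) : O) := by
    have h3 : ((C k.natAbs (n + 1) : ℕ) : O) =
        -(((B k.natAbs (n + 1) : ℕ) : O) ^ 2 * (-1) - ((A k.natAbs (n + 1) : ℕ) : O) ^ 2) := by
      have hCd : C k.natAbs (n + 1) = A k.natAbs (n + 1) ^ 2 + B k.natAbs (n + 1) ^ 2 := rfl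
      rw [hCd]
      push_cast
      ring
    rw [h3]
    exact (dvd_neg).mpr h1
  have h4 : ((l : ℕ) : O) ∣ (((C k.natAbs (n + 1) : ℕ) : ℤ) : O) := by
    rw [Int.cast_natCast]
    exact h2
  have h5 := dvd_int (O := O) hl hlp h4
  exact_mod_cast h5

private theorem X_orbit {k : ℤ} {j : ℕ} {x : Qb} (hx : x ∈ LP k j) :
    ∀ i, i ≤ j → (phi k)^[i] x ∈ LP k (j - i) := by
  intro i
  induction i with
  | zero =>
    intro _
    exact hx
  | succ i ih =>
    intro hi
    have h1 := ih (by omega)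
    have h2 : j - i = (j - (i + 1)) + 1 := by omega
    rw [h2] at h1
    rw [Function.iterate_succ_apply']
    exact h1.2

/-- all points of `LP k j`, `j ≤ n`, are units of `O`, if `l ∤ C_{j+1}` for `j < n`.
PROOF: induction on `j`: `ι im` squares to `-1 = v^2`, so it is `± v` (`hsq`).  Step: for `y ∈ LP k (j+1)`, `x = phi k y`:
`x^2 - 4k^2` is a unit by `reduction` (applied to the forward orbit of `x`, all units by induction; `a i` with
`phi`-relation) and `child_unit`.  (A non-unit of `O` is divisible by `l`.) -/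
theorem LP_unit {k : ℤ} (hk : k ≠ 0) {l : ℕ} (hl : Irreducible ((l : ℕ) : O)) (hlp : l.Prime)
    (hlk : ¬ l ∣ 2 * k.natAbs) (hsq : ∀ u : O, IsUnit u → ∃ v : O, v ^ 2 = u) (ι : Qb →+* F)
    (n : ℕ) (hC : ∀ j, j < n → ¬ l ∣ C k.natAbs (j + 1)) :
    ∀ j ≤ n, ∀ x ∈ LP k j, ∃ b : O, IsUnit b ∧ ι x = algebraMap E F (algebraMap O E b) := by
  intro j
  induction j using Nat.strong_induction_on with
  | _ j ih =>
  intro hj
  rcases j with _ | j
  · intro x hx
    have hx' : x = im := hx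
    obtain ⟨v, hv⟩ := hsq (-1) isUnit_one.neg
    have hvu : IsUnit v := by
      have h1 : IsUnit (v ^ 2) := by
        rw [hv]
        exact isUnit_one.neg
      exact (isUnit_pow_iff two_ne_zero).mp h1
    have h1 : (ι x) ^ 2 = (algebraMap E F (algebraMap O E v)) ^ 2 := by
      rw [← map_pow, ← map_pow, ← map_pow, hv, hx', im_sq]
      simp
    rcases sq_eq_sq_iff_eq_or_eq_neg.mp h1 with h2 | h2
    · exact ⟨v, hvu, h2⟩
    · refine ⟨-v, hvu.neg, ?_⟩
      rw [map_neg, map_neg]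
      exact h2
  · intro y hy
    have hxj : phi k y ∈ LP k j := hy.2
    set f : O →+* F := (algebraMap E F).comp (algebraMap O E) with hf
    have hfinj : Function.Injective f :=
      (algebraMap E F).injective.comp (IsFractionRing.injective O E)
    -- the forward orbit of `x`
    have hex : ∀ i : ℕ, ∃ b : O, i ≤ j → ι ((phi k)^[i] (phi k y)) = f b := by
      intro i
      by_cases hi : i ≤ j
      · obtain ⟨b, _, hb⟩ := ih (j - i) (by omega) (by omega) _ (X_orbit hxj i hi)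
        exact ⟨b, fun _ => hb⟩
      · exact ⟨0, fun h => absurd h hi⟩
    choose a ha using hex
    have ha0 : ι (phi k y) = f (a 0) := ha 0 (Nat.zero_le _)
    refine child_unit (E := E) hk hl hlp hlk hsq ι hy.1 rfl ha0 ?_
    by_contra hnu
    have h1 : a 0 ^ 2 - 4 * (k : O) ^ 2 ∈ IsLocalRing.maximalIdeal O :=
      (IsLocalRing.mem_maximalIdeal _).mpr hnu
    rw [hl.maximalIdeal_eq, Ideal.mem_span_singleton] at h1
    refine hC j (by omega) (reduction (O := O) hk hl hlp hlk j a ?_ ?_ h1)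
    · intro i hi
      apply hfinj
      have h2 := ha i (by omega)
      have h3 := ha (i + 1) (by omega)
      have h4 : (phi k)^[i] (phi k y) ≠ 0 := LP_ne_zero (X_orbit hxj i (by omega))
      have h5 : (phi k)^[i + 1] (phi k y) * (phi k)^[i] (phi k y) =
          (k : Qb) * (((phi k)^[i] (phi k y)) ^ 2 + 1) := by
        rw [Function.iterate_succ_apply']
        show (k : Qb) * (((phi k)^[i] (phi k y)) ^ 2 + 1) / ((phi k)^[i] (phi k y)) *
          (phi k)^[i] (phi k y) = _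
        exact div_mul_cancel₀ _ h4
      have h6 := congrArg ι h5
      simp only [map_mul, map_add, map_pow, map_one, map_intCast] at h6
      rw [h2, h3] at h6
      simp only [map_mul, map_add, map_pow, map_one, map_intCast]
      exact h6
    · apply hfinj
      have h2 := ha j le_rfl
      have h3 : (phi k)^[j] (phi k y) = im := by
        have h4 := X_orbit hxj j le_rfl
        rw [Nat.sub_self] at h4
        exact h4
      rw [h3] at h2
      rw [map_pow, ← h2, ← map_pow, im_sq]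
      simp

end

end Pool.Agent.Lib.MP_e26d5c_nt.AG
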