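import Pool.Agent.Lib.MP_e26d5c_nt.AG.S4
import Pool.Agent.Lib.MP_e26d5c_nt.AG.S5
import Pool.Agent.Lib.MP_e26d5c_nt.AG.R3
import Pool.Agent.Lib.MP_e26d5c_nt.AG.S6a

set_option autoImplicit false

namespace Pool.Agent.Lib.MP_e26d5c_nt.AG

section
variable {O : Type} [CommRing O] [IsDomain O] [IsDiscreteValuationRing O] [CharZero O]
  {E : Type} [Field E] [Algebra O E] [IsFractionRing O E]
  {F : Type} [Field F] [Algebra E F]

/-- valuation.  PROOF: `e^2 = C/B^2` in `E`; write `B e = y ∈ E`, `y^2 = C` (a natural number), so `y` is integral over `O`,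
`y ∈ O` (DVR integrally closed); in the DVR `O` the exact power of the uniformiser `l` dividing the natural number `C` is
`padicValNat l C` (`isUnit_int`), odd, contradiction to `y^2 = C`. -/
theorem not_square_local {l : ℕ} (hl : Irreducible ((l : ℕ) : O)) (hlp : l.Prime) {c b : ℕ}
    (hc : c ≠ 0) (hb : b ≠ 0) (hodd : Odd (padicValNat l c)) (z : E)
    (hz : z ^ 2 * (b : E) ^ 2 = (c : E)) : False := by
  have hint : IsIntegral O (z * (b : E)) := by
    apply IsIntegral.of_pow (n := 2) (by norm_num)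
    rw [mul_pow, hz]
    have h1 : (c : E) = algebraMap O E (c : O) := by simp
    rw [h1]
    exact isIntegral_algebraMap
  obtain ⟨y, hy⟩ := (IsIntegrallyClosed.isIntegral_iff (R := O) (K := E)).1 hint
  have hyc : y ^ 2 = (c : O) := by
    apply IsFractionRing.injective O E
    rw [map_pow, hy, mul_pow, hz]
    simp
  set k := padicValNat l c with hk
  obtain ⟨c', hc'⟩ : l ^ k ∣ c := pow_padicValNat_dvd
  have hc'l : ¬ l ∣ c' := by
    intro h
    have h2 : l ^ (k + 1) ∣ c := by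
      rw [hc', pow_succ]
      exact Nat.mul_dvd_mul_left _ h
    have := Fact.mk hlp
    have h3 := (padicValNat_dvd_iff_le hc).1 h2
    omega
  have hu : IsUnit ((c' : ℤ) : O) := isUnit_int hl (by exact_mod_cast hc'l) hlp
  have hcne : (c : O) ≠ 0 := by exact_mod_cast hc
  have hy0 : y ≠ 0 := by
    rintro rfl
    apply hcne
    rw [← hyc]
    simp
  obtain ⟨n, hn⟩ := IsDiscreteValuationRing.associated_pow_irreducible hy0 hl
  have h1 : Associated ((l : O) ^ k) (y ^ 2) := by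
    obtain ⟨u, hu⟩ := hu
    refine ⟨u, ?_⟩
    rw [hu, hyc, hc']
    push_cast
    rfl
  have h2 : Associated (y ^ 2) ((l : O) ^ (n * 2)) := by
    rw [pow_mul]
    exact hn.pow_pow
  have h3 := h1.trans h2
  have h4 : k = n * 2 := by
    have d1 := h3.dvd
    have d2 := h3.symm.dvd
    have e1 := (pow_dvd_pow_iff hl.ne_zero hl.not_isUnit).1 d1
    have e2 := (pow_dvd_pow_iff hl.ne_zero hl.not_isUnit).1 d2
    omega
  rw [h4] at hodd
  obtain ⟨m, hm⟩ := hodd
  omega

end

/-- B5.  PROOF: `exists_local`; `E = FractionRing O`, `F = AlgebraicClosure E`, `ι : Qb →+* F` by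
`IsAlgClosed.lift` (char 0: `F` is a `ℚ`-algebra).  Let `L = IntermediateField.adjoin ℚ (LP k n ∪ {im})`.  All elements of
`L` are mapped by `ι` into the image of `E` (`LP_unit`; the preimage of the field `E` is a subfield).  If `c ∈ L`
then `ι c = z ∈ E` with `z^2 B^2 = C` (`X_sq_add_one`): `not_square_local`.  So `c ∉ L`; `Qb/L` is Galois
(`IsAlgClosure`, char 0), so some `σ ∈ Aut(Qb/L)` has `σ c ≠ c` (`InfiniteGalois.fixedField_...` or
`IsGalois.mem_bot_iff_fixed`), so `σ c = -c`.  `hC`: `l` divides only `C_{n+1}` (`not_dvd_C`). -/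
theorem exists_odd {k : ℤ} (hk : k ≠ 0) (n : ℕ) (h : Ram k.natAbs (n + 1)) {c : Qb}
    (hc : c ^ 2 = (((X k (n + 1)) ^ 2 + 1 : ℚ) : Qb)) :
    ∃ σ : Qb ≃ₐ[ℚ] Qb, Fix k n σ ∧ σ c = -c := by
  obtain ⟨l, hlp, hlk, hodd⟩ := h
  have hK : 0 < k.natAbs := Int.natAbs_pos.2 hk
  have hl2 : l ≠ 2 := by
    rintro rfl
    exact hlk (Dvd.intro _ rfl)
  have hlk' : ¬ l ∣ k.natAbs := fun h => hlk (h.mul_left 2)
  have hlC : l ∣ C k.natAbs (n + 1) := by
    by_contra hnot
    rw [padicValNat.eq_zero_of_not_dvd hnot] at hodd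
    exact Nat.not_odd_zero hodd
  have hCj : ∀ j, j < n → ¬ l ∣ C k.natAbs (j + 1) := fun j hj =>
    not_dvd_C hK hlp hlk' hlC (by omega)
  obtain ⟨O, i1, i2, i3, i4, hirr, hsq⟩ := exists_local l hlp hl2
  let E := FractionRing O
  let F := AlgebraicClosure E
  have cE : CharZero E := charZero_of_injective_algebraMap (IsFractionRing.injective O E)
  have cF : CharZero F := charZero_of_injective_algebraMap (algebraMap E F).injective
  have halg : Algebra.IsAlgebraic ℚ Qb := AlgebraicClosure.isAlgebraic ℚ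
  have hclo : IsAlgClosure ℚ Qb := ⟨inferInstance, inferInstance⟩
  let ι : Qb →ₐ[ℚ] F := IsAlgClosed.lift
  have hLP := LP_unit (O := O) (E := E) (F := F) hk hirr hlp hlk hsq ι.toRingHom n hCj
  let T : Subfield Qb := (algebraMap E F).fieldRange.comap ι.toRingHom
  let S : IntermediateField ℚ Qb := T.toIntermediateField (fun q => by
    show ι.toRingHom (algebraMap ℚ Qb q) ∈ (algebraMap E F).fieldRange
    refine ⟨algebraMap ℚ E q, ?_⟩
    rw [← IsScalarTower.algebraMap_apply ℚ E F]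
    exact (ι.commutes q).symm)
  have hS : ∀ x : Qb, x ∈ S ↔ ∃ z : E, algebraMap E F z = ι.toRingHom x := fun x => Iff.rfl
  have hcS : c ∉ S := by
    intro hcm
    obtain ⟨z, hz⟩ := (hS c).1 hcm
    have hB : (B k.natAbs (n + 1) : ℚ) ≠ 0 := by
      exact_mod_cast (B_pos hK (n + 1)).ne'
    refine not_square_local (O := O) (E := E) hirr hlp (C_pos hK (n + 1)).ne' (B_pos hK (n + 1)).ne' hodd z ?_
    apply (algebraMap E F).injective
    rw [map_mul, map_pow, hz, map_pow, map_natCast, map_natCast, ← map_pow, hc, X_sq_add_one hk]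
    have h1 : ι.toRingHom (((C k.natAbs (n + 1) : ℚ) / (B k.natAbs (n + 1) : ℚ) ^ 2 : ℚ) : Qb) =
        (C k.natAbs (n + 1) : F) / (B k.natAbs (n + 1) : F) ^ 2 := by
      rw [map_ratCast]
      push_cast
      rfl
    rw [h1]
    have h2 : (B k.natAbs (n + 1) : F) ≠ 0 := by
      exact_mod_cast (B_pos hK (n + 1)).ne'
    exact div_mul_cancel₀ _ (pow_ne_zero 2 h2)
  have hgal : IsGalois ℚ Qb := inferInstance
  have hgal' : IsGalois S Qb := inferInstance
  have hex : ∃ σ : Qb ≃ₐ[S] Qb, σ c ≠ c := by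
    by_contra hno
    have hno : ∀ σ : Qb ≃ₐ[S] Qb, σ c = c := fun σ => by
      by_contra h
      exact hno ⟨σ, h⟩
    have := (InfiniteGalois.mem_bot_iff_fixed (k := S) c).2 hno
    rw [IntermediateField.mem_bot] at this
    obtain ⟨w, hw⟩ := this
    apply hcS
    rw [← hw]
    exact w.2
  obtain ⟨σ, hσ⟩ := hex
  have hfix : ∀ x : Qb, x ∈ S → σ x = x := fun x hx => σ.commutes ⟨x, hx⟩
  have hLPS : ∀ j ≤ n, ∀ x ∈ LP k j, x ∈ S := by
    intro j hj x hx
    obtain ⟨b, -, hb⟩ := hLP j hj x hx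
    exact (hS x).2 ⟨_, hb.symm⟩
  refine ⟨σ.restrictScalars ℚ, ⟨hfix _ (hLPS 0 (Nat.zero_le n) im rfl), fun x hx => hfix _ (hLPS n le_rfl x hx)⟩, ?_⟩
  have hσc : (σ c) ^ 2 = c ^ 2 := by
    rw [← map_pow, hc]
    exact hfix _ (S.algebraMap_mem _)
  rcases sq_eq_sq_iff_eq_or_eq_neg.1 hσc with h1 | h1
  · exact absurd h1 hσ
  · exact h1

/-- PROOF: `exists_odd`, `full_of_odd`. -/
theorem full_of_ram {k : ℤ} (hk : k ≠ 0) (n : ℕ) (htr : Trans k n) (h : Ram k.natAbs (n + 1)) :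
    Full k n := by
  obtain ⟨c, hc⟩ := IsAlgClosed.exists_pow_nat_eq (((((X k (n + 1)) ^ 2 + 1 : ℚ)) : Qb))
    (n := 2) (by norm_num)
  exact full_of_odd hk n htr hc (exists_odd hk n h hc)

end Pool.Agent.Lib.MP_e26d5c_nt.AG
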