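import Pool.Agent.Lib.MP_e26d5c_nt.AG.S4

set_option autoImplicit false

namespace Pool.Agent.Lib.MP_e26d5c_nt.AG

private theorem S7_norm_two : ‖(2 : ℤ_[2])‖ = 1 / 2 := by
  have h := PadicInt.norm_p (p := 2)
  norm_num at h ⊢
  exact h

private theorem S7_coe8 : ((8 : ℤ_[2]) : ℚ_[2]) = 8 := by
  have : ((8 : ℤ_[2])) = ((8 : ℕ) : ℤ_[2]) := by norm_num
  rw [this, PadicInt.coe_natCast]
  norm_num

private theorem S7_coe4 : ((4 : ℤ_[2]) : ℚ_[2]) = 4 := by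
  have : ((4 : ℤ_[2])) = ((4 : ℕ) : ℤ_[2]) := by norm_num
  rw [this, PadicInt.coe_natCast]
  norm_num

private theorem S7_hensel (t : ℤ_[2]) : ∃ y : ℤ_[2], y ^ 2 = 1 + 8 * t ∧ ‖y - 1‖ < 1 / 2 := by
  set F : Polynomial ℤ_[2] := Polynomial.X ^ 2 - Polynomial.C (1 + 8 * t) with hF
  have h1 : Polynomial.aeval (1 : ℤ_[2]) F = -(8 * t) := by
    simp [hF]
  have h2 : Polynomial.aeval (1 : ℤ_[2]) (Polynomial.derivative F) = 2 := by
    simp [hF]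
    norm_num
  have h3 : ‖(8 * t : ℤ_[2])‖ ≤ 1 / 8 := by
    have h8 : (8 : ℤ_[2]) = 2 * 2 * 2 := by norm_num
    rw [norm_mul, h8, norm_mul, norm_mul, S7_norm_two]
    have := PadicInt.norm_le_one t
    nlinarith [norm_nonneg t]
  obtain ⟨z, hz1, hz2, -, -⟩ := hensels_lemma (F := F) (a := (1 : ℤ_[2])) (by
    rw [h1, h2, norm_neg, S7_norm_two]
    have : (1 / 8 : ℝ) < (1 / 2) ^ 2 := by norm_num
    linarith)
  refine ⟨z, ?_, ?_⟩
  · have : z ^ 2 - (1 + 8 * t) = 0 := by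
      simpa [hF] using hz1
    linear_combination this
  · rw [h2, S7_norm_two] at hz2
    exact hz2

/-- PROOF: `x = 1 + 8t`, Hensel's lemma (`hensels_lemma` for `F = Y^2 - x` at `a = 1`: `|F(1)| = |8t| ≤ 1/8 < 1/4 = |2|^2`). -/
theorem sq_two_adic (t : ℤ_[2]) : ∃ y : ℤ_[2], y ^ 2 = 1 + 8 * t := by
  obtain ⟨y, hy, -⟩ := S7_hensel t
  exact ⟨y, hy⟩

private theorem S7_dec : ∀ y z w : ZMod 8, z * w = 1 →
    y ^ 2 ≠ 1 + 4 * z ^ 2 ∧ -y ^ 2 ≠ 1 + 4 * z ^ 2 := by decide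

/-- PROOF: `u = 1 + 4 z^2` with `z` a unit: if `u = y^2` then `y` is a unit and `y^2 ≡ 1 (mod 8)`, `z^2 ≡ 1 (mod 8)`, `1 + 4 ≡ 1 (mod 8)`:
false; `u = -y^2`: `-y^2 ≡ -1`, `5 ≡ -1 (mod 8)`: false.  (`PadicInt.toZModPow 3`, `decide`.) -/
theorem five_not_sq {z : ℤ_[2]} (hz : IsUnit z) (y : ℚ_[2]) :
    y ^ 2 ≠ 1 + 4 * (z : ℚ_[2]) ^ 2 ∧ -y ^ 2 ≠ 1 + 4 * (z : ℚ_[2]) ^ 2 := by
  have hn : ‖(1 + 4 * (z : ℚ_[2]) ^ 2 : ℚ_[2])‖ ≤ 1 := by
    have : (1 + 4 * (z : ℚ_[2]) ^ 2 : ℚ_[2]) = ((1 + 4 * z ^ 2 : ℤ_[2]) : ℚ_[2]) := by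
      push_cast
      rw [S7_coe4]
    rw [this]
    exact (1 + 4 * z ^ 2 : ℤ_[2]).2
  obtain ⟨w, hw⟩ := hz.exists_right_inv
  have key : ∀ y' : ℤ_[2], y' ^ 2 ≠ 1 + 4 * z ^ 2 ∧ -y' ^ 2 ≠ 1 + 4 * z ^ 2 := by
    intro y'
    have h4 : (PadicInt.toZModPow 3 (4 : ℤ_[2]) : ZMod (2 ^ 3)) = 4 := map_ofNat _ 4
    have hw' : (PadicInt.toZModPow 3 z : ZMod (2 ^ 3)) * PadicInt.toZModPow 3 w = 1 := by
      rw [← map_mul, hw, map_one]
    have hd := S7_dec (PadicInt.toZModPow 3 y') (PadicInt.toZModPow 3 z) (PadicInt.toZModPow 3 w) hw'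
    constructor
    · intro h
      apply hd.1
      have := congrArg (PadicInt.toZModPow 3) h
      simp only [map_add, map_one, map_mul, map_pow, h4] at this
      exact this
    · intro h
      apply hd.2
      have := congrArg (PadicInt.toZModPow 3) h
      simp only [map_add, map_neg, map_one, map_mul, map_pow, h4] at this
      exact this
  have hle : ∀ e : ℚ_[2], ‖e‖ = 1 → e * y ^ 2 = 1 + 4 * (z : ℚ_[2]) ^ 2 → ‖y‖ ≤ 1 := by
    intro e he h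
    have h1 : ‖y‖ ^ 2 ≤ 1 := by
      rw [← norm_pow]
      calc ‖y ^ 2‖ = ‖e * y ^ 2‖ := by rw [norm_mul, he, one_mul]
        _ ≤ 1 := by rw [h]; exact hn
    nlinarith [norm_nonneg y]
  constructor
  · intro h
    have hy : ‖y‖ ≤ 1 := hle 1 (by simp) (by rw [one_mul]; exact h)
    apply (key ⟨y, hy⟩).1
    apply Subtype.ext
    push_cast
    exact h
  · intro h
    have hy : ‖y‖ ≤ 1 := hle (-1) (by simp) (by rw [neg_one_mul]; exact h)
    apply (key ⟨y, hy⟩).2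
    apply Subtype.ext
    push_cast
    exact h

private theorem S7_norm2q : ‖(2 : ℚ_[2])‖ = 1 / 2 := by
  have h := Padic.norm_p (p := 2)
  norm_num at h ⊢
  exact h

/-- one step down: `c` of negative valuation (`c⁻¹ = 2^a * u`, `a ≥ 2`... in norm form `4 ≤ ‖c‖`): the equation `β^2 - c β - 1 = 0` has
two roots in `ℚ_2`, `β` of norm `‖c‖` and `β'` of norm `‖c‖⁻¹`.
PROOF: discriminant `c^2 + 4 = c^2 (1 + 4/c^2)`, `‖4/c^2‖ ≤ 1/64 ≤ 1/8`, so `1 + 4/c^2 = s^2` with `s ≡ 1` (`sq_two_adic`), and we may take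
`‖s - 1‖ ≤ 1/8`... `β = c (1 + s)/2`, `‖(1+s)/2‖ = 1`; `β' = -1/β`. -/
theorem step_neg {c : ℚ_[2]} (hc : 4 ≤ ‖c‖) :
    ∃ β β' : ℚ_[2], β ^ 2 - c * β - 1 = 0 ∧ β' ^ 2 - c * β' - 1 = 0 ∧ ‖β‖ = ‖c‖ ∧
      ‖β'‖ = ‖c‖⁻¹ := by
  have hc0 : c ≠ 0 := by
    intro h
    rw [h, norm_zero] at hc
    norm_num at hc
  have hcp : 0 < ‖c‖ := by linarith
  have ht : ‖(1 / (2 * c ^ 2) : ℚ_[2])‖ ≤ 1 := by
    rw [norm_div, norm_mul, norm_pow, S7_norm2q, norm_one, div_le_one (by positivity)]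
    nlinarith
  obtain ⟨t, ht'⟩ : ∃ t : ℤ_[2], (t : ℚ_[2]) = 1 / (2 * c ^ 2) := ⟨⟨_, ht⟩, rfl⟩
  obtain ⟨s, hs, hs1⟩ := S7_hensel t
  have hsq : (s : ℚ_[2]) ^ 2 = 1 + 4 / c ^ 2 := by
    have := congrArg (fun x : ℤ_[2] => (x : ℚ_[2])) hs
    push_cast at this
    rw [this, S7_coe8, ht']
    field_simp
    ring
  have hs1' : ‖(s : ℚ_[2]) - 1‖ < 1 / 2 := by
    have : ((s : ℚ_[2]) - 1) = ((s - 1 : ℤ_[2]) : ℚ_[2]) := by push_cast; ring
    rw [this]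
    exact hs1
  have hs2 : ‖(1 + (s : ℚ_[2])) / 2‖ = 1 := by
    have h1 : ‖(1 + (s : ℚ_[2]))‖ = 1 / 2 := by
      have h2 : (1 + (s : ℚ_[2])) = 2 + (s - 1) := by ring
      rw [h2, Padic.add_eq_max_of_ne (by rw [S7_norm2q]; exact ne_of_gt hs1'), S7_norm2q]
      exact max_eq_left hs1'.le
    rw [norm_div, h1, S7_norm2q]
    norm_num
  have hprod : (c * ((1 + (s : ℚ_[2])) / 2)) * (c * ((1 - (s : ℚ_[2])) / 2)) = -1 := by
    have : (c * ((1 + (s : ℚ_[2])) / 2)) * (c * ((1 - (s : ℚ_[2])) / 2)) =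
      c ^ 2 * (1 - (s : ℚ_[2]) ^ 2) / 4 := by ring
    rw [this, hsq]
    field_simp
    ring
  have hsum : (c * ((1 + (s : ℚ_[2])) / 2)) + (c * ((1 - (s : ℚ_[2])) / 2)) = c := by ring
  set β := c * ((1 + (s : ℚ_[2])) / 2) with hβ
  set β' := c * ((1 - (s : ℚ_[2])) / 2) with hβ'
  have hn : ‖β‖ = ‖c‖ := by rw [hβ, norm_mul, hs2, mul_one]
  refine ⟨β, β', ?_, ?_, hn, ?_⟩
  · linear_combination (β * hsum) - hprod
  · linear_combination (β' * hsum) - hprod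
  · have h1 : ‖β‖ * ‖β'‖ = 1 := by rw [← norm_mul, hprod]; simp
    rw [hn] at h1
    exact eq_inv_of_mul_eq_one_right h1

/-- `c` of large positive valuation: a unit root.  PROOF: discriminant `c^2 + 4 = 4 (1 + (c/2)^2)`, `‖(c/2)^2‖ ≤ (1/4)^2 ≤ 1/8`:
a square `4 s^2`, `s` a unit; `β = (c + 2 s)/2 = c/2 + s`, norm `1` since `‖c/2‖ < 1`. -/
theorem step_pos {c : ℚ_[2]} (hc : ‖c‖ ≤ 1 / 8) :
    ∃ β : ℚ_[2], β ^ 2 - c * β - 1 = 0 ∧ ‖β‖ = 1 := by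
  have ht : ‖(c ^ 2 / 32 : ℚ_[2])‖ ≤ 1 := by
    have h32 : (32 : ℚ_[2]) = 2 ^ 5 := by norm_num
    rw [norm_div, norm_pow, h32, norm_pow, S7_norm2q]
    have h0 := norm_nonneg c
    have : ‖c‖ ^ 2 ≤ (1 / 8) ^ 2 := pow_le_pow_left₀ h0 hc 2
    rw [div_le_one (by positivity)]
    calc ‖c‖ ^ 2 ≤ (1 / 8) ^ 2 := this
      _ ≤ (1 / 2) ^ 5 := by norm_num
  obtain ⟨t, ht'⟩ : ∃ t : ℤ_[2], (t : ℚ_[2]) = c ^ 2 / 32 := ⟨⟨_, ht⟩, rfl⟩
  obtain ⟨s, hs, hs1⟩ := S7_hensel t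
  have hsq : (s : ℚ_[2]) ^ 2 = 1 + c ^ 2 / 4 := by
    have := congrArg (fun x : ℤ_[2] => (x : ℚ_[2])) hs
    push_cast at this
    rw [this, S7_coe8, ht']
    ring
  have hs1' : ‖(s : ℚ_[2]) - 1‖ < 1 / 2 := by
    have : ((s : ℚ_[2]) - 1) = ((s - 1 : ℤ_[2]) : ℚ_[2]) := by push_cast; ring
    rw [this]
    exact hs1
  have hsn : ‖(s : ℚ_[2])‖ = 1 := by
    have h2 : (s : ℚ_[2]) = 1 + (s - 1) := by ring
    rw [h2, Padic.add_eq_max_of_ne (by rw [norm_one]; intro h; rw [← h] at hs1'; norm_num at hs1'),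
      norm_one]
    exact max_eq_left (by linarith)
  refine ⟨c / 2 + s, ?_, ?_⟩
  · linear_combination hsq
  · have h1 : ‖c / 2‖ ≤ 1 / 4 := by
      rw [norm_div, S7_norm2q]
      linarith
    rw [Padic.add_eq_max_of_ne (by rw [hsn]; intro h; rw [h] at h1; norm_num at h1), hsn]
    exact max_eq_right (by linarith)

private def S7_P (k : ℤ) (m : ℕ) (x : ℚ_[2]) : Prop :=
  ∃ β : ℕ → ℚ_[2], β 0 = 1 ∧
      (∀ i, i < m → β (i + 1) ≠ 0 ∧
        (k : ℚ_[2]) * ((β (i + 1)) ^ 2 - 1) = β i * β (i + 1)) ∧ β m = x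

private theorem S7_ext {k : ℤ} {m : ℕ} {x y : ℚ_[2]} (h : S7_P k m x) (hy : y ≠ 0)
    (hxy : (k : ℚ_[2]) * (y ^ 2 - 1) = x * y) : S7_P k (m + 1) y := by
  obtain ⟨β, h0, h1, h2⟩ := h
  refine ⟨Function.update β (m + 1) y, ?_, ?_, ?_⟩
  · rw [Function.update_of_ne (by omega)]
    exact h0
  · intro i hi
    rcases Nat.lt_succ_iff_lt_or_eq.mp hi with hlt | heq
    · rw [Function.update_of_ne (by omega), Function.update_of_ne (by omega)]
      exact h1 i hlt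
    · subst heq
      rw [Function.update_self, Function.update_of_ne (by omega), h2]
      exact ⟨hy, hxy⟩
  · rw [Function.update_self]

/-- THE PATH (B6b).  `8 ∣ k`, `n ≥ 4`.  PROOF: `‖k‖ = 2^{-v} ≤ 1/8`.  `r := n - 2 ≥ 2`.  For `i < r`: `β (i+1)`
from `β i` by `step_neg` with `c = β i/k`, `‖c‖ = 2^{(i+1) v} ≥ 8`, choosing the root of norm `‖c‖` as long as `i + 1 ≤ r - 1`, so
`‖β i‖ = 2^{i v}` for `i ≤ r-1`, and the OTHER root at the step `i = r - 1 → r`: `‖β r‖ = 2^{- r v}`.  Then `c = β r / k` has norm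
`2^{-(r-1) v} ≤ 1/8`: `step_pos`: `‖β (r+1)‖ = 1`.  Then `c = β (r+1)/k`, norm `2^v ≥ 8`: `step_neg`, the root `β (r+2)` of norm
`2^{-v}`.  `n = r + 2`.  Finally `β n = k z` with `‖z‖ = 1`... `β n ^2 + 4 k^2 = (β n)^2 (1 + 4 (k/β n)^2)`, `k/β n` a unit:
`five_not_sq`. -/
theorem path {k : ℤ} (hk : k ≠ 0) (h8 : 8 ∣ k) (n : ℕ) (hn : 4 ≤ n) :
    ∃ β : ℕ → ℚ_[2], β 0 = 1 ∧
      (∀ i, i < n → β (i + 1) ≠ 0 ∧
        (k : ℚ_[2]) * ((β (i + 1)) ^ 2 - 1) = β i * β (i + 1)) ∧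
      (∀ y : ℚ_[2], y ^ 2 ≠ (β n) ^ 2 + 4 * (k : ℚ_[2]) ^ 2 ∧
        -y ^ 2 ≠ (β n) ^ 2 + 4 * (k : ℚ_[2]) ^ 2) := by
  have hkQ : (k : ℚ_[2]) ≠ 0 := by exact_mod_cast hk
  set κ : ℝ := ‖(k : ℚ_[2])‖ with hκ
  have hκ0 : 0 < κ := norm_pos_iff.mpr hkQ
  have hκ8 : κ ≤ 1 / 8 := by
    obtain ⟨l, rfl⟩ := h8
    have h1 : ((8 * l : ℤ) : ℚ_[2]) = 2 ^ 3 * (l : ℚ_[2]) := by push_cast; norm_num
    rw [hκ, h1, norm_mul, norm_pow, S7_norm2q]
    have := Padic.norm_int_le_one (p := 2) l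
    have h0 := norm_nonneg ((l : ℚ_[2]))
    nlinarith
  have hinv8 : 8 ≤ κ⁻¹ := by
    rw [le_inv_comm₀ (by norm_num) hκ0]
    linarith
  -- the growing part
  have hgrow : ∀ m : ℕ, ∃ x : ℚ_[2], S7_P k m x ∧ ‖x‖ = κ⁻¹ ^ m := by
    intro m
    induction m with
    | zero =>
      refine ⟨1, ⟨fun _ => 1, rfl, ?_, rfl⟩, by simp⟩
      intro i hi
      omega
    | succ m ih =>
      obtain ⟨x, hx, hxn⟩ := ih
      have hcn : ‖x / (k : ℚ_[2])‖ = κ⁻¹ ^ (m + 1) := by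
        rw [norm_div, hxn, ← hκ, pow_succ, div_eq_mul_inv]
      have h4 : 4 ≤ ‖x / (k : ℚ_[2])‖ := by
        rw [hcn]
        have : (κ⁻¹) ^ 1 ≤ κ⁻¹ ^ (m + 1) := pow_le_pow_right₀ (by linarith) (by omega)
        rw [pow_one] at this
        linarith
      obtain ⟨β, -, hβ, -, hβn, -⟩ := step_neg h4
      refine ⟨β, S7_ext hx ?_ ?_, ?_⟩
      · intro h
        rw [h, norm_zero] at hβn
        rw [← hβn] at h4
        norm_num at h4
      · field_simp at hβ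
        linear_combination hβ
      · rw [hβn, hcn]
  obtain ⟨x, hx, hxn⟩ := hgrow (n - 3)
  -- the step to r
  have hcn : ‖x / (k : ℚ_[2])‖ = κ⁻¹ ^ (n - 3 + 1) := by
    rw [norm_div, hxn, ← hκ, pow_succ, div_eq_mul_inv]
  have h4 : 4 ≤ ‖x / (k : ℚ_[2])‖ := by
    rw [hcn]
    have : (κ⁻¹) ^ 1 ≤ κ⁻¹ ^ (n - 3 + 1) := pow_le_pow_right₀ (by linarith) (by omega)
    rw [pow_one] at this
    linarith
  obtain ⟨-, y, -, hy, -, hyn⟩ := step_neg h4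
  have hyn' : ‖y‖ = κ ^ (n - 3 + 1) := by
    rw [hyn, hcn, inv_pow, inv_inv]
  have hy0 : y ≠ 0 := by
    intro h
    rw [h, norm_zero] at hyn'
    have := pow_pos hκ0 (n - 3 + 1)
    rw [← hyn'] at this
    exact lt_irrefl _ this
  have hPy : S7_P k (n - 3 + 1) y := by
    refine S7_ext hx hy0 ?_
    field_simp at hy
    linear_combination hy
  -- the unit step
  have hcy : ‖y / (k : ℚ_[2])‖ ≤ 1 / 8 := by
    have h1 : ‖y / (k : ℚ_[2])‖ = κ ^ (n - 3) := by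
      rw [norm_div, hyn', ← hκ, pow_succ, mul_div_assoc, div_self hκ0.ne', mul_one]
    rw [h1]
    have : κ ^ (n - 3) ≤ κ ^ 1 := pow_le_pow_of_le_one hκ0.le (by linarith) (by omega)
    rw [pow_one] at this
    linarith
  obtain ⟨z, hz, hzn⟩ := step_pos hcy
  have hz0 : z ≠ 0 := by
    intro h
    rw [h, norm_zero] at hzn
    norm_num at hzn
  have hPz : S7_P k (n - 3 + 1 + 1) z := by
    refine S7_ext hPy hz0 ?_
    field_simp at hz
    linear_combination hz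
  -- the last step
  have hcz : ‖z / (k : ℚ_[2])‖ = κ⁻¹ := by
    rw [norm_div, hzn, ← hκ, one_div]
  obtain ⟨-, w, -, hw, -, hwn⟩ := step_neg (c := z / (k : ℚ_[2])) (by rw [hcz]; linarith)
  have hwn' : ‖w‖ = κ := by rw [hwn, hcz, inv_inv]
  have hw0 : w ≠ 0 := by
    intro h
    rw [h, norm_zero] at hwn'
    rw [← hwn'] at hκ0
    exact lt_irrefl _ hκ0
  have hPw : S7_P k (n - 3 + 1 + 1 + 1) w := by
    refine S7_ext hPz hw0 ?_
    field_simp at hw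
    linear_combination hw
  have hn3 : n - 3 + 1 + 1 + 1 = n := by omega
  rw [hn3] at hPw
  obtain ⟨β, h0, h1, h2⟩ := hPw
  refine ⟨β, h0, h1, ?_⟩
  intro u
  rw [h2]
  have hzu : ‖(k : ℚ_[2]) / w‖ = 1 := by
    rw [norm_div, hwn', ← hκ, div_self hκ0.ne']
  obtain ⟨e, he⟩ : ∃ e : ℤ_[2], (e : ℚ_[2]) = (k : ℚ_[2]) / w := ⟨⟨(k : ℚ_[2]) / w, hzu.le⟩, rfl⟩
  have hunit : IsUnit e := by
    rw [PadicInt.isUnit_iff, PadicInt.norm_def, he]
    exact hzu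
  have h5 := five_not_sq hunit (u / w)
  rw [he] at h5
  constructor
  · intro h
    apply h5.1
    field_simp
    linear_combination h
  · intro h
    apply h5.2
    field_simp
    linear_combination h

/-- PROOF: `F = AlgebraicClosure ℚ_[2]`, `ι : Qb →ₐ[ℚ] F` (`IsAlgClosed.lift`), `J = ι im`, `J^2 = -1`.  By induction along the
path of `path` choose `x i ∈ LP k i` with `ι (x i) = J β_i`: `x 0 = im`; `J β_{i+1}` is a root of `k Y^2 - (J β_i) Y + k`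
(`k (Jβ)^2 - J β_i J β + k = -k β^2 + β_i β + k = 0`), whose roots are `ι (ch (x i))`, `ι (ch (x i))⁻¹`; take the corresponding
child.  For `x = x n`: `w = ww k x`, `w^2 = x^2 - 4k^2`, `ι(w)^2 = J^2 (β^2 + 4k^2)`.  `ι w ∉ ℚ_2(J)`: otherwise `ι w / J = a + b J`,
`β^2 + 4k^2 = a^2 - b^2 + 2 a b J` (`J ∉ ℚ_2` because ... if `J ∈ ℚ_2` then `-1` is a square in `ℚ_2`, excluded by the mod 8 argument,
or treat `J ∈ ℚ_2` as `ℚ_2(J) = ℚ_2` directly) so `a b = 0` and `β^2+4k^2 = a^2` or `-b^2`.  So there is a `ℚ_2(J)`-automorphism `τ` of `F`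
(Galois) with `τ (ι w) ≠ ι w`; `σ := ι⁻¹ τ ι` (`τ` preserves the image of `Qb`, the algebraic elements over `ℚ`;
`AlgEquiv.restrictNormal` / `AlgHom.restrictNormal'` for the normal extension) fixes `im`, `x`, and `σ w ≠ w`, so
`σ (ch k x) ≠ ch k x` (`swap_iff`). -/
theorem swap_eight {k : ℤ} (hk : k ≠ 0) (h8 : 8 ∣ k) (n : ℕ) (hn : 4 ≤ n) :
    ∃ (x : Qb) (σ : Qb ≃ₐ[ℚ] Qb), x ∈ LP k n ∧ σ im = im ∧ σ x = x ∧ σ (ch k x) ≠ ch k x := by
  obtain ⟨β, hβ0, hβ, hnsq⟩ := path hk h8 n hn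
  let F := AlgebraicClosure ℚ_[2]
  have hAlg : Algebra.IsAlgebraic ℚ Qb := AlgebraicClosure.isAlgebraic ℚ
  have hCl : IsAlgClosure ℚ Qb := ⟨AlgebraicClosure.isAlgClosed ℚ, hAlg⟩
  have hNorm : Normal ℚ Qb := IsAlgClosure.normal ℚ Qb
  let ι : Qb →ₐ[ℚ] F := IsAlgClosed.lift
  set J : F := ι im with hJ
  have hJ2 : J ^ 2 = -1 := by
    rw [hJ, ← map_pow, im_sq, map_neg, map_one]
  have hJ0 : J ≠ 0 := by
    intro h
    rw [h] at hJ2
    norm_num at hJ2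
  have hkF : ((k : ℤ) : F) ≠ 0 := by exact_mod_cast hk
  -- the tree path
  have hpath : ∀ m, m ≤ n → ∃ x ∈ LP k m, ι x = J * algebraMap ℚ_[2] F (β m) := by
    intro m
    induction m with
    | zero =>
      intro _
      refine ⟨im, rfl, ?_⟩
      rw [hβ0, map_one, mul_one]
    | succ m ih =>
      intro hm
      obtain ⟨x, hx, hιx⟩ := ih (by omega)
      obtain ⟨hb0, hb⟩ := hβ m (by omega)
      set b : F := algebraMap ℚ_[2] F (β (m + 1)) with hbdef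
      set a : F := algebraMap ℚ_[2] F (β m) with hadef
      have hbF : ((k : ℤ) : F) * (b ^ 2 - 1) = a * b := by
        have := congrArg (algebraMap ℚ_[2] F) hb
        simpa using this
      set c : F := ι (ch k x) with hcdef
      have hc0 : c ≠ 0 := by
        rw [hcdef]
        exact (map_ne_zero ι).mpr (ch_ne_zero hk x)
      have hceq : ((k : ℤ) : F) * c ^ 2 - (J * a) * c + ((k : ℤ) : F) = 0 := by
        have := congrArg ι (ch_spec hk x)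
        simp only [map_add, map_sub, map_mul, map_pow, map_intCast, map_zero] at this
        rw [hιx] at this
        exact this
      have hfac : (J * b - c) * (J * b - c⁻¹) = 0 := by
        have h1 : ((k : ℤ) : F) * c * ((J * b - c) * (J * b - c⁻¹)) = 0 := by
          have h2 : c * c⁻¹ = 1 := mul_inv_cancel₀ hc0
          -- k c (Jb - c)(Jb - c⁻¹) = k (Jb - c)(Jb c - 1)
          have h3 : ((k : ℤ) : F) * c * ((J * b - c) * (J * b - c⁻¹)) =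
              ((k : ℤ) : F) * (J * b - c) * (J * b * c - c * c⁻¹) := by ring
          rw [h3, h2]
          linear_combination (-(J * b)) * hceq + (c * ((k : ℤ) : F) * b ^ 2 - a * b * c) * hJ2 - c * hbF
        rcases mul_eq_zero.mp h1 with h | h
        · exact absurd h (mul_ne_zero hkF hc0)
        · exact h
      obtain ⟨hm1, hm2, -, -⟩ := ch_mem hk hx
      rcases mul_eq_zero.mp hfac with h | h
      · refine ⟨ch k x, hm1, ?_⟩
        rw [← hcdef]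
        linear_combination -h
      · refine ⟨(ch k x)⁻¹, hm2, ?_⟩
        rw [map_inv₀, ← hcdef]
        linear_combination -h
  obtain ⟨x, hx, hιx⟩ := hpath n le_rfl
  set D : ℚ_[2] := (β n) ^ 2 + 4 * (k : ℚ_[2]) ^ 2 with hD
  have hw2 : (ι (ww k x)) ^ 2 = J ^ 2 * algebraMap ℚ_[2] F D := by
    have h1 := congrArg ι (ww_sq hk x)
    simp only [map_sub, map_mul, map_pow, map_intCast, map_ofNat] at h1
    rw [h1, hιx, hD]
    simp only [map_add, map_mul, map_pow, map_intCast, map_ofNat]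
    linear_combination (-4 * ((k : ℤ) : F) ^ 2) * hJ2
  set v : F := ι (ww k x) * J⁻¹ with hv
  have hJi : J * J⁻¹ = 1 := mul_inv_cancel₀ hJ0
  have hvw : ι (ww k x) = J * v := by
    rw [hv]
    linear_combination (-ι (ww k x)) * hJi
  have hv2 : v ^ 2 = algebraMap ℚ_[2] F D := by
    rw [hv, mul_pow, hw2]
    linear_combination (algebraMap ℚ_[2] F D * (J * J⁻¹ + 1)) * hJi
  -- the automorphism
  have hfixed : ∀ y : F, (∀ τ : F ≃ₐ[ℚ_[2]] F, τ y = y) → ∃ a : ℚ_[2], algebraMap ℚ_[2] F a = y := by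
    intro y hy
    have : y ∈ Set.range (algebraMap ℚ_[2] F) := by
      rw [InfiniteGalois.mem_range_algebraMap_iff_fixed]
      exact hy
    exact this
  have hτJ : ∀ τ : F ≃ₐ[ℚ_[2]] F, τ J = J ∨ τ J = -J := by
    intro τ
    have h1 : (τ J) ^ 2 = J ^ 2 := by
      rw [← map_pow, hJ2, map_neg, map_one]
    exact sq_eq_sq_iff_eq_or_eq_neg.mp h1
  have hτv : ∀ τ : F ≃ₐ[ℚ_[2]] F, τ v = v ∨ τ v = -v := by
    intro τ
    have h1 : (τ v) ^ 2 = v ^ 2 := by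
      rw [← map_pow, hv2, AlgEquiv.commutes]
    exact sq_eq_sq_iff_eq_or_eq_neg.mp h1
  have hτ : ∃ τ : F ≃ₐ[ℚ_[2]] F, τ J = J ∧ τ v ≠ v := by
    by_contra hcon
    push Not at hcon
    -- an element moving v
    have h1 : ∃ τ : F ≃ₐ[ℚ_[2]] F, τ v ≠ v := by
      by_contra h
      push Not at h
      obtain ⟨a, ha⟩ := hfixed v h
      apply (hnsq a).1
      apply (algebraMap ℚ_[2] F).injective
      rw [map_pow, ha, hv2]
    obtain ⟨τ1, hτ1⟩ := h1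
    have hτ1v : τ1 v = -v := (hτv τ1).resolve_left hτ1
    have hτ1J : τ1 J = -J := by
      rcases hτJ τ1 with h | h
      · exact absurd (hcon τ1 h) hτ1
      · exact h
    have h2 : ∀ τ : F ≃ₐ[ℚ_[2]] F, τ (J * v) = J * v := by
      intro τ
      rcases hτJ τ with h | h
      · rw [map_mul, h, hcon τ h]
      · have h3 : (τ1.trans τ) J = J := by
          rw [AlgEquiv.trans_apply, hτ1J, map_neg, h, neg_neg]
        have h4 := hcon _ h3
        rw [AlgEquiv.trans_apply, hτ1v, map_neg] at h4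
        have h5 : τ v = -v := by linear_combination -h4
        rw [map_mul, h, h5]
        ring
    obtain ⟨a, ha⟩ := hfixed (J * v) h2
    apply (hnsq a).2
    apply (algebraMap ℚ_[2] F).injective
    rw [map_neg, map_pow, ha, mul_pow, hv2, hJ2]
    ring
  obtain ⟨τ, hτJ', hτv'⟩ := hτ
  let _ : Algebra Qb F := ι.toRingHom.toAlgebra
  have hmap : ∀ y : Qb, algebraMap Qb F y = ι y := fun y => rfl
  have _ : IsScalarTower ℚ Qb F := IsScalarTower.of_algebraMap_eq (fun q => by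
    rw [hmap, AlgHom.commutes])
  let τ' : F ≃ₐ[ℚ] F := τ.restrictScalars ℚ
  let σ : Qb ≃ₐ[ℚ] Qb := τ'.restrictNormal Qb
  have hσ : ∀ y : Qb, ι (σ y) = τ (ι y) := by
    intro y
    have := AlgEquiv.restrictNormal_commutes τ' Qb y
    exact this
  have hinj : Function.Injective ι := ι.toRingHom.injective
  have hσim : σ im = im := by
    apply hinj
    rw [hσ, ← hJ, hτJ']
  have hσx : σ x = x := by
    apply hinj
    rw [hσ, hιx, map_mul, hτJ', AlgEquiv.commutes]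
  refine ⟨x, σ, hx, hσim, hσx, ?_⟩
  rcases swap_iff hk hx hσx with ⟨-, h⟩ | ⟨h, -⟩
  · exfalso
    apply hτv'
    have h1 := hσ (ww k x)
    rw [h, hvw, map_mul, hτJ'] at h1
    exact (mul_left_cancel₀ hJ0 h1).symm
  · rw [h]
    exact fun h' => ch_ne_inv hk hx h'.symm

end Pool.Agent.Lib.MP_e26d5c_nt.AG
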