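import Pool.Agent.Lib.MP_e26d5c_nt.AG.S6
import Pool.Agent.Lib.MP_e26d5c_nt.AG.S7
import Pool.Agent.Lib.MP_e26d5c_nt.AG.R16

set_option autoImplicit false

namespace Pool.Agent.Lib.MP_e26d5c_nt.AG

/-- STABILITY.  PROOF: induction on `n`.  `LP k 0 = {im}`.  Step `n → n+1`: if `¬ 8 ∣ K` or `n + 1 ≤ 3` or `n + 1` even
(`K = k.natAbs`): `trans_succ_of_not_square`, `not_square_all`.  Otherwise `8 ∣ K` and `n + 1 ≥ 5`: `trans_succ_of_swap`,
`swap_eight` (`8 ∣ k`). -/
theorem trans_all {k : ℤ} (hk : k ≠ 0) (n : ℕ) : Trans k n := by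
  induction n with
  | zero =>
    intro x hx y hy
    have hx' : x = im := hx
    have hy' : y = im := hy
    exact ⟨1, rfl, by rw [hx', hy']; rfl⟩
  | succ n ih =>
    have hK : 0 < k.natAbs := Int.natAbs_pos.2 hk
    by_cases h : ¬ 8 ∣ k.natAbs ∨ n + 1 ≤ 3 ∨ (n + 1) % 2 = 0
    · exact trans_succ_of_not_square hk n ih (not_square_all hK (by omega) h)
    · rw [not_or, not_or, not_not] at h
      obtain ⟨h8, h3, h2⟩ := h
      have h8' : (8 : ℤ) ∣ k := by
        have := Int.natCast_dvd.2 h8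
        exact_mod_cast this
      exact trans_succ_of_swap hk n ih (swap_eight hk h8' n (by omega))

private theorem S8_gal0 (k : Type) [Field k] [CharZero k] : IsGalois k (AlgebraicClosure k) :=
  inferInstance

private theorem S8_gal : IsGalois ℚ Qb := by
  have h : (DivisionRing.toRatAlgebra : Algebra ℚ Qb) = AlgebraicClosure.instAlgebra ℚ :=
    Subsingleton.elim _ _
  rw [h]
  exact S8_gal0 ℚ

/-- PROOF: there is an element of the Galois group with `σ im = -im` (`im` is not rational; `X^2+1` is irreducible over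
`ℚ`, or `IsGalois.mem_bot_iff_fixed`: otherwise `im` would be fixed by all `σ` and so rational). -/
theorem exists_conj : ∃ σ : Qb ≃ₐ[ℚ] Qb, σ im = -im := by
  by_contra hcon
  have hfix : ∀ σ : Qb ≃ₐ[ℚ] Qb, σ im = im := by
    intro σ
    have h1 : (σ im) ^ 2 = im ^ 2 := by
      rw [← map_pow, im_sq, map_neg, map_one]
    rcases sq_eq_sq_iff_eq_or_eq_neg.1 h1 with h | h
    · exact h
    · exact absurd ⟨σ, h⟩ hcon
  have : IsGalois ℚ Qb := S8_gal
  have h2 : im ∈ (⊥ : IntermediateField ℚ Qb) := (InfiniteGalois.mem_bot_iff_fixed im).2 hfix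
  obtain ⟨q, hq⟩ := IntermediateField.mem_bot.1 h2
  have h3 : im ∈ LP 1 0 := rfl
  apply LP_not_rat h3 q
  rw [← hq]
  exact eq_ratCast (algebraMap ℚ Qb) q

private theorem S8_neg_map {k : ℤ} {τ : Qb ≃ₐ[ℚ] Qb} (hτ : τ im = -im) (n : ℕ) :
    ∀ x ∈ LP k n, -(τ x) ∈ LP k n := by
  induction n with
  | zero =>
    intro x hx
    have hx' : x = im := hx
    show -(τ x) = im
    rw [hx', hτ, neg_neg]
  | succ n ih =>
    intro x hx
    refine ⟨fun h => hx.1 ?_, ?_⟩
    · have h1 : τ x = 0 := neg_eq_zero.1 h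
      simpa using h1
    · rw [phi_neg, phi_map]
      exact ih _ hx.2

/-- PROOF: `n = 0`: `y = z = 0`.  `n + 1`: `mem_Lev_succ`: `± y, ± z ∈ LP k n`; `trans_all`, and `exists_conj` composed with the
action (`σ(-x) = -σ x`): if `y ∈ LP` and `-z ∈ LP`: take `σ` with `σ im = -im`; `σ y ∈ -LP` i.e. `-(σ y) ∈ LP k n`
(`LP_map`-like: `σ` maps `LP` to `-LP`), then move `-(σ y)` to `-z`. -/
theorem trans_Lev {k : ℤ} (hk : k ≠ 0) (n : ℕ) (y z : Qb) (hy : y ∈ Lev k n) (hz : z ∈ Lev k n) :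
    ∃ σ : Qb ≃ₐ[ℚ] Qb, σ y = z := by
  cases n with
  | zero =>
    have hy' : y = 0 := hy
    have hz' : z = 0 := hz
    exact ⟨1, by rw [hy', hz', map_zero]⟩
  | succ n =>
    rw [mem_Lev_succ hk] at hy hz
    obtain ⟨τ, hτ⟩ := exists_conj
    rcases hy with hy | hy <;> rcases hz with hz | hz
    · obtain ⟨σ, -, h⟩ := trans_all hk n y hy z hz
      exact ⟨σ, h⟩
    · obtain ⟨σ, -, h⟩ := trans_all hk n _ (S8_neg_map hτ n y hy) _ hz
      refine ⟨σ * τ, ?_⟩
      rw [map_neg, neg_inj] at h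
      exact h
    · have h1 := S8_neg_map hτ n _ hy
      rw [map_neg, neg_neg] at h1
      obtain ⟨σ, -, h⟩ := trans_all hk n _ h1 z hz
      exact ⟨σ * τ, h⟩
    · obtain ⟨σ, -, h⟩ := trans_all hk n _ hy _ hz
      rw [map_neg, neg_inj] at h
      exact ⟨σ, h⟩

/-- `-1` commutes with `phi`.  PROOF: `ring` after unfolding (`a = -1`, `c = 0`, `d = 1`). -/
theorem isCent_neg (k : ℤ) : IsCent k (-1) 0 1 := by
  refine ⟨neg_ne_zero.2 one_ne_zero, one_ne_zero, fun X Y => ?_⟩
  ring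

/-- PROOF: `X = 0, Y = 1`: `0 = c k * k d^2`, so `c = 0` (`k, d ≠ 0`).  Then with `X = 1, Y = 1`:
`(a * 2k)(a d) = d * (k (a^2 + d^2))`, so `2 a^2 = a^2 + d^2`. -/
theorem isCent_iff {k : ℤ} (hk : k ≠ 0) {a c d : Qb} (h : IsCent k a c d) :
    c = 0 ∧ (a = d ∨ a = -d) := by
  obtain ⟨ha, hd, h⟩ := h
  have hk' : (k : Qb) ≠ 0 := by exact_mod_cast hk
  have h1 := h 0 1
  have h2 : c * ((k : Qb) ^ 2 * d ^ 2) = 0 := by linear_combination -h1
  have hc : c = 0 := by
    rcases mul_eq_zero.1 h2 with h3 | h3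
    · exact h3
    · exact absurd h3 (mul_ne_zero (pow_ne_zero 2 hk') (pow_ne_zero 2 hd))
  refine ⟨hc, ?_⟩
  have h3 := h 1 1
  rw [hc] at h3
  have h4 : ((k : Qb) * d) * (a ^ 2 - d ^ 2) = 0 := by linear_combination h3
  have h5 : a ^ 2 = d ^ 2 := by
    rcases mul_eq_zero.1 h4 with h6 | h6
    · exact absurd h6 (mul_ne_zero hk' hd)
    · exact sub_eq_zero.1 h6
  exact sq_eq_sq_iff_eq_or_eq_neg.1 h5

/-- every vertex has its negative as a vertex.  PROOF: `mem_Lev_succ`; level `0`: `0`. -/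
theorem neg_mem {k : ℤ} (hk : k ≠ 0) (n : ℕ) {y : Qb} (hy : y ∈ Lev k n) : -y ∈ Lev k n := by
  cases n with
  | zero =>
    have hy' : y = 0 := hy
    show -y = 0
    rw [hy', neg_zero]
  | succ n =>
    rw [mem_Lev_succ hk] at hy ⊢
    rw [neg_neg]
    exact hy.symm

/-- the negation of the vertices -/
private noncomputable def S8_t {k : ℤ} (hk : k ≠ 0) : Fam k := fun n =>
  { toFun := fun y => ⟨-(y : Qb), neg_mem hk n y.2⟩
    invFun := fun y => ⟨-(y : Qb), neg_mem hk n y.2⟩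
    left_inv := by
      intro y
      apply Subtype.ext
      simp
    right_inv := by
      intro y
      apply Subtype.ext
      simp }

private theorem S8_t_mem {k : ℤ} (hk : k ≠ 0) : S8_t hk ∈ ASet k := by
  refine ⟨-1, 0, 1, isCent_neg k, fun n y => ?_⟩
  show (-(y : Qb)) * (0 * (y : Qb) + 1) = -1 * (y : Qb)
  ring

/-- PROOF: the permutation `t n y = -y` (`neg_mem`) is in `ASet` (`isCent_neg`), which gives `→`;
`←`: an element of `ASet` is `y ↦ (a/d) y = ± y` with a constant sign (`isCent_iff`). -/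
theorem mem_CentGroup {k : ℤ} (hk : k ≠ 0) (s : Fam k) :
    s ∈ CentGroup k ↔ s ∈ TreeAut k ∧ ∀ (n : ℕ) (y z : Lev k n), (z : Qb) = -(y : Qb) →
      ((s n z : Lev k n) : Qb) = -((s n y : Lev k n) : Qb) := by
  have hmem : s ∈ CentGroup k ↔ s ∈ TreeAut k ∧ s ∈ Subgroup.centralizer (ASet k) := Iff.rfl
  rw [hmem, Subgroup.mem_centralizer_iff]
  refine and_congr_right fun _ => ⟨fun h n y z hz => ?_, fun h t ht => ?_⟩
  · have h1 := h _ (S8_t_mem hk)
    have h2 : S8_t hk n (s n y) = s n (S8_t hk n y) := by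
      have h3 := congrFun h1 n
      exact congrArg (fun e : Equiv.Perm (Lev k n) => e y) h3
    have h4 : S8_t hk n y = z := by
      apply Subtype.ext
      show -(y : Qb) = z
      exact hz.symm
    rw [← h4, ← h2]
    rfl
  · obtain ⟨a, c, d, hc, ht⟩ := ht
    obtain ⟨hc0, had⟩ := isCent_iff hk hc
    have hd : d ≠ 0 := hc.2.1
    funext n
    apply Equiv.ext
    intro y
    show t n (s n y) = s n (t n y)
    have key : ∀ x : Lev k n, ((t n x : Lev k n) : Qb) * d = a * x := by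
      intro x
      have := ht n x
      rwa [hc0, zero_mul, zero_add] at this
    rcases had with had | had
    · have ht1 : ∀ x : Lev k n, t n x = x := by
        intro x
        apply Subtype.ext
        have := key x
        rw [had, mul_comm d] at this
        exact mul_right_cancel₀ hd this
      rw [ht1, ht1]
    · have ht1 : ∀ x : Lev k n, ((t n x : Lev k n) : Qb) = -(x : Qb) := by
        intro x
        have h5 := key x
        rw [had] at h5
        have h6 : ((t n x : Lev k n) : Qb) * d = (-(x : Qb)) * d := by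
          rw [h5]; ring
        exact mul_right_cancel₀ hd h6
      apply Subtype.ext
      rw [ht1, h n y (t n y) (ht1 y)]

/-- PROOF: `mem_CentGroup`, `phi_map`, `map_neg`. -/
theorem GalImg_le {k : ℤ} (hk : k ≠ 0) : GalImg k ≤ CentGroup k := by
  rintro s ⟨σ, rfl⟩
  rw [mem_CentGroup hk]
  refine ⟨fun n y => ?_, fun n y z hz => ?_⟩
  · apply Subtype.ext
    show phi k (σ (y : Qb)) = σ (phi k y)
    exact phi_map k σ y
  · show σ (z : Qb) = -(σ (y : Qb))
    rw [hz, map_neg]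

end Pool.Agent.Lib.MP_e26d5c_nt.AG
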