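import Pool.Agent.Lib.MP_e26d5c_nt.AG.S8

set_option autoImplicit false

namespace Pool.Agent.Lib.MP_e26d5c_nt.AG

/-- the Galois property -/
private theorem S9_gal : IsGalois ℚ Qb := by
  have h : (AlgebraicClosure.instAlgebra ℚ : Algebra ℚ (AlgebraicClosure ℚ)) =
      DivisionRing.toRatAlgebra := Subsingleton.elim _ _
  have h2 : @IsGalois ℚ _ (AlgebraicClosure ℚ) _ (AlgebraicClosure.instAlgebra ℚ) := inferInstance
  rw [h] at h2
  exact h2

/-- the tree automorphism `s` viewed on `LP`: `s` maps `LP k n` to itself if it fixes `im` (level 1).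
PROOF: induction on `n` with the `TreeAut` relation. -/
theorem s_mem_LP {k : ℤ} (hk : k ≠ 0) {s : Fam k} (hs : s ∈ TreeAut k)
    (him : ∀ y : Lev k 1, (y : Qb) = im → ((s 1 y : Lev k 1) : Qb) = im)
    (n : ℕ) (y : Lev k (n + 1)) (hy : (y : Qb) ∈ LP k n) :
    ((s (n + 1) y : Lev k (n + 1)) : Qb) ∈ LP k n := by
  induction n with
  | zero =>
    have h1 : (y : Qb) = im := hy
    show ((s 1 y : Lev k 1) : Qb) = im
    exact him y h1
  | succ n ih =>
    have h1 := ih (parent k y) hy.2
    have h2 : parent k (s (n + 1 + 1) y) = s (n + 1) (parent k y) := hs (n + 1) y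
    refine ⟨(s (n + 1 + 1) y).2.1, ?_⟩
    have h3 : phi k ((s (n + 1 + 1) y : Lev k (n + 1 + 1)) : Qb) =
        ((s (n + 1) (parent k y) : Lev k (n + 1)) : Qb) := congrArg Subtype.val h2
    rw [h3]
    exact h1

/-- a tree automorphism commutes with the inversion -/
private theorem S9_inv {k : ℤ} (hk : k ≠ 0) {s : Fam k} (hs : s ∈ TreeAut k)
    (him : ∀ y : Lev k 1, (y : Qb) = im → ((s 1 y : Lev k 1) : Qb) = im)
    (m : ℕ) (y z : Lev k (m + 2)) (hy : (y : Qb) ∈ LP k (m + 1)) (hz : (z : Qb) = (y : Qb)⁻¹) :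
    ((s (m + 2) z : Lev k (m + 2)) : Qb) = ((s (m + 2) y : Lev k (m + 2)) : Qb)⁻¹ := by
  have hpy : phi k (z : Qb) = phi k (y : Qb) := by
    rw [hz]
    have hy0 : (y : Qb) ≠ 0 := LP_ne_zero hy
    unfold phi
    field_simp
    ring
  have hpar : parent k z = parent k y := Subtype.ext hpy
  have h1 : parent k (s (m + 1 + 1) y) = s (m + 1) (parent k y) := hs (m + 1) y
  have h2 : parent k (s (m + 1 + 1) z) = s (m + 1) (parent k z) := hs (m + 1) z
  rw [hpar, ← h1] at h2
  have h3 : phi k ((s (m + 2) z : Lev k (m + 2)) : Qb) =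
      phi k ((s (m + 2) y : Lev k (m + 2)) : Qb) := congrArg Subtype.val h2
  have h4 : ((s (m + 2) y : Lev k (m + 2)) : Qb) ∈ LP k (m + 1) := s_mem_LP hk hs him (m + 1) y hy
  have hx : phi k ((s (m + 2) y : Lev k (m + 2)) : Qb) ∈ LP k m := h4.2
  have hne : (z : Qb) ≠ (y : Qb) := by
    rw [hz]
    intro h
    have hx' : phi k (y : Qb) ∈ LP k m := hy.2
    have hni := ch_ne_inv hk hx'
    rcases eq_ch hk (LP_ne_zero hy) rfl with h5 | h5
    · rw [← h5] at hni
      exact hni h.symm
    · apply hni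
      have h6 : ch k (phi k (y : Qb)) = (y : Qb)⁻¹ := by
        rw [h5, inv_inv]
        congr 1
        rw [← h5]
      rw [h6, inv_inv]
      exact h
  have hsne : ((s (m + 2) z : Lev k (m + 2)) : Qb) ≠ ((s (m + 2) y : Lev k (m + 2)) : Qb) := by
    intro h
    apply hne
    have := (s (m + 2)).injective (Subtype.ext h)
    rw [this]
  have hz0 : ((s (m + 2) z : Lev k (m + 2)) : Qb) ≠ 0 := (s (m + 2) z).2.1
  have hy0 : ((s (m + 2) y : Lev k (m + 2)) : Qb) ≠ 0 := (s (m + 2) y).2.1
  rcases eq_ch hk hz0 h3 with h5 | h5 <;> rcases eq_ch hk hy0 rfl with h6 | h6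
  · exact absurd (h5.trans h6.symm) hsne
  · rw [h5, h6, inv_inv]
    congr 1
    rw [← h6]
  · rw [h5]
    congr 1
    exact h6.symm
  · exact absurd (h5.trans h6.symm) hsne

/-- successive approximation.  PROOF: induction on `m ≥ N`.  `m = N`: `σ = 1` (hypothesis `hN`: `s` is trivial on `LP k N`).
Step: `σ` agrees with `s` on `LP k m`.  For `x ∈ LP k m` let `x' = σ x = s x`; both `σ` and `s` map the children of
`x` to the children of `x'`, so they agree on them or differ by the exchange of the children of `x'`; let `T` be the set of the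
`x' ∈ LP k m` where they differ; `Full k m` gives `τ`, `Fix k m τ`, exchanging exactly the children of the
`x' ∈ T`; then `τ σ` agrees with `s` on `LP k (m+1)`. -/
theorem approx {k : ℤ} (hk : k ≠ 0) {N : ℕ} (hfull : ∀ m, N ≤ m → Full k m) {s : Fam k}
    (hs : s ∈ TreeAut k) (him : ∀ y : Lev k 1, (y : Qb) = im → ((s 1 y : Lev k 1) : Qb) = im)
    (hN : ∀ y : Lev k (N + 1), (y : Qb) ∈ LP k N → s (N + 1) y = y) (m : ℕ) (hm : N ≤ m) :
    ∃ σ : Qb ≃ₐ[ℚ] Qb, σ im = im ∧
      ∀ y : Lev k (m + 1), (y : Qb) ∈ LP k m → ((s (m + 1) y : Lev k (m + 1)) : Qb) = σ y := by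
  induction m, hm using Nat.le_induction with
  | base =>
    refine ⟨1, rfl, fun y hy => ?_⟩
    rw [hN y hy]
    rfl
  | succ m hm ih =>
    obtain ⟨σ, hσ, hag⟩ := ih
    obtain ⟨τ, ⟨hτ, hτx⟩, hτT⟩ := hfull m hm {x | ∃ y : Lev k (m + 2), (y : Qb) ∈ LP k (m + 1) ∧
      σ y = ch k x ∧ ((s (m + 2) y : Lev k (m + 2)) : Qb) ≠ σ y}
    refine ⟨σ.trans τ, ?_, fun y hy => ?_⟩
    · show τ (σ im) = im
      rw [hσ, hτ]
    · show ((s (m + 2) y : Lev k (m + 2)) : Qb) = τ (σ y)
      have hx : phi k (y : Qb) ∈ LP k m := hy.2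
      have h1 : parent k (s (m + 1 + 1) y) = s (m + 1) (parent k y) := hs (m + 1) y
      have h2 : phi k ((s (m + 2) y : Lev k (m + 2)) : Qb) = σ (phi k (y : Qb)) := by
        have h3 : phi k ((s (m + 2) y : Lev k (m + 2)) : Qb) =
          ((s (m + 1) (parent k y) : Lev k (m + 1)) : Qb) := congrArg Subtype.val h1
        rw [h3]
        exact hag (parent k y) hx
      obtain ⟨x, hxdef⟩ : ∃ x, x = σ (phi k (y : Qb)) := ⟨_, rfl⟩
      have hxL : x ∈ LP k m := by
        rw [hxdef]
        exact LP_map hσ hx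
      rw [← hxdef] at h2
      have hpσ : phi k (σ (y : Qb)) = x := by rw [phi_map, hxdef]
      have hσy0 : σ (y : Qb) ≠ 0 := by
        intro h
        apply LP_ne_zero hy
        simpa using h
      have hsy0 : ((s (m + 2) y : Lev k (m + 2)) : Qb) ≠ 0 := (s (m + 2) y).2.1
      -- the inverse vertex
      obtain ⟨z, hz⟩ : ∃ z : Lev k (m + 2), (z : Qb) = (y : Qb)⁻¹ := by
        have h5 := ch_mem hk hx
        have h6 : (y : Qb)⁻¹ ∈ LP k (m + 1) := by
          rcases eq_ch hk (LP_ne_zero hy) rfl with h7 | h7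
          · rw [h7]
            exact h5.2.1
          · rw [h7, inv_inv]
            exact h5.1
        exact ⟨⟨(y : Qb)⁻¹, (mem_Lev_succ hk (m + 1) _).mpr (Or.inl h6)⟩, rfl⟩
      have hzL : (z : Qb) ∈ LP k (m + 1) := by
        rw [hz]
        have h5 := ch_mem hk hx
        rcases eq_ch hk (LP_ne_zero hy) rfl with h7 | h7
        · rw [h7]
          exact h5.2.1
        · rw [h7, inv_inv]
          exact h5.1
      have hsz := S9_inv hk hs him m y z hy hz
      have hσz : σ (z : Qb) = (σ (y : Qb))⁻¹ := by rw [hz, map_inv₀]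
      -- the exchange set
      have key : (((s (m + 2) y : Lev k (m + 2)) : Qb) ≠ σ (y : Qb)) ↔
          x ∈ {x | ∃ y : Lev k (m + 2), (y : Qb) ∈ LP k (m + 1) ∧
            σ y = ch k x ∧ ((s (m + 2) y : Lev k (m + 2)) : Qb) ≠ σ y} := by
        rcases eq_ch hk hσy0 hpσ with h5 | h5
        · constructor
          · intro h
            exact ⟨y, hy, h5, h⟩
          · rintro ⟨y', -, h6, h7⟩ h8
            have h9 : y' = y := by
              apply Subtype.ext
              apply σ.injective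
              rw [h6, h5]
            rw [h9] at h7
            exact h7 h8
        · have h5' : σ (z : Qb) = ch k x := by rw [hσz, h5, inv_inv]
          constructor
          · intro h
            refine ⟨z, hzL, h5', fun h6 => h ?_⟩
            rw [hsz, hσz] at h6
            exact inv_injective h6
          · rintro ⟨y', -, h6, h7⟩ h8
            have h9 : y' = z := by
              apply Subtype.ext
              apply σ.injective
              rw [h6, h5']
            rw [h9, hsz, hσz, h8] at h7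
            exact h7 rfl
      obtain ⟨hT1, hT2⟩ := hτT x hxL
      by_cases hmem : x ∈ {x | ∃ y : Lev k (m + 2), (y : Qb) ∈ LP k (m + 1) ∧
            σ y = ch k x ∧ ((s (m + 2) y : Lev k (m + 2)) : Qb) ≠ σ y}
      · have h6 := hT1 hmem
        have h7 := key.mpr hmem
        rcases eq_ch hk hσy0 hpσ with h5 | h5 <;> rcases eq_ch hk hsy0 h2 with h8 | h8
        · exact absurd (h8.trans h5.symm) h7
        · rw [h5, h8, h6]
        · rw [h5, h8, map_inv₀, h6, inv_inv]
        · exact absurd (h8.trans h5.symm) h7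
      · have h6 := hT2 hmem
        have h7 : ((s (m + 2) y : Lev k (m + 2)) : Qb) = σ (y : Qb) := by
          by_contra h
          exact hmem (key.mp h)
        rw [h7]
        rcases eq_ch hk hσy0 hpσ with h5 | h5
        · rw [h5, h6]
        · rw [h5, map_inv₀, h6]

/-- the condition at level `m` is closed in the Krull topology.  PROOF: it is an intersection of sets
`{σ | σ x = z}`; each of them is empty or a coset of the stabiliser of `x` = `fixingSubgroup` of `ℚ⟮x⟯`, which is open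
and closed (`IntermediateField.fixingSubgroup_isClosed`, `..._isOpen`, `ℚ⟮x⟯` is finite-dimensional). -/
theorem isClosed_eval (x z : Qb) : IsClosed {σ : Qb ≃ₐ[ℚ] Qb | σ x = z} := by
  have hgal : IsGalois ℚ Qb := S9_gal
  by_cases h : ∃ σ₀ : Qb ≃ₐ[ℚ] Qb, σ₀ x = z
  · obtain ⟨σ₀, hσ₀⟩ := h
    have hint : IsIntegral ℚ x := Algebra.IsIntegral.isIntegral x
    have hfd : FiniteDimensional ℚ (IntermediateField.adjoin ℚ {x}) :=
      IntermediateField.adjoin.finiteDimensional hint
    have hcl := IntermediateField.fixingSubgroup_isClosed (IntermediateField.adjoin ℚ {x})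
    have hcont : Continuous fun σ : Qb ≃ₐ[ℚ] Qb => σ₀⁻¹ * σ := continuous_const.mul continuous_id
    have heq : {σ : Qb ≃ₐ[ℚ] Qb | σ x = z} = (fun σ : Qb ≃ₐ[ℚ] Qb => σ₀⁻¹ * σ) ⁻¹'
        ((IntermediateField.adjoin ℚ {x}).fixingSubgroup : Set (Qb ≃ₐ[ℚ] Qb)) := by
      ext σ
      rw [Set.mem_setOf_eq, Set.mem_preimage, SetLike.mem_coe,
        IntermediateField.mem_fixingSubgroup_iff]
      have hfix : ∀ ρ : Qb ≃ₐ[ℚ] Qb, (∀ w ∈ IntermediateField.adjoin ℚ {x}, ρ w = w) ↔
          ρ x = x := by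
        intro ρ
        constructor
        · intro h
          exact h x (IntermediateField.mem_adjoin_simple_self ℚ x)
        · intro h
          have h1 : IntermediateField.adjoin ℚ {x} ≤
              IntermediateField.fixedField (Subgroup.zpowers ρ) := by
            rw [IntermediateField.adjoin_simple_le_iff]
            rintro ⟨g, hg⟩
            have hg2 : g ∈ MulAction.stabilizer (Qb ≃ₐ[ℚ] Qb) x := by
              have h2 : Subgroup.zpowers ρ ≤ MulAction.stabilizer (Qb ≃ₐ[ℚ] Qb) x := by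
                rw [Subgroup.zpowers_le]
                exact h
              exact h2 hg
            exact hg2
          intro w hw
          exact h1 hw ⟨ρ, Subgroup.mem_zpowers ρ⟩
      rw [hfix]
      constructor
      · intro h
        show σ₀⁻¹ (σ x) = x
        rw [h, ← hσ₀]
        exact σ₀.symm_apply_apply x
      · intro h
        have h1 : σ₀⁻¹ (σ x) = x := h
        have h2 := congrArg σ₀ h1
        exact (σ₀.apply_symm_apply (σ x)).symm.trans (h2.trans hσ₀)
    rw [heq]
    exact hcl.preimage hcont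
  · have h1 : {σ : Qb ≃ₐ[ℚ] Qb | σ x = z} = ∅ := by
      ext σ
      simp only [Set.mem_setOf_eq, Set.mem_empty_iff_false, iff_false]
      exact fun h2 => h ⟨σ, h2⟩
    rw [h1]
    exact isClosed_empty

/-- COMPACTNESS.  PROOF: the sets `F m` (`m ≥ N`) of all `σ` with `σ im = im` agreeing with `s` on `LP k j` for `j ≤ m` are nonempty (`approx`; agreement
on `LP k m` implies agreement on `LP k j`, `j ≤ m`, by the parent map), decreasing, closed (`isClosed_eval`) in the compact group
`Qb ≃ₐ[ℚ] Qb` (`CompactSpace`, Mathlib.FieldTheory.Galois.Profinite / `InfiniteGalois`), so they have a common element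
(`IsCompact.nonempty_iInter_of_directed_nonempty_isCompact_isClosed`). -/
theorem compact_step {k : ℤ} (hk : k ≠ 0) {N : ℕ} (hfull : ∀ m, N ≤ m → Full k m) {s : Fam k}
    (hs : s ∈ TreeAut k) (him : ∀ y : Lev k 1, (y : Qb) = im → ((s 1 y : Lev k 1) : Qb) = im)
    (hN : ∀ y : Lev k (N + 1), (y : Qb) ∈ LP k N → s (N + 1) y = y) :
    ∃ σ : Qb ≃ₐ[ℚ] Qb, σ im = im ∧
      ∀ (m : ℕ) (y : Lev k (m + 1)), (y : Qb) ∈ LP k m →
        ((s (m + 1) y : Lev k (m + 1)) : Qb) = σ y := by
  have hgal : IsGalois ℚ Qb := S9_gal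
  have hcomp : CompactSpace (Qb ≃ₐ[ℚ] Qb) := inferInstance
  let t : ℕ → Set (Qb ≃ₐ[ℚ] Qb) := fun i => {σ | σ im = im ∧ ∀ y : Lev k (i + 1),
    (y : Qb) ∈ LP k i → σ y = ((s (i + 1) y : Lev k (i + 1)) : Qb)}
  have hdec : ∀ i, t (i + 1) ⊆ t i := by
    rintro i σ ⟨h1, h2⟩
    refine ⟨h1, fun y hy => ?_⟩
    obtain ⟨h3, -, h4, -⟩ := ch_mem hk hy
    obtain ⟨z, hz⟩ : ∃ z : Lev k (i + 2), (z : Qb) = ch k (y : Qb) :=
      ⟨⟨ch k (y : Qb), (mem_Lev_succ hk (i + 1) _).mpr (Or.inl h3)⟩, rfl⟩
    have h5 := h2 z (by rw [hz]; exact h3)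
    have h6 : parent k (s (i + 1 + 1) z) = s (i + 1) (parent k z) := hs (i + 1) z
    have h7 : parent k z = y := by
      apply Subtype.ext
      show phi k (z : Qb) = y
      rw [hz, h4]
    rw [h7] at h6
    have h8 : phi k ((s (i + 2) z : Lev k (i + 2)) : Qb) =
        ((s (i + 1) y : Lev k (i + 1)) : Qb) := congrArg Subtype.val h6
    rw [← h8, ← h5, phi_map, hz, h4]
  have hanti : ∀ i j, i ≤ j → t j ⊆ t i := by
    intro i j hij
    induction j, hij using Nat.le_induction with
    | base => exact subset_rfl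
    | succ j _ ih => exact (hdec j).trans ih
  have hne : ∀ i, (t i).Nonempty := by
    intro i
    obtain ⟨σ, h1, h2⟩ := approx hk hfull hs him hN (max i N) (le_max_right _ _)
    exact ⟨σ, hanti i (max i N) (le_max_left _ _) ⟨h1, fun y hy => (h2 y hy).symm⟩⟩
  have hcl : ∀ i, IsClosed (t i) := by
    intro i
    have h1 : t i = {σ : Qb ≃ₐ[ℚ] Qb | σ im = im} ∩ ⋂ y : Lev k (i + 1), ⋂ _ : (y : Qb) ∈ LP k i,
        {σ : Qb ≃ₐ[ℚ] Qb | σ y = ((s (i + 1) y : Lev k (i + 1)) : Qb)} := by
      ext σ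
      simp only [Set.mem_inter_iff, Set.mem_iInter, Set.mem_setOf_eq, t]
    rw [h1]
    exact (isClosed_eval _ _).inter (isClosed_iInter fun y => isClosed_iInter fun _ =>
      isClosed_eval _ _)
  obtain ⟨σ, hσ⟩ := IsCompact.nonempty_iInter_of_sequence_nonempty_isCompact_isClosed t hdec hne
    (hcl 0).isCompact hcl
  rw [Set.mem_iInter] at hσ
  exact ⟨σ, (hσ 0).1, fun m y hy => ((hσ m).2 y hy).symm⟩

/-- PROOF: `compact_step`; on `-LP` both `s` (`mem_CentGroup`) and `σ` commute with `-1`; level `0` is trivial.  So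
`s = galPerm k σ`. -/
theorem mem_GalImg_of_trivial {k : ℤ} (hk : k ≠ 0) {N : ℕ} (hfull : ∀ m, N ≤ m → Full k m)
    {s : Fam k} (hs : s ∈ CentGroup k) (hN : ∀ j, j ≤ N + 1 → s j = 1) : s ∈ GalImg k := by
  obtain ⟨hst, hneg⟩ := (mem_CentGroup hk s).mp hs
  obtain ⟨σ, hσ, hag⟩ := compact_step hk hfull hst
    (fun y hy => by rw [hN 1 (by omega)]; exact hy)
    (fun y _ => by rw [hN (N + 1) le_rfl]; rfl)
  refine ⟨σ, ?_⟩
  show galPerm k σ = s
  funext n
  apply Equiv.ext
  intro y
  apply Subtype.ext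
  show σ (y : Qb) = ((s n y : Lev k n) : Qb)
  rcases n with _ | n
  · have h1 : (y : Qb) = 0 := y.2
    have h2 : ((s 0 y : Lev k 0) : Qb) = 0 := (s 0 y).2
    rw [h1, h2, map_zero]
  · rcases (mem_Lev_succ hk n (y : Qb)).mp y.2 with h1 | h1
    · exact (hag n y h1).symm
    · obtain ⟨z, hz⟩ : ∃ z : Lev k (n + 1), (z : Qb) = -(y : Qb) :=
        ⟨⟨-(y : Qb), (mem_Lev_succ hk n _).mpr (Or.inl h1)⟩, rfl⟩
      have h2 := hag n z (by rw [hz]; exact h1)
      have h3 := hneg (n + 1) y z hz
      rw [h2, hz, map_neg] at h3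
      exact neg_injective h3

/-- finite index.  PROOF: `GalImg k ⊓ CentGroup k` contains the kernel of the homomorphism
`CentGroup k → ∏_{j ≤ N+1} Perm (Lev k j)` (finite group, `LP_finite`, `mem_Lev_succ`), `mem_GalImg_of_trivial`;
`Subgroup.finiteIndex_ker`, `Subgroup.index_ne_zero_of_le`/`Subgroup.finiteIndex_of_le`, `Subgroup.relIndex`. -/
theorem relIndex_ne_zero {k : ℤ} (hk : k ≠ 0) {N : ℕ} (hfull : ∀ m, N ≤ m → Full k m) :
    (GalImg k).relIndex (CentGroup k) ≠ 0 := by
  have hfin : ∀ j : ℕ, Finite (Lev k j) := by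
    intro j
    rcases j with _ | j
    · exact (Set.finite_singleton (0 : Qb)).to_subtype
    · have h1 : (Lev k (j + 1)).Finite := by
        refine ((LP_finite hk j).union ((LP_finite hk j).image (fun x : Qb => -x))).subset ?_
        intro y hy
        rcases (mem_Lev_succ hk j y).mp hy with h | h
        · exact Or.inl h
        · exact Or.inr ⟨-y, h, neg_neg y⟩
      exact h1.to_subtype
  let f : Fam k →* ((j : Fin (N + 2)) → Equiv.Perm (Lev k (j : ℕ))) :=
    { toFun := fun s j => s j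
      map_one' := rfl
      map_mul' := fun _ _ => rfl }
  have hf : f.ker.FiniteIndex := Subgroup.finiteIndex_ker f
  have h1 : f.ker ⊓ CentGroup k ≤ GalImg k := by
    rintro s ⟨hs1, hs2⟩
    refine mem_GalImg_of_trivial hk hfull hs2 fun j hj => ?_
    have h2 : f s = 1 := hs1
    exact congrFun h2 ⟨j, by omega⟩
  have h2 := Subgroup.relIndex_dvd_of_le_left (CentGroup k) h1
  rw [Subgroup.inf_relIndex_right] at h2
  have h3 : f.ker.relIndex (CentGroup k) ≠ 0 := Subgroup.FiniteIndex.index_ne_zero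
  intro h4
  rw [h4, zero_dvd_iff] at h2
  exact h3 h2

/-- equality.  PROOF: `≤`: `GalImg_le`.  Let `s ∈ CentGroup k`.  On level 1 `= {im, -im}` `s` is the identity or the exchange;
composing with `galPerm k σ`, `σ im = -im` (`exists_conj`), we may assume that `s 1 = 1`; `s 0 = 1`.  `mem_GalImg_of_trivial` with
`N = 0`. -/
theorem eq_of_full {k : ℤ} (hk : k ≠ 0) (hfull : ∀ m, Full k m) : GalImg k = CentGroup k := by
  refine le_antisymm (GalImg_le hk) ?_
  have hLP0 : im ∈ LP k 0 := rfl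
  obtain ⟨v, hv⟩ : ∃ v : Lev k 1, (v : Qb) = im :=
    ⟨⟨im, (mem_Lev_succ hk 0 _).mpr (Or.inl hLP0)⟩, rfl⟩
  obtain ⟨w, hw⟩ : ∃ w : Lev k 1, (w : Qb) = -im :=
    ⟨⟨-im, (mem_Lev_succ hk 0 _).mpr (Or.inr (by rw [neg_neg]; exact hLP0))⟩, rfl⟩
  have hcase : ∀ y : Lev k 1, y = v ∨ y = w := by
    intro y
    rcases (mem_Lev_succ hk 0 (y : Qb)).mp y.2 with h | h
    · left
      have h1 : (y : Qb) = im := h
      exact Subtype.ext (h1.trans hv.symm)
    · right
      have h1 : -(y : Qb) = im := h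
      apply Subtype.ext
      rw [hw, ← h1, neg_neg]
  -- the case of a trivial action on level one
  have main : ∀ s ∈ CentGroup k, s 1 v = v → s ∈ GalImg k := by
    intro s hs hsv
    obtain ⟨-, hneg⟩ := (mem_CentGroup hk s).mp hs
    have hsw : s 1 w = w := by
      apply Subtype.ext
      rw [hneg 1 v w (by rw [hw, hv]), hsv, hv, hw]
    refine mem_GalImg_of_trivial (N := 0) hk (fun m _ => hfull m) hs fun j hj => ?_
    rcases j with _ | j
    · apply Equiv.ext
      intro y
      apply Subtype.ext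
      have h1 : (y : Qb) = 0 := y.2
      have h2 : ((s 0 y : Lev k 0) : Qb) = 0 := (s 0 y).2
      rw [h2]
      exact h1.symm
    · have hj0 : j = 0 := by omega
      subst hj0
      apply Equiv.ext
      intro y
      rcases hcase y with h | h
      · rw [h]
        exact hsv
      · rw [h]
        exact hsw
  intro s hs
  rcases hcase (s 1 v) with h | h
  · exact main s hs h
  · obtain ⟨σ, hσ⟩ := exists_conj
    have hg : galHom k σ ∈ GalImg k := ⟨σ, rfl⟩
    have h1 : galHom k σ * s ∈ CentGroup k := mul_mem (GalImg_le hk hg) hs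
    have h2 : (galHom k σ * s) 1 v = v := by
      apply Subtype.ext
      show σ ((s 1 v : Lev k 1) : Qb) = v
      rw [h, hw, map_neg, hσ, neg_neg, hv]
    have h3 := main _ h1 h2
    have h4 := mul_mem (inv_mem hg) h3
    rwa [inv_mul_cancel_left] at h4

end Pool.Agent.Lib.MP_e26d5c_nt.AG
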